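import Mathlib
import Pool.Agent.Work.MP_8d13b5_lc.Rk.Defs

/-! Bundle of small proof modules (one section per former module). -/

section

set_option autoImplicit false

/-!
Small group theory: pairwise dependent elements of a torsion free group lie in a cyclic group,
and three elements of a group of rank two are dependent.
-/

namespace Pool.Agent.Work.MP_8d13b5_lc.Rk

open Finset

theorem tf_zpow {G : Type*} [CommGroup G] {H : Subgroup G}
    (tf : ∀ z ∈ H, ∀ m : ℕ, 0 < m → z ^ m = 1 → z = 1) {z : G} (hz : z ∈ H) {a : ℤ}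
    (ha : a ≠ 0) (h : z ^ a = 1) : z = 1 := by
  apply tf z hz a.natAbs (Int.natAbs_pos.mpr ha)
  rcases Int.natAbs_eq a with h1 | h1
  · rw [h1] at h
    simpa using h
  · rw [h1] at h
    rw [zpow_neg, inv_eq_one] at h
    simpa using h

theorem cyclic_aux {G : Type*} [CommGroup G] (H : Subgroup G)
    (tf : ∀ z ∈ H, ∀ m : ℕ, 0 < m → z ^ m = 1 → z = 1) (E : Finset G)
    (hE : ∀ z ∈ E, z ∈ H)
    (dep : ∀ z ∈ E, ∀ w ∈ E, ∃ a b : ℤ, (a ≠ 0 ∨ b ≠ 0) ∧ z ^ a = w ^ b) :
    ∃ κ ∈ H, ∀ z ∈ E, ∃ c : ℤ, z = κ ^ c := by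
  classical
  induction E using Finset.induction_on with
  | empty => exact ⟨1, H.one_mem, by simp⟩
  | insert z E _ ih =>
    obtain ⟨κ, hκ, hκE⟩ := ih (fun z hz => hE z (mem_insert_of_mem hz))
      (fun z hz w hw => dep z (mem_insert_of_mem hz) w (mem_insert_of_mem hw))
    have hzH : z ∈ H := hE z (mem_insert_self _ _)
    by_cases hall : ∀ e ∈ E, e = 1
    · refine ⟨z, hzH, ?_⟩
      intro w hw
      rcases mem_insert.mp hw with rfl | hw
      · exact ⟨1, (zpow_one _).symm⟩
      · exact ⟨0, by rw [zpow_zero]; exact hall w hw⟩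
    · push Not at hall
      obtain ⟨e, heE, he1⟩ := hall
      obtain ⟨c, hc⟩ := hκE e heE
      have hc0 : c ≠ 0 := by
        rintro rfl
        exact he1 (by rw [hc, zpow_zero])
      have heH : e ∈ H := hE e (mem_insert_of_mem heE)
      obtain ⟨a, b, hab, hdep⟩ := dep e (mem_insert_of_mem heE) z (mem_insert_self _ _)
      have hb : b ≠ 0 := by
        rintro rfl
        rw [zpow_zero] at hdep
        have ha : a ≠ 0 := by
          rcases hab with h | h
          · exact h
          · exact (h rfl).elim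
        exact he1 (tf_zpow tf heH ha hdep)
      by_cases ha : a = 0
      · subst ha
        rw [zpow_zero] at hdep
        have hz1 : z = 1 := tf_zpow tf hzH hb hdep.symm
        refine ⟨κ, hκ, ?_⟩
        intro w hw
        rcases mem_insert.mp hw with rfl | hw
        · exact ⟨0, by rw [zpow_zero]; exact hz1⟩
        · exact hκE w hw
      · -- κ ^ (c * a) = z ^ b
        have hA : κ ^ (c * a) = z ^ b := by rw [zpow_mul, ← hc, hdep]
        have hA0 : c * a ≠ 0 := mul_ne_zero hc0 ha
        obtain ⟨A', hA'⟩ := Int.gcd_dvd_left (c * a) b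
        obtain ⟨b', hb'⟩ := Int.gcd_dvd_right (c * a) b
        set g : ℕ := Int.gcd (c * a) b with hg
        have hg0 : (g : ℤ) ≠ 0 := by
          intro h0
          rw [h0, zero_mul] at hA'
          exact hA0 hA'
        have hcop : ∃ u v : ℤ, u * A' + v * b' = 1 := by
          have h1 := Int.gcd_eq_gcd_ab (c * a) b
          rw [← hg] at h1
          refine ⟨Int.gcdA (c * a) b, Int.gcdB (c * a) b, ?_⟩
          have h2 : (g : ℤ) * (Int.gcdA (c * a) b * A' + Int.gcdB (c * a) b * b') = g * 1 := by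
            calc (g : ℤ) * (Int.gcdA (c * a) b * A' + Int.gcdB (c * a) b * b')
                = (g * A') * Int.gcdA (c * a) b + (g * b') * Int.gcdB (c * a) b := by ring
              _ = (c * a) * Int.gcdA (c * a) b + b * Int.gcdB (c * a) b := by
                  rw [← hA', ← hb']
              _ = g * 1 := by rw [← h1, mul_one]
          exact mul_left_cancel₀ hg0 h2
        obtain ⟨u, v, huv⟩ := hcop
        have hrel : κ ^ A' = z ^ b' := by
          have h1 : (κ ^ A' * (z ^ b')⁻¹) ^ (g : ℤ) = 1 := by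
            rw [mul_zpow, inv_zpow, ← zpow_mul, ← zpow_mul, mul_comm A', mul_comm b', ← hA', ← hb',
              hA, mul_inv_cancel]
          have h2 := tf_zpow tf (H.mul_mem (H.zpow_mem hκ _) (H.inv_mem (H.zpow_mem hzH _))) hg0 h1
          exact mul_inv_eq_one.mp h2
        have hz : (z ^ u * κ ^ v) ^ A' = z := by
          rw [mul_zpow, ← zpow_mul, ← zpow_mul, mul_comm v, zpow_mul κ, hrel, ← zpow_mul,
            ← zpow_add, mul_comm b' v, huv, zpow_one]
        have hκ' : (z ^ u * κ ^ v) ^ b' = κ := by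
          rw [mul_zpow, ← zpow_mul, ← zpow_mul, mul_comm u, zpow_mul z, ← hrel, ← zpow_mul,
            ← zpow_add, mul_comm A' u, huv, zpow_one]
        refine ⟨z ^ u * κ ^ v, H.mul_mem (H.zpow_mem hzH _) (H.zpow_mem hκ _), ?_⟩
        intro w hw
        rcases mem_insert.mp hw with rfl | hw
        · exact ⟨A', hz.symm⟩
        · obtain ⟨d, hd⟩ := hκE w hw
          exact ⟨b' * d, by rw [zpow_mul, hκ', hd]⟩

theorem cyclic_gen {G : Type*} [CommGroup G] (H : Subgroup G)
    (tf : ∀ z ∈ H, ∀ m : ℕ, 0 < m → z ^ m = 1 → z = 1) (D : Finset G) (hD : D.Nonempty)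
    (hH : ∀ x ∈ D, ∀ y ∈ D, x / y ∈ H)
    (dep : ∀ x ∈ D, ∀ y ∈ D, ∀ z ∈ D, ∀ w ∈ D, ∃ a b : ℤ, (a ≠ 0 ∨ b ≠ 0) ∧
      (x / y) ^ a = (z / w) ^ b) :
    ∃ κ ∈ H, ∃ x₀ ∈ D, ∃ a : G → ℕ, ∀ x ∈ D, x = x₀ * κ ^ a x := by
  classical
  obtain ⟨κ, hκ, hκE⟩ := cyclic_aux H tf ((D ×ˢ D).image (fun p => p.1 / p.2))
    (by
      intro z hz
      rw [mem_image] at hz
      obtain ⟨p, hp, rfl⟩ := hz
      rw [mem_product] at hp
      exact hH _ hp.1 _ hp.2)
    (by
      intro z hz w hw
      rw [mem_image] at hz hw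
      obtain ⟨p, hp, rfl⟩ := hz
      obtain ⟨q, hq, rfl⟩ := hw
      rw [mem_product] at hp hq
      exact dep _ hp.1 _ hp.2 _ hq.1 _ hq.2)
  obtain ⟨x₁, hx₁⟩ := hD
  have hc : ∀ x : G, ∃ c : ℤ, x ∈ D → x / x₁ = κ ^ c := by
    intro x
    by_cases hx : x ∈ D
    · obtain ⟨c, hc⟩ := hκE (x / x₁) (mem_image.mpr ⟨(x, x₁), mem_product.mpr ⟨hx, hx₁⟩, rfl⟩)
      exact ⟨c, fun _ => hc⟩
    · exact ⟨0, fun h => (hx h).elim⟩
  choose c hc using hc
  obtain ⟨x₀, hx₀, hmin⟩ := exists_min_image D c ⟨x₁, hx₁⟩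
  refine ⟨κ, hκ, x₀, hx₀, fun x => (c x - c x₀).toNat, ?_⟩
  intro x hx
  have h1 : (κ ^ (c x - c x₀).toNat : G) = κ ^ (c x - c x₀) := by
    rw [← zpow_natCast, Int.toNat_of_nonneg (by have := hmin x hx; omega)]
  rw [h1, zpow_sub, ← hc x hx, ← hc x₀ hx₀]
  rw [← div_eq_mul_inv, div_div_div_cancel_right, mul_div_cancel]

theorem three_dep {G : Type*} [CommGroup G] (α β x y z : G)
    (hx : ∃ m : ℕ, 0 < m ∧ ∃ a b : ℤ, x ^ m = α ^ a * β ^ b)
    (hy : ∃ m : ℕ, 0 < m ∧ ∃ a b : ℤ, y ^ m = α ^ a * β ^ b)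
    (hz : ∃ m : ℕ, 0 < m ∧ ∃ a b : ℤ, z ^ m = α ^ a * β ^ b) :
    ∃ a b c : ℤ, (a ≠ 0 ∨ b ≠ 0 ∨ c ≠ 0) ∧ x ^ a * y ^ b * z ^ c = 1 := by
  obtain ⟨m1, hm1, a1, b1, h1⟩ := hx
  obtain ⟨m2, hm2, a2, b2, h2⟩ := hy
  obtain ⟨m3, hm3, a3, b3, h3⟩ := hz
  have hm1' : (m1 : ℤ) ≠ 0 := by exact_mod_cast hm1.ne'
  have hm2' : (m2 : ℤ) ≠ 0 := by exact_mod_cast hm2.ne'
  have hm3' : (m3 : ℤ) ≠ 0 := by exact_mod_cast hm3.ne'
  have key : ∀ p q r : ℤ, (p ≠ 0 ∨ q ≠ 0 ∨ r ≠ 0) → p * a1 + q * a2 + r * a3 = 0 →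
      p * b1 + q * b2 + r * b3 = 0 →
      ∃ a b c : ℤ, (a ≠ 0 ∨ b ≠ 0 ∨ c ≠ 0) ∧ x ^ a * y ^ b * z ^ c = 1 := by
    intro p q r hne ha hb
    refine ⟨m1 * p, m2 * q, m3 * r, ?_, ?_⟩
    · rcases hne with h | h | h
      · exact Or.inl (mul_ne_zero hm1' h)
      · exact Or.inr (Or.inl (mul_ne_zero hm2' h))
      · exact Or.inr (Or.inr (mul_ne_zero hm3' h))
    · rw [zpow_mul, zpow_mul, zpow_mul, zpow_natCast, zpow_natCast, zpow_natCast, h1, h2, h3,
        mul_zpow, mul_zpow, mul_zpow, ← zpow_mul, ← zpow_mul, ← zpow_mul, ← zpow_mul, ← zpow_mul,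
        ← zpow_mul]
      calc α ^ (a1 * p) * β ^ (b1 * p) * (α ^ (a2 * q) * β ^ (b2 * q)) *
            (α ^ (a3 * r) * β ^ (b3 * r))
          = (α ^ (a1 * p) * α ^ (a2 * q) * α ^ (a3 * r)) *
            (β ^ (b1 * p) * β ^ (b2 * q) * β ^ (b3 * r)) := by
              simp only [mul_assoc, mul_comm, mul_left_comm]
        _ = α ^ (p * a1 + q * a2 + r * a3) * β ^ (p * b1 + q * b2 + r * b3) := by
              rw [← zpow_add, ← zpow_add, ← zpow_add, ← zpow_add]
              congr 2 <;> ring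
        _ = 1 := by rw [ha, hb, zpow_zero, zpow_zero, mul_one]
  by_cases hM : a1 * b2 - a2 * b1 = 0
  · by_cases hA : a1 = 0 ∧ a2 = 0
    · by_cases hB : b1 = 0 ∧ b2 = 0
      · exact key 1 0 0 (Or.inl one_ne_zero) (by rw [hA.1]; ring) (by rw [hB.1]; ring)
      · refine key b2 (-b1) 0 ?_ (by rw [hA.1, hA.2]; ring) (by ring)
        by_cases h : b2 = 0
        · exact Or.inr (Or.inl (fun h' => hB ⟨by linarith, h⟩))
        · exact Or.inl h
    · refine key a2 (-a1) 0 ?_ (by ring) (by linarith)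
      by_cases h : a2 = 0
      · exact Or.inr (Or.inl (fun h' => hA ⟨by linarith, h⟩))
      · exact Or.inl h
  · exact key (a2 * b3 - a3 * b2) (a3 * b1 - a1 * b3) (a1 * b2 - a2 * b1)
      (Or.inr (Or.inr hM)) (by ring) (by ring)

end Pool.Agent.Work.MP_8d13b5_lc.Rk

end

section

set_option autoImplicit false

/-!
The degree of a splitting field is at most `n!`.
-/

namespace Pool.Agent.Work.MP_8d13b5_lc.Rk

open Polynomial Finset

universe u

theorem finrank_splittingFieldAux (n : ℕ) : ∀ {K : Type u} [Field K] (f : K[X]),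
    f.natDegree = n → Module.finrank K (SplittingFieldAux n f) ≤ n.factorial := by
  induction n with
  | zero =>
    intro K _ f _
    have : Module.finrank K (SplittingFieldAux 0 f) = Module.finrank K K := rfl
    rw [this, Module.finrank_self]
    exact le_rfl
  | succ n ih =>
    intro K _ f hf
    have := fact_irreducible_factor f
    have htow : IsScalarTower K (AdjoinRoot f.factor) (SplittingFieldAux n.succ f) :=
      IsScalarTower.of_algebraMap_eq fun _ => rfl
    have h1 : Module.finrank (AdjoinRoot f.factor) (SplittingFieldAux n f.removeFactor) ≤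
        n.factorial := ih f.removeFactor (by rw [natDegree_removeFactor, hf]; omega)
    have h2 : Module.finrank K (AdjoinRoot f.factor) ≤ n + 1 := by
      have h3 : Module.finrank K (AdjoinRoot f.factor) = f.factor.natDegree := by
        have := (AdjoinRoot.powerBasis (irreducible_factor f).ne_zero).finrank
        rw [this, AdjoinRoot.powerBasis_dim]
      rw [h3, ← hf]
      apply natDegree_le_of_dvd (factor_dvd_of_natDegree_ne_zero (by omega))
      intro h0
      rw [h0] at hf
      simp at hf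
    have h3 : Module.finrank K (SplittingFieldAux (n + 1) f) =
        Module.finrank K (AdjoinRoot f.factor) *
          Module.finrank (AdjoinRoot f.factor) (SplittingFieldAux n f.removeFactor) :=
      (Module.finrank_mul_finrank K (AdjoinRoot f.factor) (SplittingFieldAux n.succ f)).symm
    rw [h3, Nat.factorial_succ]
    exact Nat.mul_le_mul h2 h1

theorem splitting_finrank {K : Type*} [Field K] (G : K[X]) (hG : G ≠ 0) :
    Module.finrank K G.SplittingField ≤ G.natDegree.factorial := by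
  rw [(SplittingField.algEquivSplittingFieldAux G).toLinearEquiv.finrank_eq]
  exact finrank_splittingFieldAux G.natDegree G rfl

end Pool.Agent.Work.MP_8d13b5_lc.Rk

end

section

set_option autoImplicit false

namespace Pool.Agent.Work.MP_8d13b5_lc.Rk

open Height AdmissibleAbsValues Polynomial Finset

/-- a function taking each value below `card ι` at most once has a large sum -/
theorem sum_weight_ge {ι : Type*} [Fintype ι] (g : ι → ℕ)
    (h : ∀ i j, g i < Fintype.card ι → g i = g j → i = j) :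
    Fintype.card ι * (Fintype.card ι - 1) / 2 ≤ ∑ i, g i := by
  classical
  set N := Fintype.card ι with hN
  have h1 : ∀ i, ∑ t ∈ range N, (if t < g i then 1 else 0) ≤ g i := by
    intro i
    rw [← Finset.sum_filter, Finset.sum_const, smul_eq_mul, mul_one]
    calc ((range N).filter (fun t => t < g i)).card ≤ (range (g i)).card := by
          apply Finset.card_le_card
          intro t ht
          simp only [mem_filter, mem_range] at ht ⊢
          exact ht.2
      _ = g i := Finset.card_range _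
  have h2 : ∀ t ∈ range N, N - 1 - t ≤ ∑ i, (if t < g i then 1 else 0) := by
    intro t ht
    rw [mem_range] at ht
    rw [← Finset.sum_filter, Finset.sum_const, smul_eq_mul, mul_one]
    have h3 : (univ.filter (fun i => ¬ t < g i)).card ≤ t + 1 := by
      calc (univ.filter (fun i => ¬ t < g i)).card ≤ (range (t + 1)).card := by
            apply Finset.card_le_card_of_injOn g
            · intro i hi
              simp only [coe_filter, mem_univ, true_and, Set.mem_ofPred_eq, not_lt, coe_range,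
                Set.mem_Iio] at hi ⊢
              omega
            · intro i hi j hj hij
              simp only [coe_filter, mem_univ, true_and, Set.mem_ofPred_eq, not_lt] at hi hj
              exact h i j (by omega) hij
        _ = t + 1 := Finset.card_range _
    have h4 := Finset.card_filter_add_card_filter_not (s := (univ : Finset ι)) (fun i => t < g i)
    rw [Finset.card_univ, ← hN] at h4
    omega
  calc N * (N - 1) / 2 = ∑ t ∈ range N, t := (Finset.sum_range_id N).symm
    _ = ∑ t ∈ range N, (N - 1 - t) := (Finset.sum_range_reflect (fun t => t) N).symm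
    _ ≤ ∑ t ∈ range N, ∑ i, (if t < g i then 1 else 0) := Finset.sum_le_sum h2
    _ = ∑ i, ∑ t ∈ range N, (if t < g i then 1 else 0) := Finset.sum_comm
    _ ≤ ∑ i, g i := Finset.sum_le_sum fun i _ => h1 i

/-- Leibniz bound -/
theorem det_le_prod {K : Type*} [Field K] (v : AbsoluteValue K ℝ) {ι : Type*} [Fintype ι]
    [DecidableEq ι] (w : Matrix ι ι K) (g : ι → ℝ) (hg : ∀ i j, v (w i j) ≤ g i) :
    v w.det ≤ (Fintype.card ι).factorial * ∏ i, g i := by
  rw [Matrix.det_apply]
  have hterm : ∀ σ : Equiv.Perm ι,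
      v (Equiv.Perm.sign σ • ∏ i, w (σ i) i) ≤ ∏ i, g i := by
    intro σ
    have e1 : v (Equiv.Perm.sign σ • ∏ i, w (σ i) i) = ∏ i, v (w (σ i) i) := by
      rcases Int.units_eq_one_or (Equiv.Perm.sign σ) with hs | hs
      · rw [hs, one_smul, map_prod]
      · rw [hs, Units.neg_smul, one_smul, AbsoluteValue.map_neg, map_prod]
    rw [e1, ← Equiv.prod_comp σ g]
    exact Finset.prod_le_prod (fun i _ => v.nonneg _) fun i _ => hg (σ i) i
  calc v (∑ σ : Equiv.Perm ι, Equiv.Perm.sign σ • ∏ i, w (σ i) i)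
      ≤ ∑ σ : Equiv.Perm ι, v (Equiv.Perm.sign σ • ∏ i, w (σ i) i) := v.sum_le _ _
    _ ≤ ∑ _σ : Equiv.Perm ι, ∏ i, g i := Finset.sum_le_sum fun σ _ => hterm σ
    _ = (Fintype.card ι).factorial * ∏ i, g i := by
        rw [Finset.sum_const, Finset.card_univ, Fintype.card_perm, nsmul_eq_mul]

theorem det_bound {K : Type*} [Field K] (v : AbsoluteValue K ℝ) {ι : Type*} [Fintype ι]
    [DecidableEq ι] (M : ℕ) (y : ι → ℕ) (b : ι → ℕ → K) (A e : Matrix ι ι K)
    (β : ℕ → ℝ) (hβ : ∀ m j, v (((y j).choose m : ℕ) : K) ≤ β m)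
    (R : ℝ) (hR1 : 1 ≤ R) (hR : ∀ i, ∑ m ∈ range M, v (b i m) * 2 ^ m * β m ≤ R)
    (he : ∀ i j, v (e i j) ≤ (1 / 2) ^ Fintype.card ι)
    (hA : ∀ i j, A i j = (∑ m ∈ range M, b i m * (((y j).choose m : ℕ) : K)) + e i j) :
    v A.det ≤ 2 ^ Fintype.card ι * (Fintype.card ι).factorial *
      (1 / 2) ^ (Fintype.card ι * (Fintype.card ι - 1) / 2) * R ^ Fintype.card ι := by
  classical
  rcases isEmpty_or_nonempty ι with hι | hι
  · simp
  set N := Fintype.card ι with hN
  have hβ0 : ∀ m, 0 ≤ β m := fun m => (v.nonneg _).trans (hβ m (Classical.arbitrary ι))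
  -- the rows
  set t : ι → ℕ → K := fun i m => if m < M then b i m else 1 with ht
  set w : ι → ℕ → ι → K :=
    fun i m => if m < M then (fun j => (((y j).choose m : ℕ) : K)) else e i with hw
  have hrow : A = fun i => ∑ m ∈ range (M + 1), t i m • w i m := by
    funext i j
    rw [hA, Finset.sum_apply, Finset.sum_range_succ]
    congr 1
    · apply Finset.sum_congr rfl
      intro m hm
      rw [mem_range] at hm
      simp only [ht, hw, if_pos hm, Pi.smul_apply, smul_eq_mul]
    · simp only [ht, hw, lt_irrefl, if_false, Pi.smul_apply, smul_eq_mul, one_mul]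
  have hdet : A.det = ∑ r ∈ Fintype.piFinset (fun _ : ι => range (M + 1)),
      (∏ i, t i (r i)) * Matrix.det (fun i => w i (r i)) := by
    have h1 := (Matrix.detRowAlternating (n := ι) (R := K)).toMultilinearMap.map_sum_finset
      (fun i m => t i m • w i m) (fun _ => range (M + 1))
    have h2 : A.det = (Matrix.detRowAlternating (n := ι) (R := K)).toMultilinearMap
        (fun i => ∑ m ∈ range (M + 1), t i m • w i m) := by
      rw [← hrow]; rfl
    rw [h2, h1]
    apply Finset.sum_congr rfl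
    intro r _
    rw [MultilinearMap.map_smul_univ, smul_eq_mul]
    rfl
  set c : ι → ℕ → ℝ := fun i m => if m < M then v (b i m) * 2 ^ m * β m else 1 with hc
  have hc0 : ∀ i m, 0 ≤ c i m := by
    intro i m
    simp only [hc]
    split_ifs
    · exact mul_nonneg (mul_nonneg (v.nonneg _) (by positivity)) (hβ0 m)
    · exact zero_le_one
  have hterm : ∀ r : ι → ℕ, v ((∏ i, t i (r i)) * Matrix.det (fun i => w i (r i))) ≤
      N.factorial * (1 / 2) ^ (N * (N - 1) / 2) * ∏ i, c i (r i) := by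
    intro r
    by_cases hinj : ∀ i j, r i < M → r i = r j → i = j
    · rw [v.map_mul]
      have h1 : v (Matrix.det (fun i => w i (r i))) ≤
          N.factorial * ∏ i, (if r i < M then β (r i) else (1 / 2) ^ N) := by
        apply det_le_prod
        intro i j
        by_cases hm : r i < M
        · simp only [hw, if_pos hm]
          exact hβ (r i) j
        · simp only [hw, if_neg hm]
          exact he i j
      set g : ι → ℕ := fun i => if r i < M then r i else N with hg
      have hgs : N * (N - 1) / 2 ≤ ∑ i, g i := by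
        apply sum_weight_ge
        intro i j hi hij
        by_cases hm : r i < M
        · by_cases hm' : r j < M
          · simp only [hg, if_pos hm, if_pos hm'] at hij
            exact hinj i j hm hij
          · exfalso
            simp only [hg, if_pos hm, if_neg hm'] at hij hi
            omega
        · exfalso
          simp only [hg, if_neg hm] at hi
          omega
      have h2 : (∏ i, v (t i (r i))) * ∏ i, (if r i < M then β (r i) else (1 / 2) ^ N) =
          (∏ i, c i (r i)) * (1 / 2) ^ (∑ i, g i) := by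
        rw [← Finset.prod_pow_eq_pow_sum, ← Finset.prod_mul_distrib, ← Finset.prod_mul_distrib]
        apply Finset.prod_congr rfl
        intro i _
        by_cases hm : r i < M
        · simp only [ht, hc, hg, if_pos hm]
          have : (2 : ℝ) ^ r i * (1 / 2) ^ r i = 1 := by
            rw [← mul_pow]; norm_num
          calc v (b i (r i)) * β (r i) = v (b i (r i)) * β (r i) * 1 := by ring
            _ = v (b i (r i)) * β (r i) * ((2 : ℝ) ^ r i * (1 / 2) ^ r i) := by rw [this]
            _ = _ := by ring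
        · simp only [ht, hc, hg, if_neg hm, v.map_one]
      calc v (∏ i, t i (r i)) * v (Matrix.det (fun i => w i (r i)))
          ≤ v (∏ i, t i (r i)) *
            (N.factorial * ∏ i, (if r i < M then β (r i) else (1 / 2) ^ N)) :=
            mul_le_mul_of_nonneg_left h1 (v.nonneg _)
        _ = N.factorial * ((∏ i, v (t i (r i))) *
              ∏ i, (if r i < M then β (r i) else (1 / 2) ^ N)) := by
            rw [map_prod]; ring
        _ = N.factorial * ((∏ i, c i (r i)) * (1 / 2) ^ (∑ i, g i)) := by rw [h2]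
        _ ≤ N.factorial * ((∏ i, c i (r i)) * (1 / 2) ^ (N * (N - 1) / 2)) := by
            apply mul_le_mul_of_nonneg_left _ (by positivity)
            apply mul_le_mul_of_nonneg_left _ (Finset.prod_nonneg fun i _ => hc0 i _)
            exact pow_le_pow_of_le_one (by norm_num) (by norm_num) hgs
        _ = N.factorial * (1 / 2) ^ (N * (N - 1) / 2) * ∏ i, c i (r i) := by ring
    · push Not at hinj
      obtain ⟨i, j, hi, hij, hne⟩ := hinj
      have h0 : Matrix.det (fun i => w i (r i)) = 0 := by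
        apply Matrix.det_zero_of_row_eq hne
        simp only [hw]
        rw [if_pos hi, if_pos (hij ▸ hi), hij]
      rw [h0, mul_zero, v.map_zero]
      exact mul_nonneg (by positivity) (Finset.prod_nonneg fun i _ => hc0 i _)
  calc v A.det ≤ ∑ r ∈ Fintype.piFinset (fun _ : ι => range (M + 1)),
        v ((∏ i, t i (r i)) * Matrix.det (fun i => w i (r i))) := by
        rw [hdet]; exact v.sum_le _ _
    _ ≤ ∑ r ∈ Fintype.piFinset (fun _ : ι => range (M + 1)),
        N.factorial * (1 / 2) ^ (N * (N - 1) / 2) * ∏ i, c i (r i) :=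
        Finset.sum_le_sum fun r _ => hterm r
    _ = N.factorial * (1 / 2) ^ (N * (N - 1) / 2) *
        ∏ i, ∑ m ∈ range (M + 1), c i m := by
        rw [← Finset.mul_sum, Finset.prod_univ_sum]
    _ ≤ N.factorial * (1 / 2) ^ (N * (N - 1) / 2) * ∏ _i : ι, (2 * R) := by
        apply mul_le_mul_of_nonneg_left _ (by positivity)
        apply Finset.prod_le_prod
        · intro i _
          exact Finset.sum_nonneg fun m _ => hc0 i m
        · intro i _
          rw [Finset.sum_range_succ]
          have h1 : ∑ m ∈ range M, c i m = ∑ m ∈ range M, v (b i m) * 2 ^ m * β m := by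
            apply Finset.sum_congr rfl
            intro m hm
            rw [mem_range] at hm
            simp only [hc, if_pos hm]
          have h2 : c i M = 1 := by simp only [hc, lt_irrefl, if_false]
          rw [h1, h2]
          have := hR i
          linarith
    _ = 2 ^ N * N.factorial * (1 / 2) ^ (N * (N - 1) / 2) * R ^ N := by
        rw [Finset.prod_const, Finset.card_univ, ← hN, mul_pow]; ring

end Pool.Agent.Work.MP_8d13b5_lc.Rk

end

section

set_option autoImplicit false

/-!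
Calculus of functions bounded by iterated exponentials.
-/

namespace Pool.Agent.Work.MP_8d13b5_lc.Rk

theorem tow_zero (s : ℕ) : tow 0 s = s + 2 := rfl

theorem tow_succ (k s : ℕ) : tow (k + 1) s = 2 ^ tow k s := rfl

theorem lt_tow_succ (k s : ℕ) : tow k s < tow (k + 1) s := by
  rw [tow_succ]; exact Nat.lt_two_pow_self

theorem tow_mono_left {k l : ℕ} (h : k ≤ l) (s : ℕ) : tow k s ≤ tow l s := by
  induction l, h using Nat.le_induction with
  | base => exact le_rfl
  | succ l _ ih => exact ih.trans (lt_tow_succ l s).le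

theorem tow_mono_right (k : ℕ) {s t : ℕ} (h : s ≤ t) : tow k s ≤ tow k t := by
  induction k with
  | zero => simpa [tow_zero] using h
  | succ k ih => rw [tow_succ, tow_succ]; exact Nat.pow_le_pow_right (by norm_num) ih

theorem add_two_le_tow (k s : ℕ) : s + 2 ≤ tow k s := by
  rw [← tow_zero]; exact tow_mono_left (Nat.zero_le k) s

theorem two_le_tow (k s : ℕ) : 2 ≤ tow k s := by have := add_two_le_tow k s; omega

theorem le_tow (k s : ℕ) : s ≤ tow k s := by have := add_two_le_tow k s; omega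

theorem index_lt_tow (k s : ℕ) : k < tow k s := by
  induction k with
  | zero => rw [tow_zero]; omega
  | succ k ih => have := lt_tow_succ k s; omega

theorem tow_comp (k l s : ℕ) : tow k (tow l s) ≤ tow (k + l + 1) s := by
  induction k with
  | zero =>
    rw [tow_zero, Nat.zero_add, tow_succ]
    have h : ∀ x, 2 ≤ x → x + 2 ≤ 2 ^ x := by
      intro x hx
      induction x, hx using Nat.le_induction with
      | base => norm_num
      | succ x _ ih => rw [pow_succ]; omega
    exact h _ (two_le_tow l s)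
  | succ k ih =>
    have : k + 1 + l + 1 = (k + l + 1) + 1 := by ring
    rw [this, tow_succ, tow_succ]
    exact Nat.pow_le_pow_right (by norm_num) ih

/-- `x * y` for `x, y ≤ tow k s` -/
theorem tow_mul (k s : ℕ) : tow k s * tow k s ≤ tow (k + 2) s := by
  rw [tow_succ, tow_succ]
  have h1 : tow k s ≤ 2 ^ tow k s := Nat.lt_two_pow_self.le
  have h2 : tow k s + tow k s ≤ 2 ^ tow k s := by
    have h : ∀ x, 2 ≤ x → x + x ≤ 2 ^ x := by
      intro x hx
      induction x, hx using Nat.le_induction with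
      | base => norm_num
      | succ x _ ih => rw [pow_succ]; omega
    exact h _ (two_le_tow k s)
  calc tow k s * tow k s ≤ 2 ^ tow k s * 2 ^ tow k s := Nat.mul_le_mul h1 h1
    _ = 2 ^ (tow k s + tow k s) := by rw [pow_add]
    _ ≤ 2 ^ (2 ^ tow k s) := Nat.pow_le_pow_right (by norm_num) h2

theorem tow_pow (k s : ℕ) : tow k s ^ tow k s ≤ tow (k + 3) s := by
  rw [tow_succ]
  calc tow k s ^ tow k s ≤ (2 ^ tow k s) ^ tow k s :=
        Nat.pow_le_pow_left Nat.lt_two_pow_self.le _
    _ = 2 ^ (tow k s * tow k s) := by rw [pow_mul]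
    _ ≤ 2 ^ tow (k + 2) s := Nat.pow_le_pow_right (by norm_num) (tow_mul k s)

namespace Elem

variable {f g : ℕ → ℕ}

theorem mono (hg : Elem g) (h : ∀ s, f s ≤ g s) : Elem f := by
  obtain ⟨k, hk⟩ := hg
  exact ⟨k, fun s => (h s).trans (hk s)⟩

theorem const (c : ℕ) : Elem (fun _ => c) := ⟨c, fun s => (index_lt_tow c s).le⟩

theorem id : Elem (fun s => s) := ⟨0, fun s => le_tow 0 s⟩

theorem comp (hf : Elem f) (hg : Elem g) : Elem (fun s => f (g s)) := by
  obtain ⟨k, hk⟩ := hf
  obtain ⟨l, hl⟩ := hg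
  exact ⟨k + l + 1, fun s => (hk _).trans ((tow_mono_right k (hl s)).trans (tow_comp k l s))⟩

theorem mul (hf : Elem f) (hg : Elem g) : Elem (fun s => f s * g s) := by
  obtain ⟨k, hk⟩ := hf
  obtain ⟨l, hl⟩ := hg
  refine ⟨max k l + 2, fun s => le_trans (Nat.mul_le_mul ?_ ?_) (tow_mul (max k l) s)⟩
  · exact (hk s).trans (tow_mono_left (le_max_left _ _) s)
  · exact (hl s).trans (tow_mono_left (le_max_right _ _) s)

theorem add (hf : Elem f) (hg : Elem g) : Elem (fun s => f s + g s) := by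
  obtain ⟨k, hk⟩ := hf
  obtain ⟨l, hl⟩ := hg
  refine ⟨max k l + 2, fun s => le_trans ?_ (tow_mul (max k l) s)⟩
  have h1 := (hk s).trans (tow_mono_left (le_max_left k l) s)
  have h2 := (hl s).trans (tow_mono_left (le_max_right k l) s)
  have h3 := two_le_tow (max k l) s
  nlinarith

theorem pow (hf : Elem f) (hg : Elem g) : Elem (fun s => f s ^ g s) := by
  obtain ⟨k, hk⟩ := hf
  obtain ⟨l, hl⟩ := hg
  refine ⟨max k l + 3, fun s => le_trans ?_ (tow_pow (max k l) s)⟩
  have h1 := (hk s).trans (tow_mono_left (le_max_left k l) s)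
  have h2 := (hl s).trans (tow_mono_left (le_max_right k l) s)
  have h3 := two_le_tow (max k l) s
  exact (Nat.pow_le_pow_left h1 _).trans (Nat.pow_le_pow_right (by omega) h2)

theorem factorial (hf : Elem f) : Elem (fun s => (f s).factorial) :=
  (hf.pow hf).mono fun s => Nat.factorial_le_pow (f s)

theorem max (hf : Elem f) (hg : Elem g) : Elem (fun s => max (f s) (g s)) :=
  (hf.add hg).mono fun s => by omega

theorem ite (P : ℕ → Prop) [DecidablePred P] (hf : Elem f) (hg : Elem g) :
    Elem (fun s => if P s then f s else g s) :=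
  (hf.add hg).mono fun s => by split_ifs <;> omega

end Elem

end Pool.Agent.Work.MP_8d13b5_lc.Rk

end

section

set_option autoImplicit false

/-! Finite places of a number field have a norm. -/

namespace Pool.Agent.Work.MP_8d13b5_lc.Rk

open Height AdmissibleAbsValues Polynomial Finset

namespace HasNormAux

open NumberField IsDedekindDomain HeightOneSpectrum WithZeroMulInt

/-- a nonarchimedean factor is at most the height -/
theorem nonarch_le_height {K : Type*} [Field K] [NumberField K] (v : AbsoluteValue K ℝ)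
    (hv : v ∈ (nonarchAbsVal : Set (AbsoluteValue K ℝ))) (x : K) : v x ≤ mulHeight₁ x := by
  classical
  rw [Height.mulHeight₁_eq]
  have h1 : 1 ≤ (archAbsVal.map fun w : AbsoluteValue K ℝ ↦ max (w x) 1).prod := by
    apply Multiset.one_le_prod
    intro y hy
    obtain ⟨w, _, rfl⟩ := Multiset.mem_map.mp hy
    exact le_max_right _ _
  have hfin : (Function.mulSupport fun w : (nonarchAbsVal : Set (AbsoluteValue K ℝ)) ↦
      max (w.val x) 1).Finite := by
    by_cases hx : x = 0
    · convert Set.finite_empty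
      rw [Function.mulSupport_eq_empty_iff]
      ext w
      simp [hx]
    · refine (AdmissibleAbsValues.hasFiniteMulSupport hx).subset ?_
      intro w hw
      simp only [Function.mem_mulSupport] at hw ⊢
      intro h
      apply hw
      rw [h, max_self]
  have h2 : v x ≤ ∏ᶠ w : (nonarchAbsVal : Set (AbsoluteValue K ℝ)), max (w.val x) 1 := by
    rw [finprod_eq_prod _ hfin]
    by_cases hm : (⟨v, hv⟩ : (nonarchAbsVal : Set (AbsoluteValue K ℝ))) ∈ hfin.toFinset
    · rw [← Finset.mul_prod_erase _ _ hm]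
      have h3 : 1 ≤ ∏ w ∈ hfin.toFinset.erase ⟨v, hv⟩, max (w.val x) 1 :=
        Finset.prod_induction _ (fun r : ℝ ↦ 1 ≤ r)
          (fun a b ha hb ↦ one_le_mul_of_one_le_of_one_le ha hb) le_rfl
          fun w _ ↦ le_max_right _ _
      have h4 : v x ≤ max (v x) 1 := le_max_left _ _
      have h5 : 0 ≤ max (v x) 1 := le_trans zero_le_one (le_max_right _ _)
      calc v x ≤ max (v x) 1 := h4
        _ = max (v x) 1 * 1 := (mul_one _).symm
        _ ≤ _ := mul_le_mul_of_nonneg_left h3 h5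
    · have h3 : 1 ≤ ∏ w ∈ hfin.toFinset, max (w.val x) 1 :=
        Finset.prod_induction _ (fun r : ℝ ↦ 1 ≤ r)
          (fun a b ha hb ↦ one_le_mul_of_one_le_of_one_le ha hb) le_rfl
          fun w _ ↦ le_max_right _ _
      have h4 : max (v x) 1 = 1 := by
        by_contra h
        exact hm (hfin.mem_toFinset.mpr h)
      exact (le_max_left _ _).trans (h4.trans_le h3)
  have h6 : 0 ≤ ∏ᶠ w : (nonarchAbsVal : Set (AbsoluteValue K ℝ)), max (w.val x) 1 :=
    (v.nonneg x).trans h2
  calc v x ≤ 1 * _ := by rw [one_mul]; exact h2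
    _ ≤ _ := mul_le_mul_of_nonneg_right h1 h6

variable {K : Type*} [Field K] [NumberField K] (P : HeightOneSpectrum (𝓞 K))

/-- nonzero values are integral powers of the norm -/
theorem value {x : K} (hx : x ≠ 0) :
    ∃ m : ℤ, HeightOneSpectrum.adicAbv K P x = (Ideal.absNorm P.asIdeal : ℝ) ^ m := by
  have h0 : P.valuation K x ≠ 0 := (Valuation.ne_zero_iff _).mpr hx
  refine ⟨(WithZero.unzero h0).toAdd, ?_⟩
  rw [HeightOneSpectrum.adicAbv_def, toNNReal_neg_apply _ h0]
  push_cast
  rfl

theorem one_lt : (1 : ℝ) < (Ideal.absNorm P.asIdeal : ℝ) := by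
  exact_mod_cast HeightOneSpectrum.one_lt_absNorm P

/-- a value less than one is at most the inverse of the norm -/
theorem le_inv {x : K} (hx : HeightOneSpectrum.adicAbv K P x < 1) :
    HeightOneSpectrum.adicAbv K P x ≤ (Ideal.absNorm P.asIdeal : ℝ)⁻¹ := by
  have hq := one_lt P
  by_cases h0 : x = 0
  · subst h0
    rw [AbsoluteValue.map_zero]
    positivity
  · obtain ⟨m, hm⟩ := value P h0
    rw [hm] at hx ⊢
    have h1 : m < 0 := by
      by_contra h
      push Not at h
      exact absurd (one_le_zpow₀ hq.le h) (not_le.mpr hx)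
    rw [← zpow_neg_one]
    exact zpow_le_zpow_right₀ hq.le (by omega)

theorem unit_aux (x : K) (hx : HeightOneSpectrum.adicAbv K P x = 1) :
    HeightOneSpectrum.adicAbv K P (x ^ (Ideal.absNorm P.asIdeal - 1) - 1) < 1 := by
  have hval : P.valuation K x = 1 := by
    have h := (toNNReal_eq_one_iff (P.valuation K x)
      (HeightOneSpectrum.absNorm_ne_zero P) (HeightOneSpectrum.one_lt_absNorm_nnreal P).ne').mp
    apply h
    rw [HeightOneSpectrum.adicAbv_def] at hx
    exact_mod_cast hx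
  obtain ⟨n, ⟨d, hd⟩, hnd⟩ := exists_primeCompl_mul_eq_of_integer P x hval.le
  have hd' : d ∉ P.asIdeal := hd
  have hdv : HeightOneSpectrum.adicAbv K P (algebraMap (𝓞 K) K d) = 1 := by
    rw [← FinitePlace.norm_embedding]
    exact (FinitePlace.norm_eq_one_iff_notMem K P d).mpr hd'
  have hnv : HeightOneSpectrum.adicAbv K P (algebraMap (𝓞 K) K n) = 1 := by
    rw [← hnd, AbsoluteValue.map_mul, hx]
    simpa using hdv
  have hn' : n ∉ P.asIdeal := by
    rw [← FinitePlace.norm_eq_one_iff_notMem K P n, FinitePlace.norm_embedding]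
    exact hnv
  have hmax : P.asIdeal.IsMaximal := P.isMaximal
  let _ : Field (𝓞 K ⧸ P.asIdeal) := Ideal.Quotient.field _
  have _ : Finite (𝓞 K ⧸ P.asIdeal) := P.asIdeal.finiteQuotientOfFreeOfNeBot P.ne_bot
  let _ : Fintype (𝓞 K ⧸ P.asIdeal) := Fintype.ofFinite _
  have hcard : Fintype.card (𝓞 K ⧸ P.asIdeal) = Ideal.absNorm P.asIdeal := by
    rw [Ideal.absNorm_apply, Submodule.cardQuot_apply, Nat.card_eq_fintype_card]
  have hfer : ∀ a : 𝓞 K, a ∉ P.asIdeal →
      Ideal.Quotient.mk P.asIdeal (a ^ (Ideal.absNorm P.asIdeal - 1)) = 1 := by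
    intro a ha
    rw [map_pow, ← hcard]
    apply FiniteField.pow_card_sub_one_eq_one
    rwa [Ne, Ideal.Quotient.eq_zero_iff_mem]
  have hmem : n ^ (Ideal.absNorm P.asIdeal - 1) - d ^ (Ideal.absNorm P.asIdeal - 1) ∈
      P.asIdeal := by
    rw [← Ideal.Quotient.eq_zero_iff_mem, map_sub, hfer n hn', hfer d hd', sub_self]
  have hlt : HeightOneSpectrum.adicAbv K P (algebraMap (𝓞 K) K
      (n ^ (Ideal.absNorm P.asIdeal - 1) - d ^ (Ideal.absNorm P.asIdeal - 1))) < 1 := by
    rw [← FinitePlace.norm_embedding]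
    exact (FinitePlace.norm_lt_one_iff_mem K P _).mpr hmem
  have hkey : (x ^ (Ideal.absNorm P.asIdeal - 1) - 1) *
      (algebraMap (𝓞 K) K d) ^ (Ideal.absNorm P.asIdeal - 1) =
      algebraMap (𝓞 K) K
        (n ^ (Ideal.absNorm P.asIdeal - 1) - d ^ (Ideal.absNorm P.asIdeal - 1)) := by
    rw [map_sub, map_pow, map_pow, ← hnd]
    ring
  have h := congrArg (HeightOneSpectrum.adicAbv K P) hkey
  rw [AbsoluteValue.map_mul, AbsoluteValue.map_pow, hdv, one_pow, mul_one] at h
  rw [h]
  exact hlt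

end HasNormAux

open HasNormAux in
theorem exists_hasNorm {K : Type*} [Field K] [NumberField K] (v : AbsoluteValue K ℝ)
    (hv : v ∈ (nonarchAbsVal : Set (AbsoluteValue K ℝ))) : ∃ q, HasNorm v q := by
  have hv' : NumberField.IsFinitePlace v := hv
  obtain ⟨P, hP⟩ := hv'
  have hvP : ∀ x, v x = NumberField.HeightOneSpectrum.adicAbv K P x := by
    intro x
    rw [← hP, ← NumberField.FinitePlace.norm_embedding]
    rfl
  have hq := one_lt P
  have hq2 : (2 : ℝ) ≤ (Ideal.absNorm P.asIdeal : ℝ) := by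
    have := NumberField.HeightOneSpectrum.one_lt_absNorm P
    exact_mod_cast this
  have hqpos : (0 : ℝ) < (Ideal.absNorm P.asIdeal : ℝ) := by linarith
  have hinv : ((Ideal.absNorm P.asIdeal : ℝ))⁻¹ ≤ 1 / 2 := by
    rw [inv_eq_one_div]
    exact one_div_le_one_div_of_le (by norm_num) hq2
  refine ⟨Ideal.absNorm P.asIdeal, hv, ?_, ?_, ?_, ?_⟩
  · exact NumberField.HeightOneSpectrum.one_lt_absNorm P
  · intro x hx hx1
    obtain ⟨m, hm⟩ := value P hx
    rw [← hvP] at hm
    rcases lt_trichotomy m 0 with h | h | h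
    · have h1 : (Ideal.absNorm P.asIdeal : ℝ) ≤ v x⁻¹ := by
        rw [map_inv₀, hm, ← zpow_neg]
        calc (Ideal.absNorm P.asIdeal : ℝ) = (Ideal.absNorm P.asIdeal : ℝ) ^ (1 : ℤ) :=
              (zpow_one _).symm
          _ ≤ _ := zpow_le_zpow_right₀ hq.le (by omega)
      rw [← mulHeight₁_inv]
      exact h1.trans (nonarch_le_height v hv _)
    · exact absurd (by rw [hm, h, zpow_zero]) hx1
    · have h1 : (Ideal.absNorm P.asIdeal : ℝ) ≤ v x := by
        rw [hm]
        calc (Ideal.absNorm P.asIdeal : ℝ) = (Ideal.absNorm P.asIdeal : ℝ) ^ (1 : ℤ) :=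
              (zpow_one _).symm
          _ ≤ _ := zpow_le_zpow_right₀ hq.le (by omega)
      exact h1.trans (nonarch_le_height v hv _)
  · intro x hx
    rw [hvP] at hx ⊢
    exact (le_inv P (unit_aux P x hx)).trans hinv
  · intro x y hxy
    have hy : y ≠ 0 := by
      rintro rfl
      rw [AbsoluteValue.map_zero] at hxy
      exact absurd (v.nonneg x) (not_le.mpr hxy)
    have hvy : 0 < v y := v.pos hy
    have h1 : NumberField.HeightOneSpectrum.adicAbv K P (x / y) < 1 := by
      rw [← hvP, map_div₀]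
      exact (div_lt_one hvy).mpr hxy
    have h2 := (le_inv P h1).trans hinv
    rw [← hvP, map_div₀, div_le_iff₀ hvy] at h2
    linarith

end Pool.Agent.Work.MP_8d13b5_lc.Rk

end

section

set_option autoImplicit false

/-!
Basic height inequalities: Liouville, height of a root, height of an integer.
-/

namespace Pool.Agent.Work.MP_8d13b5_lc.Rk

open Height AdmissibleAbsValues Polynomial Finset

private lemma one_le_prod_real {ι : Type*} (s : Finset ι) (f : ι → ℝ) (h : ∀ i, 1 ≤ f i) :
    1 ≤ ∏ i ∈ s, f i :=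
  Finset.prod_induction f (fun x => 1 ≤ x) (fun _ _ ha hb => one_le_mul_of_one_le_of_one_le ha hb)
    le_rfl (fun i _ => h i)

lemma finite_max {K : Type*} [Field K] [AdmissibleAbsValues K] (x : K) :
    Function.HasFiniteMulSupport (fun v : (nonarchAbsVal : Set (AbsoluteValue K ℝ)) =>
      max (v.val x) 1) := by
  rcases eq_or_ne x 0 with rfl | hx
  · have : (fun v : (nonarchAbsVal : Set (AbsoluteValue K ℝ)) => max (v.val (0 : K)) 1) =
        fun _ => (1 : ℝ) := by
      funext v
      simp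
    rw [this]
    exact Function.hasFiniteMulSupport_one
  · have h := hasFiniteMulSupport hx
    refine Set.Finite.subset h ?_
    intro v hv hv1
    apply hv
    show max (v.val x) 1 = 1
    have hv1' : v.val x = 1 := hv1
    rw [hv1', max_self]

theorem le_height {K : Type*} [Field K] [AdmissibleAbsValues K] {v : AbsoluteValue K ℝ}
    (hv : IsPlace v) (x : K) : v x ≤ mulHeight₁ x := by
  rw [mulHeight₁_eq]
  have hA : (1 : ℝ) ≤ ((archAbsVal : Multiset (AbsoluteValue K ℝ)).map
      fun v ↦ max (v x) 1).prod := Multiset.one_le_prod_map fun _ _ ↦ le_max_right ..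
  have hB : (1 : ℝ) ≤ ∏ᶠ v : (nonarchAbsVal : Set (AbsoluteValue K ℝ)), max (v.val x) 1 :=
    one_le_finprod fun _ ↦ le_max_right ..
  rcases hv with hv | hv
  · obtain ⟨t, ht⟩ := Multiset.exists_cons_of_mem hv
    have hC : max (v x) 1 ≤ ((archAbsVal : Multiset (AbsoluteValue K ℝ)).map
        fun v ↦ max (v x) 1).prod := by
      rw [ht, Multiset.map_cons, Multiset.prod_cons]
      have : (1 : ℝ) ≤ (t.map fun v ↦ max (v x) 1).prod :=
        Multiset.one_le_prod_map fun _ _ ↦ le_max_right ..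
      exact le_mul_of_one_le_right (by positivity) this
    calc v x ≤ max (v x) 1 := le_max_left _ _
      _ ≤ _ := hC
      _ ≤ _ := le_mul_of_one_le_right (by linarith) hB
  · have hC : max (v x) 1 ≤ ∏ᶠ v : (nonarchAbsVal : Set (AbsoluteValue K ℝ)),
        max (v.val x) 1 := by
      classical
      have h1 : (∏ᶠ w : (nonarchAbsVal : Set (AbsoluteValue K ℝ)),
          (if w = ⟨v, hv⟩ then max (v x) 1 else (1 : ℝ))) = max (v x) 1 := by
        rw [finprod_eq_single _ (⟨v, hv⟩ : (nonarchAbsVal : Set (AbsoluteValue K ℝ)))]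
        · simp
        · intro w hw
          simp [hw]
      rw [← h1]
      apply finprod_le_finprod
      · refine Set.Finite.subset (Set.finite_singleton
          (⟨v, hv⟩ : (nonarchAbsVal : Set (AbsoluteValue K ℝ)))) ?_
        intro w hw
        by_contra hne
        rw [Set.mem_singleton_iff] at hne
        exact hw (if_neg hne)
      · intro w
        split_ifs
        · positivity
        · exact zero_le_one
      · exact finite_max x
      · intro w
        show (if w = ⟨v, hv⟩ then max (v x) 1 else (1 : ℝ)) ≤ max (w.val x) 1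
        split_ifs with h
        · rw [h]
        · exact le_max_right _ _
    calc v x ≤ max (v x) 1 := le_max_left _ _
      _ ≤ _ := hC
      _ ≤ _ := le_mul_of_one_le_left (by linarith) hA

theorem liouville {K : Type*} [Field K] [AdmissibleAbsValues K] {v : AbsoluteValue K ℝ}
    (hv : IsPlace v) {x : K} (hx : x ≠ 0) : (mulHeight₁ x)⁻¹ ≤ v x := by
  have h := le_height hv x⁻¹
  rw [mulHeight₁_inv, map_inv₀] at h
  exact inv_le_of_inv_le₀ (v.pos hx) h

private lemma prod_map_family {A ι : Type*} [Fintype ι] (s : Multiset A) (f : ι → A → ℝ)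
    (e : ι → ℕ) (c : ℝ) :
    (s.map fun v => c * ∏ i, f i v ^ e i).prod = c ^ s.card * ∏ i, (s.map (f i)).prod ^ e i := by
  induction s using Multiset.induction_on with
  | empty => simp
  | cons a s ih =>
    simp only [Multiset.map_cons, Multiset.prod_cons, ih, Multiset.card_cons, pow_succ, mul_pow,
      Finset.prod_mul_distrib]
    ring

theorem height_le_family {K : Type*} [Field K] [AdmissibleAbsValues K] {ι : Type*} [Fintype ι]
    (x : K) (y : ι → K) (e : ι → ℕ) (c : ℝ) (hc : 1 ≤ c)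
    (h1 : ∀ v ∈ (archAbsVal : Multiset (AbsoluteValue K ℝ)),
      v x ≤ c * ∏ i, (max (v (y i)) 1) ^ e i)
    (h2 : ∀ v ∈ (nonarchAbsVal : Set (AbsoluteValue K ℝ)),
      v x ≤ ∏ i, (max (v (y i)) 1) ^ e i) :
    mulHeight₁ x ≤ c ^ totalWeight K * ∏ i, mulHeight₁ (y i) ^ e i := by
  have hP : ∀ v : AbsoluteValue K ℝ, 1 ≤ ∏ i, (max (v (y i)) 1) ^ e i := fun v =>
    one_le_prod_real _ _ (fun i => one_le_pow₀ (le_max_right _ _))
  have hA : ((archAbsVal : Multiset (AbsoluteValue K ℝ)).map fun v ↦ max (v x) 1).prod ≤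
      c ^ totalWeight K * ∏ i, ((archAbsVal : Multiset (AbsoluteValue K ℝ)).map
        fun v ↦ max (v (y i)) 1).prod ^ e i := by
    rw [totalWeight, ← prod_map_family]
    apply Multiset.prod_map_le_prod_map₀
    · intro v _
      positivity
    · intro v hv
      apply max_le (h1 v hv)
      exact one_le_mul_of_one_le_of_one_le hc (hP v)
  have hB : (∏ᶠ v : (nonarchAbsVal : Set (AbsoluteValue K ℝ)), max (v.val x) 1) ≤
      ∏ i, (∏ᶠ v : (nonarchAbsVal : Set (AbsoluteValue K ℝ)), max (v.val (y i)) 1) ^ e i := by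
    have h3 : ∀ i, Function.HasFiniteMulSupport
        (fun v : (nonarchAbsVal : Set (AbsoluteValue K ℝ)) => (max (v.val (y i)) 1) ^ e i) := by
      intro i
      refine Set.Finite.subset (finite_max (y i)) ?_
      intro v hv hv1
      apply hv
      show (max (v.val (y i)) 1) ^ e i = 1
      have : max (v.val (y i)) 1 = 1 := hv1
      rw [this, one_pow]
    have h4 : ∀ i, (∏ᶠ v : (nonarchAbsVal : Set (AbsoluteValue K ℝ)),
        max (v.val (y i)) 1) ^ e i = ∏ᶠ v : (nonarchAbsVal : Set (AbsoluteValue K ℝ)),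
        (max (v.val (y i)) 1) ^ e i := fun i => finprod_pow (finite_max (y i)) _
    simp only [h4]
    rw [← finprod_prod_comm Finset.univ (fun (v : (nonarchAbsVal : Set (AbsoluteValue K ℝ))) i =>
      (max (v.val (y i)) 1) ^ e i) (fun i _ => h3 i)]
    apply finprod_le_finprod (finite_max x)
    · intro v
      positivity
    · refine Set.Finite.subset (Set.finite_iUnion fun i : ι => h3 i) ?_
      intro v hv
      by_contra hne
      apply hv
      show ∏ i, (max (v.val (y i)) 1) ^ e i = 1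
      apply Finset.prod_eq_one
      intro i _
      by_contra h
      exact hne (Set.mem_iUnion.2 ⟨i, h⟩)
    · intro v
      exact max_le (h2 v.val v.2) (hP v.val)
  rw [mulHeight₁_eq]
  have hC : (0 : ℝ) ≤ ∏ᶠ v : (nonarchAbsVal : Set (AbsoluteValue K ℝ)), max (v.val x) 1 :=
    zero_le_one.trans (one_le_finprod fun _ ↦ le_max_right ..)
  have hD : (0 : ℝ) ≤ c ^ totalWeight K * ∏ i, ((archAbsVal : Multiset (AbsoluteValue K ℝ)).map
        fun v ↦ max (v (y i)) 1).prod ^ e i := by
    refine le_trans ?_ hA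
    exact zero_le_one.trans (Multiset.one_le_prod_map fun _ _ ↦ le_max_right ..)
  calc _ ≤ _ := mul_le_mul hA hB hC hD
    _ = _ := by
      rw [mul_assoc, ← Finset.prod_mul_distrib]
      congr 1
      apply Finset.prod_congr rfl
      intro i _
      rw [← mul_pow, mulHeight₁_eq]

/-- the root bound at one absolute value -/
private lemma root_bound {K : Type*} [Field K] (v : AbsoluteValue K ℝ) (G : K[X]) (hG : G ≠ 0)
    (r : K) (hr : G.IsRoot r) (c : ℝ) (hc : 1 ≤ c)
    (h : ∀ f : ℕ → K, ∃ B : ℝ, v (∑ i ∈ range G.natDegree, f i) ≤ c * B ∧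
      (B = 0 ∨ ∃ i < G.natDegree, B = v (f i))) :
    v r ≤ c * ∏ i : Option (Fin G.natDegree),
      (max (v (match i with | none => (G.leadingCoeff)⁻¹ | some i => G.coeff i)) 1) ^ 1 := by
  have hP : ∀ i : Option (Fin G.natDegree), (1 : ℝ) ≤
      (max (v (match i with | none => (G.leadingCoeff)⁻¹ | some i => G.coeff i)) 1) ^ 1 :=
    fun i => one_le_pow₀ (le_max_right _ _)
  have hP1 : (1 : ℝ) ≤ ∏ i : Option (Fin G.natDegree),
      (max (v (match i with | none => (G.leadingCoeff)⁻¹ | some i => G.coeff i)) 1) ^ 1 :=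
    one_le_prod_real _ _ hP
  by_cases hr1 : v r ≤ 1
  · exact hr1.trans (one_le_mul_of_one_le_of_one_le hc hP1)
  rw [not_le] at hr1
  have hlead : G.leadingCoeff ≠ 0 := leadingCoeff_ne_zero.2 hG
  have hsum : ∑ i ∈ range G.natDegree, G.coeff i * (G.leadingCoeff)⁻¹ * r ^ i =
      - r ^ G.natDegree := by
    have h0 : ∑ i ∈ range (G.natDegree + 1), G.coeff i * r ^ i = 0 := by
      rw [← eval_eq_sum_range]
      exact hr
    rw [Finset.sum_range_succ] at h0
    have h1 : ∑ i ∈ range G.natDegree, G.coeff i * (G.leadingCoeff)⁻¹ * r ^ i =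
        (G.leadingCoeff)⁻¹ * ∑ i ∈ range G.natDegree, G.coeff i * r ^ i := by
      rw [Finset.mul_sum]
      apply Finset.sum_congr rfl
      intro i _
      ring
    rw [h1, eq_neg_of_add_eq_zero_left h0, ← leadingCoeff]
    field_simp
  obtain ⟨B, hB1, hB2⟩ := h (fun i => G.coeff i * (G.leadingCoeff)⁻¹ * r ^ i)
  rw [hsum, v.map_neg, v.map_pow] at hB1
  rcases hB2 with hB2 | ⟨i, hi, hB2⟩
  · exfalso
    rw [hB2, mul_zero] at hB1
    have : 0 < v r ^ G.natDegree := by positivity
    linarith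
  · have hi' : i ≤ G.natDegree - 1 := by omega
    have h2 : v r ^ i ≤ v r ^ (G.natDegree - 1) := pow_le_pow_right₀ hr1.le hi'
    have h3 : v r ^ G.natDegree = v r ^ (G.natDegree - 1) * v r := by
      rw [← pow_succ]
      congr 1
      omega
    rw [hB2, v.map_mul, v.map_mul, v.map_pow, h3] at hB1
    have h4 : v r ^ (G.natDegree - 1) * v r ≤
        v r ^ (G.natDegree - 1) * (c * (v (G.coeff i) * v (G.leadingCoeff)⁻¹)) := by
      refine hB1.trans ?_
      have h5 : (0 : ℝ) ≤ c * (v (G.coeff i) * v (G.leadingCoeff)⁻¹) := by positivity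
      nlinarith [mul_le_mul_of_nonneg_left h2 h5]
    have h6 : v r ≤ c * (v (G.coeff i) * v (G.leadingCoeff)⁻¹) :=
      le_of_mul_le_mul_left h4 (by positivity)
    refine h6.trans ?_
    apply mul_le_mul_of_nonneg_left _ (by linarith)
    rw [Fintype.prod_option]
    simp only [pow_one]
    rw [mul_comm]
    apply mul_le_mul (le_max_left _ _) _ (v.nonneg _) (by positivity)
    calc v (G.coeff i) ≤ max (v (G.coeff ((⟨i, hi⟩ : Fin G.natDegree) : ℕ))) 1 := le_max_left _ _
      _ ≤ ∏ j : Fin G.natDegree, max (v (G.coeff j)) 1 := by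
        rw [← Finset.mul_prod_erase Finset.univ (fun j : Fin G.natDegree =>
          max (v (G.coeff j)) 1) (Finset.mem_univ ⟨i, hi⟩)]
        apply le_mul_of_one_le_right (by positivity)
        apply one_le_prod_real
        intro j
        exact le_max_right _ _

theorem height_root {K : Type*} [Field K] [AdmissibleAbsValues K] (G : K[X]) (hG : G ≠ 0)
    (r : K) (hr : G.IsRoot r) (A : ℝ) (hA : ∀ i, mulHeight₁ (G.coeff i) ≤ A) :
    mulHeight₁ r ≤ (G.natDegree + 1) ^ totalWeight K * A ^ (G.natDegree + 1) := by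
  have h := height_le_family (ι := Option (Fin G.natDegree)) r
    (fun i => match i with | none => (G.leadingCoeff)⁻¹ | some i => G.coeff i) (fun _ => 1)
    ((G.natDegree : ℝ) + 1) (by
      have : (0 : ℝ) ≤ G.natDegree := Nat.cast_nonneg _
      linarith) ?_ ?_
  · refine h.trans ?_
    apply mul_le_mul_of_nonneg_left _ (by positivity)
    have h1 : ∀ i : Option (Fin G.natDegree), mulHeight₁
        (match i with | none => (G.leadingCoeff)⁻¹ | some i => G.coeff i) ≤ A := by
      intro i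
      cases i with
      | none =>
        show mulHeight₁ (G.leadingCoeff)⁻¹ ≤ A
        rw [mulHeight₁_inv]
        exact hA _
      | some i => exact hA _
    calc _ ≤ ∏ _i : Option (Fin G.natDegree), A := by
          apply Finset.prod_le_prod
          · intro i _
            have := mulHeight₁_nonneg
              (match i with | none => (G.leadingCoeff)⁻¹ | some i => G.coeff i)
            positivity
          · intro i _
            rw [pow_one]
            exact h1 i
      _ = A ^ (G.natDegree + 1) := by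
          rw [Finset.prod_const, Finset.card_univ, Fintype.card_option, Fintype.card_fin]
  · intro v _
    apply root_bound v G hG r hr _ (by
      have : (0 : ℝ) ≤ G.natDegree := Nat.cast_nonneg _
      linarith)
    intro f
    rcases Nat.eq_zero_or_pos G.natDegree with h0 | h0
    · refine ⟨0, ?_, Or.inl rfl⟩
      rw [h0]
      simp
    · obtain ⟨i, hi, hmax⟩ := Finset.exists_max_image (range G.natDegree) (fun i => v (f i))
        ⟨0, Finset.mem_range.2 h0⟩
      refine ⟨v (f i), ?_, Or.inr ⟨i, Finset.mem_range.1 hi, rfl⟩⟩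
      calc v (∑ i ∈ range G.natDegree, f i) ≤ ∑ i ∈ range G.natDegree, v (f i) :=
            v.sum_le _ _
        _ ≤ ∑ _j ∈ range G.natDegree, v (f i) := Finset.sum_le_sum hmax
        _ = G.natDegree * v (f i) := by rw [Finset.sum_const, card_range, nsmul_eq_mul]
        _ ≤ _ := by
          apply mul_le_mul_of_nonneg_right _ (v.nonneg _)
          linarith
  · intro v hv
    have hna := isNonarchimedean v hv
    have h2 := root_bound v G hG r hr 1 le_rfl (by
      intro f
      rcases Nat.eq_zero_or_pos G.natDegree with h0 | h0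
      · refine ⟨0, ?_, Or.inl rfl⟩
        rw [h0]
        simp
      · obtain ⟨i, hi, hmax⟩ := IsNonarchimedean.finset_image_add_of_nonempty hna f
          (t := range G.natDegree) ⟨0, Finset.mem_range.2 h0⟩
        refine ⟨v (f i), ?_, Or.inr ⟨i, Finset.mem_range.1 hi, rfl⟩⟩
        rw [one_mul]
        exact hmax)
    rw [one_mul] at h2
    exact h2

theorem height_intCast {K : Type*} [Field K] [AdmissibleAbsValues K] (c : ℤ) :
    mulHeight₁ (c : K) ≤ (max 1 |(c : ℝ)|) ^ totalWeight K := by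
  have h := height_le_family (ι := Fin 0) (c : K) (fun i => i.elim0) (fun i => i.elim0)
    (max 1 |(c : ℝ)|) (le_max_left _ _) ?_ ?_
  · simpa using h
  · intro v _
    simp only [Finset.univ_eq_empty, Finset.prod_empty, mul_one]
    refine le_trans ?_ (le_max_right _ _)
    rcases Int.eq_nat_or_neg c with ⟨n, hn | hn⟩
    · rw [hn]
      simpa using v.apply_nat_le_self n
    · rw [hn]
      simpa using v.apply_nat_le_self n
  · intro v hv
    simp only [Finset.univ_eq_empty, Finset.prod_empty]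
    exact IsNonarchimedean.apply_intCast_le_one (isNonarchimedean v hv)

end Pool.Agent.Work.MP_8d13b5_lc.Rk

end

section

set_option autoImplicit false

/-!
From the lower bound `gl` to `(1-1/s)^n < v(r - κ^n)` at a finite place.
-/

namespace Pool.Agent.Work.MP_8d13b5_lc.Rk

open Height AdmissibleAbsValues Polynomial Finset

/-- the statement of the theorem `gl` for fields in `Type` -/
def GlStmt : Prop :=
  ∀ (K : Type) [Field K] [CharZero K] [AdmissibleAbsValues K] (v : AbsoluteValue K ℝ),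
    IsPlace v → ∀ κ r : K, r ≠ 0 → κ ≠ 0 → (∀ m : ℕ, 0 < m → κ ^ m ≠ 1) →
    v κ = 1 → ∀ n W a₁ a₂ lam : ℕ, 1 ≤ W → totalWeight K ≤ W →
    1 ≤ a₁ → 1 ≤ a₂ → mulHeight₁ κ ≤ 2 ^ a₁ → mulHeight₁ r ≤ 2 ^ a₂ →
    ((v (κ - 1) ≤ a₁ ∧ v (κ - 1) * n ≤ a₂) ∨
      (v ∈ (nonarchAbsVal : Set (AbsoluteValue K ℝ)) ∧ v (κ - 1) ≤ 1 / 2)) →
    20 ≤ lam → W ≤ 2 ^ lam → a₁ ≤ 2 ^ lam → n ≤ 2 ^ lam →
    100 * (3000 * W * lam) * a₂ ≤ n →
    (1 / 8 : ℝ) ^ (5000 * (3000 * W * lam) ^ 2 * a₁ * a₂) ≤ v (r - κ ^ n)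

/-- powers of the logarithm are small -/
theorem poly_lt_two_pow (C k : ℕ) : ∃ l₀ : ℕ, ∀ l, l₀ ≤ l → C * l ^ k < 2 ^ l := by
  have h := tendsto_pow_const_div_const_pow_of_one_lt k (r := (2 : ℝ)) (by norm_num)
  have h2 := h.eventually (Iio_mem_nhds (show (0 : ℝ) < 1 / (C + 1) by positivity))
  obtain ⟨l₀, hl₀⟩ := Filter.eventually_atTop.mp h2
  refine ⟨l₀, fun l hl => ?_⟩
  have h3 : (l : ℝ) ^ k / 2 ^ l < 1 / (C + 1) := hl₀ l hl
  rw [div_lt_div_iff₀ (by positivity) (by positivity)] at h3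
  have h4 : ((C * l ^ k : ℕ) : ℝ) < ((2 ^ l : ℕ) : ℝ) := by
    push_cast
    have : (0 : ℝ) ≤ (l : ℝ) ^ k := by positivity
    nlinarith
  exact_mod_cast h4

theorem poly_log (C k : ℕ) : ∃ n₀ : ℕ, ∀ n, n₀ ≤ n → C * (Nat.log 2 n) ^ k < n := by
  obtain ⟨l₀, hl₀⟩ := poly_lt_two_pow C k
  refine ⟨2 ^ l₀, fun n hn => ?_⟩
  have hn0 : n ≠ 0 := by
    have : 0 < 2 ^ l₀ := by positivity
    omega
  exact (hl₀ _ (Nat.le_log_of_pow_le (by norm_num) hn)).trans_le (Nat.pow_log_le_self 2 hn0)

theorem one_sub_pow_le_half (s : ℕ) (hs : 1 ≤ s) : (1 - 1 / (s : ℝ)) ^ s ≤ 1 / 2 := by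
  have h1 : (1 - 1 / (s : ℝ)) ^ s ≤ Real.exp (-1) :=
    Real.one_sub_div_pow_le_exp_neg (by exact_mod_cast hs)
  have h2 := Real.exp_neg_one_lt_d9
  linarith

theorem pow_lt_eighth (s n E : ℕ) (hs : 2 ≤ s) (h : 3 * s * E < n) :
    (1 - 1 / (s : ℝ)) ^ n < (1 / 8 : ℝ) ^ E := by
  have hs' : (2 : ℝ) ≤ s := by exact_mod_cast hs
  have h0 : (1 : ℝ) / s ≤ 1 / 2 := one_div_le_one_div_of_le (by norm_num) hs'
  have h0' : (0 : ℝ) < 1 / s := by positivity
  have h1 : (1 - 1 / (s : ℝ)) ^ n < (1 - 1 / (s : ℝ)) ^ (3 * s * E) :=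
    pow_lt_pow_right_of_lt_one₀ (by linarith) (by linarith) h
  refine h1.trans_le ?_
  have h2 : (1 - 1 / (s : ℝ)) ^ (3 * s) ≤ 1 / 8 := by
    calc (1 - 1 / (s : ℝ)) ^ (3 * s) = ((1 - 1 / (s : ℝ)) ^ s) ^ 3 := by
          rw [← pow_mul, mul_comm]
      _ ≤ (1 / 2) ^ 3 := pow_le_pow_left₀ (pow_nonneg (by linarith) _)
          (one_sub_pow_le_half s (by omega)) _
      _ = 1 / 8 := by norm_num
  rw [pow_mul]
  exact pow_le_pow_left₀ (pow_nonneg (by linarith) _) h2 _

/-- the arithmetic of the parameters -/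
theorem param_bounds (s l : ℕ) (hs : 2 ≤ s) (hsl : s ≤ l) :
    s * (100 * (3000 * s * (2 * l + 20)) * (s * (l + 2) + s ^ 2)) ≤ 10 ^ 15 * l ^ 9 ∧
    3 * s * (5000 * (3000 * s * (2 * l + 20)) ^ 2 * s ^ 2 * (s * (l + 2) + s ^ 2)) ≤
      10 ^ 15 * l ^ 9 := by
  have hl : 2 ≤ l := hs.trans hsl
  have e1 : 3000 * s * (2 * l + 20) ≤ 36000 * l ^ 2 := by
    calc 3000 * s * (2 * l + 20) ≤ 3000 * l * (12 * l) :=
          Nat.mul_le_mul (Nat.mul_le_mul_left _ hsl) (by omega)
      _ = 36000 * l ^ 2 := by ring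
  have e2 : s * (l + 2) + s ^ 2 ≤ 3 * l ^ 2 := by
    calc s * (l + 2) + s ^ 2 ≤ l * (2 * l) + l ^ 2 :=
          Nat.add_le_add (Nat.mul_le_mul hsl (by omega)) (Nat.pow_le_pow_left hsl 2)
      _ = 3 * l ^ 2 := by ring
  have e3 : s ^ 2 ≤ l ^ 2 := Nat.pow_le_pow_left hsl 2
  constructor
  · calc s * (100 * (3000 * s * (2 * l + 20)) * (s * (l + 2) + s ^ 2))
        ≤ l * (100 * (36000 * l ^ 2) * (3 * l ^ 2)) :=
          Nat.mul_le_mul hsl (Nat.mul_le_mul (Nat.mul_le_mul_left _ e1) e2)
      _ = 10800000 * l ^ 5 := by ring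
      _ ≤ 10 ^ 15 * l ^ 9 := Nat.mul_le_mul (by norm_num)
          (Nat.pow_le_pow_right (by omega) (by norm_num))
  · calc 3 * s * (5000 * (3000 * s * (2 * l + 20)) ^ 2 * s ^ 2 * (s * (l + 2) + s ^ 2))
        ≤ 3 * l * (5000 * (36000 * l ^ 2) ^ 2 * l ^ 2 * (3 * l ^ 2)) :=
          Nat.mul_le_mul (Nat.mul_le_mul_left _ hsl) (Nat.mul_le_mul
            (Nat.mul_le_mul (Nat.mul_le_mul_left _ (Nat.pow_le_pow_left e1 2)) e3) e2)
      _ = 58320000000000 * l ^ 9 := by ring
      _ ≤ 10 ^ 15 * l ^ 9 := Nat.mul_le_mul_right _ (by norm_num)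

/-- `m3_nonarch` from `gl` -/
theorem m3_nonarch_of_gl (hgl : GlStmt) :
    ∃ n₀ : ℕ, ∀ (s n : ℕ), 2 ≤ s → n₀ ≤ n → s ≤ Nat.log 2 n →
    ∀ (K : Type) [Field K] [NumberField K], Module.finrank ℚ K ≤ s →
      ∀ (v : AbsoluteValue K ℝ) (q : ℕ), q ≤ s → HasNorm v q → ∀ κ r : K, κ ≠ 0 → r ≠ 0 →
        v κ = 1 → (∀ m : ℕ, 0 < m → κ ^ m ≠ 1) → mulHeight₁ κ ≤ s →
          mulHeight₁ r ≤ (n + 2 : ℝ) ^ s → (1 - 1 / (s : ℝ)) ^ n < v (r - κ ^ n) := by
  obtain ⟨n₀, hn₀⟩ := poly_log (10 ^ 15) 9
  refine ⟨n₀, ?_⟩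
  intro s n hs hn hsl K _ _ hK v q hqs hq κ r hκ0 hr0 hvκ hκ hκH hrH
  have hpl := hn₀ n hn
  obtain ⟨hb1, hb2⟩ := param_bounds s (Nat.log 2 n) hs hsl
  obtain ⟨l, hl⟩ : ∃ l, l = Nat.log 2 n := ⟨_, rfl⟩
  rw [← hl] at hpl hb1 hb2 hsl
  have hl2 : 2 ≤ l := hs.trans hsl
  have hnlt : n < 2 ^ (l + 1) := by rw [hl]; exact Nat.lt_pow_succ_log_self (by norm_num) n
  have hq2 := hq.two_le
  have hs1 : (1 : ℝ) ≤ s := by exact_mod_cast (by omega : 1 ≤ s)
  have hs0 : (s : ℝ) ≤ 2 ^ s := by exact_mod_cast Nat.lt_two_pow_self.le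
  obtain ⟨m, e, he, hm⟩ : ∃ m e, e < q - 1 ∧ n = (q - 1) * m + e :=
    ⟨n / (q - 1), n % (q - 1), Nat.mod_lt _ (by omega), (Nat.div_add_mod n (q - 1)).symm⟩
  have hκe : v (κ ^ e) = 1 := by rw [map_pow, hvκ, one_pow]
  have hκe0 : κ ^ e ≠ 0 := pow_ne_zero _ hκ0
  have hfac : r - κ ^ n = κ ^ e * (r * (κ ^ e)⁻¹ - (κ ^ (q - 1)) ^ m) := by
    rw [mul_sub, hm, pow_add, pow_mul]
    field_simp
  have hHs : ∀ j ≤ s, mulHeight₁ (κ ^ j) ≤ 2 ^ s ^ 2 := by
    intro j hj
    rw [mulHeight₁_pow]
    calc mulHeight₁ κ ^ j ≤ (s : ℝ) ^ j := pow_le_pow_left₀ (mulHeight₁_nonneg _) hκH _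
      _ ≤ (s : ℝ) ^ s := pow_le_pow_right₀ hs1 hj
      _ ≤ (2 ^ s) ^ s := pow_le_pow_left₀ (by linarith) hs0 _
      _ = 2 ^ s ^ 2 := by rw [← pow_mul, pow_two]
  have hmn : m ≤ n := by
    rw [hm]
    exact le_add_right (Nat.le_mul_of_pos_left m (by omega))
  have hgl' := hgl K v (Or.inr hq.mem) (κ ^ (q - 1)) (r * (κ ^ e)⁻¹)
    (mul_ne_zero hr0 (inv_ne_zero hκe0)) (pow_ne_zero _ hκ0)
    (fun j hj => by rw [← pow_mul]; exact hκ _ (Nat.mul_pos (by omega) hj))
    (by rw [map_pow, hvκ, one_pow]) m s (s ^ 2) (s * (l + 2) + s ^ 2) (2 * l + 20)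
    (by omega) (by rw [NumberField.totalWeight_eq_finrank]; exact hK)
    (Nat.one_le_pow _ _ (by omega)) (by nlinarith) (hHs _ (by omega))
    (by
      refine (mulHeight₁_mul_le _ _).trans ?_
      rw [mulHeight₁_inv, pow_add]
      refine mul_le_mul ?_ (hHs e (by omega)) (mulHeight₁_nonneg _) (by positivity)
      refine hrH.trans ?_
      have h1 : (n + 2 : ℝ) ≤ 2 ^ (l + 2) := by
        have h2 : n + 2 ≤ 2 ^ (l + 2) := by
          have h3 : 2 ≤ 2 ^ (l + 1) := by
            calc 2 = 2 ^ 1 := by norm_num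
              _ ≤ 2 ^ (l + 1) := Nat.pow_le_pow_right (by norm_num) (by omega)
          rw [pow_succ 2 (l + 1)]
          omega
        exact_mod_cast h2
      calc (n + 2 : ℝ) ^ s ≤ (2 ^ (l + 2)) ^ s := pow_le_pow_left₀ (by positivity) h1 _
        _ = 2 ^ (s * (l + 2)) := by rw [← pow_mul, mul_comm])
    (Or.inr ⟨hq.mem, hq.unit κ hvκ⟩) (by omega)
    (by
      calc s ≤ 2 ^ s := Nat.lt_two_pow_self.le
        _ ≤ 2 ^ (2 * l + 20) := Nat.pow_le_pow_right (by norm_num) (by omega))
    (by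
      calc s ^ 2 ≤ (2 ^ s) ^ 2 := Nat.pow_le_pow_left Nat.lt_two_pow_self.le 2
        _ = 2 ^ (s * 2) := by rw [← pow_mul]
        _ ≤ 2 ^ (2 * l + 20) := Nat.pow_le_pow_right (by norm_num) (by omega))
    (by
      calc m ≤ n := hmn
        _ ≤ 2 ^ (l + 1) := hnlt.le
        _ ≤ 2 ^ (2 * l + 20) := Nat.pow_le_pow_right (by norm_num) (by omega))
    (by
      by_contra hcon
      push Not at hcon
      have h1 : s * (m + 1) ≤ s * (100 * (3000 * s * (2 * l + 20)) * (s * (l + 2) + s ^ 2)) :=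
        Nat.mul_le_mul_left s hcon
      have h2 : n ≤ s * (m + 1) := by
        calc n = (q - 1) * m + e := hm
          _ ≤ s * m + s := Nat.add_le_add (Nat.mul_le_mul_right m (by omega)) (by omega)
          _ = s * (m + 1) := by ring
      omega)
  have hlt := pow_lt_eighth s n _ hs (lt_of_le_of_lt hb2 hpl)
  rw [hfac, map_mul, hκe, one_mul]
  exact hlt.trans_le hgl'

end Pool.Agent.Work.MP_8d13b5_lc.Rk

end

section

set_option autoImplicit false

/-!
Newton expansion of `C(y,k) (1+z)^y`.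
-/

namespace Pool.Agent.Work.MP_8d13b5_lc.Rk

open Height AdmissibleAbsValues Polynomial Finset

/-- the coefficients of `C(y,k) (1+z)^y` in the Newton basis -/
def rowCoeff {K : Type*} [Field K] (z : K) (k m : ℕ) : K :=
  if m < k then 0 else (1 + z) ^ k * ((m.choose k : ℕ) : K) * z ^ (m - k)

private theorem rowCoeff_add {K : Type*} [Field K] (z : K) (k i : ℕ) :
    rowCoeff z k (k + i) = (1 + z) ^ k * (((k + i).choose k : ℕ) : K) * z ^ i := by
  rw [rowCoeff, if_neg (by omega), Nat.add_sub_cancel_left]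

/-- a sum over `range M` of a function vanishing below `k` -/
private theorem row_sum_shift {A : Type*} [AddCommMonoid A] (f : ℕ → A) (k M : ℕ)
    (h : ∀ m < k, f m = 0) : ∑ m ∈ range M, f m = ∑ i ∈ range (M - k), f (k + i) := by
  rw [← Finset.sum_Ico_eq_sum_range]
  symm
  apply Finset.sum_subset
  · intro x hx
    rw [Finset.mem_Ico] at hx
    exact Finset.mem_range.2 hx.2
  · intro x hx hx'
    rw [Finset.mem_range] at hx
    rw [Finset.mem_Ico] at hx'
    exact h x (by omega)

theorem row_identity {K : Type*} [Field K] (z : K) (k y M : ℕ) (hM : y < M) :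
    ((y.choose k : ℕ) : K) * (1 + z) ^ y =
      ∑ m ∈ range M, rowCoeff z k m * ((y.choose m : ℕ) : K) := by
  rw [row_sum_shift _ k M (fun m hm => by rw [rowCoeff, if_pos hm, zero_mul])]
  by_cases hk : y < k
  · rw [Nat.choose_eq_zero_of_lt hk, Nat.cast_zero, zero_mul]
    symm
    apply Finset.sum_eq_zero
    intro i _
    rw [Nat.choose_eq_zero_of_lt (by omega : y < k + i), Nat.cast_zero, mul_zero]
  · rw [not_lt] at hk
    obtain ⟨n, rfl⟩ := Nat.exists_eq_add_of_le hk
    have h1 : ∑ i ∈ range (M - k), rowCoeff z k (k + i) * (((k + n).choose (k + i) : ℕ) : K) =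
        ∑ i ∈ range (n + 1), rowCoeff z k (k + i) * (((k + n).choose (k + i) : ℕ) : K) := by
      symm
      apply Finset.sum_subset
      · intro x hx
        rw [Finset.mem_range] at hx ⊢
        omega
      · intro x _ hx'
        rw [Finset.mem_range] at hx'
        rw [Nat.choose_eq_zero_of_lt (by omega : k + n < k + x), Nat.cast_zero, mul_zero]
    rw [h1, pow_add, add_comm 1 z, ← mul_assoc, add_pow z 1 n, Finset.mul_sum]
    apply Finset.sum_congr rfl
    intro i hi
    rw [rowCoeff_add, one_pow, mul_one]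
    have h2 := Nat.choose_mul (n := k + n) (k := k + i) (s := k) (by omega)
    rw [Nat.add_sub_cancel_left, Nat.add_sub_cancel_left] at h2
    have h3 : (((k + n).choose (k + i) : ℕ) : K) * (((k + i).choose k : ℕ) : K) =
        (((k + n).choose k : ℕ) : K) * ((n.choose i : ℕ) : K) := by
      rw [← Nat.cast_mul, ← Nat.cast_mul, h2]
    rw [add_comm 1 z]
    linear_combination (-(z + 1) ^ k * z ^ i) * h3

theorem row_arch {K : Type*} [Field K] (v : AbsoluteValue K ℝ) (z : K) (hz : v (1 + z) = 1)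
    (k Y M : ℕ) (hY : 1 ≤ Y) :
    ∑ m ∈ range M, v (rowCoeff z k m) * 2 ^ m * ((Y : ℝ) ^ m / m.factorial) ≤
      (2 * Y) ^ k * Real.exp (2 * Y * v z) := by
  rw [row_sum_shift _ k M (fun m hm => by rw [rowCoeff, if_pos hm]; simp)]
  have hvz : 0 ≤ v z := v.nonneg z
  have hx : 0 ≤ 2 * (Y : ℝ) * v z := by positivity
  have h1 : ∀ i, v (rowCoeff z k (k + i)) * 2 ^ (k + i) *
      ((Y : ℝ) ^ (k + i) / (k + i).factorial) ≤
        (2 * Y) ^ k * ((2 * (Y : ℝ) * v z) ^ i / i.factorial) := by
    intro i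
    rw [rowCoeff_add, v.map_mul, v.map_mul, v.map_pow, v.map_pow, hz, one_pow, one_mul]
    have h2 : v (((k + i).choose k : ℕ) : K) ≤ ((k + i).choose k : ℕ) := v.apply_nat_le_self _
    have h3 : (((k + i).choose k : ℕ) : ℝ) * (k.factorial * i.factorial) =
        ((k + i).factorial : ℝ) := by
      have := Nat.choose_mul_factorial_mul_factorial (Nat.le_add_right k i)
      rw [Nat.add_sub_cancel_left, mul_assoc] at this
      exact_mod_cast this
    have hki : (0 : ℝ) < (k + i).factorial := by exact_mod_cast Nat.factorial_pos _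
    have hk : (1 : ℝ) ≤ k.factorial := by exact_mod_cast Nat.factorial_pos _
    have hi : (0 : ℝ) < i.factorial := by exact_mod_cast Nat.factorial_pos _
    calc v (((k + i).choose k : ℕ) : K) * v z ^ i * 2 ^ (k + i) *
          ((Y : ℝ) ^ (k + i) / (k + i).factorial)
        ≤ ((k + i).choose k : ℕ) * v z ^ i * 2 ^ (k + i) *
          ((Y : ℝ) ^ (k + i) / (k + i).factorial) := by gcongr
      _ = (2 * Y) ^ k * ((2 * (Y : ℝ) * v z) ^ i) *
          (((k + i).choose k : ℕ) / (k + i).factorial) := by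
        rw [mul_pow, mul_pow, mul_pow, pow_add, pow_add]
        ring
      _ ≤ (2 * Y) ^ k * ((2 * (Y : ℝ) * v z) ^ i) * (1 / i.factorial) := by
        apply mul_le_mul_of_nonneg_left _ (by positivity)
        rw [div_le_div_iff₀ hki hi, one_mul, ← h3]
        have hc : (0 : ℝ) ≤ ((k + i).choose k : ℕ) := Nat.cast_nonneg _
        nlinarith [mul_nonneg hc hi.le]
      _ = _ := by ring
  calc ∑ i ∈ range (M - k), v (rowCoeff z k (k + i)) * 2 ^ (k + i) *
        ((Y : ℝ) ^ (k + i) / (k + i).factorial)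
      ≤ ∑ i ∈ range (M - k), (2 * (Y : ℝ)) ^ k * ((2 * (Y : ℝ) * v z) ^ i / i.factorial) :=
        Finset.sum_le_sum fun i _ => h1 i
    _ = (2 * (Y : ℝ)) ^ k * ∑ i ∈ range (M - k), (2 * (Y : ℝ) * v z) ^ i / i.factorial := by
        rw [Finset.mul_sum]
    _ ≤ (2 * (Y : ℝ)) ^ k * Real.exp (2 * Y * v z) :=
        mul_le_mul_of_nonneg_left (Real.sum_le_exp_of_nonneg hx _) (by positivity)

theorem row_nonarch {K : Type*} [Field K] (v : AbsoluteValue K ℝ) (hv : IsNonarchimedean v)
    (z : K) (hz : v z ≤ 1 / 2) (k M : ℕ) :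
    ∑ m ∈ range M, v (rowCoeff z k m) * 2 ^ m * 1 ≤ 2 ^ k * M := by
  have hvz : 0 ≤ v z := v.nonneg z
  have hnat : ∀ c : ℕ, v ((c : ℕ) : K) ≤ 1 := fun c =>
    IsNonarchimedean.apply_natCast_le_one hv
  have h1 : v (1 + z) ≤ 1 := by
    refine (hv 1 z).trans ?_
    rw [v.map_one]
    exact max_le le_rfl (by linarith)
  have h2 : ∀ m, v (rowCoeff z k m) * 2 ^ m * 1 ≤ 2 ^ k := by
    intro m
    rw [mul_one]
    by_cases hm : m < k
    · rw [rowCoeff, if_pos hm, v.map_zero, zero_mul]
      positivity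
    · rw [not_lt] at hm
      obtain ⟨i, rfl⟩ := Nat.exists_eq_add_of_le hm
      rw [rowCoeff_add, v.map_mul, v.map_mul, v.map_pow, v.map_pow]
      have h3 : v (1 + z) ^ k ≤ 1 := pow_le_one₀ (v.nonneg _) h1
      have h4 : v z ^ i ≤ (1 / 2) ^ i := pow_le_pow_left₀ hvz hz i
      calc v (1 + z) ^ k * v (((k + i).choose k : ℕ) : K) * v z ^ i * 2 ^ (k + i)
          ≤ 1 * 1 * (1 / 2) ^ i * 2 ^ (k + i) := by
            gcongr
            exact hnat _
        _ = 2 ^ k * ((1 / 2) * 2) ^ i := by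
            rw [mul_pow, pow_add]
            ring
        _ = 2 ^ k := by norm_num
  calc ∑ m ∈ range M, v (rowCoeff z k m) * 2 ^ m * 1 ≤ ∑ _m ∈ range M, (2 : ℝ) ^ k :=
        Finset.sum_le_sum fun m _ => h2 m
    _ = 2 ^ k * M := by
        rw [Finset.sum_const, Finset.card_range, nsmul_eq_mul, mul_comm]

end Pool.Agent.Work.MP_8d13b5_lc.Rk

end
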