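import Mathlib
import Pool.Agent.Work.MP_8d13b5_lc.Bd.B01
import Pool.Agent.Work.MP_8d13b5_lc.Rk.Defs
import Pool.Agent.Work.MP_8d13b5_lc.Rk.ZeroEst

/-! Bundle of small proof modules (one section per former module). -/

section

set_option autoImplicit false

namespace Pool.Agent.Work.MP_8d13b5_lc.Rk

open Height AdmissibleAbsValues Polynomial Finset

/-- a generator of the group of the quotients of the dominant terms -/
theorem cyc_data {K : Type*} [Field K] (M : ℕ) (hM : 0 < M)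
    (tf : ∀ x : K, (∃ m : ℕ, 0 < m ∧ x ^ m = 1) → x ^ M = 1) (v : AbsoluteValue K ℝ)
    (D : Finset K) (hD : D.Nonempty) (hne : ∀ x ∈ D, x ≠ 0) (hpow : ∀ x ∈ D, ∃ y, y ^ M = x)
    (hv : ∀ x ∈ D, ∀ y ∈ D, v x = v y)
    (dep : ∀ x ∈ D, ∀ y ∈ D, ∀ z ∈ D, ∀ w ∈ D, ∃ a b : ℤ, (a ≠ 0 ∨ b ≠ 0) ∧
      (x / y) ^ a = (z / w) ^ b) :
    ∃ κ : K, κ ≠ 0 ∧ v κ = 1 ∧ (∀ m : ℕ, 0 < m → κ ^ m = 1 → κ = 1) ∧
      ∃ x₀ ∈ D, ∃ a : K → ℕ, ∀ x ∈ D, x = x₀ * κ ^ a x := by
  classical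
  let H : Subgroup Kˣ :=
    { carrier := {z | (∃ y : Kˣ, y ^ M = z) ∧ v (z : K) = 1}
      one_mem' := ⟨⟨1, one_pow M⟩, by simp⟩
      mul_mem' := by
        rintro a b ⟨⟨y, hy⟩, h1⟩ ⟨⟨z, hz⟩, h2⟩
        exact ⟨⟨y * z, by rw [mul_pow, hy, hz]⟩, by simp [h1, h2]⟩
      inv_mem' := by
        rintro a ⟨⟨y, hy⟩, h1⟩
        exact ⟨⟨y⁻¹, by rw [inv_pow, hy]⟩, by simp [h1]⟩ }
  have tfH : ∀ z ∈ H, ∀ m : ℕ, 0 < m → z ^ m = 1 → z = 1 := by
    rintro z ⟨⟨y, hy⟩, _⟩ m hm h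
    have h1 : (y : K) ^ M = 1 := by
      refine tf y ⟨M * m, Nat.mul_pos hM hm, ?_⟩
      have : y ^ (M * m) = 1 := by rw [pow_mul, hy, h]
      rw [← Units.val_pow_eq_pow_val, this, Units.val_one]
    rw [← hy]
    ext
    simpa using h1
  let φ : K → Kˣ := fun x => if h : x = 0 then 1 else Units.mk0 x h
  have hφ : ∀ x ∈ D, ((φ x : Kˣ) : K) = x := by
    intro x hx
    simp [φ, hne x hx]
  have hHmem : ∀ x ∈ D.image φ, ∀ y ∈ D.image φ, x / y ∈ H := by
    intro x hx y hy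
    obtain ⟨x', hx', rfl⟩ := mem_image.1 hx
    obtain ⟨y', hy', rfl⟩ := mem_image.1 hy
    obtain ⟨a, ha⟩ := hpow x' hx'
    obtain ⟨b, hb⟩ := hpow y' hy'
    have ha0 : a ≠ 0 := by
      rintro rfl
      exact hne x' hx' (by rw [← ha, zero_pow hM.ne'])
    have hb0 : b ≠ 0 := by
      rintro rfl
      exact hne y' hy' (by rw [← hb, zero_pow hM.ne'])
    refine ⟨⟨Units.mk0 a ha0 / Units.mk0 b hb0, ?_⟩, ?_⟩
    · ext
      rw [Units.val_pow_eq_pow_val, Units.val_div_eq_div_val, Units.val_div_eq_div_val,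
        Units.val_mk0, Units.val_mk0, div_pow, ha, hb, hφ x' hx', hφ y' hy']
    · rw [Units.val_div_eq_div_val, hφ x' hx', hφ y' hy', map_div₀, hv x' hx' y' hy',
        div_self (v.ne_zero (hne y' hy'))]
  have hdep : ∀ x ∈ D.image φ, ∀ y ∈ D.image φ, ∀ z ∈ D.image φ, ∀ w ∈ D.image φ,
      ∃ a b : ℤ, (a ≠ 0 ∨ b ≠ 0) ∧ (x / y) ^ a = (z / w) ^ b := by
    intro x hx y hy z hz w hw
    obtain ⟨x', hx', rfl⟩ := mem_image.1 hx
    obtain ⟨y', hy', rfl⟩ := mem_image.1 hy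
    obtain ⟨z', hz', rfl⟩ := mem_image.1 hz
    obtain ⟨w', hw', rfl⟩ := mem_image.1 hw
    obtain ⟨a, b, hab, h⟩ := dep x' hx' y' hy' z' hz' w' hw'
    refine ⟨a, b, hab, ?_⟩
    ext
    rw [Units.val_zpow_eq_zpow_val, Units.val_zpow_eq_zpow_val, Units.val_div_eq_div_val,
      Units.val_div_eq_div_val, hφ x' hx', hφ y' hy', hφ z' hz', hφ w' hw']
    exact h
  obtain ⟨κ, hκH, x₀, hx₀, a, ha⟩ := cyclic_gen H tfH (D.image φ) (hD.image φ) hHmem hdep
  obtain ⟨x₁, hx₁, rfl⟩ := mem_image.1 hx₀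
  refine ⟨κ, κ.ne_zero, hκH.2, ?_, x₁, hx₁, fun x => a (φ x), ?_⟩
  · intro m hm h
    have h1 : κ ^ m = 1 := by
      ext
      simpa using h
    rw [tfH κ hκH m hm h1]
    simp
  · intro x hx
    have h1 := ha (φ x) (mem_image_of_mem φ hx)
    have h2 := congrArg (Units.val) h1
    rw [Units.val_mul, Units.val_pow_eq_pow_val, hφ x hx, hφ x₁ hx₁] at h2
    exact h2

end Pool.Agent.Work.MP_8d13b5_lc.Rk

end

section

set_option autoImplicit false

/-!
Height in an extension (crude bound, no compatibility of finite places needed).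
-/

namespace Pool.Agent.Work.MP_8d13b5_lc.Rk

open Height AdmissibleAbsValues Polynomial Finset NumberField

section

variable {K : Type*} [Field K] [NumberField K]

theorem mulHeight₁_integral {z : K} (hz : IsIntegral ℤ z) :
    mulHeight₁ z = ∏ v : InfinitePlace K, max (v z) 1 ^ v.mult := by
  have h1 : ∏ᶠ v : FinitePlace K, max (v z) 1 = 1 := by
    apply finprod_eq_one_of_forall_eq_one
    intro v
    have : v z ≤ 1 := by
      have h := FinitePlace.norm_embedding_eq v ((⟨z, hz⟩ : 𝓞 K) : K) ▸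
        FinitePlace.norm_le_one K v.maximalIdeal (⟨z, hz⟩ : 𝓞 K)
      exact h
    exact max_eq_right this
  rw [NumberField.mulHeight₁_eq, h1, mul_one]

theorem infinite_le_mulHeight₁_of_integral {z : K} (hz : IsIntegral ℤ z) (v : InfinitePlace K) :
    v z ≤ mulHeight₁ z := by
  rw [mulHeight₁_integral hz]
  calc v z ≤ max (v z) 1 := le_max_left _ _
    _ ≤ max (v z) 1 ^ v.mult := le_self_pow₀ (le_max_right _ _) v.mult_ne_zero
    _ ≤ ∏ v : InfinitePlace K, max (v z) 1 ^ v.mult :=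
        Multiset.mem_le_prod_of_one_le (f := fun v : InfinitePlace K => max (v z) 1 ^ v.mult)
          (fun i => one_le_pow₀ (le_max_right _ _)) (mem_univ v)

theorem mulHeight₁_le_of_integral {z : K} (hz : IsIntegral ℤ z) {B : ℝ} (hB : 1 ≤ B)
    (h : ∀ v : InfinitePlace K, v z ≤ B) : mulHeight₁ z ≤ B ^ Module.finrank ℚ K := by
  rw [mulHeight₁_integral hz, ← InfinitePlace.sum_mult_eq, ← prod_pow_eq_pow_sum]
  gcongr with v
  exact max_le (h v) hB

theorem mulHeight₁_natCast_le {n : ℕ} (hn : n ≠ 0) :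
    mulHeight₁ (n : K) ≤ (n : ℝ) ^ Module.finrank ℚ K := by
  apply mulHeight₁_le_of_integral
  · exact_mod_cast isIntegral_algebraMap (R := ℤ) (A := K) (x := (n : ℤ))
  · exact_mod_cast Nat.one_le_iff_ne_zero.mpr hn
  · intro v
    simp

end

theorem ext_height {K L : Type*} [Field K] [NumberField K] [Field L] [NumberField L]
    [Algebra K L] (x : K) :
    mulHeight₁ (algebraMap K L x) ≤
      mulHeight₁ x ^ ((Module.finrank ℚ K + 2) * Module.finrank ℚ L) := by
  obtain ⟨n, hn, hnx, hint⟩ := NumberField.exists_nat_le_mulHeight₁ x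
  set H := mulHeight₁ x with hH
  have hH1 : 1 ≤ H := one_le_mulHeight₁ x
  set W := Module.finrank ℚ L
  have h1 : mulHeight₁ ((n : K) * x) ≤ H ^ (Module.finrank ℚ K + 1) := by
    calc mulHeight₁ ((n : K) * x) ≤ mulHeight₁ (n : K) * H := mulHeight₁_mul_le _ _
      _ ≤ (n : ℝ) ^ Module.finrank ℚ K * H := by
          gcongr
          exact mulHeight₁_natCast_le hn
      _ ≤ H ^ Module.finrank ℚ K * H := by gcongr
      _ = H ^ (Module.finrank ℚ K + 1) := (pow_succ _ _).symm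
  have h2 : mulHeight₁ (algebraMap K L ((n : K) * x)) ≤ mulHeight₁ ((n : K) * x) ^ W := by
    apply mulHeight₁_le_of_integral (hint.algebraMap) (one_le_mulHeight₁ _)
    intro w
    have := infinite_le_mulHeight₁_of_integral hint (w.comap (algebraMap K L))
    simpa using this
  have h3 : mulHeight₁ ((n : L)⁻¹) ≤ H ^ W := by
    rw [mulHeight₁_inv]
    exact (mulHeight₁_natCast_le hn).trans (by gcongr)
  have h4 : algebraMap K L x = algebraMap K L ((n : K) * x) * (n : L)⁻¹ := by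
    have : (n : L) ≠ 0 := by exact_mod_cast hn
    rw [map_mul, map_natCast]
    field_simp
  calc mulHeight₁ (algebraMap K L x)
      ≤ mulHeight₁ (algebraMap K L ((n : K) * x)) * mulHeight₁ ((n : L)⁻¹) := by
        rw [h4]; exact mulHeight₁_mul_le _ _
    _ ≤ (H ^ (Module.finrank ℚ K + 1)) ^ W * H ^ W := by
        gcongr
        exact h2.trans (by gcongr)
    _ = H ^ ((Module.finrank ℚ K + 2) * W) := by
        rw [← pow_mul, ← pow_add]
        congr 1
        ring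

end Pool.Agent.Work.MP_8d13b5_lc.Rk

end

section

set_option autoImplicit false

/-!
Extension of a place of a number field to a finite extension.
-/

namespace Pool.Agent.Work.MP_8d13b5_lc.Rk

open Height AdmissibleAbsValues Polynomial Finset NumberField IsDedekindDomain

/-- the order of a finite place in terms of the valuation -/
theorem finitePlace_lt_iff {K : Type*} [Field K] [NumberField K] (P : HeightOneSpectrum (𝓞 K))
    (x y : K) : place (FinitePlace.embedding P) x < place (FinitePlace.embedding P) y ↔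
      P.valuation K x < P.valuation K y := by
  rw [place_apply, place_apply, FinitePlace.norm_embedding', FinitePlace.norm_embedding',
    NNReal.coe_lt_coe]
  exact (WithZeroMulInt.toNNReal_strictMono
    (NumberField.HeightOneSpectrum.one_lt_absNorm_nnreal P)).lt_iff_lt

theorem ext_place {K L : Type*} [Field K] [NumberField K] [Field L] [NumberField L]
    [Algebra K L] (v : AbsoluteValue K ℝ) (hv : IsPlace v) :
    ∃ w : AbsoluteValue L ℝ, IsPlace w ∧
      (∀ x y : K, w (algebraMap K L x) < w (algebraMap K L y) ↔ v x < v y) ∧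
      (v ∈ (archAbsVal : Multiset (AbsoluteValue K ℝ)) →
        w ∈ (archAbsVal : Multiset (AbsoluteValue L ℝ)) ∧
          ∀ x : K, w (algebraMap K L x) = v x) := by
  have : Algebra.IsAlgebraic K L := Algebra.IsAlgebraic.tower_top (K := ℚ) K
  by_cases harch : v ∈ (archAbsVal : Multiset (AbsoluteValue K ℝ))
  · have h1 : IsInfinitePlace v := mem_multisetInfinitePlace.1 harch
    obtain ⟨v', hv'⟩ := (isInfinitePlace_iff v).1 h1
    obtain ⟨w, hw⟩ := InfinitePlace.comap_surjective (k := K) (K := L) v'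
    have h2 : ∀ x : K, w.val (algebraMap K L x) = v x := by
      intro x
      have h3 : w (algebraMap K L x) = v' x := by
        rw [← hw, InfinitePlace.comap_apply]
      rw [← hv']
      exact h3
    have h4 : w.val ∈ (archAbsVal : Multiset (AbsoluteValue L ℝ)) :=
      mem_multisetInfinitePlace.2 w.isInfinitePlace
    refine ⟨w.val, Or.inl h4, fun x y => ?_, fun _ => ⟨h4, h2⟩⟩
    rw [h2, h2]
  · have h1 : IsFinitePlace v := by
      rcases hv with h | h
      · exact absurd h harch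
      · exact h
    obtain ⟨P, rfl⟩ := h1
    have : P.asIdeal.IsMaximal := P.isMaximal
    obtain ⟨Q, hQ1, hQ2⟩ := Ideal.exists_maximal_ideal_liesOver_of_isIntegral (S := 𝓞 L) P.asIdeal
    have := hQ1
    have := hQ2
    have hQ0 : Q ≠ ⊥ := by
      rintro rfl
      have h3 := hQ2.over
      have h4 : P.asIdeal = ⊥ := by
        rw [h3, Ideal.under_bot]
      exact P.ne_bot h4
    let W : HeightOneSpectrum (𝓞 L) := ⟨Q, hQ1.isPrime, hQ0⟩
    have : W.asIdeal.LiesOver P.asIdeal := hQ2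
    refine ⟨place (FinitePlace.embedding W), Or.inr ⟨W, rfl⟩, fun x y => ?_,
      fun h => absurd h harch⟩
    rw [finitePlace_lt_iff, finitePlace_lt_iff, ← HeightOneSpectrum.valuation_liesOver L P W x,
      ← HeightOneSpectrum.valuation_liesOver L P W y]
    have he : P.asIdeal.ramificationIdx' W.asIdeal ≠ 0 :=
      Ideal.IsDedekindDomain.ramificationIdx'_ne_zero_of_liesOver W.asIdeal P.ne_bot
    exact pow_lt_pow_iff_left₀ zero_le zero_le he

end Pool.Agent.Work.MP_8d13b5_lc.Rk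

end

section

set_option autoImplicit false

/-!
Effective gap between the absolute values of roots of a small integer polynomial.
-/

namespace Pool.Agent.Work.MP_8d13b5_lc.Rk

open Height AdmissibleAbsValues Polynomial Finset

/-- height bound for the roots -/
def agH (s : ℕ) : ℕ := (s + 1) ^ s * ((s + 1) ^ s) ^ (s + 1)

/-- the gap -/
def agB (s : ℕ) : ℕ := 2 * (2 ^ s * (agH s * agH s) * (agH s * agH s)) * (agH s * agH s)

theorem agH_pos (s : ℕ) : 1 ≤ agH s := by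
  unfold agH
  exact Nat.one_le_iff_ne_zero.mpr (by positivity)

theorem elem_agH : Elem agH := by
  have h1 : Elem (fun s => (s + 1) ^ s) := (Elem.id.add (Elem.const 1)).pow Elem.id
  exact h1.mul (h1.pow (Elem.id.add (Elem.const 1)))

theorem elem_agB : Elem agB := by
  have h1 : Elem (fun s => agH s * agH s) := elem_agH.mul elem_agH
  have h2 : Elem (fun s => 2 ^ s) := (Elem.const 2).pow Elem.id
  exact ((Elem.const 2).mul ((h2.mul h1).mul h1)).mul h1

theorem root_height_le (s : ℕ) (K : Type) [Field K] [NumberField K]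
    (hK : Module.finrank ℚ K ≤ s) (χ : ℤ[X]) (hχ : χ.Monic) (hd : χ.natDegree ≤ s)
    (hc : ∀ i, |χ.coeff i| ≤ s) (x : K) (hx : aeval x χ = 0) : mulHeight₁ x ≤ agH s := by
  have hW : totalWeight K ≤ s := by rw [NumberField.totalWeight_eq_finrank]; exact hK
  have hG : χ.map (algebraMap ℤ K) ≠ 0 := (hχ.map _).ne_zero
  have h1 : (1 : ℝ) ≤ (s : ℝ) + 1 := by
    have : (0 : ℝ) ≤ s := Nat.cast_nonneg s
    linarith
  have hdeg : (χ.map (algebraMap ℤ K)).natDegree ≤ s := natDegree_map_le.trans hd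
  have h2 := height_root (χ.map (algebraMap ℤ K)) hG x
    (by rw [IsRoot.def, eval_map_algebraMap]; exact hx) (((s : ℝ) + 1) ^ s) (by
      intro i
      rw [coeff_map]
      have h3 := height_intCast (K := K) (χ.coeff i)
      rw [algebraMap_int_eq, eq_intCast]
      refine h3.trans ?_
      have h4 : max 1 |((χ.coeff i : ℤ) : ℝ)| ≤ (s : ℝ) + 1 := by
        apply max_le h1
        have h5 : |((χ.coeff i : ℤ) : ℝ)| ≤ s := by exact_mod_cast hc i
        linarith
      calc max 1 |((χ.coeff i : ℤ) : ℝ)| ^ totalWeight K ≤ ((s : ℝ) + 1) ^ totalWeight K :=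
            pow_le_pow_left₀ (le_trans zero_le_one (le_max_left _ _)) h4 _
        _ ≤ ((s : ℝ) + 1) ^ s := pow_le_pow_right₀ h1 hW)
  refine h2.trans ?_
  unfold agH
  push_cast
  have hA : (1 : ℝ) ≤ ((s : ℝ) + 1) ^ s := one_le_pow₀ h1
  have h6 : (((χ.map (algebraMap ℤ K)).natDegree : ℝ) + 1) ≤ (s : ℝ) + 1 := by
    have : ((χ.map (algebraMap ℤ K)).natDegree : ℝ) ≤ s := by exact_mod_cast hdeg
    linarith
  apply mul_le_mul
  · calc (((χ.map (algebraMap ℤ K)).natDegree : ℝ) + 1) ^ totalWeight K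
        ≤ ((s : ℝ) + 1) ^ totalWeight K := pow_le_pow_left₀ (by positivity) h6 _
      _ ≤ ((s : ℝ) + 1) ^ s := pow_le_pow_right₀ h1 hW
  · exact pow_le_pow_right₀ hA (by omega)
  · positivity
  · positivity

/-- the complex conjugate of a root comes from a root -/
theorem exists_conj_root {K : Type*} [Field K] (χ : ℤ[X]) (hχ : χ.Monic)
    (hs : (χ.map (algebraMap ℤ K)).Splits) (φ : K →+* ℂ) (x : K) (hx : aeval x χ = 0) :
    ∃ x' : K, aeval x' χ = 0 ∧ φ x' = (starRingEnd ℂ) (φ x) := by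
  have h1 : (χ.map (algebraMap ℤ K)) =
      ((χ.map (algebraMap ℤ K)).roots.map (fun a => X - C a)).prod :=
    hs.eq_prod_roots_of_monic (hχ.map _)
  have h2 : (χ.map (algebraMap ℤ ℂ)).eval ((starRingEnd ℂ) (φ x)) = 0 := by
    have h3 := aeval_algHom_apply (((starRingEnd ℂ).comp φ).toIntAlgHom) x χ
    rw [hx, map_zero] at h3
    rw [eval_map_algebraMap]
    exact h3
  have h6 : (χ.map (algebraMap ℤ ℂ)) = (χ.map (algebraMap ℤ K)).map φ := by
    rw [Polynomial.map_map]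
    congr 1
    exact (RingHom.ext_int _ _)
  rw [h6, h1, Polynomial.map_multiset_prod, eval_multiset_prod, Multiset.prod_eq_zero_iff] at h2
  simp only [Multiset.map_map, Multiset.mem_map, Function.comp_apply] at h2
  obtain ⟨a, ha, ha2⟩ := h2
  refine ⟨a, ?_, ?_⟩
  · rw [mem_roots (hχ.map _).ne_zero, IsRoot.def, eval_map_algebraMap] at ha
    exact ha
  · rw [Polynomial.map_sub, map_X, map_C, eval_sub, eval_X, eval_C, sub_eq_zero] at ha2
    exact ha2.symm

theorem arch_gap : ∃ B : ℕ → ℕ, Elem B ∧ ∀ (s : ℕ) (K : Type) [Field K] [NumberField K],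
    Module.finrank ℚ K ≤ s → ∀ χ : ℤ[X], χ.Monic → χ.natDegree ≤ s → (∀ i, |χ.coeff i| ≤ s) →
      (χ.map (algebraMap ℤ K)).Splits → ∀ v ∈ (archAbsVal : Multiset (AbsoluteValue K ℝ)),
        ∀ x y : K, aeval x χ = 0 → aeval y χ = 0 → v x < v y →
          2 ≤ B s ∧ v x ≤ (1 - 1 / (B s : ℝ)) * v y := by
  refine ⟨agB, elem_agB, ?_⟩
  intro s K _ _ hK χ hχ hd hc hs v hv x y hx hy hxy
  have hH1 : 1 ≤ agH s := agH_pos s
  have hH1' : (1 : ℝ) ≤ agH s := by exact_mod_cast hH1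
  have hB2 : 2 ≤ agB s := by
    unfold agB
    have h1 : 1 ≤ agH s * agH s := Nat.mul_pos hH1 hH1
    have h2 : 1 ≤ 2 ^ s := Nat.one_le_two_pow
    have h3 : 1 ≤ 2 ^ s * (agH s * agH s) := Nat.mul_pos h2 h1
    have h4 : 1 ≤ 2 ^ s * (agH s * agH s) * (agH s * agH s) := Nat.mul_pos h3 h1
    nlinarith
  refine ⟨hB2, ?_⟩
  have hplace : IsPlace v := Or.inl hv
  obtain ⟨φ, hφ⟩ : ∃ φ : K →+* ℂ, NumberField.place φ = v :=
    NumberField.mem_multisetInfinitePlace.mp hv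
  have hv1 : ∀ z : K, v z = ‖φ z‖ := by
    intro z
    rw [← hφ]
    rfl
  obtain ⟨x', hx', hx'2⟩ := exists_conj_root χ hχ hs φ x hx
  obtain ⟨y', hy', hy'2⟩ := exists_conj_root χ hχ hs φ y hy
  have hsq : ∀ z w : K, φ w = (starRingEnd ℂ) (φ z) → φ (z * w) = ((v z ^ 2 : ℝ) : ℂ) := by
    intro z w h
    rw [map_mul, h, Complex.mul_conj, Complex.normSq_eq_norm_sq, hv1]
  have hx0 : 0 ≤ v x := v.nonneg x
  have hy0 : 0 ≤ v y := v.nonneg y
  have hD1 : φ (y * y' - x * x') = ((v y ^ 2 - v x ^ 2 : ℝ) : ℂ) := by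
    rw [map_sub, hsq y y' hy'2, hsq x x' hx'2]
    push_cast
    ring
  have hpos : 0 < v y ^ 2 - v x ^ 2 := by
    have : v x ^ 2 < v y ^ 2 := pow_lt_pow_left₀ hxy hx0 two_ne_zero
    linarith
  have hD2 : v (y * y' - x * x') = v y ^ 2 - v x ^ 2 := by
    rw [hv1, hD1, Complex.norm_real, Real.norm_eq_abs, abs_of_pos hpos]
  have hD0 : y * y' - x * x' ≠ 0 := by
    intro h
    rw [h, map_zero] at hD2
    linarith
  have hl := liouville hplace hD0
  rw [hD2] at hl
  have hW : totalWeight K ≤ s := by rw [NumberField.totalWeight_eq_finrank]; exact hK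
  have Hx := root_height_le s K hK χ hχ hd hc x hx
  have Hy := root_height_le s K hK χ hχ hd hc y hy
  have Hx' := root_height_le s K hK χ hχ hd hc x' hx'
  have Hy' := root_height_le s K hK χ hχ hd hc y' hy'
  set h : ℝ := (agH s : ℝ) with hh
  have hprod : ∀ z w : K, mulHeight₁ z ≤ h → mulHeight₁ w ≤ h → mulHeight₁ (z * w) ≤ h * h := by
    intro z w hz hw
    exact (mulHeight₁_mul_le z w).trans
      (mul_le_mul hz hw (mulHeight₁_nonneg w) (le_trans zero_le_one hH1'))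
  have hhD : mulHeight₁ (y * y' - x * x') ≤ 2 ^ s * (h * h) * (h * h) := by
    refine (mulHeight₁_sub_le _ _).trans ?_
    apply mul_le_mul
    · apply mul_le_mul
      · exact pow_le_pow_right₀ (by norm_num) hW
      · exact hprod y y' Hy Hy'
      · exact mulHeight₁_nonneg _
      · positivity
    · exact hprod x x' Hx Hx'
    · exact mulHeight₁_nonneg _
    · positivity
  set P : ℝ := 2 ^ s * (h * h) * (h * h) with hP
  have hP1 : 1 ≤ P := by
    rw [hP]
    have h1 : (1 : ℝ) ≤ 2 ^ s := one_le_pow₀ (by norm_num)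
    have h2 : 1 ≤ h * h := one_le_mul_of_one_le_of_one_le hH1' hH1'
    exact one_le_mul_of_one_le_of_one_le (one_le_mul_of_one_le_of_one_le h1 h2) h2
  have hgap : P⁻¹ ≤ v y ^ 2 - v x ^ 2 := by
    refine le_trans ?_ hl
    exact inv_anti₀ (mulHeight₁_pos _) hhD
  have hvy : v y ≤ h := (le_height hplace y).trans Hy
  have hvy2 : v y ^ 2 ≤ h * h := by
    rw [← sq]
    exact pow_le_pow_left₀ hy0 hvy 2
  have hB : (agB s : ℝ) = 2 * P * (h * h) := by
    unfold agB
    push_cast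
    ring
  set t : ℝ := (P * (h * h))⁻¹ with ht
  have hhh : 1 ≤ h * h := one_le_mul_of_one_le_of_one_le hH1' hH1'
  have hPh : 1 ≤ P * (h * h) := one_le_mul_of_one_le_of_one_le hP1 hhh
  have ht0 : 0 < t := inv_pos.mpr (by linarith)
  have ht1 : t ≤ 1 := inv_le_one_of_one_le₀ hPh
  have hBt : 1 / (agB s : ℝ) = t / 2 := by
    rw [hB, ht, one_div]
    rw [show 2 * P * (h * h) = (P * (h * h)) * 2 by ring, mul_inv]
    rfl
  rw [hBt]
  have h1 : t * v y ^ 2 ≤ P⁻¹ := by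
    rw [ht, mul_inv]
    calc P⁻¹ * (h * h)⁻¹ * v y ^ 2 ≤ P⁻¹ * (h * h)⁻¹ * (h * h) := by
          apply mul_le_mul_of_nonneg_left hvy2 (by positivity)
      _ = P⁻¹ := by
          rw [mul_assoc, inv_mul_cancel₀ (by positivity), mul_one]
  have h2 : v x ^ 2 ≤ ((1 - t / 2) * v y) ^ 2 := by
    have h3 : v x ^ 2 ≤ (1 - t) * v y ^ 2 := by linarith
    refine h3.trans ?_
    rw [mul_pow]
    apply mul_le_mul_of_nonneg_right _ (sq_nonneg _)
    nlinarith [sq_nonneg t]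
  exact (pow_le_pow_iff_left₀ hx0 (mul_nonneg (by linarith) hy0) two_ne_zero).mp h2

end Pool.Agent.Work.MP_8d13b5_lc.Rk

end

section

set_option autoImplicit false

/-!
Nonvanishing of a sum with one dominant term.
-/

namespace Pool.Agent.Work.MP_8d13b5_lc.Rk

open Height AdmissibleAbsValues Polynomial Finset

private theorem coreOne_pow (l : ℕ) (hl : 13 ≤ l) : 2 * l ^ 3 + 5 * l ^ 2 < 2 ^ l := by
  induction l, hl using Nat.le_induction with
  | base => norm_num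
  | succ l hl ih =>
    have h1 : 2 * (l + 1) ^ 3 + 5 * (l + 1) ^ 2 ≤ 2 * (2 * l ^ 3 + 5 * l ^ 2) := by
      have h2 : 13 * l ^ 2 ≤ l ^ 3 := by
        have : l ^ 3 = l * l ^ 2 := by ring
        rw [this]
        exact Nat.mul_le_mul_right _ hl
      have h3 : 13 * l ≤ l ^ 2 := by
        have : l ^ 2 = l * l := by ring
        rw [this]
        exact Nat.mul_le_mul_right _ hl
      have h4 : 2 * (l + 1) ^ 3 + 5 * (l + 1) ^ 2 = 2 * l ^ 3 + 11 * l ^ 2 + 16 * l + 7 := by ring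
      omega
    have h5 : 2 ^ (l + 1) = 2 * 2 ^ l := by ring
    omega

/-- the numerical inequality -/
private theorem coreOne_num {s n : ℕ} (hs : 2 ≤ s) (hn : 2 ^ 13 ≤ n) (h : s ≤ Nat.log 2 n) :
    (s : ℝ) * (n + 2 : ℝ) ^ (2 * s) * (1 - 1 / (s : ℝ)) ^ n < 1 := by
  set l := Nat.log 2 n with hl
  have hn0 : n ≠ 0 := by
    have : 0 < 2 ^ 13 := by positivity
    omega
  have hl13 : 13 ≤ l := (Nat.le_log_iff_pow_le (by norm_num) hn0).2 hn
  have hle : 2 ^ l ≤ n := Nat.pow_log_le_self 2 hn0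
  have hlt : n < 2 ^ (l + 1) := Nat.lt_pow_succ_log_self (by norm_num) n
  have hs0 : (0 : ℝ) < s := by exact_mod_cast (by omega : 0 < s)
  have h1 : (s : ℝ) ≤ Real.exp s := by
    have := Real.add_one_le_exp (s : ℝ)
    linarith
  have h2 : (n + 2 : ℝ) ≤ Real.exp (l + 2) := by
    have h3 : n + 2 ≤ 2 ^ (l + 2) := by
      have : 2 ^ (l + 2) = 2 ^ (l + 1) + 2 ^ (l + 1) := by ring
      have h4 : 2 ≤ 2 ^ (l + 1) := by
        have : 2 ^ 1 ≤ 2 ^ (l + 1) := Nat.pow_le_pow_right (by norm_num) (by omega)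
        omega
      omega
    have h5 : (n + 2 : ℝ) ≤ 2 ^ (l + 2) := by exact_mod_cast h3
    refine h5.trans ?_
    have h6 : (2 : ℝ) ≤ Real.exp 1 := by
      have := Real.add_one_le_exp (1 : ℝ)
      linarith
    calc (2 : ℝ) ^ (l + 2) ≤ Real.exp 1 ^ (l + 2) := pow_le_pow_left₀ (by norm_num) h6 _
      _ = Real.exp (l + 2) := by
        rw [← Real.exp_nat_mul]
        push_cast
        rw [mul_one]
  have h3 : (1 - 1 / (s : ℝ)) ^ n ≤ Real.exp (-(n / s)) := by
    have h4 : (0 : ℝ) ≤ 1 - 1 / (s : ℝ) := by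
      rw [sub_nonneg, div_le_one hs0]
      exact_mod_cast (by omega : 1 ≤ s)
    have h5 : 1 - 1 / (s : ℝ) ≤ Real.exp (-(1 / s)) := Real.one_sub_le_exp_neg _
    calc (1 - 1 / (s : ℝ)) ^ n ≤ Real.exp (-(1 / s)) ^ n := pow_le_pow_left₀ h4 h5 _
      _ = Real.exp (-(n / s)) := by
        rw [← Real.exp_nat_mul]
        congr 1
        ring
  have h4 : (n + 2 : ℝ) ^ (2 * s) ≤ Real.exp ((2 * s) * (l + 2)) := by
    calc (n + 2 : ℝ) ^ (2 * s) ≤ Real.exp (l + 2) ^ (2 * s) :=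
          pow_le_pow_left₀ (by positivity) h2 _
      _ = Real.exp ((2 * s) * (l + 2)) := by
        rw [← Real.exp_nat_mul]
        push_cast
        rfl
  have h5 : (s : ℝ) * (n + 2 : ℝ) ^ (2 * s) * (1 - 1 / (s : ℝ)) ^ n ≤
      Real.exp s * Real.exp ((2 * s) * (l + 2)) * Real.exp (-(n / s)) := by
    have h6 : (0 : ℝ) ≤ 1 - 1 / (s : ℝ) := by
      rw [sub_nonneg, div_le_one hs0]
      exact_mod_cast (by omega : 1 ≤ s)
    gcongr
  refine lt_of_le_of_lt h5 ?_
  rw [← Real.exp_add, ← Real.exp_add, Real.exp_lt_one_iff]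
  have hsl : (s : ℝ) ≤ l := by exact_mod_cast h
  have hl0 : (0 : ℝ) < l := by exact_mod_cast (by omega : 0 < l)
  have h6 : (2 * (l : ℝ) ^ 3 + 5 * (l : ℝ) ^ 2) < n := by
    have := lt_of_lt_of_le (coreOne_pow l hl13) hle
    exact_mod_cast this
  have h7 : (n : ℝ) / l ≤ n / s := div_le_div_of_nonneg_left (Nat.cast_nonneg n) hs0 hsl
  have h8 : 2 * (l : ℝ) ^ 2 + 5 * l < n / l := by
    rw [lt_div_iff₀ hl0]
    have : (2 * (l : ℝ) ^ 2 + 5 * l) * l = 2 * (l : ℝ) ^ 3 + 5 * (l : ℝ) ^ 2 := by ring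
    rw [this]
    exact h6
  have h9 : (s : ℝ) + 2 * s * (l + 2) ≤ 2 * (l : ℝ) ^ 2 + 5 * l := by
    have h10 : (s : ℝ) * l ≤ l * l := mul_le_mul_of_nonneg_right hsl hl0.le
    nlinarith
  linarith

/-- nonvanishing of a sum when only one term dominates -/
theorem core_one : ∃ c n₀ : ℕ, ∀ (s n : ℕ), 2 ≤ s → n₀ ≤ n → s ^ c ≤ Nat.log 2 n →
    ∀ (K : Type) [Field K] [NumberField K], Module.finrank ℚ K ≤ s →
      ∀ v : AbsoluteValue K ℝ, IsPlace v →
      ∀ (S : Finset K) (p : K → K) (x₀ : K), S.card ≤ s → x₀ ∈ S →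
        (∀ x ∈ S, x ≠ 0 ∧ p x ≠ 0 ∧ mulHeight₁ (p x) ≤ (n + 2 : ℝ) ^ s) →
        (∀ x ∈ S, x ≠ x₀ → v x ≤ (1 - 1 / (s : ℝ)) * v x₀) →
          ∑ x ∈ S, p x * x ^ n ≠ 0 := by
  classical
  refine ⟨1, 2 ^ 13, ?_⟩
  intro s n hs hn hsl K _ _ _ v hv S p x₀ hS hx₀ hp hdom hsum
  rw [pow_one] at hsl
  have hnum := coreOne_num hs hn hsl
  have hs0 : (0 : ℝ) < s := by exact_mod_cast (by omega : 0 < s)
  have hq : (0 : ℝ) ≤ 1 - 1 / (s : ℝ) := by
    rw [sub_nonneg, div_le_one hs0]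
    exact_mod_cast (by omega : 1 ≤ s)
  obtain ⟨hx0, hp0, hh0⟩ := hp x₀ hx₀
  have hvx : 0 < v x₀ := v.pos hx0
  have hN : (0 : ℝ) < (n + 2 : ℝ) ^ s := by positivity
  -- the dominant term
  have h1 : ((n + 2 : ℝ) ^ s)⁻¹ ≤ v (p x₀) := by
    refine le_trans ?_ (liouville hv hp0)
    have hpos : 0 < mulHeight₁ (p x₀) := lt_of_lt_of_le one_pos (one_le_mulHeight₁ _)
    exact inv_anti₀ hpos hh0
  -- the others
  have h2 : v (∑ x ∈ S.erase x₀, p x * x ^ n) ≤
      s * ((n + 2 : ℝ) ^ s * ((1 - 1 / (s : ℝ)) ^ n * v x₀ ^ n)) := by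
    refine (v.sum_le _ _).trans ?_
    have h3 : ∀ x ∈ S.erase x₀, v (p x * x ^ n) ≤
        (n + 2 : ℝ) ^ s * ((1 - 1 / (s : ℝ)) ^ n * v x₀ ^ n) := by
      intro x hx
      obtain ⟨hxne, hxS⟩ := Finset.mem_erase.1 hx
      rw [v.map_mul, v.map_pow]
      have h4 : v (p x) ≤ (n + 2 : ℝ) ^ s := (le_height hv _).trans (hp x hxS).2.2
      have h5 : v x ^ n ≤ (1 - 1 / (s : ℝ)) ^ n * v x₀ ^ n := by
        rw [← mul_pow]
        exact pow_le_pow_left₀ (v.nonneg _) (hdom x hxS hxne) n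
      exact mul_le_mul h4 h5 (pow_nonneg (v.nonneg _) _) hN.le
    refine (Finset.sum_le_card_nsmul _ _ _ h3).trans ?_
    rw [nsmul_eq_mul]
    apply mul_le_mul_of_nonneg_right
    · have : (S.erase x₀).card ≤ s := (Finset.card_le_card (Finset.erase_subset _ _)).trans hS
      exact_mod_cast this
    · exact mul_nonneg hN.le (mul_nonneg (pow_nonneg hq _) (pow_nonneg hvx.le _))
  have h3 : p x₀ * x₀ ^ n = -∑ x ∈ S.erase x₀, p x * x ^ n := by
    rw [← Finset.add_sum_erase S (fun x => p x * x ^ n) hx₀] at hsum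
    exact eq_neg_of_add_eq_zero_left hsum
  have h4 : v (p x₀) * v x₀ ^ n ≤
      s * ((n + 2 : ℝ) ^ s * ((1 - 1 / (s : ℝ)) ^ n * v x₀ ^ n)) := by
    rw [← v.map_pow, ← v.map_mul, h3, v.map_neg]
    rw [v.map_pow]
    exact h2
  have hvn : 0 < v x₀ ^ n := pow_pos hvx n
  have h5 : v (p x₀) ≤ s * ((n + 2 : ℝ) ^ s * (1 - 1 / (s : ℝ)) ^ n) := by
    refine le_of_mul_le_mul_right (h4.trans (le_of_eq ?_)) hvn
    ring
  have h6 : 1 ≤ (s : ℝ) * (n + 2 : ℝ) ^ (2 * s) * (1 - 1 / (s : ℝ)) ^ n := by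
    have h7 := h1.trans h5
    rw [inv_le_iff_one_le_mul₀ hN] at h7
    refine h7.trans (le_of_eq ?_)
    rw [two_mul s, pow_add]
    ring
  linarith

end Pool.Agent.Work.MP_8d13b5_lc.Rk

end

section

set_option autoImplicit false

namespace Pool.Agent.Work.MP_8d13b5_lc.Rk

open Height AdmissibleAbsValues Finset

/-- an absolute value is at most the usual one on natural numbers -/
theorem abv_natCast_le {K : Type*} [Field K] (v : AbsoluteValue K ℝ) (m : ℕ) :
    v (m : K) ≤ m := by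
  induction m with
  | zero => simp
  | succ m ih =>
    push_cast
    calc v ((m : K) + 1) ≤ v (m : K) + v 1 := v.add_le _ _
      _ ≤ m + 1 := by rw [map_one]; linarith

theorem abv_pow_sub_one_le {K : Type*} [Field K] (v : AbsoluteValue K ℝ) (κ : K)
    (h : v κ = 1) (l : ℕ) : v (κ ^ l - 1) ≤ l * v (κ - 1) := by
  induction l with
  | zero => simp
  | succ l ih =>
    have h1 : κ ^ (l + 1) - 1 = κ * (κ ^ l - 1) + (κ - 1) := by ring
    rw [h1]
    calc v (κ * (κ ^ l - 1) + (κ - 1)) ≤ v (κ * (κ ^ l - 1)) + v (κ - 1) := v.add_le _ _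
      _ = v (κ ^ l - 1) + v (κ - 1) := by rw [map_mul, h, one_mul]
      _ ≤ l * v (κ - 1) + v (κ - 1) := by linarith
      _ = ((l + 1 : ℕ) : ℝ) * v (κ - 1) := by push_cast; ring

theorem abv_pow_sub_one_le_of_nonarch {K : Type*} [Field K] (v : AbsoluteValue K ℝ)
    (hv : IsNonarchimedean v) (κ : K) (h : v κ = 1) (c : ℝ) (hc : 0 ≤ c) (hκ : v (κ - 1) ≤ c)
    (l : ℕ) : v (κ ^ l - 1) ≤ c := by
  induction l with
  | zero => simpa using hc
  | succ l ih =>
    have h1 : κ ^ (l + 1) - 1 = κ * (κ ^ l - 1) + (κ - 1) := by ring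
    rw [h1]
    refine (hv _ _).trans (max_le ?_ hκ)
    rw [map_mul, h, one_mul]
    exact ih

/-- `|r^m - z^m| ≤ m 2^m |r - z|` for `|z| = 1`, `|r - z| ≤ 1` -/
theorem abv_pow_sub_pow_le {K : Type*} [Field K] (v : AbsoluteValue K ℝ) (r z : K)
    (hz : v z = 1) (h : v (r - z) ≤ 1) (m : ℕ) :
    v (r ^ m - z ^ m) ≤ m * 2 ^ m * v (r - z) := by
  have hr : v r ≤ 2 := by
    calc v r = v ((r - z) + z) := by rw [sub_add_cancel]
      _ ≤ v (r - z) + v z := v.add_le _ _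
      _ ≤ 2 := by rw [hz]; linarith
  induction m with
  | zero => simp
  | succ m ih =>
    have h1 : r ^ (m + 1) - z ^ (m + 1) = r ^ m * (r - z) + z * (r ^ m - z ^ m) := by ring
    rw [h1]
    have h0 := v.nonneg (r - z)
    calc v (r ^ m * (r - z) + z * (r ^ m - z ^ m))
        ≤ v (r ^ m * (r - z)) + v (z * (r ^ m - z ^ m)) := v.add_le _ _
      _ = v r ^ m * v (r - z) + v (r ^ m - z ^ m) := by rw [map_mul, map_mul, map_pow, hz, one_mul]
      _ ≤ 2 ^ m * v (r - z) + m * 2 ^ m * v (r - z) := by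
          gcongr
      _ = (m + 1) * 2 ^ m * v (r - z) := by ring
      _ ≤ ((m + 1 : ℕ) : ℝ) * 2 ^ (m + 1) * v (r - z) := by
          push_cast
          have : (2 : ℝ) ^ m ≤ 2 ^ (m + 1) := pow_le_pow_right₀ (by norm_num) (by omega)
          gcongr

/-- absolute value of a determinant with bounded entries -/
theorem abv_det_le {K : Type*} [Field K] (v : AbsoluteValue K ℝ) {ι : Type*} [Fintype ι]
    [DecidableEq ι] (A : Matrix ι ι K) (c : ℝ) (h : ∀ i j, v (A i j) ≤ c) :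
    v A.det ≤ (Fintype.card ι).factorial * c ^ Fintype.card ι := by
  rw [Matrix.det_apply]
  refine (v.sum_le _ _).trans ?_
  calc ∑ σ : Equiv.Perm ι, v (Equiv.Perm.sign σ • ∏ i, A (σ i) i)
      ≤ ∑ _σ : Equiv.Perm ι, c ^ Fintype.card ι := by
        refine sum_le_sum fun σ _ => ?_
        have h1 : v (Equiv.Perm.sign σ • ∏ i, A (σ i) i) = ∏ i, v (A (σ i) i) := by
          rcases Int.units_eq_one_or (Equiv.Perm.sign σ) with h | h
          · rw [h, one_smul, map_prod]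
          · rw [h, Units.neg_smul, one_smul, v.map_neg, map_prod]
        rw [h1]
        calc ∏ i, v (A (σ i) i) ≤ ∏ _i : ι, c :=
              prod_le_prod (fun i _ => v.nonneg _) fun i _ => h _ _
          _ = c ^ Fintype.card ι := by rw [prod_const, card_univ]
    _ = (Fintype.card ι).factorial * c ^ Fintype.card ι := by
        rw [sum_const, card_univ, Fintype.card_perm, nsmul_eq_mul]

theorem abv_det_le_of_nonarch {K : Type*} [Field K] (v : AbsoluteValue K ℝ)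
    (hv : IsNonarchimedean v) {ι : Type*} [Fintype ι]
    [DecidableEq ι] (A : Matrix ι ι K) (c : ℝ) (hc : 0 ≤ c) (h : ∀ i j, v (A i j) ≤ c) :
    v A.det ≤ c ^ Fintype.card ι := by
  rw [Matrix.det_apply]
  have h2 : ∀ σ : Equiv.Perm ι, v (Equiv.Perm.sign σ • ∏ i, A (σ i) i) ≤ c ^ Fintype.card ι := by
    intro σ
    have h1 : v (Equiv.Perm.sign σ • ∏ i, A (σ i) i) = ∏ i, v (A (σ i) i) := by
      rcases Int.units_eq_one_or (Equiv.Perm.sign σ) with h | h
      · rw [h, one_smul, map_prod]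
      · rw [h, Units.neg_smul, one_smul, v.map_neg, map_prod]
    rw [h1]
    calc ∏ i, v (A (σ i) i) ≤ ∏ _i : ι, c :=
          prod_le_prod (fun i _ => v.nonneg _) fun i _ => h _ _
      _ = c ^ Fintype.card ι := by rw [prod_const, card_univ]
  have hcn : 0 ≤ c ^ Fintype.card ι := pow_nonneg hc _
  have key : ∀ s : Finset (Equiv.Perm ι),
      v (∑ σ ∈ s, Equiv.Perm.sign σ • ∏ i, A (σ i) i) ≤ c ^ Fintype.card ι := by
    intro s
    classical
    induction s using Finset.induction_on with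
    | empty => simpa using hcn
    | insert a s ha ih =>
      rw [sum_insert ha]
      exact (hv _ _).trans (max_le (h2 a) ih)
  exact key _

/-- the matrix of the interpolation determinant -/
def intMat {K : Type*} [Field K] (κ r : K) (n : ℕ) {k L : ℕ} (c : Fin k × Fin L → ℕ × ℕ) :
    Matrix (Fin k × Fin L) (Fin k × Fin L) K :=
  Matrix.of fun i j : Fin k × Fin L =>
    ((((c j).1 + n * (c j).2).choose i.1 : ℕ) : K) * κ ^ ((i.2 : ℕ) * (c j).1) *
      r ^ ((i.2 : ℕ) * (c j).2)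

theorem abv_pow_le_max {K : Type*} [Field K] (w : AbsoluteValue K ℝ) (x : K) {e E : ℕ}
    (h : e ≤ E) : w x ^ e ≤ (max (w x) 1) ^ E :=
  (pow_le_pow_left₀ (w.nonneg x) (le_max_left _ _) e).trans
    (pow_le_pow_right₀ (le_max_right _ _) h)

theorem entry_le {K : Type*} [Field K] (w : AbsoluteValue K ℝ) (κ r : K) (n L T S k : ℕ)
    (c : Fin k × Fin L → ℕ × ℕ) (hc : ∀ j, (c j).1 < S + L ∧ (c j).2 < T) (C : ℝ)
    (hC : 0 ≤ C) (hw : ∀ i j : Fin k × Fin L,
      w ((((c j).1 + n * (c j).2).choose i.1 : ℕ) : K) ≤ C) (i j : Fin k × Fin L) :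
    w (intMat κ r n c i j) ≤
      C * ((max (w κ) 1) ^ (L * (S + L)) * (max (w r) 1) ^ (L * T)) := by
  unfold intMat
  rw [Matrix.of_apply, map_mul, map_mul, map_pow, map_pow, mul_assoc]
  have h1 : (i.2 : ℕ) * (c j).1 ≤ L * (S + L) :=
    Nat.mul_le_mul i.2.2.le (hc j).1.le
  have h2 : (i.2 : ℕ) * (c j).2 ≤ L * T := Nat.mul_le_mul i.2.2.le (hc j).2.le
  have h3 := abv_pow_le_max w κ h1
  have h4 := abv_pow_le_max w r h2
  have := w.nonneg κ
  have := w.nonneg r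
  have := hw i j
  gcongr

theorem choose_le_pow_of {y Y i k : ℕ} (hy : y ≤ Y) (hi : i ≤ k) (hY : 1 ≤ Y) :
    y.choose i ≤ Y ^ k :=
  (Nat.choose_le_pow y i).trans ((Nat.pow_le_pow_left hy i).trans (Nat.pow_le_pow_right hY hi))

theorem height_intMat_det_le {K : Type*} [Field K] [AdmissibleAbsValues K] (κ r : K)
    (n L T S k Y : ℕ) (c : Fin k × Fin L → ℕ × ℕ) (hc : ∀ j, (c j).1 < S + L ∧ (c j).2 < T)
    (hY : S + L + n * T ≤ Y) (hY1 : 1 ≤ Y) :
    mulHeight₁ (intMat κ r n c).det ≤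
      (((k * L).factorial : ℝ) * (Y : ℝ) ^ (k * (k * L))) ^ totalWeight K *
        (mulHeight₁ κ ^ (L * (S + L) * (k * L)) * mulHeight₁ r ^ (L * T * (k * L))) := by
  have hcard : Fintype.card (Fin k × Fin L) = k * L := by simp
  have hy : ∀ j, (c j).1 + n * (c j).2 ≤ Y := by
    intro j
    have h1 := (hc j).1.le
    have h2 := Nat.mul_le_mul_left n (hc j).2.le
    omega
  have hY1' : (1 : ℝ) ≤ Y := by exact_mod_cast hY1
  have hf1 : (1 : ℝ) ≤ ((k * L).factorial : ℝ) := by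
    exact_mod_cast Nat.one_le_iff_ne_zero.2 (Nat.factorial_ne_zero _)
  have h := height_le_family (intMat κ r n c).det ![κ, r]
    ![L * (S + L) * (k * L), L * T * (k * L)]
    (((k * L).factorial : ℝ) * (Y : ℝ) ^ (k * (k * L)))
    (by
      have : (1 : ℝ) ≤ (Y : ℝ) ^ (k * (k * L)) := one_le_pow₀ hY1'
      nlinarith) ?_ ?_
  · simpa using h
  · intro w _
    have h1 := abv_det_le w (intMat κ r n c)
      ((Y : ℝ) ^ k * ((max (w κ) 1) ^ (L * (S + L)) * (max (w r) 1) ^ (L * T))) (fun i j =>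
        entry_le w κ r n L T S k c hc _ (by positivity) (fun i j =>
          (abv_natCast_le w _).trans (by
            exact_mod_cast choose_le_pow_of (hy j) i.1.2.le hY1)) i j)
    rw [hcard] at h1
    refine h1.trans (le_of_eq ?_)
    simp only [Fin.prod_univ_two, Matrix.cons_val_zero, Matrix.cons_val_one]
    rw [mul_pow, mul_pow, ← pow_mul, ← pow_mul, ← pow_mul]
    ring
  · intro w hw
    have hna := isNonarchimedean w hw
    have h1 := abv_det_le_of_nonarch w hna (intMat κ r n c)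
      (1 * ((max (w κ) 1) ^ (L * (S + L)) * (max (w r) 1) ^ (L * T))) (by positivity)
      (fun i j => entry_le w κ r n L T S k c hc _ (by positivity) (fun i j =>
        IsNonarchimedean.apply_natCast_le_one hna) i j)
    rw [hcard] at h1
    refine h1.trans (le_of_eq ?_)
    simp only [Fin.prod_univ_two, Matrix.cons_val_zero, Matrix.cons_val_one]
    rw [one_mul, mul_pow, ← pow_mul, ← pow_mul]

/-- row bound used in both cases -/
theorem row_bound {K : Type*} [Field K] [AdmissibleAbsValues K] (v : AbsoluteValue K ℝ)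
    (κ : K) (hvκ : v κ = 1) (n a₁ a₂ lam L T S k Y X : ℕ) (hk : 1 ≤ k) (hlam : 20 ≤ lam)
    (hY : Y = S + L + n * T) (hY1 : 1 ≤ Y) (hYl : Y ≤ 2 ^ (4 * lam))
    (hX : 2 * (L * ((S + L) * a₁ + T * a₂)) ≤ X)
    (hδ : (v (κ - 1) ≤ a₁ ∧ v (κ - 1) * n ≤ a₂) ∨
      (v ∈ (nonarchAbsVal : Set (AbsoluteValue K ℝ)) ∧ v (κ - 1) ≤ 1 / 2)) :
    ∃ β : ℕ → ℝ, (∀ m y, y ≤ Y → v ((y.choose m : ℕ) : K) ≤ β m) ∧
      ∀ (l i : ℕ), l ≤ L → i < k →
        ∑ m ∈ range (Y + 1), v (rowCoeff (κ ^ l - 1) i m) * 2 ^ m * β m ≤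
          (2 : ℝ) ^ (5 * lam * k + 2 * X) := by
  have hYl' : (Y : ℝ) ≤ 2 ^ (4 * lam) := by exact_mod_cast hYl
  have hY1' : (1 : ℝ) ≤ Y := by exact_mod_cast hY1
  rcases hδ with ⟨h1, h2⟩ | ⟨h1, h2⟩
  · refine ⟨fun m => (Y : ℝ) ^ m / m.factorial, ?_, ?_⟩
    · intro m y hy
      refine (abv_natCast_le v _).trans ?_
      refine (Nat.choose_le_pow_div m y).trans ?_
      have h3 : (y : ℝ) ≤ Y := by exact_mod_cast hy
      show (y : ℝ) ^ m / m.factorial ≤ (Y : ℝ) ^ m / m.factorial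
      gcongr
    · intro l i hl hi
      have hz : v (1 + (κ ^ l - 1)) = 1 := by
        rw [add_sub_cancel, map_pow, hvκ, one_pow]
      refine (row_arch v (κ ^ l - 1) hz i Y (Y + 1) hY1).trans ?_
      have hδ0 := v.nonneg (κ - 1)
      have hvz : v (κ ^ l - 1) ≤ L * v (κ - 1) :=
        (abv_pow_sub_one_le v κ hvκ l).trans (by
          have : (l : ℝ) ≤ L := by exact_mod_cast hl
          gcongr)
      have hexp : 2 * (Y : ℝ) * v (κ ^ l - 1) ≤ X := by
        have e1 : (Y : ℝ) = S + L + n * T := by rw [hY]; push_cast; ring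
        have e2 : (Y : ℝ) * v (κ - 1) ≤ (S + L) * a₁ + T * a₂ := by
          rw [e1]
          have : ((S : ℝ) + L + n * T) * v (κ - 1) =
              (S + L) * v (κ - 1) + T * (v (κ - 1) * n) := by ring
          rw [this]
          gcongr
        have e3 : (2 : ℝ) * (L * ((S + L) * a₁ + T * a₂)) ≤ X := by exact_mod_cast hX
        calc 2 * (Y : ℝ) * v (κ ^ l - 1) ≤ 2 * (Y : ℝ) * (L * v (κ - 1)) := by gcongr
          _ = 2 * (L * ((Y : ℝ) * v (κ - 1))) := by ring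
          _ ≤ 2 * (L * ((S + L) * a₁ + T * a₂)) := by gcongr
          _ ≤ X := e3
      have hE : Real.exp (2 * Y * v (κ ^ l - 1)) ≤ 2 ^ (2 * X) := by
        calc Real.exp (2 * Y * v (κ ^ l - 1)) ≤ Real.exp X := Real.exp_le_exp.2 hexp
          _ = Real.exp 1 ^ X := by rw [← Real.exp_nat_mul, mul_one]
          _ ≤ 4 ^ X := by
              have := Real.exp_one_lt_d9
              gcongr
              linarith
          _ = 2 ^ (2 * X) := by rw [pow_mul]; norm_num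
      have h2Y : (2 * (Y : ℝ)) ^ i ≤ 2 ^ (5 * lam * k) := by
        calc (2 * (Y : ℝ)) ^ i ≤ (2 * Y) ^ k :=
              pow_le_pow_right₀ (by linarith) hi.le
          _ ≤ (2 ^ (5 * lam)) ^ k := by
              gcongr
              calc 2 * (Y : ℝ) ≤ 2 * 2 ^ (4 * lam) := by gcongr
                _ = 2 ^ (4 * lam + 1) := by rw [pow_succ]; ring
                _ ≤ 2 ^ (5 * lam) := pow_le_pow_right₀ (by norm_num) (by omega)
          _ = 2 ^ (5 * lam * k) := by rw [← pow_mul]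
      calc (2 * (Y : ℝ)) ^ i * Real.exp (2 * Y * v (κ ^ l - 1))
          ≤ 2 ^ (5 * lam * k) * 2 ^ (2 * X) := by gcongr
        _ = 2 ^ (5 * lam * k + 2 * X) := by rw [← pow_add]
  · have hna := isNonarchimedean v h1
    refine ⟨fun _ => 1, ?_, ?_⟩
    · intro m y _
      exact IsNonarchimedean.apply_natCast_le_one hna
    · intro l i hl hi
      have hz : v (κ ^ l - 1) ≤ 1 / 2 :=
        abv_pow_sub_one_le_of_nonarch v hna κ hvκ (1 / 2) (by norm_num) h2 l
      refine (row_nonarch v hna _ hz i (Y + 1)).trans ?_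
      calc (2 : ℝ) ^ i * ((Y + 1 : ℕ) : ℝ) ≤ 2 ^ k * 2 ^ (4 * lam + 1) := by
            have e1 : (2 : ℝ) ^ i ≤ 2 ^ k := pow_le_pow_right₀ (by norm_num) hi.le
            have e2 : ((Y + 1 : ℕ) : ℝ) ≤ 2 ^ (4 * lam + 1) := by
              push_cast
              rw [pow_succ]
              linarith
            gcongr
        _ = 2 ^ (k + (4 * lam + 1)) := by rw [← pow_add]
        _ ≤ 2 ^ (5 * lam * k + 2 * X) := by
            refine pow_le_pow_right₀ (by norm_num) ?_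
            nlinarith

/-- the error term: `C(y,i) κ^(ls) (r^(lt) - κ^(nlt))` -/
theorem err_bound {K : Type*} [Field K] (v : AbsoluteValue K ℝ) (κ r : K) (hvκ : v κ = 1)
    (n L T k Y N lam : ℕ) (hY1 : 1 ≤ Y) (hYl : Y ≤ 2 ^ (4 * lam))
    (hN : 4 * lam * k + 2 * (L * T) ≤ 2 * N) (hlt : v (r - κ ^ n) ≤ (1 / 8) ^ N)
    (i l s t : ℕ) (hi : i < k) (hl : l ≤ L) (ht : t ≤ T) (y : ℕ) (hy : y ≤ Y) :
    v (((y.choose i : ℕ) : K) * κ ^ (l * s) * r ^ (l * t) -
      ((y.choose i : ℕ) : K) * κ ^ (l * s) * (κ ^ n) ^ (l * t)) ≤ (1 / 2) ^ N := by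
  have hYl' : (Y : ℝ) ≤ 2 ^ (4 * lam) := by exact_mod_cast hYl
  have h1 : v (r - κ ^ n) ≤ 1 := hlt.trans (pow_le_one₀ (by norm_num) (by norm_num))
  have hz : v (κ ^ n) = 1 := by rw [map_pow, hvκ, one_pow]
  rw [← mul_sub, map_mul, map_mul, map_pow, hvκ, one_pow, mul_one]
  have h2 := abv_pow_sub_pow_le v r (κ ^ n) hz h1 (l * t)
  have h3 : v ((y.choose i : ℕ) : K) ≤ 2 ^ (4 * lam * k) := by
    calc v ((y.choose i : ℕ) : K) ≤ ((y.choose i : ℕ) : ℝ) := abv_natCast_le v _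
      _ ≤ ((Y ^ k : ℕ) : ℝ) := by exact_mod_cast choose_le_pow_of hy hi.le hY1
      _ = (Y : ℝ) ^ k := by push_cast; ring
      _ ≤ (2 ^ (4 * lam)) ^ k := by gcongr
      _ = 2 ^ (4 * lam * k) := by rw [← pow_mul]
  have h4 : (((l * t : ℕ) : ℝ)) * 2 ^ (l * t) ≤ 2 ^ (2 * (L * T)) := by
    have e1 : (((l * t : ℕ) : ℝ)) ≤ 2 ^ (l * t) := by
      exact_mod_cast Nat.lt_two_pow_self.le
    calc (((l * t : ℕ) : ℝ)) * 2 ^ (l * t) ≤ 2 ^ (l * t) * 2 ^ (l * t) := by gcongr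
      _ = 2 ^ (2 * (l * t)) := by rw [← pow_add]; ring_nf
      _ ≤ 2 ^ (2 * (L * T)) := by
          refine pow_le_pow_right₀ (by norm_num) ?_
          exact Nat.mul_le_mul_left 2 (Nat.mul_le_mul hl ht)
  calc v ((y.choose i : ℕ) : K) * v (r ^ (l * t) - (κ ^ n) ^ (l * t))
      ≤ 2 ^ (4 * lam * k) * ((((l * t : ℕ) : ℝ)) * 2 ^ (l * t) * v (r - κ ^ n)) := by
        gcongr
    _ ≤ 2 ^ (4 * lam * k) * (2 ^ (2 * (L * T)) * (1 / 8) ^ N) := by gcongr
    _ = 2 ^ (4 * lam * k + 2 * (L * T)) * (1 / 8) ^ N := by rw [pow_add]; ring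
    _ ≤ 2 ^ (2 * N) * (1 / 8) ^ N := by
        gcongr
        · norm_num
    _ = (1 / 2) ^ N := by
        rw [pow_mul, ← mul_pow]; norm_num

theorem numeric_gl (W a₁ a₂ lam : ℕ) (hW : 1 ≤ W) (ha₁ : 1 ≤ a₁) (ha₂ : 1 ≤ a₂)
    (hlam : 20 ≤ lam) (L T S k X N ρ Q : ℕ) (hL : L = 3000 * W * lam) (hT : T = 100 * L * a₁)
    (hS : S = 100 * L * a₂) (hk : k = 5000 * L * a₁ * a₂) (hX : X = 402 * (L ^ 2 * a₁ * a₂))
    (hN : N = 5000 * L ^ 2 * a₁ * a₂) (hρ : ρ = 5 * lam * k + 2 * X)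
    (hQ : Q = 1 + 3 * lam + ρ + (3 * lam + 4 * lam * k) * W + a₁ * (L * (S + L)) +
      a₂ * (L * T)) :
    2 * Q + 1 < N ∧ 4 * lam * k + 2 * (L * T) ≤ 2 * N ∧
      2 * (L * ((S + L) * a₁ + T * a₂)) ≤ X := by
  obtain ⟨P, hP⟩ : ∃ P, P = W * lam := ⟨_, rfl⟩
  have hLP : L = 3000 * P := by rw [hL, hP]; ring
  have hlP : lam ≤ P := by rw [hP]; exact Nat.le_mul_of_pos_left _ hW
  have hP20 : 20 ≤ P := hlam.trans hlP
  obtain ⟨Θ, hΘ⟩ : ∃ Θ, Θ = L ^ 2 * a₁ * a₂ := ⟨_, rfl⟩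
  have ha : 1 ≤ a₁ * a₂ := Nat.mul_pos ha₁ ha₂
  have hL1 : 60000 ≤ L := by rw [hLP]; omega
  have hLΘ : L * L ≤ Θ := by
    rw [hΘ, mul_assoc, sq]
    exact Nat.le_mul_of_pos_right _ ha
  have hL2Θ : L * L * a₁ ≤ Θ := by
    rw [hΘ, sq]
    exact Nat.le_mul_of_pos_right _ ha₂
  have hLL : L ≤ L * L := Nat.le_mul_of_pos_left _ (by omega)
  have hPk : 3000 * (P * k) = 5000 * Θ := by
    rw [hΘ, hk, hLP]; ring
  have hlk : lam * k ≤ P * k := Nat.mul_le_mul_right _ hlP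
  have hlkW : lam * k * W = P * k := by rw [hP]; ring
  have hlW : lam * W = P := by rw [hP]; ring
  have e1 : a₁ * (L * (S + L)) = 100 * Θ + L * L * a₁ := by
    rw [hΘ, hS]; ring
  have e2 : a₂ * (L * T) = 100 * Θ := by rw [hΘ, hT]; ring
  have e3 : L * T = 100 * (L * L * a₁) := by rw [hT]; ring
  have e4 : N = 5000 * Θ := by rw [hN, hΘ]; ring
  have e5 : X = 402 * Θ := by rw [hX, hΘ]
  have e6 : L * ((S + L) * a₁ + T * a₂) = 200 * Θ + L * L * a₁ := by
    rw [hΘ, hS, hT]; ring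
  have e7 : (3 * lam + 4 * lam * k) * W = 3 * P + 4 * (P * k) := by
    rw [← hlkW, ← hlW]; ring
  refine ⟨?_, ?_, ?_⟩
  · rw [hQ, e7, e1, e2, hρ, e5, e4]
    have : 5 * lam * k = 5 * (lam * k) := by ring
    rw [this]
    omega
  · rw [e3, e4]
    have : 4 * lam * k = 4 * (lam * k) := by ring
    rw [this]
    omega
  · rw [e6, e5]
    omega

/-- Baker type lower bound from interpolation determinants -/
theorem gl {K : Type*} [Field K] [CharZero K] [AdmissibleAbsValues K] (v : AbsoluteValue K ℝ)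
    (hv : IsPlace v) (κ r : K) (hr : r ≠ 0) (hκ0 : κ ≠ 0) (hκ : ∀ m : ℕ, 0 < m → κ ^ m ≠ 1)
    (hvκ : v κ = 1) (n W a₁ a₂ lam : ℕ) (hW : 1 ≤ W) (hWK : totalWeight K ≤ W)
    (ha₁ : 1 ≤ a₁) (ha₂ : 1 ≤ a₂) (hκH : mulHeight₁ κ ≤ 2 ^ a₁) (hrH : mulHeight₁ r ≤ 2 ^ a₂)
    (hδ : (v (κ - 1) ≤ a₁ ∧ v (κ - 1) * n ≤ a₂) ∨
      (v ∈ (nonarchAbsVal : Set (AbsoluteValue K ℝ)) ∧ v (κ - 1) ≤ 1 / 2))
    (hlam : 20 ≤ lam) (hlW : W ≤ 2 ^ lam) (hla : a₁ ≤ 2 ^ lam) (hln : n ≤ 2 ^ lam)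
    (hn : 100 * (3000 * W * lam) * a₂ ≤ n) :
    (1 / 8 : ℝ) ^ (5000 * (3000 * W * lam) ^ 2 * a₁ * a₂) ≤ v (r - κ ^ n) := by
  obtain ⟨L, hL⟩ : ∃ L, L = 3000 * W * lam := ⟨_, rfl⟩
  obtain ⟨T, hT⟩ : ∃ T, T = 100 * L * a₁ := ⟨_, rfl⟩
  obtain ⟨S, hS⟩ : ∃ S, S = 100 * L * a₂ := ⟨_, rfl⟩
  obtain ⟨k, hk⟩ : ∃ k, k = 5000 * L * a₁ * a₂ := ⟨_, rfl⟩
  obtain ⟨X, hX⟩ : ∃ X, X = 402 * (L ^ 2 * a₁ * a₂) := ⟨_, rfl⟩
  obtain ⟨N, hN⟩ : ∃ N, N = 5000 * L ^ 2 * a₁ * a₂ := ⟨_, rfl⟩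
  obtain ⟨ρ, hρ⟩ : ∃ ρ, ρ = 5 * lam * k + 2 * X := ⟨_, rfl⟩
  obtain ⟨Q, hQ⟩ : ∃ Q, Q = 1 + 3 * lam + ρ + (3 * lam + 4 * lam * k) * W +
    a₁ * (L * (S + L)) + a₂ * (L * T) := ⟨_, rfl⟩
  obtain ⟨hnum1, hnum2, hnum3⟩ := numeric_gl W a₁ a₂ lam hW ha₁ ha₂ hlam L T S k X N ρ Q hL hT hS
    hk hX hN hρ hQ
  rw [← hL, ← hN]
  rw [← hL] at hn
  by_contra hlt'
  have hlt : v (r - κ ^ n) ≤ (1 / 8) ^ N := (not_le.1 hlt').le
  have hL0 : 0 < L := by rw [hL]; positivity
  have hk0 : 0 < k := by rw [hk]; positivity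
  have hSn : S ≤ n := by rw [hS]; exact hn
  have hkL : k * L = N := by rw [hk, hN]; ring
  have hcount : (k - 1) * L < S * T := by
    have h1 : (k - 1) * L < k * L := Nat.mul_lt_mul_of_pos_right (by omega) hL0
    have h2 : k * L ≤ S * T := by
      have e1 : k * L = 5000 * (L ^ 2 * a₁ * a₂) := by rw [hkL, hN]; ring
      have e2 : S * T = 10000 * (L ^ 2 * a₁ * a₂) := by rw [hS, hT]; ring
      rw [e1, e2]
      omega
    omega
  obtain ⟨c, hc, hdet⟩ := exists_minor κ r hκ0 hκ hr n L T S k hSn hL0 hk0 hcount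
  obtain ⟨Y, hY⟩ : ∃ Y, Y = S + L + n * T := ⟨_, rfl⟩
  have hLn : 100 * L ≤ n := (Nat.le_mul_of_pos_right _ ha₂).trans hn
  have hY1 : 1 ≤ Y := by rw [hY]; omega
  have hnTn : n * T ≤ 2 ^ (3 * lam) := by
    calc n * T = n * (100 * L) * a₁ := by rw [hT]; ring
      _ ≤ 2 ^ lam * 2 ^ lam * 2 ^ lam := by
          refine Nat.mul_le_mul (Nat.mul_le_mul hln (hLn.trans hln)) hla
      _ = 2 ^ (3 * lam) := by rw [← pow_add, ← pow_add]; ring_nf
  have hYl : Y ≤ 2 ^ (4 * lam) := by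
    have h1 : 2 ^ lam ≤ 2 ^ (3 * lam) := Nat.pow_le_pow_right (by norm_num) (by omega)
    have h2 : 3 * 2 ^ (3 * lam) ≤ 2 ^ (4 * lam) := by
      have : 2 ^ (4 * lam) = 2 ^ (3 * lam) * 2 ^ lam := by rw [← pow_add]; ring_nf
      rw [this, mul_comm]
      have h4 : 4 ≤ 2 ^ lam := by
        calc 4 = 2 ^ 2 := by norm_num
          _ ≤ 2 ^ lam := Nat.pow_le_pow_right (by norm_num) (by omega)
      exact Nat.mul_le_mul_left _ (by omega)
    rw [hY]
    omega
  have hNl : N ≤ 2 ^ (3 * lam) := by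
    have e1 : 2 * N = (100 * L * a₂) * (100 * L) * a₁ := by rw [hN]; ring
    have e2 : (100 * L * a₂) * (100 * L) * a₁ ≤ 2 ^ lam * 2 ^ lam * 2 ^ lam :=
      Nat.mul_le_mul (Nat.mul_le_mul (hn.trans hln) (hLn.trans hln)) hla
    have e3 : 2 ^ lam * 2 ^ lam * 2 ^ lam = 2 ^ (3 * lam) := by
      rw [← pow_add, ← pow_add]; ring_nf
    omega
  have hN0 : 0 < N := by omega
  -- the determinant
  have hdet' : (intMat κ r n c).det ≠ 0 := hdet
  have hcard : Fintype.card (Fin k × Fin L) = N := by simp [hkL]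
  have hfac : ((N.factorial : ℕ) : ℝ) ≤ 2 ^ (3 * lam * N) := by
    calc ((N.factorial : ℕ) : ℝ) ≤ ((N ^ N : ℕ) : ℝ) := by
          exact_mod_cast Nat.factorial_le_pow N
      _ = (N : ℝ) ^ N := by push_cast; ring
      _ ≤ (2 ^ (3 * lam)) ^ N := by
          have : (N : ℝ) ≤ 2 ^ (3 * lam) := by exact_mod_cast hNl
          gcongr
      _ = 2 ^ (3 * lam * N) := by rw [← pow_mul]
  have hYl' : (Y : ℝ) ≤ 2 ^ (4 * lam) := by exact_mod_cast hYl
  -- lower bound
  have hlow : ((2 : ℝ) ^ (((3 * lam + 4 * lam * k) * W + a₁ * (L * (S + L)) +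
      a₂ * (L * T)) * N))⁻¹ ≤ v (intMat κ r n c).det := by
    refine le_trans ?_ (liouville hv hdet')
    refine inv_anti₀ (mulHeight₁_pos _) ?_
    refine (height_intMat_det_le κ r n L T S k Y c hc hY.ge hY1).trans ?_
    rw [hkL]
    have e1 : ((N.factorial : ℝ) * (Y : ℝ) ^ (k * N)) ^ totalWeight K ≤
        2 ^ (((3 * lam + 4 * lam * k) * W) * N) := by
      calc ((N.factorial : ℝ) * (Y : ℝ) ^ (k * N)) ^ totalWeight K
          ≤ (2 ^ (3 * lam * N) * (2 ^ (4 * lam)) ^ (k * N)) ^ totalWeight K := by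
            gcongr
        _ = (2 ^ ((3 * lam + 4 * lam * k) * N)) ^ totalWeight K := by
            rw [← pow_mul, ← pow_add]; ring_nf
        _ ≤ (2 ^ ((3 * lam + 4 * lam * k) * N)) ^ W :=
            pow_le_pow_right₀ (one_le_pow₀ (by norm_num)) hWK
        _ = 2 ^ (((3 * lam + 4 * lam * k) * W) * N) := by rw [← pow_mul]; ring_nf
    have e2 : mulHeight₁ κ ^ (L * (S + L) * N) ≤ 2 ^ (a₁ * (L * (S + L)) * N) := by
      calc mulHeight₁ κ ^ (L * (S + L) * N) ≤ (2 ^ a₁) ^ (L * (S + L) * N) := by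
            have := mulHeight₁_nonneg κ
            gcongr
        _ = 2 ^ (a₁ * (L * (S + L)) * N) := by rw [← pow_mul]; ring_nf
    have e3 : mulHeight₁ r ^ (L * T * N) ≤ 2 ^ (a₂ * (L * T) * N) := by
      calc mulHeight₁ r ^ (L * T * N) ≤ (2 ^ a₂) ^ (L * T * N) := by
            have := mulHeight₁_nonneg r
            gcongr
        _ = 2 ^ (a₂ * (L * T) * N) := by rw [← pow_mul]; ring_nf
    calc ((N.factorial : ℝ) * (Y : ℝ) ^ (k * N)) ^ totalWeight K *
          (mulHeight₁ κ ^ (L * (S + L) * N) * mulHeight₁ r ^ (L * T * N))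
        ≤ 2 ^ (((3 * lam + 4 * lam * k) * W) * N) *
          (2 ^ (a₁ * (L * (S + L)) * N) * 2 ^ (a₂ * (L * T) * N)) := by
          have h1 := mulHeight₁_nonneg κ
          have h2 := mulHeight₁_nonneg r
          gcongr
      _ = 2 ^ (((3 * lam + 4 * lam * k) * W + a₁ * (L * (S + L)) + a₂ * (L * T)) * N) := by
          rw [← pow_add, ← pow_add]; ring_nf
  -- upper bound
  obtain ⟨β, hβ, hrow⟩ := row_bound v κ hvκ n a₁ a₂ lam L T S k Y X hk0 hlam hY hY1 hYl hnum3 hδ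
  have hyY : ∀ j, (c j).1 + n * (c j).2 ≤ Y := by
    intro j
    have h1 := (hc j).1.le
    have h2 := Nat.mul_le_mul_left n (hc j).2.le
    omega
  have hup := det_bound v (Y + 1) (fun j : Fin k × Fin L => (c j).1 + n * (c j).2)
    (fun i m => rowCoeff (κ ^ (i.2 : ℕ) - 1) i.1 m) (intMat κ r n c)
    (Matrix.of fun i j : Fin k × Fin L =>
      ((((c j).1 + n * (c j).2).choose i.1 : ℕ) : K) * κ ^ ((i.2 : ℕ) * (c j).1) *
        r ^ ((i.2 : ℕ) * (c j).2) -
      ((((c j).1 + n * (c j).2).choose i.1 : ℕ) : K) * κ ^ ((i.2 : ℕ) * (c j).1) *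
        (κ ^ n) ^ ((i.2 : ℕ) * (c j).2))
    β (fun m j => hβ m _ (hyY j)) (2 ^ ρ) (one_le_pow₀ (by norm_num))
    (fun i => by
      rw [hρ]
      exact hrow i.2 i.1 i.2.2.le i.1.2)
    (fun i j => by
      rw [hcard, Matrix.of_apply]
      exact err_bound v κ r hvκ n L T k Y N lam hY1 hYl hnum2 hlt i.1 i.2 (c j).1 (c j).2
        i.1.2 i.2.2.le (hc j).2.le _ (hyY j))
    (fun i j => by
      have h1 := row_identity (κ ^ (i.2 : ℕ) - 1) i.1 ((c j).1 + n * (c j).2) (Y + 1)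
        (Nat.lt_succ_of_le (hyY j))
      rw [← h1, Matrix.of_apply]
      have h2 : (1 : K) + (κ ^ (i.2 : ℕ) - 1) = κ ^ (i.2 : ℕ) := by ring
      rw [h2]
      simp only [intMat, Matrix.of_apply]
      have h3 : (κ ^ (i.2 : ℕ)) ^ ((c j).1 + n * (c j).2) =
          κ ^ ((i.2 : ℕ) * (c j).1) * (κ ^ n) ^ ((i.2 : ℕ) * (c j).2) := by
        rw [pow_add, ← pow_mul, ← pow_mul, ← pow_mul]
        ring_nf
      rw [h3]
      ring)
  rw [hcard] at hup
  -- combine
  have h2pos : ∀ m : ℕ, (0 : ℝ) < 2 ^ m := fun m => by positivity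
  have hkey : (2 : ℝ) ^ (N * (N - 1) / 2) ≤ 2 ^ (Q * N) := by
    have h1 := hlow.trans hup
    have h3 : (2 : ℝ) ^ N * (N.factorial : ℝ) * (1 / 2) ^ (N * (N - 1) / 2) * (2 ^ ρ) ^ N ≤
        2 ^ N * 2 ^ (3 * lam * N) * (1 / 2) ^ (N * (N - 1) / 2) * 2 ^ (ρ * N) := by
      rw [← pow_mul]
      gcongr
    have h4 := h1.trans h3
    rw [inv_le_iff_one_le_mul₀' (h2pos _)] at h4
    have h5 : (2 : ℝ) ^ (((3 * lam + 4 * lam * k) * W + a₁ * (L * (S + L)) + a₂ * (L * T)) * N) *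
        (2 ^ N * 2 ^ (3 * lam * N) * (1 / 2) ^ (N * (N - 1) / 2) * 2 ^ (ρ * N)) =
        2 ^ (Q * N) * (1 / 2) ^ (N * (N - 1) / 2) := by
      rw [hQ]
      ring
    rw [h5, one_div, inv_pow, ← div_eq_mul_inv, le_div_iff₀ (h2pos _), one_mul] at h4
    exact h4
  have hkey' : N * (N - 1) / 2 ≤ Q * N := by
    by_contra hcon
    have : (2 : ℝ) ^ (Q * N) < 2 ^ (N * (N - 1) / 2) :=
      pow_lt_pow_right₀ (by norm_num) (not_le.1 hcon)
    linarith
  have heven : N * (N - 1) / 2 * 2 = N * (N - 1) :=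
    Nat.div_mul_cancel (Nat.even_mul_pred_self N).two_dvd
  have h6 : N * (N - 1) ≤ N * (2 * Q) := by
    calc N * (N - 1) = N * (N - 1) / 2 * 2 := heven.symm
      _ ≤ Q * N * 2 := Nat.mul_le_mul_right _ hkey'
      _ = N * (2 * Q) := by ring
  have h7 : N - 1 ≤ 2 * Q := Nat.le_of_mul_le_mul_left h6 hN0
  omega

end Pool.Agent.Work.MP_8d13b5_lc.Rk

end

section

set_option autoImplicit false

/-!
Effective Northcott: the number of elements of height at most `s` in a number field of degree at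
most `s` is bounded by an elementary function of `s`.
-/

namespace Pool.Agent.Work.MP_8d13b5_lc.Rk

open Height AdmissibleAbsValues Polynomial Finset

/-- every archimedean absolute value of `x` is at most the height -/
private theorem ncott_infinite_le {K : Type*} [Field K] [NumberField K] (x : K)
    (v : NumberField.InfinitePlace K) : v x ≤ mulHeight₁ x := by
  classical
  rw [NumberField.mulHeight₁_eq]
  have h1 : (1 : ℝ) ≤ ∏ᶠ v : NumberField.FinitePlace K, max (v x) 1 :=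
    one_le_finprod fun w => le_max_right _ _
  have h2 : v x ≤ ∏ v : NumberField.InfinitePlace K, max (v x) 1 ^ v.mult := by
    have h3 : max (v x) 1 ^ v.mult ≤ ∏ v : NumberField.InfinitePlace K, max (v x) 1 ^ v.mult := by
      have h4 : ∀ w ∈ (Finset.univ : Finset (NumberField.InfinitePlace K)),
          (1 : ℝ) ≤ max (w x) 1 ^ w.mult := fun w _ => one_le_pow₀ (le_max_right _ _)
      rw [← Finset.mul_prod_erase _ _ (Finset.mem_univ v)]
      refine le_mul_of_one_le_right (by positivity) ?_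
      calc (1 : ℝ) = ∏ _w ∈ Finset.univ.erase v, (1 : ℝ) := by simp
        _ ≤ _ := Finset.prod_le_prod (fun _ _ => zero_le_one)
            fun w _ => h4 w (Finset.mem_univ w)
    refine le_trans ?_ h3
    calc v x ≤ max (v x) 1 := le_max_left _ _
      _ ≤ max (v x) 1 ^ v.mult := le_self_pow₀ (le_max_right _ _) v.mult_ne_zero
  calc v x ≤ ∏ v : NumberField.InfinitePlace K, max (v x) 1 ^ v.mult := h2
    _ ≤ _ := le_mul_of_one_le_right (Finset.prod_nonneg fun w _ => by positivity) h1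

/-- bound for the coefficients -/
private def ncottC (s : ℕ) : ℕ := (s * s) ^ s * 2 ^ s

/-- the polynomial with given coefficients -/
private noncomputable def ncottP (s : ℕ) (c : Fin (s + 1) → ℤ) : ℤ[X] :=
  ∑ i : Fin (s + 1), C (c i) * X ^ (i : ℕ)

private theorem ncottP_natDegree (s : ℕ) (c : Fin (s + 1) → ℤ) : (ncottP s c).natDegree ≤ s := by
  unfold ncottP
  refine natDegree_sum_le_of_forall_le _ _ fun i _ => ?_
  exact (natDegree_C_mul_X_pow_le _ _).trans (Nat.lt_succ_iff.mp i.2)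

open Classical in
private noncomputable def ncottF (s : ℕ) (K : Type) [Field K] : Finset K :=
  (Finset.Icc 1 s).biUnion fun m =>
    (Fintype.piFinset fun _ : Fin (s + 1) => Finset.Icc (-(ncottC s : ℤ)) (ncottC s)).biUnion
      fun c => ((ncottP s c).aroots K).toFinset.image fun z => z / (m : K)

private theorem ncottF_card (s : ℕ) (K : Type) [Field K] :
    (ncottF s K).card ≤ s * ((2 * ncottC s + 1) ^ (s + 1) * s) := by
  classical
  unfold ncottF
  refine (Finset.card_biUnion_le_card_mul _ _ ((2 * ncottC s + 1) ^ (s + 1) * s) ?_).trans ?_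
  · intro m _
    refine (Finset.card_biUnion_le_card_mul _ _ s ?_).trans ?_
    · intro c _
      refine Finset.card_image_le.trans ((Multiset.toFinset_card_le _).trans ?_)
      rw [aroots]
      refine (card_roots' _).trans ?_
      exact natDegree_map_le.trans (ncottP_natDegree s c)
    · apply Nat.mul_le_mul_right
      rw [Fintype.card_piFinset]
      simp only [Int.card_Icc, prod_const, card_univ, Fintype.card_fin]
      apply Nat.pow_le_pow_left
      omega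
  · rw [Nat.card_Icc, Nat.add_sub_cancel]

theorem northcott_count : ∃ B : ℕ → ℕ, Elem B ∧ ∀ (s : ℕ) (K : Type) [Field K] [NumberField K],
    Module.finrank ℚ K ≤ s → Set.ncard {x : K | mulHeight₁ x ≤ s} ≤ B s := by
  classical
  refine ⟨fun s => s * ((2 * ((s * s) ^ s * 2 ^ s) + 1) ^ (s + 1) * s), ?_, ?_⟩
  · have h1 : Elem fun s => (s * s) ^ s * 2 ^ s :=
      ((Elem.id.mul Elem.id).pow Elem.id).mul ((Elem.const 2).pow Elem.id)
    exact Elem.id.mul (((((Elem.const 2).mul h1).add (Elem.const 1)).pow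
      (Elem.id.add (Elem.const 1))).mul Elem.id)
  intro s K _ _ hs
  have hs1 : 1 ≤ s := le_trans (Module.finrank_pos (R := ℚ) (M := K)) hs
  have hsub : {x : K | mulHeight₁ x ≤ s} ⊆ (ncottF s K : Set K) := by
    intro x hx
    have hx' : mulHeight₁ x ≤ s := hx
    obtain ⟨m, hm0, hm1, hm2⟩ := NumberField.exists_nat_le_mulHeight₁ x
    have hms : m ≤ s := by exact_mod_cast hm1.trans hx'
    set z : K := (m : K) * x with hz
    have hnorm : ∀ φ : K →+* ℂ, ‖φ z‖ ≤ (s * s : ℝ) := by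
      intro φ
      rw [hz, map_mul, norm_mul, map_natCast, Complex.norm_natCast]
      have h1 : ‖φ x‖ = NumberField.InfinitePlace.mk φ x :=
        (NumberField.InfinitePlace.apply φ x).symm
      have h2 := ncott_infinite_le x (NumberField.InfinitePlace.mk φ)
      have h3 : ‖φ x‖ ≤ s := by rw [h1]; exact h2.trans hx'
      have h4 : (m : ℝ) ≤ s := by exact_mod_cast hms
      exact mul_le_mul h4 h3 (norm_nonneg _) (Nat.cast_nonneg _)
    have hcoef : ∀ i, |(minpoly ℤ z).coeff i| ≤ (ncottC s : ℤ) := by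
      intro i
      have h1 := NumberField.Embeddings.coeff_bdd_of_norm_le hnorm i
      rw [minpoly.isIntegrallyClosed_eq_field_fractions' ℚ hm2, coeff_map] at h1
      have h2 : ‖(algebraMap ℤ ℚ) ((minpoly ℤ z).coeff i)‖ = ((|(minpoly ℤ z).coeff i| : ℤ) : ℝ) := by
        rw [eq_intCast, Int.norm_cast_rat, Int.norm_eq_abs, Int.cast_abs]
      rw [h2] at h1
      have h3 : max ((s : ℝ) * s) 1 = ((s * s : ℕ) : ℝ) := by
        rw [max_eq_left]
        · push_cast; ring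
        · have : (1 : ℝ) ≤ s := by exact_mod_cast hs1
          nlinarith
      rw [h3] at h1
      have h4 : (((s * s : ℕ) : ℝ)) ^ Module.finrank ℚ K *
          ((Module.finrank ℚ K).choose (Module.finrank ℚ K / 2) : ℝ) ≤ ((ncottC s : ℕ) : ℝ) := by
        have h5 : (s * s) ^ Module.finrank ℚ K *
            (Module.finrank ℚ K).choose (Module.finrank ℚ K / 2) ≤ ncottC s := by
          unfold ncottC
          apply Nat.mul_le_mul
          · exact Nat.pow_le_pow_right (Nat.mul_pos hs1 hs1) hs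
          · exact (Nat.choose_le_two_pow _ _).trans (Nat.pow_le_pow_right (by norm_num) hs)
        exact_mod_cast h5
      exact_mod_cast h1.trans h4
    have hdeg : (minpoly ℤ z).natDegree ≤ s := by
      rw [← (minpoly.monic hm2).natDegree_map (algebraMap ℤ ℚ),
        ← minpoly.isIntegrallyClosed_eq_field_fractions' ℚ hm2]
      exact (minpoly.natDegree_le z).trans hs
    have hP : ncottP s (fun i => (minpoly ℤ z).coeff i) = minpoly ℤ z := by
      unfold ncottP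
      rw [Fin.sum_univ_eq_sum_range (fun i => C ((minpoly ℤ z).coeff i) * X ^ i) (s + 1)]
      exact ((minpoly ℤ z).as_sum_range_C_mul_X_pow' (Nat.lt_succ_of_le hdeg)).symm
    rw [Finset.mem_coe]
    unfold ncottF
    rw [Finset.mem_biUnion]
    refine ⟨m, Finset.mem_Icc.mpr ⟨Nat.one_le_iff_ne_zero.mpr hm0, hms⟩, ?_⟩
    rw [Finset.mem_biUnion]
    refine ⟨fun i => (minpoly ℤ z).coeff i, ?_, ?_⟩
    · rw [Fintype.mem_piFinset]
      intro i
      rw [Finset.mem_Icc]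
      exact abs_le.mp (hcoef i)
    · rw [Finset.mem_image]
      refine ⟨z, ?_, ?_⟩
      · rw [Multiset.mem_toFinset, hP, mem_aroots]
        exact ⟨minpoly.ne_zero hm2, minpoly.aeval ℤ z⟩
      · rw [hz]
        exact mul_div_cancel_left₀ x (Nat.cast_ne_zero.mpr hm0)
  calc Set.ncard {x : K | mulHeight₁ x ≤ s} ≤ Set.ncard (ncottF s K : Set K) :=
        Set.ncard_le_ncard hsub (Finset.finite_toSet _)
    _ = (ncottF s K).card := Set.ncard_coe_finset _
    _ ≤ _ := ncottF_card s K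

end Pool.Agent.Work.MP_8d13b5_lc.Rk

end
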