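import Pool.Agent.Work.MP_8d13b5_lc.Sc.Det
import Pool.Agent.Work.MP_8d13b5_lc.Rk.ZeroEst

/-! Bundle of small proof modules (one section per former module). -/

section

set_option autoImplicit false

/-! The interpolation determinant vanishes to a high order. -/

namespace Pool.Agent.Work.MP_8d13b5_lc.Sc

open Finset Polynomial

theorem dvd_det {A : Type*} [CommRing A] {N : ℕ} (Q : Matrix (Fin N) (Fin N) A[X])
    (κ : Fin N → ℕ) (h : ∀ m c, X ^ (m.val - κ c) ∣ Q m c) :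
    X ^ (∑ m : Fin N, m.val - ∑ c, κ c) ∣ Q.det := by
  rw [Matrix.det_apply]
  refine dvd_sum fun τ _ => ?_
  rw [Units.smul_def, zsmul_eq_mul]
  refine Dvd.dvd.mul_left ?_ _
  have h1 : (∏ c, X ^ ((τ c).val - κ c) : A[X]) ∣ ∏ c, Q (τ c) c :=
    prod_dvd_prod_of_dvd _ _ fun c _ => h _ _
  refine dvd_trans ?_ h1
  rw [prod_pow_eq_pow_sum]
  apply pow_dvd_pow
  have h2 : ∑ m : Fin N, m.val = ∑ c, (τ c).val := (Equiv.sum_comp τ fun m : Fin N => m.val).symm
  have h3 : ∑ c, (τ c).val ≤ ∑ c, (((τ c).val - κ c) + κ c) := sum_le_sum fun c _ => by omega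
  rw [sum_add_distrib] at h3
  omega

section field

variable {F : Type*} [Field F] [CharZero F]

/-- the binomial polynomial -/
noncomputable def bp (F : Type*) [Field F] (k : ℕ) : F[X] :=
  C (1 / (k.factorial : F)) * descPochhammer F k

theorem bp_eval (k x : ℕ) : (bp F k).eval (x : F) = (x.choose k : F) := by
  rw [bp, eval_mul, eval_C, descPochhammer_eval_eq_descFactorial,
    Nat.descFactorial_eq_factorial_mul_choose, Nat.cast_mul]
  have : (k.factorial : F) ≠ 0 := by exact_mod_cast Nat.factorial_ne_zero _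
  field_simp

omit [CharZero F] in
theorem bp_natDegree (k : ℕ) : (bp F k).natDegree ≤ k := by
  refine (natDegree_C_mul_le _ _).trans ?_
  rw [descPochhammer_natDegree]

/-- the rows of the inverse Vandermonde matrix annihilate polynomials of small degree -/
theorem inv_vander {N : ℕ} {z : Fin N → ℕ} (hz : Function.Injective z) (m : Fin N) (p : F[X])
    (hp : p.natDegree < m.val) :
    ∑ j, (Matrix.vandermonde fun j => (z j : F))⁻¹ m j * p.eval (z j : F) = 0 := by
  classical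
  set V := Matrix.vandermonde fun j => (z j : F) with hV
  have hdet : IsUnit V.det := by
    rw [isUnit_iff_ne_zero, hV, Matrix.det_vandermonde_ne_zero_iff]
    intro a b hab
    apply hz
    simp only at hab
    exact_mod_cast hab
  have h1 : V.mulVec (fun i => p.coeff i) = fun j => p.eval (z j : F) := by
    funext j
    show ∑ i, V j i * p.coeff i = _
    rw [eval_eq_sum_range' (n := N) (lt_trans hp m.2), Finset.sum_range]
    refine sum_congr rfl fun i _ => ?_
    rw [hV, Matrix.vandermonde_apply]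
    ring
  have h2 : V⁻¹.mulVec (fun j => p.eval (z j : F)) = fun i : Fin N => p.coeff i := by
    rw [← h1, Matrix.mulVec_mulVec, Matrix.nonsing_inv_mul _ hdet, Matrix.one_mulVec]
  have h3 := congrFun h2 m
  simp only [coeff_eq_zero_of_natDegree_lt hp] at h3
  exact h3

theorem coeff_B (b' e : F) (hb' : b' ≠ 0) (z i : ℕ) :
    ((C b' - C e * X) ^ z).coeff i = b' ^ z * (z.choose i : F) * (-e / b') ^ i := by
  have h1 : (C b' - C e * X : F[X]) ^ z = ((X + C b') ^ z).comp (C (-e) * X) := by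
    rw [pow_comp, add_comp, X_comp, C_comp, C_neg]
    congr 1
    ring
  rw [h1, comp_C_mul_X_coeff, coeff_X_add_C_pow]
  by_cases hi : i ≤ z
  · have h2 : b' ^ z = b' ^ (z - i) * b' ^ i := by rw [← pow_add, Nat.sub_add_cancel hi]
    rw [h2, div_pow]
    field_simp
  · rw [Nat.choose_eq_zero_of_lt (by omega)]
    simp

/-- **Order of vanishing.** -/
theorem dvd_det_MM {K : ℕ} {z r s : Fin (2 * K) → ℕ} {n : ℕ} (hz : Function.Injective z)
    (hzr : ∀ j, z j = r j + n * s j) {b' e v ρ : F} (hb' : b' ≠ 0) (hv : v ≠ 0) :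
    X ^ (K * K) ∣ (MM z r s (C b' - C e * X) (C b')
      ((C b' - C e * X) ^ n * C v - C ρ * X ^ (2 * K)) (C (b' ^ n * v)) :
        Matrix _ _ F[X]).det := by
  classical
  set B : F[X] := C b' - C e * X with hB
  set W : F[X] := B ^ n * C v - C ρ * X ^ (2 * K) with hW
  set Mx := (MM z r s B (C b') W (C (b' ^ n * v)) : Matrix _ _ F[X]) with hMx
  set V := Matrix.vandermonde fun j => (z j : F) with hV
  set d : Fin (2 * K) → F := fun j => b' ^ r j * (b' ^ n * v) ^ s j with hd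
  have hd0 : ∀ j, d j ≠ 0 := fun j =>
    mul_ne_zero (pow_ne_zero _ hb') (pow_ne_zero _ (mul_ne_zero (pow_ne_zero _ hb') hv))
  have hdV : V.det ≠ 0 := by
    rw [hV, Matrix.det_vandermonde_ne_zero_iff]
    intro a b hab
    apply hz
    simp only at hab
    exact_mod_cast hab
  set U : Matrix (Fin (2 * K)) (Fin (2 * K)) F := fun m j => V⁻¹ m j * (d j)⁻¹ with hU
  have hUdet : U.det ≠ 0 := by
    have h1 : U = V⁻¹ * Matrix.diagonal fun j => (d j)⁻¹ := by
      ext m j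
      rw [Matrix.mul_diagonal, hU]
    rw [h1, Matrix.det_mul, Matrix.det_diagonal]
    refine mul_ne_zero ?_ (prod_ne_zero_iff.2 fun j _ => inv_ne_zero (hd0 j))
    exact (Matrix.isUnit_nonsing_inv_det V (isUnit_iff_ne_zero.2 hdV)).ne_zero
  have hcoef : ∀ j i, i < 2 * K → (B ^ r j * W ^ s j).coeff i =
      d j * ((z j).choose i : F) * (-e / b') ^ i := by
    intro j i hi
    have h1 : X ^ (2 * K) ∣ B ^ r j * W ^ s j - B ^ r j * (B ^ n * C v) ^ s j := by
      rw [← mul_sub]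
      refine Dvd.dvd.mul_left ?_ _
      refine dvd_trans ?_ (sub_dvd_pow_sub_pow _ _ _)
      rw [hW]
      exact ⟨-C ρ, by ring⟩
    have h2 : (B ^ r j * W ^ s j).coeff i = (B ^ r j * (B ^ n * C v) ^ s j).coeff i := by
      have := (X_pow_dvd_iff.1 h1) i hi
      rwa [coeff_sub, sub_eq_zero] at this
    have h3 : B ^ r j * (B ^ n * C v) ^ s j = C (v ^ s j) * B ^ z j := by
      rw [hzr, pow_add, pow_mul, mul_pow, C_pow]
      ring
    rw [h2, h3, coeff_C_mul, coeff_B b' e hb', hd]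
    simp only
    rw [mul_pow, ← pow_mul, hzr, pow_add]
    ring
  have hmain : X ^ (K * K) ∣ ((U.map C) * Mx).det := by
    have h1 := dvd_det ((U.map C) * Mx) (kk K) (fun m c => ?_)
    · refine dvd_trans (pow_dvd_pow _ ?_) h1
      rw [sum_kk, ← Finset.sum_range (fun i => i)]
      have h2 := Finset.sum_range_id_mul_two (2 * K)
      rcases Nat.eq_zero_or_pos K with rfl | hK
      · simp
      · obtain ⟨k, rfl⟩ : ∃ k, K = k + 1 := ⟨K - 1, by omega⟩
        have h3 : (∑ i ∈ range (2 * (k + 1)), i) * 2 = (2 * (k + 1)) * (2 * k + 1) := by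
          rw [h2]
          congr 1
        have h4 : ∑ i ∈ range (2 * (k + 1)), i = (k + 1) * (2 * k + 1) := by nlinarith
        rw [h4, Nat.add_sub_cancel]
        have h5 : (k + 1) * (2 * k + 1) = (k + 1) * (k + 1) + (k + 1) * k := by ring
        omega
    · rw [X_pow_dvd_iff]
      intro i hi
      rw [Matrix.mul_apply, finsetSum_coeff]
      have hiK : i < 2 * K := by have := m.2; omega
      have hkm : (bp F (kk K c) * bp F i).natDegree < m.val := by
        refine lt_of_le_of_lt natDegree_mul_le ?_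
        have a1 := bp_natDegree (F := F) (kk K c)
        have a2 := bp_natDegree (F := F) i
        omega
      have hsum := inv_vander (F := F) hz m (bp F (kk K c) * bp F i) hkm
      by_cases hc : c.val < K
      · -- the columns of constants
        have hkm' : (bp F (kk K c)).natDegree < m.val := by
          have a1 := bp_natDegree (F := F) (kk K c)
          omega
        have hsum' := inv_vander (F := F) hz m (bp F (kk K c)) hkm'
        have h1 : ∀ j, ((U.map C) m j * Mx j c) =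
            C (V⁻¹ m j * (bp F (kk K c)).eval (z j : F)) := by
          intro j
          rw [bp_eval, Matrix.map_apply, hMx]
          unfold MM
          rw [if_pos hc, ← C_pow, ← C_pow, ← C_mul, ← C_eq_natCast, ← C_mul, ← C_mul]
          congr 1
          rw [hU]
          simp only
          have := hd0 j
          rw [hd] at this ⊢
          simp only at this ⊢
          field_simp
        simp only [h1]
        rw [← finsetSum_coeff, ← map_sum, hsum', C_0, coeff_zero]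
      · have h1 : ∀ j, ((U.map C) m j * Mx j c).coeff i =
            (V⁻¹ m j * (bp F (kk K c) * bp F i).eval (z j : F)) * (-e / b') ^ i := by
          intro j
          rw [eval_mul, bp_eval, bp_eval, Matrix.map_apply, hMx, coeff_C_mul]
          unfold MM
          rw [if_neg hc, ← C_eq_natCast, coeff_C_mul, hcoef j i hiK, hU]
          simp only
          have := hd0 j
          field_simp
        simp only [h1]
        rw [← sum_mul, hsum, zero_mul]
  rw [Matrix.det_mul] at hmain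
  have h1 : (U.map C : Matrix _ _ F[X]).det = C U.det := by
    have := (C : F →+* F[X]).map_det U
    exact this.symm
  rw [h1] at hmain
  have h2 : IsUnit (C U.det) := isUnit_C.2 (isUnit_iff_ne_zero.2 hUdet)
  exact (h2.dvd_mul_left).1 hmain

/-- the reduced determinant vanishes to the same order -/
theorem dvd_DD_field {K : ℕ} {z r s : Fin (2 * K) → ℕ} {n mr ms : ℕ} (hz : Function.Injective z)
    (hzr : ∀ j, z j = r j + n * s j) (hr : Low r mr) (hs : Low s ms) {b' e v ρ : F}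
    (hb' : b' ≠ 0) (hv : v ≠ 0) :
    X ^ (K * K) ∣ DD z r s mr ms (C b' - C e * X) (C b')
      ((C b' - C e * X) ^ n * C v - C ρ * X ^ (2 * K)) (C (b' ^ n * v)) := by
  rcases Nat.eq_zero_or_pos K with rfl | hK
  · simp
  have h := dvd_det_MM hz hzr (e := e) (ρ := ρ) hb' hv
  rw [det_MM hr hs] at h
  refine Prime.pow_dvd_of_dvd_mul_left prime_X _ ?_ h
  intro h0
  rcases prime_X.dvd_or_dvd h0 with h1 | h1
  · have h2 := prime_X.dvd_of_dvd_pow h1
    rw [X_dvd_iff, mul_coeff_zero] at h2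
    simp only [coeff_sub, coeff_C_zero, mul_coeff_zero, coeff_X_zero, mul_zero, sub_zero] at h2
    exact (mul_ne_zero hb' hb') h2
  · have h2 := prime_X.dvd_of_dvd_pow h1
    rw [X_dvd_iff, mul_coeff_zero, coeff_zero_eq_eval_zero, coeff_C_zero] at h2
    simp only [eval_sub, eval_mul, eval_pow, eval_C, eval_X, mul_zero, sub_zero] at h2
    rw [zero_pow (by omega), mul_zero, sub_zero] at h2
    have h3 : b' ^ n * v ≠ 0 := mul_ne_zero (pow_ne_zero _ hb') hv
    exact mul_ne_zero h3 h3 h2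

end field

end Pool.Agent.Work.MP_8d13b5_lc.Sc

end

section

set_option autoImplicit false

/-! Sums over rows, and the size of the binomial coefficients. -/

namespace Pool.Agent.Work.MP_8d13b5_lc.Sc

open Finset

theorem sum_le_pts {ι : Type*} (J : Finset ι) {r s : ι → ℕ}
    (hinj : Function.Injective fun j => (r j, s j)) {R S : ℕ} (hr : ∀ j, r j < R)
    (hs : ∀ j, s j < S) (g : ℕ × ℕ → ℕ) :
    ∑ j ∈ J, g (r j, s j) ≤ ∑ x ∈ range R, ∑ y ∈ range S, g (x, y) := by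
  classical
  rw [← sum_product']
  calc ∑ j ∈ J, g (r j, s j) = ∑ p ∈ J.image (fun j => (r j, s j)), g p :=
        (sum_image fun a _ b _ hab => hinj hab).symm
    _ ≤ ∑ p ∈ range R ×ˢ range S, g p := by
        apply sum_le_sum_of_subset
        intro p hp
        obtain ⟨j, _, rfl⟩ := mem_image.1 hp
        rw [mem_product, mem_range, mem_range]
        exact ⟨hr j, hs j⟩

theorem two_sum_sub (c R : ℕ) : 2 * ∑ x ∈ range R, (c - x) ≤ c * (c + 1) := by
  have h1 : ∑ x ∈ range R, (c - x) ≤ ∑ x ∈ range (max R (c + 1)), (c - x) :=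
    sum_le_sum_of_subset (range_subset_range.2 (le_max_left _ _))
  have h2 : ∑ x ∈ range (max R (c + 1)), (c - x) = ∑ x ∈ range (c + 1), (c - x) := by
    symm
    apply sum_subset (range_subset_range.2 (le_max_right _ _))
    intro x _ hx
    rw [mem_range] at hx
    omega
  have h3 : ∑ x ∈ range (c + 1), (c - x) = ∑ x ∈ range (c + 1), x := by
    rw [← sum_range_reflect (fun x => x) (c + 1)]
    exact sum_congr rfl fun x _ => by omega
  have h4 := sum_range_id_mul_two (c + 1)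
  rw [Nat.add_sub_cancel] at h4
  rw [h2, h3] at h1
  nlinarith

theorem low_fst {K : ℕ} {r s : Fin (2 * K) → ℕ}
    (hinj : Function.Injective fun j => (r j, s j)) {R S : ℕ} (hr : ∀ j, r j < R)
    (hs : ∀ j, s j < S) (c : ℕ) (J : Finset (Fin (2 * K))) (hJ : J.card = K) :
    2 * (K * c) ≤ S * (c * (c + 1)) + 2 * ∑ j ∈ J, r j := by
  have h1 := sum_le_pts J hinj hr hs (fun p => c - p.1)
  simp only [sum_const, card_range, smul_eq_mul] at h1
  rw [← mul_sum] at h1
  have h2 := two_sum_sub c R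
  have h3 : K * c ≤ ∑ j ∈ J, ((c - r j) + r j) := by
    calc K * c = ∑ _j ∈ J, c := by rw [sum_const, smul_eq_mul, hJ]
      _ ≤ _ := sum_le_sum fun j _ => by omega
  rw [sum_add_distrib] at h3
  have h4 : S * (2 * ∑ x ∈ range R, (c - x)) ≤ S * (c * (c + 1)) := Nat.mul_le_mul_left _ h2
  nlinarith

theorem low_snd {K : ℕ} {r s : Fin (2 * K) → ℕ}
    (hinj : Function.Injective fun j => (r j, s j)) {R S : ℕ} (hr : ∀ j, r j < R)
    (hs : ∀ j, s j < S) (c : ℕ) (J : Finset (Fin (2 * K))) (hJ : J.card = K) :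
    2 * (K * c) ≤ R * (c * (c + 1)) + 2 * ∑ j ∈ J, s j :=
  low_fst (r := s) (s := r) (fun a b hab => hinj (by
    simp only [Prod.mk.injEq] at hab ⊢
    exact ⟨hab.2, hab.1⟩)) hs hr c J hJ

theorem tot_fst {K : ℕ} {r s : Fin (2 * K) → ℕ}
    (hinj : Function.Injective fun j => (r j, s j)) {R S : ℕ} (hr : ∀ j, r j < R)
    (hs : ∀ j, s j < S) : 2 * ∑ j, r j ≤ S * (R * (R - 1)) := by
  have h1 := sum_le_pts univ hinj hr hs (fun p => p.1)
  simp only [sum_const, card_range, smul_eq_mul] at h1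
  rw [← mul_sum] at h1
  have h2 := sum_range_id_mul_two R
  have h3 : S * ((∑ x ∈ range R, x) * 2) = S * (R * (R - 1)) := by rw [h2]
  nlinarith

theorem tot_snd {K : ℕ} {r s : Fin (2 * K) → ℕ}
    (hinj : Function.Injective fun j => (r j, s j)) {R S : ℕ} (hr : ∀ j, r j < R)
    (hs : ∀ j, s j < S) : 2 * ∑ j, s j ≤ R * (S * (S - 1)) :=
  tot_fst (r := s) (s := r) (fun a b hab => hinj (by
    simp only [Prod.mk.injEq] at hab ⊢
    exact ⟨hab.2, hab.1⟩)) hs hr

/-- the numbers `m_r`, `m_s` and the degrees `P`, `Q` for `K = 2 σ ϱ` rows in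
`[0, 2 ϱ] × [0, 2 σ)` -/
theorem lows {σ ϱ : ℕ} (hσ : 1 ≤ σ) (hϱ : 1 ≤ ϱ) {r s : Fin (2 * (2 * σ * ϱ)) → ℕ}
    (hinj : Function.Injective fun j => (r j, s j)) (hr : ∀ j, r j < 2 * ϱ + 1)
    (hs : ∀ j, s j < 2 * σ) :
    ∃ mr ms : ℕ, Low r mr ∧ Low s ms ∧
      ∑ j, r j - 2 * mr ≤ 2 * σ * ϱ ^ 2 + 4 * σ * ϱ ∧
      ∑ j, s j - 2 * ms ≤ 2 * σ ^ 2 * ϱ + 3 * σ ^ 2 := by
  obtain ⟨σ, rfl⟩ : ∃ k, σ = k + 1 := ⟨σ - 1, by omega⟩
  obtain ⟨ϱ, rfl⟩ : ∃ k, ϱ = k + 1 := ⟨ϱ - 1, by omega⟩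
  have t1 := tot_fst hinj hr hs
  have t2 := tot_snd hinj hr hs
  have e1 : 2 * (ϱ + 1) + 1 - 1 = 2 * (ϱ + 1) := by omega
  have e2 : 2 * (σ + 1) - 1 = 2 * σ + 1 := by omega
  rw [e1] at t1
  rw [e2] at t2
  obtain ⟨q, hq⟩ : ∃ q, (σ + 1) * (σ + 1 + 1) = 2 * q := by
    have := Nat.even_mul_succ_self (σ + 1)
    obtain ⟨q, hq⟩ := this
    exact ⟨q, by rw [hq]; ring⟩
  refine ⟨(σ + 1) * (ϱ + 1) * ϱ, 2 * ((σ + 1) ^ 2 * (ϱ + 1)) - (2 * (ϱ + 1) + 1) * q, ?_, ?_, ?_, ?_⟩
  · intro J hJ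
    have h := low_fst hinj hr hs (ϱ + 1) J hJ
    nlinarith
  · intro J hJ
    have h := low_snd hinj hr hs (σ + 1) J hJ
    rw [hq] at h
    have h2 : 2 * (2 * ((σ + 1) ^ 2 * (ϱ + 1))) = 2 * (2 * (σ + 1) * (ϱ + 1) * (σ + 1)) := by ring
    have h3 : (2 * (ϱ + 1) + 1) * (2 * q) = 2 * ((2 * (ϱ + 1) + 1) * q) := by ring
    omega
  · have h1 : 2 * (2 * ((σ + 1) * (ϱ + 1) * ϱ)) + 2 * (2 * (σ + 1) * (ϱ + 1) ^ 2 +
        4 * (σ + 1) * (ϱ + 1)) = 2 * (σ + 1) * ((2 * (ϱ + 1) + 1) * (2 * (ϱ + 1))) := by ring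
    omega
  · have h1 : (2 * (ϱ + 1) + 1) * (2 * (σ + 1) * (2 * σ + 1)) + 2 * ((2 * (ϱ + 1) + 1) * (2 * q)) =
        2 * (2 * (2 * ((σ + 1) ^ 2 * (ϱ + 1)))) +
          2 * (2 * (σ + 1) ^ 2 * (ϱ + 1) + 3 * (σ + 1) ^ 2) := by
      rw [← hq]
      ring
    have h3 : (2 * (ϱ + 1) + 1) * (2 * q) = 2 * ((2 * (ϱ + 1) + 1) * q) := by ring
    omega

theorem choose_le_real (z k : ℕ) : ((z.choose k : ℕ) : ℝ) ≤ (8 / 7) ^ z * 7 ^ k := by
  by_cases hk : k ≤ z
  · have h1 : (8 / 7 : ℝ) ^ z = ∑ i ∈ range (z + 1), (1 / 7 : ℝ) ^ i * 1 ^ (z - i) * (z.choose i : ℝ) := by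
      rw [← add_pow]
      norm_num
    have h2 : (1 / 7 : ℝ) ^ k * 1 ^ (z - k) * (z.choose k : ℝ) ≤ (8 / 7 : ℝ) ^ z := by
      rw [h1]
      exact single_le_sum (f := fun i => (1 / 7 : ℝ) ^ i * 1 ^ (z - i) * (z.choose i : ℝ))
        (fun i _ => by positivity) (mem_range.2 (by omega))
    rw [one_pow, mul_one, div_pow, one_pow, div_mul_eq_mul_div, one_mul,
      div_le_iff₀ (by positivity)] at h2
    exact h2
  · rw [Nat.choose_eq_zero_of_lt (by omega), Nat.cast_zero]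
    positivity

/-- the size of the product of binomial coefficients -/
theorem cc_le {K Z : ℕ} {z : Fin (2 * K) → ℕ} (hz : ∀ j, z j ≤ Z)
    (τ : Equiv.Perm (Fin (2 * K))) :
    (cc z τ : ℝ) ≤ (8 / 7) ^ (2 * K * Z) * 7 ^ (K * (K - 1)) := by
  unfold cc
  rw [Nat.cast_prod]
  calc ∏ c, (((z (τ c)).choose (kk K c) : ℕ) : ℝ) ≤ ∏ c : Fin (2 * K), ((8 / 7 : ℝ) ^ Z * 7 ^ kk K c) := by
        refine prod_le_prod (fun _ _ => Nat.cast_nonneg _) fun c _ => ?_
        refine (choose_le_real _ _).trans ?_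
        apply mul_le_mul_of_nonneg_right _ (by positivity)
        exact pow_le_pow_right₀ (by norm_num) (hz _)
    _ = (8 / 7) ^ (2 * K * Z) * 7 ^ (K * (K - 1)) := by
        rw [prod_mul_distrib, prod_const, prod_pow_eq_pow_sum, sum_kk, card_univ,
          Fintype.card_fin, ← pow_mul, mul_comm Z]

/-- in powers of two -/
theorem cc_le_two {σ ϱ ν n : ℕ} (hσ : 1 ≤ σ) (hν : 1 ≤ ν) (hn : n ≤ 4 * ν * (ϱ + 1))
    {r s : Fin (2 * (2 * σ * ϱ)) → ℕ} (hr : ∀ j, r j < 2 * ϱ + 1) (hs : ∀ j, s j < 2 * σ)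
    (τ : Equiv.Perm (Fin (2 * (2 * σ * ϱ)))) :
    (cc (fun j => r j + n * s j) τ : ℝ) ≤
      2 ^ (18 * (ν * (σ ^ 2 * ϱ ^ 2)) + 7 * (ν * (σ ^ 2 * ϱ))) := by
  have hZ : ∀ j, r j + n * s j ≤ 8 * ν * σ * ϱ + 8 * ν * σ := by
    intro j
    have h1 := hr j
    have h2 := hs j
    have h3 : n * s j ≤ 4 * ν * (ϱ + 1) * (2 * σ - 1) := Nat.mul_le_mul hn (by omega)
    obtain ⟨k, rfl⟩ : ∃ k, σ = k + 1 := ⟨σ - 1, by omega⟩
    have h4 : 2 * (k + 1) - 1 = 2 * k + 1 := by omega
    rw [h4] at h3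
    have h5 : ϱ ≤ ν * ϱ := Nat.le_mul_of_pos_left _ hν
    have e1 : 4 * ν * (ϱ + 1) * (2 * k + 1) =
        8 * (ν * (ϱ * k)) + 8 * (ν * k) + 4 * (ν * ϱ) + 4 * ν := by ring
    have e2 : 8 * ν * (k + 1) * ϱ + 8 * ν * (k + 1) =
        8 * (ν * (ϱ * k)) + 8 * (ν * k) + 8 * (ν * ϱ) + 8 * ν := by ring
    rw [e1] at h3
    rw [e2]
    omega
  refine (cc_le hZ τ).trans ?_
  set y := ν * (σ ^ 2 * ϱ ^ 2) with hy
  set w := ν * (σ ^ 2 * ϱ) with hw
  have h7 : (7 : ℝ) ^ (2 * σ * ϱ * (2 * σ * ϱ - 1)) ≤ 7 ^ (2 * (2 * y)) := by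
    apply pow_le_pow_right₀ (by norm_num)
    calc 2 * σ * ϱ * (2 * σ * ϱ - 1) ≤ 2 * σ * ϱ * (2 * σ * ϱ) :=
          Nat.mul_le_mul_left _ (Nat.sub_le _ _)
      _ ≤ ν * (2 * σ * ϱ * (2 * σ * ϱ)) := Nat.le_mul_of_pos_left _ hν
      _ = 2 * (2 * y) := by rw [hy]; ring
  have e1 : 2 * (2 * σ * ϱ) * (8 * ν * σ * ϱ + 8 * ν * σ) = 16 * (2 * y) + 32 * w := by
    rw [hy, hw]
    ring
  have h8 : ((8 / 7 : ℝ) ^ 16 * 7 ^ 2) ≤ 2 ^ 9 := by norm_num
  have h9 : (8 / 7 : ℝ) ^ 5 ≤ 2 := by norm_num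
  have h10 : (8 / 7 : ℝ) ^ (32 * w) ≤ 2 ^ (7 * w) := by
    calc (8 / 7 : ℝ) ^ (32 * w) ≤ (8 / 7 : ℝ) ^ (5 * (7 * w)) :=
          pow_le_pow_right₀ (by norm_num) (by omega)
      _ = ((8 / 7 : ℝ) ^ 5) ^ (7 * w) := by rw [← pow_mul]
      _ ≤ _ := pow_le_pow_left₀ (by positivity) h9 _
  calc (8 / 7 : ℝ) ^ (2 * (2 * σ * ϱ) * (8 * ν * σ * ϱ + 8 * ν * σ)) *
        7 ^ (2 * σ * ϱ * (2 * σ * ϱ - 1))
      ≤ (8 / 7 : ℝ) ^ (2 * (2 * σ * ϱ) * (8 * ν * σ * ϱ + 8 * ν * σ)) * 7 ^ (2 * (2 * y)) :=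
        mul_le_mul_of_nonneg_left h7 (by positivity)
    _ = ((8 / 7 : ℝ) ^ 16 * 7 ^ 2) ^ (2 * y) * (8 / 7 : ℝ) ^ (32 * w) := by
        rw [e1, pow_add, pow_mul _ 16, pow_mul 7 2, mul_pow]
        ring
    _ ≤ (2 ^ 9) ^ (2 * y) * 2 ^ (7 * w) :=
        mul_le_mul (pow_le_pow_left₀ (by positivity) h8 _) h10 (by positivity) (by positivity)
    _ = 2 ^ (18 * y + 7 * w) := by
        rw [← pow_mul, ← pow_add]
        congr 1
        ring

end Pool.Agent.Work.MP_8d13b5_lc.Sc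

end

section

set_option autoImplicit false

/-! Estimates of the interpolation determinant at one embedding, and its divisibility. -/

namespace Pool.Agent.Work.MP_8d13b5_lc.Sc

open Finset Polynomial

/-- maximum principle for polynomials on the unit disc -/
theorem eval_le_of_circle {G : ℂ[X]} {M : ℝ} (h : ∀ x : ℂ, ‖x‖ = 1 → ‖G.eval x‖ ≤ M) {x : ℂ}
    (hx : ‖x‖ ≤ 1) : ‖G.eval x‖ ≤ M := by
  refine Complex.norm_le_of_forall_mem_frontier_norm_le (U := Metric.ball (0 : ℂ) 1)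
    Metric.isBounded_ball (f := fun x => G.eval x) ?_ ?_ ?_
  · exact (Polynomial.differentiable G).diffContOnCl
  · intro z hz
    rw [frontier_ball (0 : ℂ) one_ne_zero, mem_sphere_zero_iff_norm] at hz
    exact h z hz
  · rw [closure_ball (0 : ℂ) one_ne_zero, mem_closedBall_zero_iff]
    exact hx

section

variable {K : ℕ} {z r s : Fin (2 * K) → ℕ} {n mr ms : ℕ}

/-- **The estimate at a place where `b` and `b'` are close.** -/
theorem close_bound (hz : Function.Injective z) (hzr : ∀ j, z j = r j + n * s j)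
    (hr : Low r mr) (hs : Low s ms) {b b' u v ρ : ℂ} {E V c : ℝ} (hb' : b' ≠ 0) (hv0 : v ≠ 0)
    (hE : 1 ≤ E) (hclose : E * ‖b - b'‖ ≤ ‖b'‖) (hu : b' ^ n * u = b ^ n * v - ρ)
    (hρ : ‖ρ‖ * E ^ (2 * K) ≤ ‖b'‖ ^ n * (2 ^ n * V)) (hv : ‖v‖ ≤ V)
    (hc : ∀ τ, (cc z τ : ℝ) ≤ c) :
    ‖DD z r s mr ms b b' u v‖ * E ^ (K * K) ≤
      (2 * K).factorial * (c * 2 ^ (∑ j, r j - 2 * mr) * (2 ^ (n + 1) * V) ^ (∑ j, s j - 2 * ms)) *
        ‖b'‖ ^ (∑ j, r j - 2 * mr) := by
  have hE0 : 0 < E := by linarith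
  have hEC : (E : ℂ) ≠ 0 := by exact_mod_cast hE0.ne'
  have hb0 : 0 < ‖b'‖ := norm_pos_iff.2 hb'
  set ζ : ℂ := b / b' with hζ
  set e : ℂ := (1 - ζ) * E with he
  set ρ' : ℂ := ρ / b' ^ n * E ^ (2 * K) with hρ'
  have he1 : ‖e‖ ≤ 1 := by
    have h1 : 1 - ζ = -(b - b') / b' := by
      rw [hζ]
      field_simp
      ring
    rw [he, h1, norm_mul, norm_div, norm_neg, Complex.norm_real, Real.norm_of_nonneg hE0.le,
      div_mul_eq_mul_div, div_le_one hb0, mul_comm]
    exact hclose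
  have hρ1 : ‖ρ'‖ ≤ 2 ^ n * V := by
    rw [hρ', norm_mul, norm_div, norm_pow, norm_pow, Complex.norm_real, Real.norm_of_nonneg hE0.le,
      div_mul_eq_mul_div, div_le_iff₀ (by positivity)]
    calc ‖ρ‖ * E ^ (2 * K) ≤ ‖b'‖ ^ n * (2 ^ n * V) := hρ
      _ = 2 ^ n * V * ‖b'‖ ^ n := mul_comm _ _
  have hV0 : 0 ≤ V := (norm_nonneg _).trans hv
  set H : ℂ[X] := DD z r s mr ms (C 1 - C e * X) (C 1)
      ((C 1 - C e * X) ^ n * C v - C ρ' * X ^ (2 * K)) (C (1 ^ n * v)) with hH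
  obtain ⟨G, hG⟩ : X ^ (K * K) ∣ H := dvd_DD_field hz hzr hr hs one_ne_zero hv0
  have hHe : ∀ x : ℂ, H.eval x = DD z r s mr ms (1 - e * x) 1
      ((1 - e * x) ^ n * v - ρ' * x ^ (2 * K)) v := by
    intro x
    have h1 := map_DD (evalRingHom x) z r s mr ms (C 1 - C e * X) (C 1)
      ((C 1 - C e * X) ^ n * C v - C ρ' * X ^ (2 * K)) (C (1 ^ n * v))
    rw [coe_evalRingHom] at h1
    rw [hH, h1]
    simp
  have hcirc : ∀ x : ℂ, ‖x‖ = 1 → ‖G.eval x‖ ≤ (2 * K).factorial *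
      (c * 2 ^ (∑ j, r j - 2 * mr) * (2 ^ (n + 1) * V) ^ (∑ j, s j - 2 * ms)) := by
    intro x hx
    have h1 : ‖H.eval x‖ = ‖G.eval x‖ := by
      rw [hG, eval_mul, eval_pow, eval_X, norm_mul, norm_pow, hx, one_pow, one_mul]
    rw [← h1, hHe]
    have h2 : ‖1 - e * x‖ ≤ 2 := by
      refine (norm_sub_le _ _).trans ?_
      rw [norm_one, norm_mul, hx, mul_one]
      linarith
    refine DD_norm hr hs h2 (by rw [norm_one]; norm_num) ?_ ?_ hc
    · refine (norm_sub_le _ _).trans ?_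
      rw [norm_mul, norm_mul, norm_pow, norm_pow, hx, one_pow, mul_one, pow_succ]
      have h3 : ‖1 - e * x‖ ^ n * ‖v‖ ≤ 2 ^ n * V :=
        mul_le_mul (pow_le_pow_left₀ (norm_nonneg _) h2 n) hv (norm_nonneg _) (by positivity)
      linarith
    · refine hv.trans ?_
      exact le_mul_of_one_le_left hV0 (one_le_pow₀ (by norm_num))
  have hx1 : ‖((1 / E : ℝ) : ℂ)‖ ≤ 1 := by
    rw [Complex.norm_real, Real.norm_of_nonneg (by positivity), div_le_one hE0]
    exact hE
  have hfin := eval_le_of_circle hcirc hx1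
  have hval : H.eval ((1 / E : ℝ) : ℂ) = DD z r s mr ms ζ 1 u v := by
    rw [hHe]
    have h1 : 1 - e * ((1 / E : ℝ) : ℂ) = ζ := by
      rw [he]
      push_cast
      field_simp
      ring
    have h2 : ζ ^ n * v - ρ' * ((1 / E : ℝ) : ℂ) ^ (2 * K) = u := by
      have h3 : ρ' * ((1 / E : ℝ) : ℂ) ^ (2 * K) = ρ / b' ^ n := by
        rw [hρ']
        push_cast
        rw [div_pow, one_pow]
        field_simp
      rw [h3, hζ, div_pow]
      have hbn : b' ^ n ≠ 0 := pow_ne_zero _ hb'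
      field_simp
      linear_combination -hu
    rw [h1, h2]
  have hDD : DD z r s mr ms b b' u v = b' ^ (∑ j, r j - 2 * mr) * DD z r s mr ms ζ 1 u v := by
    rw [← DD_hom_left hr]
    congr 1
    · rw [hζ]; field_simp
    · rw [mul_one]
  have hGH : ‖DD z r s mr ms ζ 1 u v‖ * E ^ (K * K) = ‖G.eval ((1 / E : ℝ) : ℂ)‖ := by
    rw [← hval, hG, eval_mul, eval_pow, eval_X, norm_mul, norm_pow, Complex.norm_real,
      Real.norm_of_nonneg (by positivity), div_pow, one_pow]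
    have : E ^ (K * K) ≠ 0 := by positivity
    field_simp
  rw [hDD, norm_mul, norm_pow]
  calc ‖b'‖ ^ (∑ j, r j - 2 * mr) * ‖DD z r s mr ms ζ 1 u v‖ * E ^ (K * K)
      = ‖G.eval ((1 / E : ℝ) : ℂ)‖ * ‖b'‖ ^ (∑ j, r j - 2 * mr) := by rw [← hGH]; ring
    _ ≤ _ := mul_le_mul_of_nonneg_right hfin (by positivity)

/-- **Divisibility.** -/
theorem dvd_DD {R : Type*} [CommRing R] [IsDomain R] [CharZero R] (hz : Function.Injective z)
    (hzr : ∀ j, z j = r j + n * s j) (hr : Low r mr) (hs : Low s ms) {β β' D e u v ρ : R}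
    {m : ℕ} (hβ' : β' ≠ 0) (hv : v ≠ 0) (hdiff : β' - β = D ^ m * e) (hco : IsCoprime D β')
    (hu : β' ^ n * u = β ^ n * v - ρ * D ^ (m * (2 * K))) :
    D ^ (m * (K * K)) ∣ DD z r s mr ms β β' u v := by
  classical
  set H : R[X] := DD z r s mr ms (C β' - C e * X) (C β')
      ((C β' - C e * X) ^ n * C v - C ρ * X ^ (2 * K)) (C (β' ^ n * v)) with hH
  set ι := algebraMap R (FractionRing R) with hι
  have hinj : Function.Injective ι := IsFractionRing.injective R (FractionRing R)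
  have : CharZero (FractionRing R) := charZero_of_injective_algebraMap hinj
  have h1 : X ^ (K * K) ∣ H.map ι := by
    have h2 := dvd_DD_field (F := FractionRing R) (b' := ι β') (e := ι e) (v := ι v) (ρ := ι ρ)
      hz hzr hr hs (fun h => hβ' (hinj (by rw [h, map_zero]))) (fun h => hv (hinj (by rw [h, map_zero])))
    have h3 := map_DD (mapRingHom ι) z r s mr ms (C β' - C e * X) (C β')
      ((C β' - C e * X) ^ n * C v - C ρ * X ^ (2 * K)) (C (β' ^ n * v))
    rw [coe_mapRingHom] at h3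
    rw [hH, h3]
    simpa using h2
  have h2 : X ^ (K * K) ∣ H := by
    rw [X_pow_dvd_iff] at h1 ⊢
    intro d hd
    have := h1 d hd
    rw [coeff_map] at this
    exact hinj (by rw [this, map_zero])
  have h3 : (D ^ m) ^ (K * K) ∣ H.eval (D ^ m) := by
    obtain ⟨G, hG⟩ := h2
    rw [hG, eval_mul, eval_pow, eval_X]
    exact Dvd.intro _ rfl
  have h4 : H.eval (D ^ m) = (β' ^ n) ^ (∑ j, s j - 2 * ms) * DD z r s mr ms β β' u v := by
    have h5 := map_DD (evalRingHom (D ^ m)) z r s mr ms (C β' - C e * X) (C β')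
      ((C β' - C e * X) ^ n * C v - C ρ * X ^ (2 * K)) (C (β' ^ n * v))
    rw [coe_evalRingHom] at h5
    rw [hH, h5, ← DD_hom_right hs]
    have e1 : eval (D ^ m) (C β' - C e * X) = β := by
      simp only [eval_sub, eval_mul, eval_C, eval_X]
      linear_combination hdiff
    have e2 : eval (D ^ m) ((C β' - C e * X) ^ n * C v - C ρ * X ^ (2 * K)) = β' ^ n * u := by
      rw [eval_sub, eval_mul, eval_pow, e1, eval_mul, eval_C, eval_C, eval_pow, eval_X, hu,
        ← pow_mul]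
    rw [e1, e2, eval_C, eval_C]
  rw [h4, ← pow_mul] at h3
  exact ((hco.pow (m := m * (K * K)) (n := n * (∑ j, s j - 2 * ms))).dvd_of_dvd_mul_left
    (by rwa [pow_mul β']))

end

end Pool.Agent.Work.MP_8d13b5_lc.Sc

end

section

set_option autoImplicit false

/-! Selection of the rows of the interpolation matrix. -/

namespace Pool.Agent.Work.MP_8d13b5_lc.Sc

open Finset Polynomial Pool.Agent.Work.MP_8d13b5_lc.Rk

/-- distinct points give distinct abscissae -/
theorem pt_inj {n R : ℕ} (hR : R ≤ n) {a b a' b' : ℕ} (ha : a < R) (ha' : a' < R)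
    (h : a + n * b = a' + n * b') : a = a' ∧ b = b' := by
  have h1 : a = a' := by
    have := congrArg (· % n) h
    simp only [Nat.add_mul_mod_self_left] at this
    rwa [Nat.mod_eq_of_lt (by omega), Nat.mod_eq_of_lt (by omega)] at this
  subst h1
  have h2 : n * b = n * b' := by omega
  exact ⟨rfl, Nat.eq_of_mul_eq_mul_left (by omega) h2⟩

theorem eq_zero_of_pts {F : Type*} [Field F] [CharZero F] {P : F[X]} {n R S : ℕ} (hR : R ≤ n)
    (h : ∀ a b, a < R → b < S → P.eval (((a + n * b : ℕ) : F)) = 0) (hd : P.natDegree < R * S) :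
    P = 0 := by
  classical
  set pts : Finset F := ((range R ×ˢ range S).image
    fun p : ℕ × ℕ => ((p.1 + n * p.2 : ℕ) : F)) with hpts
  have hcard : pts.card = R * S := by
    rw [hpts, card_image_of_injOn]
    · rw [card_product, card_range, card_range]
    · rintro ⟨a, b⟩ hab ⟨a', b'⟩ hab' heq
      simp only [coe_product, coe_range, Set.mem_prod, Set.mem_Iio] at hab hab'
      simp only at heq
      have heq' : a + n * b = a' + n * b' := by exact_mod_cast heq
      obtain ⟨h1, h2⟩ := pt_inj hR hab.1 hab'.1 heq'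
      rw [h1, h2]
  refine eq_zero_of_natDegree_lt_card_of_eval_eq_zero' P pts ?_ (by rw [hcard]; exact hd)
  intro x hx
  rw [hpts, mem_image] at hx
  obtain ⟨⟨a, b⟩, hab, rfl⟩ := hx
  rw [mem_product, mem_range, mem_range] at hab
  exact h a b hab.1 hab.2

/-- **Zero estimate.** -/
theorem zero_est {F : Type*} [Field F] [CharZero F] {b b' u v : F} (hb : b ≠ 0) (hb' : b' ≠ 0)
    (hu : u ≠ 0) (hv : v ≠ 0) (hbb : b ≠ b') {n R S k : ℕ} (hR : R + 1 ≤ n) (hS : 1 ≤ S)
    {P Q : F[X]} (hP : P.natDegree ≤ k) (hQ : Q.natDegree ≤ k) (hk : 2 * k < R * S)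
    (h : ∀ x y, x < R + 1 → y < S → P.eval (((x + n * y : ℕ) : F)) * (b' ^ x * v ^ y) +
      Q.eval (((x + n * y : ℕ) : F)) * (b ^ x * u ^ y) = 0) : P = 0 ∧ Q = 0 := by
  set W : F[X] := C b * (P * taylor 1 Q) - C b' * (Q * taylor 1 P) with hW
  have hWd : W.natDegree ≤ 2 * k := by
    refine (natDegree_sub_le _ _).trans (max_le ?_ ?_)
    · refine (natDegree_C_mul_le _ _).trans (natDegree_mul_le.trans ?_)
      rw [natDegree_taylor]
      omega
    · refine (natDegree_C_mul_le _ _).trans (natDegree_mul_le.trans ?_)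
      rw [natDegree_taylor]
      omega
  have hW0 : W = 0 := by
    refine eq_zero_of_pts (n := n) (R := R) (S := S) (by omega) (fun x y hx hy => ?_) (by omega)
    have h1 := h x y (by omega) hy
    have h2 := h (x + 1) y (by omega) hy
    have e1 : (((x + 1 + n * y : ℕ) : F)) = ((x + n * y : ℕ) : F) + 1 := by
      push_cast
      ring
    rw [e1] at h2
    rw [hW]
    simp only [eval_sub, eval_mul, eval_C, taylor_eval]
    set z : F := ((x + n * y : ℕ) : F)
    have h3 : b ^ x * u ^ y * (b' ^ x * v ^ y) ≠ 0 :=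
      mul_ne_zero (mul_ne_zero (pow_ne_zero _ hb) (pow_ne_zero _ hu))
        (mul_ne_zero (pow_ne_zero _ hb') (pow_ne_zero _ hv))
    apply (mul_eq_zero.1 _).resolve_left h3
    rw [pow_succ, pow_succ] at h2
    have e2 : z + 1 = z + 1 := rfl
    linear_combination (b ^ x * u ^ y * b * eval (z + 1) Q) * h1 -
      (b ^ x * u ^ y * eval z Q) * h2
  have hcase : P = 0 ∨ Q = 0 := by
    by_contra hne
    push Not at hne
    obtain ⟨hP0, hQ0⟩ := hne
    have h1 : W.coeff (P.natDegree + Q.natDegree) =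
        (b - b') * (P.leadingCoeff * Q.leadingCoeff) := by
      rw [hW, coeff_sub, coeff_C_mul, coeff_C_mul,
        coeff_mul_add_eq_of_natDegree_le le_rfl (by rw [natDegree_taylor]),
        add_comm P.natDegree, coeff_mul_add_eq_of_natDegree_le le_rfl (by rw [natDegree_taylor]),
        coeff_taylor_natDegree, coeff_taylor_natDegree]
      show b * (P.leadingCoeff * Q.leadingCoeff) - b' * (Q.leadingCoeff * P.leadingCoeff) = _
      ring
    rw [hW0, coeff_zero] at h1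
    have h2 : (b - b') * (P.leadingCoeff * Q.leadingCoeff) ≠ 0 :=
      mul_ne_zero (sub_ne_zero.2 hbb) (mul_ne_zero (leadingCoeff_ne_zero.2 hP0)
        (leadingCoeff_ne_zero.2 hQ0))
    exact h2 h1.symm
  have hkR : k < (R + 1) * S := by nlinarith
  rcases hcase with h0 | h0
  · refine ⟨h0, eq_zero_of_pts (n := n) (R := R + 1) (S := S) hR (fun x y hx hy => ?_) (by omega)⟩
    have h1 := h x y hx hy
    rw [h0, eval_zero, zero_mul, zero_add] at h1
    exact (mul_eq_zero.1 h1).resolve_right (mul_ne_zero (pow_ne_zero _ hb) (pow_ne_zero _ hu))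
  · refine ⟨eq_zero_of_pts (n := n) (R := R + 1) (S := S) hR (fun x y hx hy => ?_) (by omega), h0⟩
    have h1 := h x y hx hy
    rw [h0, eval_zero, zero_mul, add_zero] at h1
    exact (mul_eq_zero.1 h1).resolve_right (mul_ne_zero (pow_ne_zero _ hb') (pow_ne_zero _ hv))

/-- **Selection of rows.** -/
theorem exists_rows {F : Type*} [Field F] [CharZero F] {b b' u v : F} (hb : b ≠ 0) (hb' : b' ≠ 0)
    (hu : u ≠ 0) (hv : v ≠ 0) (hbb : b ≠ b') {n R S K : ℕ} (hR : R + 1 ≤ n) (hS : 1 ≤ S)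
    (hK : 1 ≤ K) (hk : 2 * (K - 1) < R * S) :
    ∃ r s : Fin (2 * K) → ℕ, (∀ j, r j < R + 1) ∧ (∀ j, s j < S) ∧
      (MM (fun j => r j + n * s j) r s b b' u v).det ≠ 0 := by
  classical
  obtain ⟨f, hf⟩ := zeroEst_minor (K := F) (I := Fin (2 * K)) (J := Fin (R + 1) × Fin S)
    (fun c j => ((((j.1 : ℕ) + n * (j.2 : ℕ)).choose (kk K c) : ℕ) : F) *
      (if c.val < K then b' ^ (j.1 : ℕ) * v ^ (j.2 : ℕ) else b ^ (j.1 : ℕ) * u ^ (j.2 : ℕ))) (by
    intro c hc
    set c0 : Fin K → F := fun m => c ⟨m.val, by have := m.2; omega⟩ with hc0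
    set c1 : Fin K → F := fun m => c ⟨K + m.val, by have := m.2; omega⟩ with hc1
    have hsplit : ∀ g : Fin (2 * K) → F, ∑ i, g i =
        ∑ m : Fin K, g ⟨m.val, by have := m.2; omega⟩ +
          ∑ m : Fin K, g ⟨K + m.val, by have := m.2; omega⟩ := by
      intro g
      have h1 : ∑ i, g i = ∑ i : Fin (K + K), g (Fin.cast (two_mul K).symm i) :=
        (Equiv.sum_comp (finCongr (two_mul K).symm) g).symm
      rw [h1, Fin.sum_univ_add]
      rfl
    have hrel : ∀ x y, x < R + 1 → y < S →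
        (zeroEstPoly K c0).eval (((x + n * y : ℕ) : F)) * (b' ^ x * v ^ y) +
        (zeroEstPoly K c1).eval (((x + n * y : ℕ) : F)) * (b ^ x * u ^ y) = 0 := by
      intro x y hx hy
      have h1 := hc (⟨x, hx⟩, ⟨y, hy⟩)
      rw [hsplit] at h1
      rw [← h1, zeroEstPoly_eval, zeroEstPoly_eval, sum_mul, sum_mul]
      congr 1
      · refine sum_congr rfl fun m _ => ?_
        have hm := m.2
        simp only [kk, hm, if_true, hc0]
        ring
      · refine sum_congr rfl fun m _ => ?_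
        have hm : ¬ K + m.val < K := by omega
        simp only [kk, hm, if_false, hc1, Nat.add_sub_cancel_left]
        ring
    have h0 := zero_est hb hb' hu hv hbb hR hS (zeroEstPoly_natDegree K c0)
      (zeroEstPoly_natDegree K c1) hk hrel
    have h1 := zeroEstPoly_eq_zero K c0 h0.1
    have h2 := zeroEstPoly_eq_zero K c1 h0.2
    funext i
    by_cases hi : i.val < K
    · exact congrFun h1 ⟨i.val, hi⟩
    · have h3 := congrFun h2 ⟨i.val - K, by have := i.2; omega⟩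
      rw [hc1] at h3
      simp only [Pi.zero_apply] at h3 ⊢
      rw [← h3]
      congr 1
      apply Fin.ext
      simp only
      omega)
  refine ⟨fun j => (f j).1, fun j => (f j).2, fun j => (f j).1.2, fun j => (f j).2.2, ?_⟩
  rw [← Matrix.det_transpose] at hf
  exact hf

end Pool.Agent.Work.MP_8d13b5_lc.Sc

end
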