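import Pool.Agent.Work.MP_8d13b5_lc.Bd.B01
import Pool.Agent.Work.MP_8d13b5_lc.Rk.ExpPoly
import Pool.Agent.Work.MP_8d13b5_lc.Bd.B02
import Pool.Agent.Work.MP_8d13b5_lc.Rk.Defs
import Pool.Agent.Work.MP_8d13b5_lc.Rk.Good

/-! Bundle of small proof modules (one section per former module). -/

section

set_option autoImplicit false

/-!
Heights of roots and of values of polynomials at natural numbers.
-/

namespace Pool.Agent.Work.MP_8d13b5_lc.Rk

open Height AdmissibleAbsValues Polynomial Finset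

/-- heights of roots -/
theorem root_bound : ∃ B : ℕ → ℕ, Elem B ∧ ∀ (s : ℕ) (K : Type) [Field K] [NumberField K],
    Module.finrank ℚ K ≤ s → ∀ χ : ℤ[X], χ.Monic → χ.natDegree ≤ s → (∀ i, |χ.coeff i| ≤ s) →
      ∀ x : K, aeval x χ = 0 → mulHeight₁ x ≤ B s := by
  refine ⟨eb1, elem_eb1, ?_⟩
  intro s K _ _ hK χ hχ hd hc x hx
  have hW : totalWeight K ≤ s := by rw [NumberField.totalWeight_eq_finrank]; exact hK
  apply root_height s hW χ hχ hd hc x
  rw [IsRoot.def, eval_map_algebraMap]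
  exact hx

/-- exponent for the heights of values -/
def evB (s : ℕ) : ℕ := (s + 1) * s + (s + 1 + (s + 2) * s * s) * (s + 1)

theorem elem_evB : Elem evB := by
  have h1 : Elem fun s => s + 1 := elem_succ
  have h2 : Elem fun s => s + 2 := Elem.id.add (Elem.const 2)
  exact (h1.mul Elem.id).add ((h1.add ((h2.mul Elem.id).mul Elem.id)).mul h1)

theorem ev_le_pow (a t : ℕ) (ht : 2 ≤ t) : (a : ℝ) ≤ (t : ℝ) ^ a := by
  have h1 : a < 2 ^ a := Nat.lt_two_pow_self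
  have h2 : 2 ^ a ≤ t ^ a := Nat.pow_le_pow_left ht a
  have h3 : a ≤ t ^ a := by omega
  exact_mod_cast h3

/-- heights of values of polynomials at natural numbers -/
theorem eval_height : ∃ B : ℕ → ℕ, Elem B ∧ ∀ (s : ℕ) (K : Type) [Field K] [NumberField K],
    Module.finrank ℚ K ≤ s → ∀ R : K[X], R.natDegree ≤ s → (∀ i, mulHeight₁ (R.coeff i) ≤ s) →
      ∀ n n' : ℕ, n ≤ s * (n' + 1) →
        mulHeight₁ (R.eval (n : K)) ≤ (n' + 2 : ℝ) ^ B s := by
  refine ⟨evB, elem_evB, ?_⟩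
  intro s K _ _ hK R hd hc n n' hn
  have hW : totalWeight K ≤ s := by rw [NumberField.totalWeight_eq_finrank]; exact hK
  set t : ℕ := n' + 2 with ht
  have ht2 : 2 ≤ t := by omega
  have ht1 : (1 : ℝ) ≤ (t : ℝ) := by exact_mod_cast (by omega : 1 ≤ t)
  set N : ℕ := (s + 1) * t with hN
  have hN1 : 1 ≤ N := Nat.succ_le_iff.2 (Nat.mul_pos (by omega) (by omega))
  have hN1' : (1 : ℝ) ≤ (N : ℝ) := by exact_mod_cast hN1
  have hnN : n ≤ N := by
    refine hn.trans ?_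
    exact Nat.mul_le_mul (by omega) (by omega)
  have hnh : mulHeight₁ (n : K) ≤ (N : ℝ) ^ s := by
    have := height_int_le (K := K) (n : ℤ) N s hN1 (by
      rw [Nat.abs_cast]
      exact_mod_cast hnN) hW
    exact_mod_cast this
  have hNt : (N : ℝ) ≤ (t : ℝ) ^ (s + 2) := by
    rw [hN]
    push_cast
    have h1 := ev_le_pow (s + 1) t ht2
    push_cast at h1
    calc ((s : ℝ) + 1) * (t : ℝ) ≤ (t : ℝ) ^ (s + 1) * (t : ℝ) :=
          mul_le_mul_of_nonneg_right h1 (by positivity)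
      _ = (t : ℝ) ^ (s + 2) := by ring
  rw [eval_eq_sum_range' (lt_of_le_of_lt hd (Nat.lt_succ_self s)) (n : K)]
  refine (mulHeight₁_sum_le (Finset.nonempty_range_iff.2 (Nat.succ_ne_zero s)) _).trans ?_
  have hfac : ∀ i ∈ range (s + 1), mulHeight₁ (R.coeff i * (n : K) ^ i) ≤
      (t : ℝ) ^ (s + 1 + (s + 2) * s * s) := by
    intro i hi
    rw [mem_range] at hi
    refine (mulHeight₁_mul_le _ _).trans ?_
    rw [mulHeight₁_pow]
    have h1 : mulHeight₁ (R.coeff i) ≤ (t : ℝ) ^ (s + 1) := by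
      refine (hc i).trans ?_
      have := ev_le_pow (s + 1) t ht2
      push_cast at this
      linarith
    have h2 : mulHeight₁ (n : K) ^ i ≤ (t : ℝ) ^ ((s + 2) * s * s) := by
      calc mulHeight₁ (n : K) ^ i ≤ ((N : ℝ) ^ s) ^ i :=
            pow_le_pow_left₀ (mulHeight₁_nonneg _) hnh i
        _ ≤ ((N : ℝ) ^ s) ^ s := pow_le_pow_right₀ (one_le_pow₀ hN1') (by omega)
        _ ≤ (((t : ℝ) ^ (s + 2)) ^ s) ^ s := by
            apply pow_le_pow_left₀ (by positivity)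
            exact pow_le_pow_left₀ (by positivity) hNt s
        _ = (t : ℝ) ^ ((s + 2) * s * s) := by rw [← pow_mul, ← pow_mul, mul_assoc]
    calc mulHeight₁ (R.coeff i) * mulHeight₁ (n : K) ^ i
        ≤ (t : ℝ) ^ (s + 1) * (t : ℝ) ^ ((s + 2) * s * s) :=
          mul_le_mul h1 h2 (pow_nonneg (mulHeight₁_nonneg _) _) (by positivity)
      _ = _ := by rw [← pow_add]
  have hprod : ∏ i ∈ range (s + 1), mulHeight₁ (R.coeff i * (n : K) ^ i) ≤
      ((t : ℝ) ^ (s + 1 + (s + 2) * s * s)) ^ (s + 1) := by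
    calc _ ≤ ∏ _i ∈ range (s + 1), (t : ℝ) ^ (s + 1 + (s + 2) * s * s) :=
          Finset.prod_le_prod (fun i _ => mulHeight₁_nonneg _) hfac
      _ = _ := by rw [Finset.prod_const, card_range]
  have hcard : ((range (s + 1)).card : ℝ) ^ totalWeight K ≤ ((t : ℝ) ^ (s + 1)) ^ s := by
    rw [card_range]
    have h1 := ev_le_pow (s + 1) t ht2
    calc (((s + 1 : ℕ) : ℝ)) ^ totalWeight K ≤ ((s + 1 : ℕ) : ℝ) ^ s :=
          pow_le_pow_right₀ (by exact_mod_cast (by omega : 1 ≤ s + 1)) hW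
      _ ≤ ((t : ℝ) ^ (s + 1)) ^ s := pow_le_pow_left₀ (by positivity) h1 s
  calc _ ≤ ((t : ℝ) ^ (s + 1)) ^ s * ((t : ℝ) ^ (s + 1 + (s + 2) * s * s)) ^ (s + 1) :=
        mul_le_mul hcard hprod (Finset.prod_nonneg fun i _ => mulHeight₁_nonneg _) (by positivity)
    _ = (t : ℝ) ^ evB s := by
        rw [← pow_mul, ← pow_mul, ← pow_add, evB]
    _ = (n' + 2 : ℝ) ^ evB s := by rw [ht]; push_cast; rfl

/-- bound for the natural zeros -/
def evZ (s : ℕ) : ℕ := (s + 1) ^ s * (s + 1) ^ (s + 1) + 1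

theorem elem_evZ : Elem evZ :=
  ((elem_succ.pow Elem.id).mul (elem_succ.pow elem_succ)).add (Elem.const 1)

/-- nonvanishing of values of polynomials at large natural numbers -/
theorem eval_ne_zero : ∃ B : ℕ → ℕ, Elem B ∧ ∀ (s : ℕ) (K : Type) [Field K] [NumberField K],
    Module.finrank ℚ K ≤ s → ∀ R : K[X], R ≠ 0 → R.natDegree ≤ s →
      (∀ i, mulHeight₁ (R.coeff i) ≤ s) → ∀ n : ℕ, B s ≤ n → R.eval (n : K) ≠ 0 := by
  refine ⟨evZ, elem_evZ, ?_⟩
  intro s K _ _ hK R hR hd hc n hn h0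
  have hW : totalWeight K ≤ s := by rw [NumberField.totalWeight_eq_finrank]; exact hK
  have h1 := height_root R hR (n : K) h0 (s : ℝ) hc
  have hs1 : (1 : ℝ) ≤ (s : ℝ) + 1 := by linarith [(Nat.cast_nonneg s : (0 : ℝ) ≤ s)]
  have hd' : (R.natDegree : ℝ) + 1 ≤ (s : ℝ) + 1 := by
    have : (R.natDegree : ℝ) ≤ s := by exact_mod_cast hd
    linarith
  have h2 : mulHeight₁ (n : K) ≤ ((s : ℝ) + 1) ^ s * ((s : ℝ) + 1) ^ (s + 1) := by
    refine h1.trans ?_
    refine mul_le_mul ?_ ?_ (by positivity) (by positivity)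
    · exact (pow_le_pow_left₀ (by positivity) hd' _).trans (pow_le_pow_right₀ hs1 hW)
    · exact (pow_le_pow_left₀ (by positivity) (by linarith) _).trans
        (pow_le_pow_right₀ hs1 (by omega))
  obtain ⟨v⟩ : Nonempty (NumberField.InfinitePlace K) := inferInstance
  have hv : IsPlace v.val := Or.inl (NumberField.mem_multisetInfinitePlace.2 v.isInfinitePlace)
  have h3 := le_height hv (n : K)
  have h4 : v.val (n : K) = (n : ℝ) := by
    have := NumberField.InfinitePlace.map_natCast v n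
    exact this
  rw [h4] at h3
  have h5 : (n : ℝ) ≤ ((s : ℝ) + 1) ^ s * ((s : ℝ) + 1) ^ (s + 1) := h3.trans h2
  have h6 : n ≤ (s + 1) ^ s * (s + 1) ^ (s + 1) := by exact_mod_cast h5
  rw [evZ] at hn
  omega

end Pool.Agent.Work.MP_8d13b5_lc.Rk

end

section

set_option autoImplicit false

/-!
Lower bound for `v (r - κ ^ n)` at an archimedean place, from the analytic core `gl`.
-/

namespace Pool.Agent.Work.MP_8d13b5_lc.Rk

open Height AdmissibleAbsValues Polynomial Finset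

/-- the statement of `gl` for number fields -/
def GlNF : Prop :=
  ∀ (K : Type) [Field K] [NumberField K] (v : AbsoluteValue K ℝ)
    (_ : IsPlace v) (κ r : K) (_ : r ≠ 0) (_ : κ ≠ 0) (_ : ∀ m : ℕ, 0 < m → κ ^ m ≠ 1)
    (_ : v κ = 1) (n W a₁ a₂ lam : ℕ) (_ : 1 ≤ W) (_ : totalWeight K ≤ W)
    (_ : 1 ≤ a₁) (_ : 1 ≤ a₂) (_ : mulHeight₁ κ ≤ 2 ^ a₁) (_ : mulHeight₁ r ≤ 2 ^ a₂)
    (_ : (v (κ - 1) ≤ a₁ ∧ v (κ - 1) * n ≤ a₂) ∨
      (v ∈ (nonarchAbsVal : Set (AbsoluteValue K ℝ)) ∧ v (κ - 1) ≤ 1 / 2))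
    (_ : 20 ≤ lam) (_ : W ≤ 2 ^ lam) (_ : a₁ ≤ 2 ^ lam) (_ : n ≤ 2 ^ lam)
    (_ : 100 * (3000 * W * lam) * a₂ ≤ n),
    (1 / 8 : ℝ) ^ (5000 * (3000 * W * lam) ^ 2 * a₁ * a₂) ≤ v (r - κ ^ n)

lemma m3a_dirichlet (z : ℂ) (hz : ‖z‖ = 1) (Q : ℕ) (hQ : 0 < Q) :
    ∃ q : ℕ, 0 < q ∧ q ≤ Q ∧ ‖z ^ q - 1‖ ≤ 7 / Q := by
  obtain ⟨k, hk0, hkQ, hk⟩ := Real.exists_nat_abs_mul_sub_round_le (z.arg / (2 * Real.pi)) hQ
  refine ⟨k, hk0, hkQ, ?_⟩
  set m : ℤ := round ((k : ℝ) * (z.arg / (2 * Real.pi))) with hm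
  set δ : ℝ := (k : ℝ) * (z.arg / (2 * Real.pi)) - m with hδ
  have hpi : Real.pi ≠ 0 := Real.pi_ne_zero
  have h1 : z ^ k = Complex.exp (Complex.I * ((2 * Real.pi * δ : ℝ) : ℂ)) := by
    have h2 : z = Complex.exp (z.arg * Complex.I) := by
      have h3 := Complex.norm_mul_exp_arg_mul_I z
      rw [hz] at h3
      simpa using h3.symm
    have h4 : z ^ k = Complex.exp (k * (z.arg * Complex.I)) := by
      conv_lhs => rw [h2]
      rw [← Complex.exp_nat_mul]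
    rw [h4]
    rw [Complex.exp_eq_exp_iff_exists_int]
    refine ⟨m, ?_⟩
    have h5 : 2 * Real.pi * δ = k * z.arg - 2 * Real.pi * m := by
      rw [hδ]; field_simp
    rw [h5]
    push_cast
    ring
  rw [h1]
  refine le_trans Real.norm_exp_I_mul_ofReal_sub_one_le ?_
  rw [Real.norm_eq_abs, abs_mul, abs_of_pos (by positivity : (0 : ℝ) < 2 * Real.pi)]
  have hQ' : (0 : ℝ) < Q := by exact_mod_cast hQ
  calc 2 * Real.pi * |δ| ≤ 2 * Real.pi * (1 / (Q + 1)) :=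
        mul_le_mul_of_nonneg_left hk (by positivity)
    _ ≤ 7 * (1 / Q) := by
        apply mul_le_mul
        · have := Real.pi_lt_d2; linarith
        · apply one_div_le_one_div_of_le hQ'; linarith
        · positivity
        · norm_num
    _ = 7 / Q := by ring

lemma m3a_cube (n : ℕ) : ∃ Q : ℕ, Q ^ 3 ≤ n ∧ n < (Q + 1) ^ 3 := by
  induction n with
  | zero => exact ⟨0, by norm_num, by norm_num⟩
  | succ n ih =>
    obtain ⟨Q, h1, h2⟩ := ih
    by_cases h3 : n + 1 < (Q + 1) ^ 3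
    · exact ⟨Q, by omega, h3⟩
    · refine ⟨Q + 1, by omega, ?_⟩
      have h4 : (Q + 1) ^ 3 < (Q + 1 + 1) ^ 3 := Nat.pow_lt_pow_left (by omega) (by norm_num)
      omega

/-- powers of the logarithm are eventually smaller than the number -/
lemma m3a_growth (C k : ℕ) : ∃ n₀ : ℕ, ∀ n, n₀ ≤ n → C * (Nat.log 2 n) ^ k ≤ n := by
  have h := isLittleO_pow_const_const_pow_of_one_lt (R := ℝ) k (r := 2) (by norm_num)
  have h2 := h.def (c := 1 / ((C : ℝ) + 1)) (by positivity)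
  obtain ⟨l₀, hl₀⟩ := Filter.eventually_atTop.mp h2
  refine ⟨2 ^ l₀, fun n hn => ?_⟩
  have hn0 : n ≠ 0 := by
    have : 0 < 2 ^ l₀ := by positivity
    omega
  have h3 : l₀ ≤ Nat.log 2 n := (Nat.le_log_iff_pow_le (by norm_num) hn0).mpr hn
  have h4 := hl₀ _ h3
  have h5 : 2 ^ Nat.log 2 n ≤ n := Nat.pow_log_le_self 2 hn0
  rw [Real.norm_of_nonneg (by positivity), Real.norm_of_nonneg (by positivity)] at h4
  have h6 : ((C : ℝ) + 1) * (Nat.log 2 n : ℝ) ^ k ≤ 2 ^ Nat.log 2 n := by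
    have hC : (0 : ℝ) < (C : ℝ) + 1 := by positivity
    calc ((C : ℝ) + 1) * (Nat.log 2 n : ℝ) ^ k
        ≤ ((C : ℝ) + 1) * (1 / ((C : ℝ) + 1) * 2 ^ Nat.log 2 n) :=
          mul_le_mul_of_nonneg_left h4 hC.le
      _ = 2 ^ Nat.log 2 n := by field_simp
  have h7 : (C + 1) * (Nat.log 2 n) ^ k ≤ 2 ^ Nat.log 2 n := by exact_mod_cast h6
  calc C * (Nat.log 2 n) ^ k ≤ (C + 1) * (Nat.log 2 n) ^ k := Nat.mul_le_mul_right _ (by omega)
    _ ≤ _ := h7
    _ ≤ n := h5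

/-- comparison of the two exponentials -/
lemma m3a_exp (s n E : ℕ) (hs : 2 ≤ s) (h : 3 * s * E < n) :
    (1 - 1 / (s : ℝ)) ^ n < (1 / 8 : ℝ) ^ E := by
  have hs' : (2 : ℝ) ≤ s := by exact_mod_cast hs
  have hs0 : (0 : ℝ) < s := by linarith
  have h0 : 0 ≤ 1 - 1 / (s : ℝ) := by
    rw [sub_nonneg, div_le_one hs0]; linarith
  have h1 : 1 - 1 / (s : ℝ) ≤ Real.exp (-(1 / (s : ℝ))) := by
    have := Real.add_one_le_exp (-(1 / (s : ℝ)))
    linarith
  have h2 : (1 - 1 / (s : ℝ)) ^ n ≤ Real.exp (-(n / (s : ℝ))) := by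
    calc (1 - 1 / (s : ℝ)) ^ n ≤ (Real.exp (-(1 / (s : ℝ)))) ^ n := pow_le_pow_left₀ h0 h1 n
      _ = Real.exp (-(n / (s : ℝ))) := by
        rw [← Real.exp_nat_mul]; congr 1; ring
  have h3 : Real.exp (-3) ≤ 1 / 8 := by
    have h4 : (8 : ℝ) ≤ Real.exp 3 := by
      have h5 : Real.exp 3 = (Real.exp 1) ^ 3 := by
        rw [← Real.exp_nat_mul]; norm_num
      rw [h5]
      have h6 : (2.7 : ℝ) ≤ Real.exp 1 := by
        have := Real.exp_one_gt_d9; linarith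
      calc (8 : ℝ) ≤ 2.7 ^ 3 := by norm_num
        _ ≤ (Real.exp 1) ^ 3 := pow_le_pow_left₀ (by norm_num) h6 3
    rw [Real.exp_neg]
    rw [one_div]
    exact inv_anti₀ (by norm_num) h4
  have h4 : Real.exp (-(3 * E : ℝ)) ≤ (1 / 8 : ℝ) ^ E := by
    calc Real.exp (-(3 * E : ℝ)) = (Real.exp (-3)) ^ E := by
          rw [← Real.exp_nat_mul]; congr 1; ring
      _ ≤ (1 / 8 : ℝ) ^ E := pow_le_pow_left₀ (Real.exp_pos _).le h3 E
  have h5 : Real.exp (-(n / (s : ℝ))) < Real.exp (-(3 * E : ℝ)) := by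
    rw [Real.exp_lt_exp, neg_lt_neg_iff, lt_div_iff₀ hs0]
    have : ((3 * s * E : ℕ) : ℝ) < n := by exact_mod_cast h
    push_cast at this
    linarith
  linarith

/-- the arithmetic of the parameters -/
lemma m3a_arith (n l s Q q : ℕ) (hs : 2 ≤ s) (hsl : s ≤ l) (hQn : Q ^ 3 ≤ n)
    (hnQ : n < (Q + 1) ^ 3) (hCQ : 4000000000000000 * l ^ 8 ≤ Q) (hq : 0 < q) (hqQ : q ≤ Q) :
    q * (7 * n / (Q * q) + 1 + s * (l + 2) + s * Q) ≤ 61 * l ^ 2 * Q ^ 2 ∧
    100 * (3000 * s * (2 * l + 20)) * (7 * n / (Q * q) + 1 + s * (l + 2) + s * Q) ≤ n / q ∧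
    3 * s * (5000 * (3000 * s * (2 * l + 20)) ^ 2 * (s * q) *
      (7 * n / (Q * q) + 1 + s * (l + 2) + s * Q)) < n := by
  have hl : 1 ≤ l := by omega
  have hl2 : 1 ≤ l ^ 2 := Nat.one_le_pow _ _ (by omega)
  have hQ1 : 1 ≤ Q := by omega
  set a := 7 * n / (Q * q) + 1 + s * (l + 2) + s * Q with ha
  have h1 : q * (7 * n / (Q * q)) ≤ 56 * Q ^ 2 := by
    rw [← Nat.div_div_eq_div_mul]
    calc q * (7 * n / Q / q) ≤ 7 * n / Q := Nat.mul_div_le _ _
      _ ≤ 56 * Q ^ 2 := by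
        apply Nat.div_le_of_le_mul
        have h2 : (Q + 1) ^ 3 ≤ (2 * Q) ^ 3 := Nat.pow_le_pow_left (by omega) 3
        calc 7 * n ≤ 7 * (2 * Q) ^ 3 := by omega
          _ = Q * (56 * Q ^ 2) := by ring
  have h2 : q * (1 + s * (l + 2) + s * Q) ≤ 5 * l ^ 2 * Q ^ 2 := by
    have e1 : 1 + s * (l + 2) + s * Q ≤ 5 * l ^ 2 * Q := by
      have k1 : s * (l + 2) ≤ l * (l + 2) := Nat.mul_le_mul_right _ hsl
      have k2 : s * Q ≤ l * Q := Nat.mul_le_mul_right _ hsl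
      have k3 : l ≤ l ^ 2 := Nat.le_self_pow (by norm_num) l
      have k4 : l ^ 2 ≤ l ^ 2 * Q := Nat.le_mul_of_pos_right _ (by omega)
      have k5 : l * Q ≤ l ^ 2 * Q := Nat.mul_le_mul_right _ k3
      have k6 : l * (l + 2) = l ^ 2 + 2 * l := by ring
      have k7 : 5 * l ^ 2 * Q = 5 * (l ^ 2 * Q) := by ring
      omega
    calc q * (1 + s * (l + 2) + s * Q) ≤ Q * (5 * l ^ 2 * Q) := Nat.mul_le_mul hqQ e1
      _ = 5 * l ^ 2 * Q ^ 2 := by ring
  have h3 : q * a ≤ 61 * l ^ 2 * Q ^ 2 := by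
    have e1 : q * a = q * (7 * n / (Q * q)) + q * (1 + s * (l + 2) + s * Q) := by
      rw [ha]; ring
    have e2 : 56 * Q ^ 2 ≤ 56 * l ^ 2 * Q ^ 2 := by
      calc 56 * Q ^ 2 = 56 * 1 * Q ^ 2 := by ring
        _ ≤ 56 * l ^ 2 * Q ^ 2 := Nat.mul_le_mul_right _ (Nat.mul_le_mul_left _ hl2)
    calc q * a ≤ 56 * l ^ 2 * Q ^ 2 + 5 * l ^ 2 * Q ^ 2 := by omega
      _ = 61 * l ^ 2 * Q ^ 2 := by ring
  have h4 : 3000 * s * (2 * l + 20) ≤ 66000 * l ^ 2 := by
    calc 3000 * s * (2 * l + 20) ≤ 3000 * l * (22 * l) :=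
          Nat.mul_le_mul (Nat.mul_le_mul_left _ hsl) (by omega)
      _ = 66000 * l ^ 2 := by ring
  have hbig : 4000000000000000 * l ^ 8 * Q ^ 2 ≤ n := by
    calc 4000000000000000 * l ^ 8 * Q ^ 2 ≤ Q * Q ^ 2 := Nat.mul_le_mul_right _ hCQ
      _ = Q ^ 3 := by ring
      _ ≤ n := hQn
  refine ⟨h3, ?_, ?_⟩
  · rw [Nat.le_div_iff_mul_le hq]
    calc 100 * (3000 * s * (2 * l + 20)) * a * q
        = 100 * (3000 * s * (2 * l + 20)) * (q * a) := by ring
      _ ≤ 100 * (66000 * l ^ 2) * (61 * l ^ 2 * Q ^ 2) :=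
          Nat.mul_le_mul (Nat.mul_le_mul_left _ h4) h3
      _ = 402600000 * l ^ 4 * Q ^ 2 := by ring
      _ ≤ 4000000000000000 * l ^ 8 * Q ^ 2 :=
          Nat.mul_le_mul_right _ (Nat.mul_le_mul (by norm_num)
            (Nat.pow_le_pow_right (by omega) (by norm_num)))
      _ ≤ n := hbig
  · have h5 : 3 * s * (5000 * (3000 * s * (2 * l + 20)) ^ 2 * (s * q) * a) ≤
        3985740000000000 * l ^ 8 * Q ^ 2 := by
      calc 3 * s * (5000 * (3000 * s * (2 * l + 20)) ^ 2 * (s * q) * a)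
          = 3 * s * (5000 * (3000 * s * (2 * l + 20)) ^ 2 * s) * (q * a) := by ring
        _ ≤ 3 * l * (5000 * (66000 * l ^ 2) ^ 2 * l) * (61 * l ^ 2 * Q ^ 2) := by
            apply Nat.mul_le_mul _ h3
            apply Nat.mul_le_mul
            · exact Nat.mul_le_mul_left _ hsl
            · apply Nat.mul_le_mul _ hsl
              exact Nat.mul_le_mul_left _ (Nat.pow_le_pow_left h4 2)
        _ = 3985740000000000 * l ^ 8 * Q ^ 2 := by ring
    have h6 : 1 ≤ l ^ 8 * Q ^ 2 := Nat.mul_pos (by positivity) (by positivity)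
    have h7 : 3985740000000000 * l ^ 8 * Q ^ 2 = 3985740000000000 * (l ^ 8 * Q ^ 2) := by ring
    have h8 : 4000000000000000 * l ^ 8 * Q ^ 2 = 4000000000000000 * (l ^ 8 * Q ^ 2) := by ring
    omega

theorem m3_arch_of (hgl : GlNF) : ∃ n₀ : ℕ, ∀ (s n : ℕ), 2 ≤ s → n₀ ≤ n → s ≤ Nat.log 2 n →
    ∀ (K : Type) [Field K] [NumberField K], Module.finrank ℚ K ≤ s →
      ∀ v ∈ (archAbsVal : Multiset (AbsoluteValue K ℝ)), ∀ κ r : K, κ ≠ 0 → r ≠ 0 →
        v κ = 1 → (∀ m : ℕ, 0 < m → κ ^ m ≠ 1) → mulHeight₁ κ ≤ s →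
          mulHeight₁ r ≤ (n + 2 : ℝ) ^ s → (1 - 1 / (s : ℝ)) ^ n < v (r - κ ^ n) := by
  obtain ⟨n₀, hn₀⟩ := m3a_growth (4000000000000000 ^ 3) 24
  refine ⟨n₀, ?_⟩
  intro s n hs hn hsl K _ _ hfin v hv κ r hκ0 hr hvκ hκ hκH hrH
  have hgrow := hn₀ n hn
  set l := Nat.log 2 n with hl
  obtain ⟨Q, hQn, hnQ⟩ := m3a_cube n
  have hCQ : 4000000000000000 * l ^ 8 ≤ Q := by
    have h1 : (4000000000000000 * l ^ 8) ^ 3 < (Q + 1) ^ 3 := by
      calc (4000000000000000 * l ^ 8) ^ 3 = 4000000000000000 ^ 3 * l ^ 24 := by ring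
        _ ≤ n := hgrow
        _ < _ := hnQ
    have h2 : 4000000000000000 * l ^ 8 < Q + 1 := lt_of_pow_lt_pow_left₀ 3 (by omega) h1
    omega
  have hl1 : 1 ≤ l := by omega
  have hl8 : 1 ≤ l ^ 8 := Nat.one_le_pow _ _ (by omega)
  have hQ7 : 7 ≤ Q := by omega
  have hQ0 : 0 < Q := by omega
  have hn0 : n ≠ 0 := by
    have : 0 < Q ^ 3 := by positivity
    omega
  -- the embedding
  have hv' : v ∈ NumberField.multisetInfinitePlace K := hv
  rw [NumberField.mem_multisetInfinitePlace] at hv'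
  obtain ⟨σ, hσ⟩ := hv'
  have hvσ : ∀ x : K, v x = ‖σ x‖ := by
    intro x
    rw [← hσ]; rfl
  obtain ⟨q, hq0, hqQ, hq7⟩ := m3a_dirichlet (σ κ) (by rw [← hvσ]; exact hvκ) Q hQ0
  have hvq : v (κ ^ q - 1) ≤ 7 / Q := by
    rw [hvσ, map_sub, map_pow, map_one]; exact hq7
  obtain ⟨ar1, ar2, ar3⟩ := m3a_arith n l s Q q hs hsl hQn hnQ hCQ hq0 hqQ
  set a₂ := 7 * n / (Q * q) + 1 + s * (l + 2) + s * Q with ha₂
  have hκs0 : κ ^ (n % q) ≠ 0 := pow_ne_zero _ hκ0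
  have hQr : (7 : ℝ) ≤ Q := by exact_mod_cast hQ7
  have hqr : (0 : ℝ) < q := by exact_mod_cast hq0
  have hs1 : (1 : ℝ) ≤ s := by
    have : 1 ≤ s := by omega
    exact_mod_cast this
  have h2s : (s : ℝ) ≤ 2 ^ s := by
    have : s ≤ 2 ^ s := Nat.lt_two_pow_self.le
    exact_mod_cast this
  have hlow := hgl K v (Or.inl hv) (κ ^ q) (r * (κ ^ (n % q))⁻¹)
    (mul_ne_zero hr (inv_ne_zero hκs0)) (pow_ne_zero _ hκ0)
    (by
      intro m hm
      rw [← pow_mul]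
      exact hκ _ (Nat.mul_pos hq0 hm))
    (by rw [map_pow, hvκ, one_pow])
    (n / q) s (s * q) a₂ (2 * l + 20) (by omega)
    (by rw [NumberField.totalWeight_eq_finrank]; exact hfin)
    (Nat.mul_pos (by omega) hq0) (by rw [ha₂]; generalize 7 * n / (Q * q) = D; omega)
    (by
      rw [mulHeight₁_pow, pow_mul]
      apply pow_le_pow_left₀ (mulHeight₁_nonneg _)
      exact hκH.trans h2s)
    (by
      have e1 : mulHeight₁ (r * (κ ^ (n % q))⁻¹) ≤ mulHeight₁ r * mulHeight₁ κ ^ (n % q) := by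
        refine le_trans (mulHeight₁_mul_le _ _) ?_
        rw [mulHeight₁_inv, mulHeight₁_pow]
      have e2 : (n + 2 : ℝ) ≤ 2 ^ (l + 2) := by
        have e3 : n < 2 ^ (l + 1) := Nat.lt_pow_succ_log_self (by norm_num) n
        have e4 : n + 2 ≤ 2 ^ (l + 2) := by
          have e5 : 2 ^ (l + 2) = 2 * 2 ^ (l + 1) := by ring
          have e6 : 2 ≤ 2 ^ (l + 1) := by
            calc 2 = 2 ^ 1 := by norm_num
              _ ≤ 2 ^ (l + 1) := Nat.pow_le_pow_right (by norm_num) (by omega)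
          omega
        exact_mod_cast e4
      have e3 : mulHeight₁ r ≤ 2 ^ (s * (l + 2)) := by
        refine hrH.trans ?_
        rw [mul_comm, pow_mul]
        exact pow_le_pow_left₀ (by positivity) e2 s
      have e4 : mulHeight₁ κ ^ (n % q) ≤ 2 ^ (s * Q) := by
        calc mulHeight₁ κ ^ (n % q) ≤ (2 ^ s) ^ (n % q) :=
              pow_le_pow_left₀ (mulHeight₁_nonneg _) (hκH.trans h2s) _
          _ = 2 ^ (s * (n % q)) := by rw [pow_mul]
          _ ≤ 2 ^ (s * Q) := by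
              apply pow_le_pow_right₀ (by norm_num)
              apply Nat.mul_le_mul_left
              have := Nat.mod_lt n hq0
              omega
      calc mulHeight₁ (r * (κ ^ (n % q))⁻¹) ≤ mulHeight₁ r * mulHeight₁ κ ^ (n % q) := e1
        _ ≤ 2 ^ (s * (l + 2)) * 2 ^ (s * Q) :=
            mul_le_mul e3 e4 (pow_nonneg (mulHeight₁_nonneg _) _) (by positivity)
        _ = 2 ^ (s * (l + 2) + s * Q) := by rw [pow_add]
        _ ≤ 2 ^ a₂ := by
            apply pow_le_pow_right₀ (by norm_num)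
            rw [ha₂]; generalize 7 * n / (Q * q) = D; omega)
    (by
      left
      constructor
      · calc v (κ ^ q - 1) ≤ 7 / Q := hvq
          _ ≤ 1 := by rw [div_le_one (by linarith)]; exact hQr
          _ ≤ ((s * q : ℕ) : ℝ) := by
              have : 1 ≤ s * q := Nat.mul_pos (by omega) hq0
              exact_mod_cast this
      · have e1 : ((n / q : ℕ) : ℝ) ≤ n / q := Nat.cast_div_le
        have e2 : (7 * n : ℝ) / (Q * q) ≤ ((7 * n / (Q * q) : ℕ) : ℝ) + 1 := by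
          have hpos : 0 < Q * q := Nat.mul_pos hQ0 hq0
          have e3 := Nat.lt_succ_floor ((7 * n : ℝ) / (Q * q))
          have e4 : ⌊((7 * n : ℝ) / (Q * q))⌋₊ = 7 * n / (Q * q) := by
            have := Nat.floor_div_eq_div (K := ℝ) (7 * n) (Q * q)
            push_cast at this
            exact this
          rw [e4] at e3
          push_cast at e3
          exact e3.le
        calc v (κ ^ q - 1) * ((n / q : ℕ) : ℝ) ≤ 7 / Q * (n / q) :=
              mul_le_mul hvq e1 (Nat.cast_nonneg _) (by positivity)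
          _ = (7 * n : ℝ) / (Q * q) := by field_simp
          _ ≤ ((7 * n / (Q * q) : ℕ) : ℝ) + 1 := e2
          _ ≤ (a₂ : ℝ) := by
              have : 7 * n / (Q * q) + 1 ≤ a₂ := by
                rw [ha₂]; generalize 7 * n / (Q * q) = D; omega
              exact_mod_cast this)
    (by omega)
    (by
      calc s ≤ 2 ^ s := Nat.lt_two_pow_self.le
        _ ≤ 2 ^ (2 * l + 20) := Nat.pow_le_pow_right (by norm_num) (by omega))
    (by
      have e1 : Q ≤ n := le_trans (Nat.le_self_pow (by norm_num) Q) hQn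
      have e3 : n < 2 ^ (l + 1) := Nat.lt_pow_succ_log_self (by norm_num) n
      have e4 : s < 2 ^ s := Nat.lt_two_pow_self
      have e5 : 2 ^ s ≤ 2 ^ l := Nat.pow_le_pow_right (by norm_num) hsl
      calc s * q ≤ 2 ^ l * 2 ^ (l + 1) := Nat.mul_le_mul (by omega) (by omega)
        _ = 2 ^ (l + (l + 1)) := by rw [← pow_add]
        _ ≤ 2 ^ (2 * l + 20) := Nat.pow_le_pow_right (by norm_num) (by omega))
    (by
      have e3 : n < 2 ^ (l + 1) := Nat.lt_pow_succ_log_self (by norm_num) n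
      calc n / q ≤ n := Nat.div_le_self _ _
        _ ≤ 2 ^ (l + 1) := e3.le
        _ ≤ 2 ^ (2 * l + 20) := Nat.pow_le_pow_right (by norm_num) (by omega))
    ar2
  have hfinal : v (r - κ ^ n) = v (r * (κ ^ (n % q))⁻¹ - (κ ^ q) ^ (n / q)) := by
    have e1 : r - κ ^ n = κ ^ (n % q) * (r * (κ ^ (n % q))⁻¹ - (κ ^ q) ^ (n / q)) := by
      have e2 : κ ^ n = κ ^ (n % q) * (κ ^ q) ^ (n / q) := by
        rw [← pow_mul, ← pow_add, Nat.mod_add_div]
      rw [e2]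
      field_simp
    rw [e1, map_mul, map_pow, hvκ, one_pow, one_mul]
  rw [hfinal]
  exact lt_of_lt_of_le (m3a_exp s n _ hs ar3) hlow

theorem m3_arch : ∃ n₀ : ℕ, ∀ (s n : ℕ), 2 ≤ s → n₀ ≤ n → s ≤ Nat.log 2 n →
    ∀ (K : Type) [Field K] [NumberField K], Module.finrank ℚ K ≤ s →
      ∀ v ∈ (archAbsVal : Multiset (AbsoluteValue K ℝ)), ∀ κ r : K, κ ≠ 0 → r ≠ 0 →
        v κ = 1 → (∀ m : ℕ, 0 < m → κ ^ m ≠ 1) → mulHeight₁ κ ≤ s →
          mulHeight₁ r ≤ (n + 2 : ℝ) ^ s → (1 - 1 / (s : ℝ)) ^ n < v (r - κ ^ n) :=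
  m3_arch_of fun _ _ _ v hv κ r hr hκ0 hκ hvκ n W a₁ a₂ lam hW hWK ha₁ ha₂ hκH hrH hδ
    hlam hlW hla hln hn => gl v hv κ r hr hκ0 hκ hvκ n W a₁ a₂ lam hW hWK ha₁ ha₂ hκH hrH hδ
    hlam hlW hla hln hn

end Pool.Agent.Work.MP_8d13b5_lc.Rk

end

section

set_option autoImplicit false

namespace Pool.Agent.Work.MP_8d13b5_lc.Rk

open Height AdmissibleAbsValues Polynomial Finset

theorem m3_nonarch : ∃ n₀ : ℕ, ∀ (s n : ℕ), 2 ≤ s → n₀ ≤ n → s ≤ Nat.log 2 n →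
    ∀ (K : Type) [Field K] [NumberField K], Module.finrank ℚ K ≤ s →
      ∀ (v : AbsoluteValue K ℝ) (q : ℕ), q ≤ s → HasNorm v q → ∀ κ r : K, κ ≠ 0 → r ≠ 0 →
        v κ = 1 → (∀ m : ℕ, 0 < m → κ ^ m ≠ 1) → mulHeight₁ κ ≤ s →
          mulHeight₁ r ≤ (n + 2 : ℝ) ^ s → (1 - 1 / (s : ℝ)) ^ n < v (r - κ ^ n) :=
  m3_nonarch_of_gl fun _ _ _ _ v hv κ r hr hκ0 hκ hvκ n W a₁ a₂ lam hW hWK ha₁ ha₂ hκH hrH hδ
    hlam hlW hla hln hn => gl v hv κ r hr hκ0 hκ hvκ n W a₁ a₂ lam hW hWK ha₁ ha₂ hκH hrH hδ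
    hlam hlW hla hln hn

end Pool.Agent.Work.MP_8d13b5_lc.Rk

end

section

set_option autoImplicit false

/-! The gap between powers of characteristic roots at all places. -/

namespace Pool.Agent.Work.MP_8d13b5_lc.Rk

open Height AdmissibleAbsValues Polynomial Finset

/-- the gap at all places -/
theorem place_gap : ∃ B : ℕ → ℕ, Elem B ∧ ∀ (s : ℕ) (K : Type) [Field K] [NumberField K],
    Module.finrank ℚ K ≤ s → ∀ χ : ℤ[X], χ.Monic → χ.natDegree ≤ s → (∀ i, |χ.coeff i| ≤ s) →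
      (χ.map (algebraMap ℤ K)).Splits → ∀ v : AbsoluteValue K ℝ, IsPlace v → ∀ M : ℕ, 0 < M →
        ∀ x y : K, aeval x χ = 0 → aeval y χ = 0 → v (x ^ M) < v (y ^ M) →
          2 ≤ B s ∧ v (x ^ M) ≤ (1 - 1 / (B s : ℝ)) * v (y ^ M) := by
  obtain ⟨B, hB, hgap⟩ := arch_gap
  refine ⟨fun s => B s + 2, hB.add (Elem.const 2), ?_⟩
  intro s K _ _ hK χ hχ hd hc hs v hv M hM x y hx hy hxy
  refine ⟨Nat.le_add_left 2 (B s), ?_⟩
  have hB' : (2 : ℝ) ≤ ((B s + 2 : ℕ) : ℝ) := by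
    have : 2 ≤ B s + 2 := by omega
    exact_mod_cast this
  have hinv : 1 / ((B s + 2 : ℕ) : ℝ) ≤ 1 / 2 :=
    one_div_le_one_div_of_le (by norm_num) hB'
  have hinv0 : 0 < 1 / ((B s + 2 : ℕ) : ℝ) := by positivity
  show v (x ^ M) ≤ (1 - 1 / ((B s + 2 : ℕ) : ℝ)) * v (y ^ M)
  rcases hv with hv | hv
  · rw [map_pow, map_pow] at hxy ⊢
    have hlt : v x < v y := lt_of_pow_lt_pow_left₀ M (v.nonneg y) hxy
    obtain ⟨h2, h3⟩ := hgap s K hK χ hχ hd hc hs v hv x y hx hy hlt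
    have hBs : (2 : ℝ) ≤ (B s : ℝ) := by exact_mod_cast h2
    have hi : 1 / ((B s + 2 : ℕ) : ℝ) ≤ 1 / (B s : ℝ) := by
      apply one_div_le_one_div_of_le (by linarith)
      push_cast
      linarith
    have hi0 : 1 / (B s : ℝ) ≤ 1 / 2 := one_div_le_one_div_of_le (by norm_num) hBs
    have hi1 : 0 < 1 / (B s : ℝ) := by positivity
    have ha : 0 ≤ 1 - 1 / (B s : ℝ) := by linarith
    have ha1 : 1 - 1 / (B s : ℝ) ≤ 1 := by linarith
    calc v x ^ M ≤ ((1 - 1 / (B s : ℝ)) * v y) ^ M := pow_le_pow_left₀ (v.nonneg x) h3 M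
      _ = (1 - 1 / (B s : ℝ)) ^ M * v y ^ M := mul_pow _ _ _
      _ ≤ (1 - 1 / (B s : ℝ)) * v y ^ M := by
          apply mul_le_mul_of_nonneg_right _ (pow_nonneg (v.nonneg y) M)
          calc (1 - 1 / (B s : ℝ)) ^ M ≤ (1 - 1 / (B s : ℝ)) ^ 1 :=
                pow_le_pow_of_le_one ha ha1 hM
            _ = _ := pow_one _
      _ ≤ (1 - 1 / ((B s + 2 : ℕ) : ℝ)) * v y ^ M := by
          apply mul_le_mul_of_nonneg_right _ (pow_nonneg (v.nonneg y) M)
          linarith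
  · obtain ⟨q, hq⟩ := exists_hasNorm v hv
    have h1 := hq.half _ _ hxy
    have h2 : 0 ≤ v (y ^ M) := v.nonneg _
    calc v (x ^ M) ≤ (1 / 2) * v (y ^ M) := by linarith
      _ ≤ _ := mul_le_mul_of_nonneg_right (by linarith) h2

end Pool.Agent.Work.MP_8d13b5_lc.Rk

end

section

set_option autoImplicit false

/-!
Consequences of the effective Northcott theorem: the order of a root of unity, the gap for heights
of numbers which are not roots of unity, and Kronecker's theorem.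
-/

namespace Pool.Agent.Work.MP_8d13b5_lc.Rk

open Height AdmissibleAbsValues Polynomial Finset

/-- pigeonhole: if the powers `x ^ 0, …, x ^ N` all lie in a finite set with at most `N` elements,
two of them agree -/
private theorem tors_pigeon {K : Type*} [Field K] (x : K) (S : Set K) (hS : S.Finite) (N : ℕ)
    (hN : S.ncard ≤ N) (h : ∀ i ≤ N, x ^ i ∈ S) : ∃ i j, i < j ∧ j ≤ N ∧ x ^ i = x ^ j := by
  classical
  have hc : hS.toFinset.card < (Finset.range (N + 1)).card := by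
    rw [← Set.ncard_eq_toFinset_card S hS, Finset.card_range]
    omega
  obtain ⟨i, hi, j, hj, hij, he⟩ := Finset.exists_ne_map_eq_of_card_lt_of_maps_to
    (s := Finset.range (N + 1)) (t := hS.toFinset) hc (f := fun i => x ^ i) (fun i hi => by
      rw [Finset.mem_coe, hS.mem_toFinset]
      exact h i (Nat.lt_succ_iff.mp (Finset.mem_range.mp hi)))
  rw [Finset.mem_range] at hi hj
  rcases lt_or_gt_of_ne hij with h1 | h1
  · exact ⟨i, j, h1, by omega, he⟩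
  · exact ⟨j, i, h1, by omega, he.symm⟩

private theorem tors_pow_eq_one {K : Type*} [Field K] (x : K) (hx : x ≠ 0) {i j : ℕ} (hij : i < j)
    (h : x ^ i = x ^ j) : x ^ (j - i) = 1 := by
  have h1 : x ^ i * x ^ (j - i) = x ^ i * 1 := by
    rw [← pow_add, Nat.add_sub_cancel' hij.le, mul_one, h]
  exact mul_left_cancel₀ (pow_ne_zero _ hx) h1

theorem torsion_bound : ∃ B : ℕ → ℕ, Elem B ∧ ∀ (s : ℕ) (K : Type) [Field K] [NumberField K],
    Module.finrank ℚ K ≤ s → ∀ x : K, (∃ m : ℕ, 0 < m ∧ x ^ m = 1) →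
      x ^ (B s).factorial = 1 := by
  obtain ⟨B, hB, h⟩ := northcott_count
  refine ⟨B, hB, ?_⟩
  intro s K _ _ hs x hx
  obtain ⟨m, hm, hxm⟩ := hx
  have hx0 : x ≠ 0 := by
    rintro rfl
    rw [zero_pow hm.ne'] at hxm
    exact zero_ne_one hxm
  have hs1 : (1 : ℝ) ≤ s := by
    exact_mod_cast le_trans (Module.finrank_pos (R := ℚ) (M := K)) hs
  have hH : mulHeight₁ x = 1 := by
    have h1 : mulHeight₁ x ^ m = 1 := by rw [← mulHeight₁_pow, hxm, mulHeight₁_one]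
    exact (pow_eq_one_iff_of_nonneg (zero_le_one.trans (one_le_mulHeight₁ x)) hm.ne').mp h1
  obtain ⟨i, j, hij, hj, he⟩ := tors_pigeon x {x : K | mulHeight₁ x ≤ s}
    (NumberField.finite_setOfPred_mulHeight₁_le K s) (B s) (h s K hs) (fun i _ => by
      show mulHeight₁ (x ^ i) ≤ s
      rw [mulHeight₁_pow, hH, one_pow]
      exact hs1)
  have h1 := tors_pow_eq_one x hx0 hij he
  obtain ⟨c, hc⟩ : (j - i) ∣ (B s).factorial := Nat.dvd_factorial (by omega) (by omega)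
  rw [hc, pow_mul, h1, one_pow]

theorem height_gap : ∃ B : ℕ → ℕ, Elem B ∧ ∀ (s : ℕ) (K : Type) [Field K] [NumberField K],
    Module.finrank ℚ K ≤ s → ∀ x : K, x ≠ 0 → (∀ m : ℕ, 0 < m → x ^ m ≠ 1) →
      2 ≤ mulHeight₁ x ^ B s := by
  obtain ⟨B, hB, h⟩ := northcott_count
  refine ⟨fun s => B (max s 2), hB.comp (Elem.id.max (Elem.const 2)), ?_⟩
  intro s K _ _ hs x hx hxm
  by_contra hlt
  push Not at hlt
  obtain ⟨i, j, hij, hj, he⟩ := tors_pigeon x {x : K | mulHeight₁ x ≤ (max s 2 : ℕ)}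
    (NumberField.finite_setOfPred_mulHeight₁_le K _) (B (max s 2))
    (h (max s 2) K (hs.trans (le_max_left _ _))) (fun i hi => by
      show mulHeight₁ (x ^ i) ≤ (max s 2 : ℕ)
      rw [mulHeight₁_pow]
      calc mulHeight₁ x ^ i ≤ mulHeight₁ x ^ B (max s 2) :=
            pow_le_pow_right₀ (one_le_mulHeight₁ x) hi
        _ ≤ 2 := hlt.le
        _ ≤ _ := by exact_mod_cast le_max_right s 2)
  exact hxm (j - i) (by omega) (tors_pow_eq_one x hx hij he)

theorem exists_place_ne_one {K : Type*} [Field K] [NumberField K] (x : K) (hx : x ≠ 0)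
    (h : ∀ m : ℕ, 0 < m → x ^ m ≠ 1) : ∃ v : AbsoluteValue K ℝ, IsPlace v ∧ v x ≠ 1 := by
  by_contra hcon
  push Not at hcon
  have hH : mulHeight₁ x = 1 := by
    rw [mulHeight₁_eq]
    have h1 : (archAbsVal.map fun v : AbsoluteValue K ℝ => max (v x) 1).prod = 1 := by
      apply Multiset.prod_eq_one
      intro a ha
      obtain ⟨v, hv, rfl⟩ := Multiset.mem_map.mp ha
      rw [hcon v (Or.inl hv), max_self]
    have h2 : ∏ᶠ v : nonarchAbsVal, max (v.val x) 1 = 1 := by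
      apply finprod_eq_one_of_forall_eq_one
      intro v
      rw [hcon v.val (Or.inr v.2), max_self]
    rw [h1, h2, one_mul]
  obtain ⟨i, j, hij, hj, he⟩ := tors_pigeon x {x : K | mulHeight₁ x ≤ 1}
    (NumberField.finite_setOfPred_mulHeight₁_le K _) _ le_rfl (fun i hi => by
      show mulHeight₁ (x ^ i) ≤ 1
      rw [mulHeight₁_pow, hH, one_pow])
  exact h (j - i) (by omega) (tors_pow_eq_one x hx hij he)

end Pool.Agent.Work.MP_8d13b5_lc.Rk

end

section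

set_option autoImplicit false

/-! Nonvanishing of a sum with a dominant part of rank at most one. -/

namespace Pool.Agent.Work.MP_8d13b5_lc.Rk

open Height AdmissibleAbsValues Polynomial Finset

theorem core_pow_bound (l : ℕ) (hl : 16 ≤ l) : 2 * l * (2 * l ^ 2 + 5 * l + 1) ≤ 2 ^ l := by
  induction l, hl using Nat.le_induction with
  | base => norm_num
  | succ l hl ih =>
    have h0 : 2 ^ (l + 1) = 2 * 2 ^ l := pow_succ' 2 l
    have h1 : l * l ≥ 16 * l := Nat.mul_le_mul_right l hl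
    have h2 : l * l * l ≥ 16 * (l * l) := by nlinarith
    have h3 : 2 * (l + 1) * (2 * (l + 1) ^ 2 + 5 * (l + 1) + 1) ≤
        2 * (2 * l * (2 * l ^ 2 + 5 * l + 1)) := by
      ring_nf
      ring_nf at h1 h2
      nlinarith
    omega

theorem core_num_nat (s n : ℕ) (hs : 2 ≤ s) (hl : 16 ≤ Nat.log 2 n) (hsl : s ≤ Nat.log 2 n) :
    s * (n + 2) ^ (2 * s) < 2 ^ (n / (2 * s)) := by
  set l := Nat.log 2 n with hldef
  have hn0 : n ≠ 0 := by
    rintro rfl
    simp at hldef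
    omega
  have h1 : 2 ^ l ≤ n := Nat.pow_log_le_self 2 hn0
  have h2 : n < 2 ^ (l + 1) := Nat.lt_pow_succ_log_self (by norm_num) n
  have h3 : n + 2 ≤ 2 ^ (l + 2) := by
    have : 2 ≤ 2 ^ (l + 1) := by
      calc 2 = 2 ^ 1 := by norm_num
        _ ≤ 2 ^ (l + 1) := Nat.pow_le_pow_right (by norm_num) (by omega)
    calc n + 2 ≤ 2 ^ (l + 1) + 2 ^ (l + 1) := by omega
      _ = 2 ^ (l + 2) := by ring
  have h4 : 2 * l ^ 2 + 5 * l + 1 ≤ n / (2 * s) := by
    rw [Nat.le_div_iff_mul_le (by omega)]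
    calc (2 * l ^ 2 + 5 * l + 1) * (2 * s) ≤ (2 * l ^ 2 + 5 * l + 1) * (2 * l) := by gcongr
      _ = 2 * l * (2 * l ^ 2 + 5 * l + 1) := by ring
      _ ≤ 2 ^ l := core_pow_bound l hl
      _ ≤ n := h1
  calc s * (n + 2) ^ (2 * s) ≤ 2 ^ l * (2 ^ (l + 2)) ^ (2 * l) := by
        apply Nat.mul_le_mul
        · exact hsl.trans (Nat.lt_two_pow_self).le
        · calc (n + 2) ^ (2 * s) ≤ (2 ^ (l + 2)) ^ (2 * s) := Nat.pow_le_pow_left h3 _
            _ ≤ (2 ^ (l + 2)) ^ (2 * l) := Nat.pow_le_pow_right (by positivity) (by omega)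
    _ = 2 ^ (2 * l ^ 2 + 5 * l) := by
        rw [← pow_mul, ← pow_add]
        congr 1
        ring
    _ < 2 ^ (2 * l ^ 2 + 5 * l + 1) := Nat.pow_lt_pow_right (by norm_num) (by omega)
    _ ≤ 2 ^ (n / (2 * s)) := Nat.pow_le_pow_right (by norm_num) h4

theorem core_num (s n : ℕ) (hs : 2 ≤ s) (hl : 16 ≤ Nat.log 2 n) (hsl : s ≤ Nat.log 2 n) :
    (s : ℝ) * (n + 2 : ℝ) ^ (2 * s) * (1 - 1 / (s : ℝ)) ^ n < (1 - 1 / (4 * (s : ℝ))) ^ n := by
  have hs' : (2 : ℝ) ≤ s := by exact_mod_cast hs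
  have hs0 : (0 : ℝ) < s := by linarith
  have hinv : 1 / (s : ℝ) ≤ 1 / 2 := one_div_le_one_div_of_le (by norm_num) hs'
  have hρ : 0 < 1 - 1 / (s : ℝ) := by linarith
  have h1 : (1 - 1 / (s : ℝ)) * (1 + 3 / (4 * s)) ≤ 1 - 1 / (4 * (s : ℝ)) := by
    have : (1 - 1 / (4 * (s : ℝ))) - (1 - 1 / (s : ℝ)) * (1 + 3 / (4 * s)) = 3 / (4 * s ^ 2) := by
      field_simp
      ring
    have h2 : (0 : ℝ) ≤ 3 / (4 * s ^ 2) := by positivity
    linarith
  have h2 : (2 : ℝ) ≤ (1 + 3 / (4 * (s : ℝ))) ^ (2 * s) := by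
    have hB := one_add_mul_le_pow (a := 3 / (4 * (s : ℝ))) (by
      have : (0 : ℝ) ≤ 3 / (4 * s) := by positivity
      linarith) (2 * s)
    have : ((2 * s : ℕ) : ℝ) * (3 / (4 * (s : ℝ))) = 3 / 2 := by
      push_cast
      field_simp
      ring
    rw [this] at hB
    linarith
  have h3 : (2 : ℝ) ^ (n / (2 * s)) ≤ (1 + 3 / (4 * (s : ℝ))) ^ n := by
    calc (2 : ℝ) ^ (n / (2 * s)) ≤ ((1 + 3 / (4 * (s : ℝ))) ^ (2 * s)) ^ (n / (2 * s)) := by
          gcongr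
      _ = (1 + 3 / (4 * (s : ℝ))) ^ (2 * s * (n / (2 * s))) := by rw [← pow_mul]
      _ ≤ (1 + 3 / (4 * (s : ℝ))) ^ n := by
          apply pow_le_pow_right₀
          · have : (0 : ℝ) ≤ 3 / (4 * s) := by positivity
            linarith
          · exact Nat.mul_div_le n (2 * s)
  have h4 : (s : ℝ) * (n + 2 : ℝ) ^ (2 * s) < (1 + 3 / (4 * (s : ℝ))) ^ n := by
    refine lt_of_lt_of_le ?_ h3
    exact_mod_cast core_num_nat s n hs hl hsl
  calc (s : ℝ) * (n + 2 : ℝ) ^ (2 * s) * (1 - 1 / (s : ℝ)) ^ n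
      < (1 + 3 / (4 * (s : ℝ))) ^ n * (1 - 1 / (s : ℝ)) ^ n := by
        gcongr
    _ = ((1 - 1 / (s : ℝ)) * (1 + 3 / (4 * s))) ^ n := by
        rw [mul_pow]; ring
    _ ≤ (1 - 1 / (4 * (s : ℝ))) ^ n := by
        gcongr

/-- lower bound for a split polynomial at a point far from its roots -/
theorem core_eval_lower {K : Type*} [Field K] (v : AbsoluteValue K ℝ) (G : K[X]) (hG : G.Splits)
    (z : K) (c ρ : ℝ) (hc : 0 ≤ c) (hcl : c ≤ v G.leadingCoeff) (hρ0 : 0 ≤ ρ) (hρ1 : ρ ≤ 1)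
    (g : ℕ) (hg : G.natDegree ≤ g) (hr : ∀ r ∈ G.roots, ρ ≤ v (z - r)) :
    c * ρ ^ g ≤ v (G.eval z) := by
  rw [hG.eval_eq_prod_roots, map_mul]
  have hprod : ∀ m : Multiset K, (∀ r ∈ m, ρ ≤ v (z - r)) →
      ρ ^ (Multiset.card m) ≤ v ((m.map (z - ·)).prod) := by
    intro m
    induction m using Multiset.induction_on with
    | empty => simp
    | cons a m ih =>
      intro h
      rw [Multiset.card_cons, Multiset.map_cons, Multiset.prod_cons, map_mul, pow_succ, mul_comm]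
      have h1 := h a (Multiset.mem_cons_self a m)
      have h2 := ih (fun r hr => h r (Multiset.mem_cons_of_mem hr))
      exact mul_le_mul h1 h2 (by positivity) (by positivity)
  have h1 := hprod G.roots hr
  have hcard : Multiset.card G.roots ≤ g := (Polynomial.card_roots' G).trans hg
  calc c * ρ ^ g ≤ c * ρ ^ (Multiset.card G.roots) := by
        apply mul_le_mul_of_nonneg_left _ hc
        exact pow_le_pow_of_le_one hρ0 hρ1 hcard
    _ ≤ v G.leadingCoeff * v ((G.roots.map (z - ·)).prod) := by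
        exact mul_le_mul hcl h1 (by positivity) (by positivity)

theorem core_coeff {K : Type*} [Field K] (D : Finset K) (p : K → K) (a : K → ℕ)
    (ha : Set.InjOn a D) (x : K) (hx : x ∈ D) :
    (∑ x ∈ D, C (p x) * X ^ a x : K[X]).coeff (a x) = p x := by
  rw [finsetSum_coeff, Finset.sum_eq_single x]
  · simp
  · intro y hy hyx
    have : a x ≠ a y := fun h => hyx (ha hy hx h.symm)
    simp [coeff_X_pow, this]
  · exact fun h => absurd hx h

theorem core_coeff_or {K : Type*} [Field K] (D : Finset K) (p : K → K) (a : K → ℕ)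
    (ha : Set.InjOn a D) (i : ℕ) :
    (∑ x ∈ D, C (p x) * X ^ a x : K[X]).coeff i = 0 ∨
      ∃ x ∈ D, a x = i ∧ (∑ x ∈ D, C (p x) * X ^ a x : K[X]).coeff i = p x := by
  by_cases h : ∃ x ∈ D, a x = i
  · obtain ⟨x, hx, rfl⟩ := h
    exact Or.inr ⟨x, hx, rfl, core_coeff D p a ha x hx⟩
  · left
    push Not at h
    rw [finsetSum_coeff]
    apply Finset.sum_eq_zero
    intro y hy
    have : i ≠ a y := fun h' => h y hy h'.symm
    simp [coeff_X_pow, this]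

theorem core : ∃ c n₀ : ℕ, ∀ (s n : ℕ), 2 ≤ s → n₀ ≤ n → s ^ c ≤ Nat.log 2 n →
    ∀ (K : Type) [Field K] [NumberField K], Module.finrank ℚ K ≤ s →
      ∀ v : AbsoluteValue K ℝ, (v ∈ (archAbsVal : Multiset (AbsoluteValue K ℝ)) ∨
        ∃ q, q ≤ s ∧ HasNorm v q) →
      ∀ (S D : Finset K) (p : K → K) (κ x₀ : K) (a : K → ℕ), S.card ≤ s → D ⊆ S → x₀ ∈ D →
        (∀ x ∈ S, x ≠ 0 ∧ p x ≠ 0 ∧ mulHeight₁ (p x) ≤ (n + 2 : ℝ) ^ s) →
        (∀ x ∈ S, x ∉ D → v x ≤ (1 - 1 / (s : ℝ)) * v x₀) →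
        κ ≠ 0 → v κ = 1 → (∀ m : ℕ, 0 < m → κ ^ m ≠ 1) → mulHeight₁ κ ≤ s →
        a x₀ = 0 → (∀ x ∈ D, a x ≤ s ∧ x = x₀ * κ ^ a x) →
        (∑ x ∈ D, C (p x) * X ^ a x : K[X]).Splits →
          ∑ x ∈ S, p x * x ^ n ≠ 0 := by
  classical
  obtain ⟨n1, hn1⟩ := m3_nonarch
  obtain ⟨n2, hn2⟩ := m3_arch
  refine ⟨4, max (max n1 n2) (2 ^ 16), ?_⟩
  intro s n hs hn hsn K _ _ hK v hv S D p κ x₀ a hS hDS hx₀ hp hv2 hκ0 hvκ hκ hκH ha0 hD hsplit
  set l := Nat.log 2 n with hldef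
  have hn16 : 2 ^ 16 ≤ n := (le_max_right _ _).trans hn
  have hnn1 : n1 ≤ n := (le_max_left _ _).trans ((le_max_left _ _).trans hn)
  have hnn2 : n2 ≤ n := (le_max_right _ _).trans ((le_max_left _ _).trans hn)
  have hl16 : 16 ≤ l := (Nat.le_log_iff_pow_le (by norm_num) (by omega)).mpr hn16
  have hn0 : n ≠ 0 := by
    have : 0 < 2 ^ 16 := by positivity
    omega
  have hln : l ≤ n := Nat.log_le_self 2 n
  have hs4 : 4 * s ^ 2 ≤ s ^ 4 := by
    have : 4 ≤ s ^ 2 := by nlinarith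
    calc 4 * s ^ 2 ≤ s ^ 2 * s ^ 2 := Nat.mul_le_mul_right _ this
      _ = s ^ 4 := by ring
  have hs'l : 4 * s ^ 2 ≤ l := hs4.trans hsn
  have hss' : s ≤ 4 * s ^ 2 := by nlinarith
  have hsl : s ≤ l := hss'.trans hs'l
  have hs'2 : 2 ≤ 4 * s ^ 2 := hs.trans hss'
  have hpl : IsPlace v := by
    rcases hv with hv | ⟨q, -, hq⟩
    · exact Or.inl hv
    · exact Or.inr hq.mem
  have hsR : (2 : ℝ) ≤ s := by exact_mod_cast hs
  have hs0 : (0 : ℝ) < s := by linarith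
  have hN1 : (1 : ℝ) ≤ (n + 2 : ℝ) := by
    have : (0 : ℝ) ≤ n := Nat.cast_nonneg n
    linarith
  have hN0 : (0 : ℝ) < (n + 2 : ℝ) := by linarith
  set G : K[X] := ∑ x ∈ D, C (p x) * X ^ a x with hGdef
  have hinj : Set.InjOn a D := by
    intro x hx y hy hxy
    rw [(hD x hx).2, (hD y hy).2, hxy]
  have hx₀S : x₀ ∈ S := hDS hx₀
  have hx₀0 : x₀ ≠ 0 := (hp x₀ hx₀S).1
  have hcoef0 : G.coeff 0 = p x₀ := by
    rw [← ha0]
    exact core_coeff D p a hinj x₀ hx₀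
  have hG0 : G ≠ 0 := by
    intro h
    rw [h, coeff_zero] at hcoef0
    exact (hp x₀ hx₀S).2.1 hcoef0.symm
  have hdeg : G.natDegree ≤ s := by
    apply natDegree_sum_le_of_forall_le
    intro x hx
    exact (natDegree_C_mul_X_pow_le _ _).trans (hD x hx).1
  have hcoefH : ∀ i, mulHeight₁ (G.coeff i) ≤ (n + 2 : ℝ) ^ s := by
    intro i
    rcases core_coeff_or D p a hinj i with h | ⟨x, hx, -, h⟩
    · rw [h, mulHeight₁_zero]
      exact one_le_pow₀ hN1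
    · rw [h]
      exact (hp x (hDS hx)).2.2
  have hlead : ((n + 2 : ℝ) ^ s)⁻¹ ≤ v G.leadingCoeff := by
    have hne : G.leadingCoeff ≠ 0 := leadingCoeff_ne_zero.mpr hG0
    refine le_trans ?_ (liouville hpl hne)
    apply inv_anti₀ (mulHeight₁_pos _)
    exact hcoefH _
  -- heights of the roots
  have hrootH : ∀ r ∈ G.roots, mulHeight₁ r ≤ (n + 2 : ℝ) ^ (4 * s ^ 2) := by
    intro r hr
    have hr' : G.IsRoot r := (mem_roots hG0).mp hr
    have h1 := height_root G hG0 r hr' _ hcoefH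
    refine h1.trans ?_
    have hg1 : ((G.natDegree : ℝ) + 1) ≤ (n + 2 : ℝ) := by
      have : G.natDegree ≤ n := hdeg.trans (hsl.trans hln)
      have : (G.natDegree : ℝ) ≤ n := by exact_mod_cast this
      linarith
    have htw : totalWeight K ≤ s := by
      rw [NumberField.totalWeight_eq_finrank]
      exact hK
    calc ((G.natDegree : ℝ) + 1) ^ totalWeight K * ((n + 2 : ℝ) ^ s) ^ (G.natDegree + 1)
        ≤ (n + 2 : ℝ) ^ totalWeight K * ((n + 2 : ℝ) ^ s) ^ (G.natDegree + 1) := by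
          gcongr
      _ ≤ (n + 2 : ℝ) ^ s * ((n + 2 : ℝ) ^ s) ^ (s + 1) := by
          apply mul_le_mul
          · exact pow_le_pow_right₀ hN1 htw
          · exact pow_le_pow_right₀ (one_le_pow₀ hN1) (by omega)
          · positivity
          · positivity
      _ = (n + 2 : ℝ) ^ (s + s * (s + 1)) := by rw [← pow_mul, ← pow_add]
      _ ≤ (n + 2 : ℝ) ^ (4 * s ^ 2) := by
          apply pow_le_pow_right₀ hN1
          nlinarith
  have hroot0 : ∀ r ∈ G.roots, r ≠ 0 := by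
    rintro r hr rfl
    have hr' : G.IsRoot 0 := (mem_roots hG0).mp hr
    rw [IsRoot, ← coeff_zero_eq_eval_zero, hcoef0] at hr'
    exact (hp x₀ hx₀S).2.1 hr'
  have hκs' : mulHeight₁ κ ≤ ((4 * s ^ 2 : ℕ) : ℝ) := hκH.trans (by exact_mod_cast hss')
  set ρ : ℝ := 1 - 1 / ((4 * s ^ 2 : ℕ) : ℝ) with hρdef
  have hfar : ∀ r ∈ G.roots, ρ ^ n ≤ v (κ ^ n - r) := by
    intro r hr
    have hrH := hrootH r hr
    have hr0 := hroot0 r hr
    rw [← neg_sub, AbsoluteValue.map_neg]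
    rcases hv with hv | ⟨q, hq, hqv⟩
    · exact (hn2 (4 * s ^ 2) n hs'2 hnn2 hs'l K (hK.trans hss') v hv κ r hκ0 hr0 hvκ hκ hκs'
        hrH).le
    · exact (hn1 (4 * s ^ 2) n hs'2 hnn1 hs'l K (hK.trans hss') v q (hq.trans hss') hqv κ r hκ0
        hr0 hvκ hκ hκs' hrH).le
  have hρ0 : 0 ≤ ρ := by
    have h1 : (1 : ℝ) ≤ ((4 * s ^ 2 : ℕ) : ℝ) := by
      have : 1 ≤ 4 * s ^ 2 := by omega
      exact_mod_cast this
    have : 1 / ((4 * s ^ 2 : ℕ) : ℝ) ≤ 1 := by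
      rw [div_le_one (by linarith)]
      exact h1
    rw [hρdef]
    linarith
  have hρ1 : ρ ≤ 1 := by
    have : 0 ≤ 1 / ((4 * s ^ 2 : ℕ) : ℝ) := by positivity
    rw [hρdef]
    linarith
  have hlow := core_eval_lower v G hsplit (κ ^ n) _ (ρ ^ n) (by positivity) hlead
    (pow_nonneg hρ0 n) (pow_le_one₀ hρ0 hρ1) s hdeg hfar
  -- Bernoulli
  have hbern : 1 - 1 / (4 * (s : ℝ)) ≤ ρ ^ s := by
    have h1 := one_add_mul_le_pow (a := -(1 / ((4 * s ^ 2 : ℕ) : ℝ))) (by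
      have : ρ = 1 + -(1 / ((4 * s ^ 2 : ℕ) : ℝ)) := by rw [hρdef]; ring
      linarith) s
    have h2 : (1 : ℝ) + -(1 / ((4 * s ^ 2 : ℕ) : ℝ)) = ρ := by rw [hρdef]; ring
    rw [h2] at h1
    refine le_trans (le_of_eq ?_) h1
    push_cast
    field_simp
    ring
  have hbern0 : 0 ≤ 1 - 1 / (4 * (s : ℝ)) := by
    have : 1 / (4 * (s : ℝ)) ≤ 1 := by
      rw [div_le_one (by positivity)]
      linarith
    linarith
  have hlow2 : ((n + 2 : ℝ) ^ s)⁻¹ * (1 - 1 / (4 * (s : ℝ))) ^ n ≤ v (G.eval (κ ^ n)) := by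
    refine le_trans ?_ hlow
    apply mul_le_mul_of_nonneg_left _ (by positivity)
    rw [← pow_mul, mul_comm n s, pow_mul]
    exact pow_le_pow_left₀ hbern0 hbern n
  -- the dominant part
  have hdom : ∑ x ∈ D, p x * x ^ n = x₀ ^ n * G.eval (κ ^ n) := by
    rw [hGdef, eval_finsetSum, Finset.mul_sum]
    apply Finset.sum_congr rfl
    intro x hx
    have hx' := (hD x hx).2
    conv_lhs => rw [hx']
    rw [eval_mul, eval_C, eval_pow, eval_X, mul_pow, ← pow_mul, ← pow_mul, mul_comm n (a x), ← hx']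
    ring
  intro hzero
  have hsplitS : ∑ x ∈ D, p x * x ^ n = -∑ x ∈ S \ D, p x * x ^ n := by
    have := Finset.sum_sdiff hDS (f := fun x => p x * x ^ n)
    rw [hzero] at this
    linear_combination this
  have hvx₀ : 0 < v x₀ := v.pos hx₀0
  have hrest : v (∑ x ∈ S \ D, p x * x ^ n) ≤
      s * ((n + 2 : ℝ) ^ s * ((1 - 1 / (s : ℝ)) * v x₀) ^ n) := by
    refine (v.sum_le _ _).trans ?_
    calc ∑ x ∈ S \ D, v (p x * x ^ n)
        ≤ ∑ x ∈ S \ D, (n + 2 : ℝ) ^ s * ((1 - 1 / (s : ℝ)) * v x₀) ^ n := by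
          apply Finset.sum_le_sum
          intro x hx
          rw [Finset.mem_sdiff] at hx
          rw [map_mul, map_pow]
          apply mul_le_mul
          · exact (le_height hpl (p x)).trans (hp x hx.1).2.2
          · exact pow_le_pow_left₀ (v.nonneg x) (hv2 x hx.1 hx.2) n
          · positivity
          · positivity
      _ = (S \ D).card * ((n + 2 : ℝ) ^ s * ((1 - 1 / (s : ℝ)) * v x₀) ^ n) := by
          rw [Finset.sum_const, nsmul_eq_mul]
      _ ≤ s * ((n + 2 : ℝ) ^ s * ((1 - 1 / (s : ℝ)) * v x₀) ^ n) := by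
          have hc : ((S \ D).card : ℝ) ≤ s := by
            exact_mod_cast (Finset.card_le_card Finset.sdiff_subset).trans hS
          have h1s : 0 ≤ 1 - 1 / (s : ℝ) := by
            have : 1 / (s : ℝ) ≤ 1 := by
              rw [div_le_one hs0]
              linarith
            linarith
          gcongr
  have hfin : v x₀ ^ n * (((n + 2 : ℝ) ^ s)⁻¹ * (1 - 1 / (4 * (s : ℝ))) ^ n) ≤
      s * ((n + 2 : ℝ) ^ s * ((1 - 1 / (s : ℝ)) * v x₀) ^ n) := by
    calc v x₀ ^ n * (((n + 2 : ℝ) ^ s)⁻¹ * (1 - 1 / (4 * (s : ℝ))) ^ n)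
        ≤ v x₀ ^ n * v (G.eval (κ ^ n)) := by gcongr
      _ = v (∑ x ∈ D, p x * x ^ n) := by rw [hdom, map_mul, map_pow]
      _ = v (∑ x ∈ S \ D, p x * x ^ n) := by rw [hsplitS, AbsoluteValue.map_neg]
      _ ≤ _ := hrest
  have hnum := core_num s n hs hl16 hsl
  have hpos : 0 < v x₀ ^ n := by positivity
  have hNs : (0 : ℝ) < (n + 2 : ℝ) ^ s := by positivity
  have h3 : (1 - 1 / (4 * (s : ℝ))) ^ n ≤
      (s : ℝ) * (n + 2 : ℝ) ^ (2 * s) * (1 - 1 / (s : ℝ)) ^ n := by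
    have h4 : v x₀ ^ n * (1 - 1 / (4 * (s : ℝ))) ^ n ≤
        v x₀ ^ n * ((s : ℝ) * (n + 2 : ℝ) ^ (2 * s) * (1 - 1 / (s : ℝ)) ^ n) := by
      calc v x₀ ^ n * (1 - 1 / (4 * (s : ℝ))) ^ n
          = (n + 2 : ℝ) ^ s * (v x₀ ^ n * (((n + 2 : ℝ) ^ s)⁻¹ * (1 - 1 / (4 * (s : ℝ))) ^ n)) := by
            field_simp
        _ ≤ (n + 2 : ℝ) ^ s * (s * ((n + 2 : ℝ) ^ s * ((1 - 1 / (s : ℝ)) * v x₀) ^ n)) := by
            gcongr
        _ = v x₀ ^ n * ((s : ℝ) * (n + 2 : ℝ) ^ (2 * s) * (1 - 1 / (s : ℝ)) ^ n) := by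
            rw [mul_pow, two_mul, pow_add]
            ring
    exact le_of_mul_le_mul_left h4 hpos
  exact absurd hnum (not_lt.mpr h3)

end Pool.Agent.Work.MP_8d13b5_lc.Rk

end

section

set_option autoImplicit false

namespace Pool.Agent.Work.MP_8d13b5_lc.Rk

open Height AdmissibleAbsValues Polynomial Finset

/-- `H ^ B ≥ 2` and `H ^ a ≤ h` bound the exponent `a` -/
theorem cls_exp_le (H : ℝ) (hH : 1 ≤ H) (B a h : ℕ) (h1 : 2 ≤ H ^ B) (h2 : H ^ a ≤ h) :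
    a ≤ h * B := by
  have h3 : (2 : ℝ) ^ a ≤ 2 ^ (h * B) := by
    calc (2 : ℝ) ^ a ≤ (H ^ B) ^ a := by gcongr
      _ = (H ^ a) ^ B := by rw [← pow_mul, ← pow_mul, mul_comm]
      _ ≤ (h : ℝ) ^ B := by gcongr
      _ ≤ (2 ^ h) ^ B := by
          have : (h : ℝ) ≤ 2 ^ h := by exact_mod_cast Nat.lt_two_pow_self.le
          gcongr
      _ = 2 ^ (h * B) := by rw [← pow_mul]
  by_contra hcon
  have : (2 : ℝ) ^ (h * B) < 2 ^ a := pow_lt_pow_right₀ (by norm_num) (not_le.1 hcon)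
  linarith

theorem cls_gap_mono {x : ℝ} (hx : 0 ≤ x) {B s : ℕ} (hB : 2 ≤ B) (h : B ≤ s) {y : ℝ}
    (hy : y ≤ (1 - 1 / (B : ℝ)) * x) : y ≤ (1 - 1 / (s : ℝ)) * x := by
  refine hy.trans ?_
  have h1 : (1 : ℝ) / s ≤ 1 / B := by
    have : (B : ℝ) ≤ s := by exact_mod_cast h
    have hB' : (0 : ℝ) < B := by positivity
    exact one_div_le_one_div_of_le hB' this
  have : (1 - 1 / (B : ℝ)) ≤ (1 - 1 / (s : ℝ)) := by linarith
  gcongr

/-- the application of `core` in the splitting field -/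
theorem cls_apply (HC : ∃ c n₀ : ℕ, ∀ (s n : ℕ), 2 ≤ s → n₀ ≤ n → s ^ c ≤ Nat.log 2 n →
    ∀ (K : Type) [Field K] [NumberField K], Module.finrank ℚ K ≤ s →
      ∀ v : AbsoluteValue K ℝ, (v ∈ (archAbsVal : Multiset (AbsoluteValue K ℝ)) ∨
        ∃ q, q ≤ s ∧ HasNorm v q) →
      ∀ (S D : Finset K) (p : K → K) (κ x₀ : K) (a : K → ℕ), S.card ≤ s → D ⊆ S → x₀ ∈ D →
        (∀ x ∈ S, x ≠ 0 ∧ p x ≠ 0 ∧ mulHeight₁ (p x) ≤ (n + 2 : ℝ) ^ s) →
        (∀ x ∈ S, x ∉ D → v x ≤ (1 - 1 / (s : ℝ)) * v x₀) →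
        κ ≠ 0 → v κ = 1 → (∀ m : ℕ, 0 < m → κ ^ m ≠ 1) → mulHeight₁ κ ≤ s →
        a x₀ = 0 → (∀ x ∈ D, a x ≤ s ∧ x = x₀ * κ ^ a x) →
        (∑ x ∈ D, C (p x) * X ^ a x : K[X]).Splits →
          ∑ x ∈ S, p x * x ^ n ≠ 0) :
    ∃ c n₀ : ℕ, ∀ (s n : ℕ), 2 ≤ s → n₀ ≤ n → s ^ c ≤ Nat.log 2 n →
    ∀ (K L : Type) [Field K] [NumberField K] [Field L] [NumberField L] [Algebra K L],
      Module.finrank ℚ L ≤ s →
      ∀ w : AbsoluteValue L ℝ, (w ∈ (archAbsVal : Multiset (AbsoluteValue L ℝ)) ∨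
        ∃ q, q ≤ s ∧ HasNorm w q) →
      ∀ (S D : Finset K) (p : K → K) (κ x₀ : K) (a : K → ℕ), S.card ≤ s → D ⊆ S → x₀ ∈ D →
        (∀ x ∈ S, x ≠ 0 ∧ p x ≠ 0 ∧ mulHeight₁ (algebraMap K L (p x)) ≤ (n + 2 : ℝ) ^ s) →
        (∀ x ∈ S, x ∉ D → w (algebraMap K L x) ≤ (1 - 1 / (s : ℝ)) * w (algebraMap K L x₀)) →
        κ ≠ 0 → w (algebraMap K L κ) = 1 → (∀ m : ℕ, 0 < m → κ ^ m ≠ 1) →
        mulHeight₁ (algebraMap K L κ) ≤ s →
        a x₀ = 0 → (∀ x ∈ D, a x ≤ s ∧ x = x₀ * κ ^ a x) →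
        ((∑ x ∈ D, C (p x) * X ^ a x : K[X]).map (algebraMap K L)).Splits →
          ∑ x ∈ S, p x * x ^ n ≠ 0 := by
  classical
  obtain ⟨c, n₀, HC⟩ := HC
  refine ⟨c, n₀, ?_⟩
  intro s n hs hn hsn K L _ _ _ _ _ hfin w hw S D p κ x₀ a hS hDS hx₀ hp hgap hκ0 hwκ hκ hκH ha0
    ha hsplit
  set ι : K →+* L := algebraMap K L with hι
  have hinj : Function.Injective ι := ι.injective
  have hinv : ∀ x, Function.invFun ι (ι x) = x := Function.leftInverse_invFun hinj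
  have key := HC s n hs hn hsn L hfin w hw (S.image ι) (D.image ι)
    (fun y => ι (p (Function.invFun ι y))) (ι κ) (ι x₀) (fun y => a (Function.invFun ι y))
    (card_image_le.trans hS) (image_subset_image hDS) (mem_image_of_mem ι hx₀)
    (by
      intro y hy
      obtain ⟨x, hx, rfl⟩ := mem_image.1 hy
      simp only [hinv]
      obtain ⟨h1, h2, h3⟩ := hp x hx
      exact ⟨(map_ne_zero ι).2 h1, (map_ne_zero ι).2 h2, h3⟩)
    (by
      intro y hy hyD
      obtain ⟨x, hx, rfl⟩ := mem_image.1 hy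
      exact hgap x hx fun h => hyD (mem_image_of_mem ι h))
    ((map_ne_zero ι).2 hκ0) hwκ
    (by
      intro m hm h
      rw [← map_pow] at h
      exact hκ m hm (hinj (by rw [h, map_one])))
    hκH
    (by
      show a (Function.invFun ι (ι x₀)) = 0
      rw [hinv, ha0])
    (by
      intro y hy
      obtain ⟨x, hx, rfl⟩ := mem_image.1 hy
      simp only [hinv]
      refine ⟨(ha x hx).1, ?_⟩
      rw [← map_pow, ← map_mul, ← (ha x hx).2])
    (by
      have h1 : (∑ x ∈ D.image ι, C (ι (p (Function.invFun ι x))) *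
          X ^ a (Function.invFun ι x) : L[X]) =
          (∑ x ∈ D, C (p x) * X ^ a x : K[X]).map ι := by
        rw [sum_image (fun x _ y _ h => hinj h), Polynomial.map_sum]
        refine sum_congr rfl fun x _ => ?_
        rw [hinv]
        simp
      rw [h1]
      exact hsplit)
  intro h0
  apply key
  rw [sum_image (fun x _ y _ h => hinj h)]
  have h2 : ∑ x ∈ S, ι (p (Function.invFun ι (ι x))) * ι x ^ n = ι (∑ x ∈ S, p x * x ^ n) := by
    rw [map_sum]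
    refine sum_congr rfl fun x _ => ?_
    rw [hinv, map_mul, map_pow]
  rw [h2, h0, map_zero]

/-- values of `v` and `w` at `1` -/
theorem cls_w_one {K L : Type*} [Field K] [Field L] [Algebra K L] (v : AbsoluteValue K ℝ)
    (w : AbsoluteValue L ℝ)
    (h : ∀ x y : K, w (algebraMap K L x) < w (algebraMap K L y) ↔ v x < v y) (x : K) :
    w (algebraMap K L x) = 1 ↔ v x = 1 := by
  have h1 := h x 1
  have h2 := h 1 x
  rw [map_one, map_one, map_one] at h1 h2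
  constructor
  · intro h3
    rw [h3] at h1 h2
    have h4 : ¬ v x < 1 := fun h5 => lt_irrefl _ (h1.2 h5)
    have h5 : ¬ 1 < v x := fun h5 => lt_irrefl _ (h2.2 h5)
    exact le_antisymm (not_lt.1 h5) (not_lt.1 h4)
  · intro h3
    rw [h3] at h1 h2
    have h4 : ¬ w (algebraMap K L x) < 1 := fun h5 => lt_irrefl _ (h1.1 h5)
    have h5 : ¬ 1 < w (algebraMap K L x) := fun h5 => lt_irrefl _ (h2.1 h5)
    exact le_antisymm (not_lt.1 h5) (not_lt.1 h4)

theorem class_ne_zero : ∃ B : ℕ → ℕ, Elem B ∧ ∀ (s : ℕ) (K : Type) [Field K] [NumberField K],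
    Module.finrank ℚ K ≤ s → ∀ χ : ℤ[X], χ.Monic → χ.coeff 0 ≠ 0 → χ.natDegree ≤ s →
      (∀ i, |χ.coeff i| ≤ s) → (χ.map (algebraMap ℤ K)).Splits →
      ∀ M : ℕ, 0 < M → M ≤ s → (∀ x : K, (∃ m : ℕ, 0 < m ∧ x ^ m = 1) → x ^ M = 1) →
      ∀ (T : Finset K) (R : K → K[X]), T.Nonempty →
        (∀ μ ∈ T, ∃ x : K, aeval x χ = 0 ∧ x ^ M = μ) →
        (∀ μ ∈ T, R μ ≠ 0 ∧ (R μ).natDegree ≤ s ∧ ∀ i, mulHeight₁ ((R μ).coeff i) ≤ s) →
        (T.card = 1 ∨ ∃ v : AbsoluteValue K ℝ, IsPlace v ∧ (∃ μ ∈ T, ∃ ν ∈ T, v μ ≠ v ν) ∧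
          ∀ x ∈ T, ∀ y ∈ T, ∀ z ∈ T, ∀ w ∈ T, (∀ t ∈ T, v t ≤ v x) → (∀ t ∈ T, v t ≤ v y) →
            (∀ t ∈ T, v t ≤ v z) → (∀ t ∈ T, v t ≤ v w) →
              ∃ a b : ℤ, (a ≠ 0 ∨ b ≠ 0) ∧ (x / y) ^ a = (z / w) ^ b) →
          ∀ n' j : ℕ, B s ≤ n' → j < M →
            ∑ μ ∈ T, (R μ).eval ((M * n' + j : ℕ) : K) * μ ^ n' ≠ 0 := by
  classical
  obtain ⟨B1, hB1, H1⟩ := root_bound
  obtain ⟨B2, hB2, H2⟩ := eval_height
  obtain ⟨B3, hB3, H3⟩ := eval_ne_zero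
  obtain ⟨B4, hB4, H4⟩ := place_gap
  obtain ⟨B5, hB5, H5⟩ := height_gap
  obtain ⟨c1, m1, HC⟩ := cls_apply core
  obtain ⟨c2, m2, HO⟩ := core_one
  -- sizes
  obtain ⟨h, hh⟩ : ∃ h : ℕ → ℕ, h = fun s => B1 s ^ (s + s) := ⟨_, rfl⟩
  have eh : Elem h := by rw [hh]; exact hB1.pow (Elem.id.add Elem.id)
  obtain ⟨A, hA⟩ : ∃ A : ℕ → ℕ, A = fun s => h s * B5 s := ⟨_, rfl⟩
  have eA : Elem A := by rw [hA]; exact eh.mul hB5
  obtain ⟨F, hF⟩ : ∃ F : ℕ → ℕ, F = fun s => s * (A s).factorial := ⟨_, rfl⟩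
  have eF : Elem F := by rw [hF]; exact Elem.id.mul eA.factorial
  obtain ⟨G, hG⟩ : ∃ G : ℕ → ℕ, G = fun s => (s + 2) * F s := ⟨_, rfl⟩
  have eG : Elem G := by rw [hG]; exact (Elem.id.add (Elem.const 2)).mul eF
  obtain ⟨S1, hS1⟩ : ∃ S1 : ℕ → ℕ, S1 = fun s => s + F s := ⟨_, rfl⟩
  have eS1 : Elem S1 := by rw [hS1]; exact Elem.id.add eF
  obtain ⟨S2, hS2⟩ : ∃ S2 : ℕ → ℕ, S2 = fun s => 2 + S1 s + A s + h s ^ G s + B4 (S1 s) + B4 s +
    B2 s * G s + B2 s := ⟨_, rfl⟩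
  have eS2 : Elem S2 := by
    rw [hS2]
    exact (((((((Elem.const 2).add eS1).add eA).add (eh.pow eG)).add (hB4.comp eS1)).add
      hB4).add (hB2.mul eG)).add hB2
  refine ⟨fun s => 2 ^ (S2 s ^ c1) + 2 ^ (S2 s ^ c2) + m1 + m2 + B3 s, ?_, ?_⟩
  · exact (((((Elem.const 2).pow (eS2.pow (Elem.const c1))).add
      ((Elem.const 2).pow (eS2.pow (Elem.const c2)))).add (Elem.const m1)).add
      (Elem.const m2)).add hB3
  intro s K _ _ hfin χ hχ hχ0 hdeg hcoef hsplit M hM hMs htf T R hT hTroot hR hcase n' j hn' hj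
  simp only at hn'
  obtain ⟨P1, hP1⟩ : ∃ P1, P1 = 2 ^ (S2 s ^ c1) := ⟨_, rfl⟩
  obtain ⟨P2, hP2⟩ : ∃ P2, P2 = 2 ^ (S2 s ^ c2) := ⟨_, rfl⟩
  rw [← hP1, ← hP2] at hn'
  have hn1 : m1 ≤ n' := by omega
  have hn2 : m2 ≤ n' := by omega
  have hn3 : B3 s ≤ n' := by omega
  have hpow1 : 2 ^ (S2 s ^ c1) ≤ n' := by rw [← hP1]; omega
  have hpow2 : 2 ^ (S2 s ^ c2) ≤ n' := by rw [← hP2]; omega
  have hn0 : n' ≠ 0 := by
    have h0 : 0 < P1 := by rw [hP1]; positivity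
    omega
  have hlog1 : S2 s ^ c1 ≤ Nat.log 2 n' := Nat.le_log_of_pow_le (by norm_num) hpow1
  have hlog2 : S2 s ^ c2 ≤ Nat.log 2 n' := Nat.le_log_of_pow_le (by norm_num) hpow2
  set n := M * n' + j with hn
  have hnn' : n' ≤ n := by
    rw [hn]
    exact (Nat.le_mul_of_pos_left n' hM).trans (Nat.le_add_right _ _)
  have hns : n ≤ s * (n' + 1) := by
    rw [hn]
    nlinarith
  -- facts about the terms
  have hroot0 : ∀ x : K, aeval x χ = 0 → x ≠ 0 := by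
    rintro x hx rfl
    rw [← coeff_zero_eq_aeval_zero'] at hx
    exact hχ0 (by
      have : (algebraMap ℤ K) (χ.coeff 0) = 0 := hx
      exact (map_eq_zero_iff (algebraMap ℤ K) (algebraMap ℤ K).injective_int).1 this)
  have hT0 : ∀ μ ∈ T, μ ≠ 0 := by
    intro μ hμ
    obtain ⟨x, hx, rfl⟩ := hTroot μ hμ
    exact pow_ne_zero _ (hroot0 x hx)
  have hpT : ∀ μ ∈ T, (R μ).eval (n : K) ≠ 0 := fun μ hμ =>
    H3 s K hfin (R μ) (hR μ hμ).1 (hR μ hμ).2.1 (hR μ hμ).2.2 n (hn3.trans hnn')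
  have hpH : ∀ μ ∈ T, mulHeight₁ ((R μ).eval (n : K)) ≤ (n' + 2 : ℝ) ^ B2 s := fun μ hμ =>
    H2 s K hfin (R μ) (hR μ hμ).2.1 (hR μ hμ).2.2 n n' hns
  have hTcard : T.card ≤ s := by
    have h1 : T ⊆ ((χ.aroots K).toFinset).image (fun x => x ^ M) := by
      intro μ hμ
      obtain ⟨x, hx, rfl⟩ := hTroot μ hμ
      refine mem_image_of_mem _ ?_
      rw [Multiset.mem_toFinset, mem_aroots]
      exact ⟨hχ.ne_zero, hx⟩
    calc T.card ≤ _ := card_le_card h1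
      _ ≤ _ := card_image_le
      _ ≤ (χ.aroots K).card := Multiset.toFinset_card_le _
      _ ≤ (χ.map (algebraMap ℤ K)).natDegree := card_roots' _
      _ ≤ χ.natDegree := natDegree_map_le
      _ ≤ s := hdeg
  rcases hcase with h1 | ⟨v, hv, ⟨μ₁, hμ₁, ν₁, hν₁, hvne⟩, hdep⟩
  · obtain ⟨μ, rfl⟩ := card_eq_one.1 h1
    rw [sum_singleton]
    exact mul_ne_zero (hpT μ (mem_singleton_self μ))
      (pow_ne_zero _ (hT0 μ (mem_singleton_self μ)))
  -- the dominant terms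
  obtain ⟨μ₀, hμ₀, hmax⟩ := exists_max_image T v hT
  obtain ⟨D, hD⟩ : ∃ D, D = T.filter (fun μ => v μ = v μ₀) := ⟨_, rfl⟩
  have hDT : D ⊆ T := by rw [hD]; exact filter_subset _ _
  have hDv : ∀ x ∈ D, v x = v μ₀ := by
    intro x hx
    rw [hD] at hx
    exact (mem_filter.1 hx).2
  have hDne : D.Nonempty := ⟨μ₀, by rw [hD]; exact mem_filter.2 ⟨hμ₀, rfl⟩⟩
  have hDdom : ∀ x ∈ D, ∀ t ∈ T, v t ≤ v x := by
    intro x hx t ht
    rw [hDv x hx]
    exact hmax t ht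
  have hlt : ∀ x ∈ T, x ∉ D → ∀ y ∈ D, v x < v y := by
    intro x hx hxD y hy
    rw [hDv y hy]
    refine lt_of_le_of_ne (hmax x hx) fun h => hxD ?_
    rw [hD]
    exact mem_filter.2 ⟨hx, h⟩
  obtain ⟨κ, hκ0, hvκ, hκtf, x₀, hx₀, a, ha⟩ := cyc_data M hM htf v D hDne
    (fun x hx => hT0 x (hDT hx))
    (fun x hx => by
      obtain ⟨y, _, hy⟩ := hTroot x (hDT hx)
      exact ⟨y, hy⟩)
    (fun x hx y hy => by rw [hDv x hx, hDv y hy])
    (fun x hx y hy z hz w hw => hdep x (hDT hx) y (hDT hy) z (hDT hz) w (hDT hw)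
      (hDdom x hx) (hDdom y hy) (hDdom z hz) (hDdom w hw))
  have hS2' : S2 s = 2 + S1 s + A s + h s ^ G s + B4 (S1 s) + B4 s + B2 s * G s + B2 s := by
    rw [hS2]
  have hS1' : S1 s = s + F s := by rw [hS1]
  have hG' : G s = (s + 2) * F s := by rw [hG]
  have hF' : F s = s * (A s).factorial := by rw [hF]
  have hA' : A s = h s * B5 s := by rw [hA]
  have hh' : h s = B1 s ^ (s + s) := by rw [hh]
  have hS2two : 2 ≤ S2 s := by rw [hS2']; omega
  by_cases hone : ∀ x ∈ D, x = x₀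
  · -- one dominant term
    refine HO (S2 s) n' hS2two hn2 hlog2 K (by rw [hS2', hS1']; omega) v hv T
      (fun μ => (R μ).eval (n : K)) x₀ (by rw [hS2', hS1']; omega) (hDT hx₀) ?_ ?_
    · intro x hx
      refine ⟨hT0 x hx, hpT x hx, (hpH x hx).trans ?_⟩
      refine pow_le_pow_right₀ ?_ (by rw [hS2']; omega)
      have : (0 : ℝ) ≤ n' := Nat.cast_nonneg n'
      linarith
    · intro x hx hxne
      have hxD : x ∉ D := fun h => hxne (hone x h)
      have h1 := hlt x hx hxD x₀ hx₀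
      obtain ⟨y, hy, rfl⟩ := hTroot x hx
      obtain ⟨y₀, hy₀, rfl⟩ := hTroot x₀ (hDT hx₀)
      obtain ⟨h2, h3⟩ := H4 s K hfin χ hχ hdeg hcoef hsplit v hv M hM y y₀ hy hy₀ h1
      exact cls_gap_mono (v.nonneg _) h2 (by rw [hS2']; omega) h3
  · push Not at hone
    obtain ⟨x₁, hx₁, hx₁ne⟩ := hone
    -- `κ` is not a root of unity
    have hκ : ∀ m : ℕ, 0 < m → κ ^ m ≠ 1 := by
      intro m hm h1
      have h2 := hκtf m hm h1
      have h3 := ha x₁ hx₁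
      rw [h2, one_pow, mul_one] at h3
      exact hx₁ne h3
    have hB1one : 1 ≤ B1 s := by
      obtain ⟨y, hy, _⟩ := hTroot μ₀ hμ₀
      have h1 := (one_le_mulHeight₁ y).trans (H1 s K hfin χ hχ hdeg hcoef y hy)
      exact_mod_cast h1
    have hB1r : (1 : ℝ) ≤ B1 s := by exact_mod_cast hB1one
    have hTH : ∀ x ∈ T, mulHeight₁ x ≤ (B1 s : ℝ) ^ s := by
      intro x hx
      obtain ⟨y, hy, rfl⟩ := hTroot x hx
      rw [mulHeight₁_pow]
      calc mulHeight₁ y ^ M ≤ (B1 s : ℝ) ^ M := by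
            have := H1 s K hfin χ hχ hdeg hcoef y hy
            have := mulHeight₁_nonneg y
            gcongr
        _ ≤ (B1 s : ℝ) ^ s := pow_le_pow_right₀ hB1r hMs
    have hratio : ∀ x ∈ T, ∀ y ∈ T, mulHeight₁ (x / y) ≤ h s := by
      intro x hx y hy
      rw [div_eq_mul_inv]
      refine (mulHeight₁_mul_le _ _).trans ?_
      rw [mulHeight₁_inv, hh']
      push_cast
      rw [pow_add]
      have h1 := hTH x hx
      have h2 := hTH y hy
      have h3 := mulHeight₁_nonneg y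
      gcongr
    have hκpow : ∀ x ∈ D, mulHeight₁ κ ^ a x ≤ h s := by
      intro x hx
      have h1 : κ ^ a x = x / x₀ := by
        have := ha x hx
        rw [eq_div_iff (hT0 x₀ (hDT hx₀)), mul_comm]
        exact this.symm
      rw [← mulHeight₁_pow, h1]
      exact hratio x (hDT hx) x₀ (hDT hx₀)
    have hax : ∀ x ∈ D, a x ≤ A s := by
      intro x hx
      rw [hA']
      exact cls_exp_le (mulHeight₁ κ) (one_le_mulHeight₁ κ) (B5 s) (a x) (h s)
        (H5 s K hfin κ hκ0 hκ) (hκpow x hx)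
    have ha₁ : a x₁ ≠ 0 := by
      intro h0
      have h3 := ha x₁ hx₁
      rw [h0, pow_zero, mul_one] at h3
      exact hx₁ne h3
    have hκH : mulHeight₁ κ ≤ h s :=
      (le_self_pow₀ (one_le_mulHeight₁ κ) ha₁).trans (hκpow x₁ hx₁)
    have ha0 : a x₀ = 0 := by
      by_contra h0
      have h3 := ha x₀ hx₀
      have h4 : κ ^ a x₀ = 1 := by
        have h5 := hT0 x₀ (hDT hx₀)
        have h6 : x₀ * κ ^ a x₀ = x₀ * 1 := by rw [← h3, mul_one]
        exact mul_left_cancel₀ h5 h6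
      exact hκ _ (Nat.pos_of_ne_zero h0) h4
    -- the polynomial and its splitting field
    set P : K[X] := ∑ x ∈ D, C ((R x).eval (n : K)) * X ^ a x with hP
    have hPcoeff : P.coeff 0 = (R x₀).eval (n : K) := by
      rw [hP, finsetSum_coeff, sum_eq_single x₀]
      · rw [ha0, pow_zero, mul_one, coeff_C_zero]
      · intro b hb hbne
        have hb0 : a b ≠ 0 := by
          intro h0
          have h3 := ha b hb
          rw [h0, pow_zero, mul_one] at h3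
          exact hbne h3
        rw [coeff_C_mul, coeff_X_pow, if_neg (fun h => hb0 h.symm), mul_zero]
      · intro h0
        exact absurd hx₀ h0
    have hP0 : P ≠ 0 := by
      intro h0
      rw [h0, coeff_zero] at hPcoeff
      exact hpT x₀ (hDT hx₀) hPcoeff.symm
    have hPdeg : P.natDegree ≤ A s := by
      rw [hP]
      refine natDegree_sum_le_of_forall_le _ _ fun x hx => ?_
      exact (natDegree_C_mul_X_pow_le _ _).trans (hax x hx)
    have : NumberField P.SplittingField := NumberField.of_module_finite K P.SplittingField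
    have hfinL : Module.finrank ℚ P.SplittingField ≤ F s := by
      rw [← Module.finrank_mul_finrank ℚ K P.SplittingField, hF']
      exact Nat.mul_le_mul hfin ((splitting_finrank P hP0).trans (Nat.factorial_le hPdeg))
    obtain ⟨w, hw, hword, _⟩ := ext_place (L := P.SplittingField) v hv
    have hE : (Module.finrank ℚ K + 2) * Module.finrank ℚ P.SplittingField ≤ G s := by
      rw [hG']
      exact Nat.mul_le_mul (by omega) hfinL
    have hextH : ∀ x : K, ∀ b : ℝ, mulHeight₁ x ≤ b →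
        mulHeight₁ (algebraMap K P.SplittingField x) ≤ b ^ G s := by
      intro x b hb
      refine (ext_height x).trans ?_
      calc mulHeight₁ x ^ ((Module.finrank ℚ K + 2) * Module.finrank ℚ P.SplittingField)
          ≤ mulHeight₁ x ^ G s := pow_le_pow_right₀ (one_le_mulHeight₁ x) hE
        _ ≤ b ^ G s := pow_le_pow_left₀ (mulHeight₁_nonneg x) hb _
    refine HC (S2 s) n' hS2two hn1 hlog1 K P.SplittingField (by rw [hS2', hS1']; omega) w ?_ T D
      (fun μ => (R μ).eval (n : K)) κ x₀ a (by rw [hS2', hS1']; omega) hDT hx₀ ?_ ?_ hκ0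
      ((cls_w_one v w hword κ).2 hvκ) hκ ?_ ha0 ?_ ?_
    · rcases hw with h1 | h1
      · exact Or.inl h1
      · obtain ⟨q, hq⟩ := exists_hasNorm w h1
        refine Or.inr ⟨q, ?_, hq⟩
        have hz0 : μ₁ / ν₁ ≠ 0 := div_ne_zero (hT0 _ hμ₁) (hT0 _ hν₁)
        have hz1 : v (μ₁ / ν₁) ≠ 1 := by
          rw [map_div₀]
          intro h2
          exact hvne ((div_eq_one_iff_eq (v.ne_zero (hT0 _ hν₁))).1 h2)
        have h2 := hq.le_height (algebraMap K P.SplittingField (μ₁ / ν₁))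
          ((_root_.map_ne_zero _).2 hz0) (fun h3 => hz1 ((cls_w_one v w hword _).1 h3))
        have h3 := h2.trans (hextH _ _ (hratio μ₁ hμ₁ ν₁ hν₁))
        have h4 : q ≤ h s ^ G s := by exact_mod_cast h3
        rw [hS2']
        omega
    · intro x hx
      refine ⟨hT0 x hx, hpT x hx, (hextH _ _ (hpH x hx)).trans ?_⟩
      rw [← pow_mul]
      refine pow_le_pow_right₀ ?_ (by rw [hS2']; omega)
      have : (0 : ℝ) ≤ n' := Nat.cast_nonneg n'
      linarith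
    · intro x hx hxD
      have h1 := (hword x x₀).2 (hlt x hx hxD x₀ hx₀)
      obtain ⟨y, hy, rfl⟩ := hTroot x hx
      obtain ⟨y₀, hy₀, hy₀e⟩ := hTroot x₀ (hDT hx₀)
      have e1 := map_pow (algebraMap K P.SplittingField) y M
      have e2 := map_pow (algebraMap K P.SplittingField) y₀ M
      rw [← hy₀e, e1, e2] at h1
      rw [← hy₀e, e1, e2]
      have hspL : (χ.map (algebraMap ℤ P.SplittingField)).Splits := by
        have : χ.map (algebraMap ℤ P.SplittingField) =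
            (χ.map (algebraMap ℤ K)).map (algebraMap K P.SplittingField) := by
          rw [Polynomial.map_map, ← IsScalarTower.algebraMap_eq]
        rw [this]
        exact hsplit.map _
      obtain ⟨h2, h3⟩ := H4 (S1 s) P.SplittingField (by rw [hS1']; omega) χ hχ
        (by rw [hS1']; omega) (fun i => (hcoef i).trans (by rw [hS1']; push_cast; omega)) hspL w hw
        M hM (algebraMap K P.SplittingField y) (algebraMap K P.SplittingField y₀)
        (by rw [aeval_algebraMap_apply, hy, map_zero])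
        (by rw [aeval_algebraMap_apply, hy₀, map_zero]) h1
      exact cls_gap_mono (w.nonneg _) h2 (by rw [hS2']; omega) h3
    · have h1 := hextH κ _ hκH
      refine h1.trans ?_
      have h2 : h s ^ G s ≤ S2 s := by rw [hS2']; omega
      exact_mod_cast h2
    · intro x hx
      exact ⟨(hax x hx).trans (by rw [hS2']; omega), ha x hx⟩
    · exact SplittingField.splits P

end Pool.Agent.Work.MP_8d13b5_lc.Rk

end

section

set_option autoImplicit false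

namespace Pool.Agent.Work.MP_8d13b5_lc.Rk

open Height AdmissibleAbsValues Polynomial Finset

section terms

variable {K : Type} [Field K]

open Classical in
/-- the polynomial coefficient of `μ ^ n'` on the residue class of `j` modulo `M` -/
noncomputable def mrR (S : Finset K) (Q : K → K[X]) (M j : ℕ) (μ : K) : K[X] :=
  ∑ x ∈ S.filter (fun x => x ^ M = μ), C (x ^ j) * Q x

open Classical in
/-- the active terms -/
noncomputable def mrT (S : Finset K) (Q : K → K[X]) (M j : ℕ) : Finset K :=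
  (S.image (fun x => x ^ M)).filter (fun μ => mrR S Q M j μ ≠ 0)

theorem mr_sum (S : Finset K) (Q : K → K[X]) (M j n' : ℕ) :
    ∑ x ∈ S, (Q x).eval ((M * n' + j : ℕ) : K) * x ^ (M * n' + j) =
      ∑ μ ∈ mrT S Q M j, (mrR S Q M j μ).eval ((M * n' + j : ℕ) : K) * μ ^ n' := by
  classical
  have h1 : ∑ μ ∈ mrT S Q M j, (mrR S Q M j μ).eval ((M * n' + j : ℕ) : K) * μ ^ n' =
      ∑ μ ∈ S.image (fun x => x ^ M),
        (mrR S Q M j μ).eval ((M * n' + j : ℕ) : K) * μ ^ n' := by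
    unfold mrT
    rw [sum_filter]
    refine sum_congr rfl fun μ _ => ?_
    split_ifs with h
    · rfl
    · rw [not_not.1 h]; simp
  rw [h1]
  have h2 : ∀ μ ∈ S.image (fun x => x ^ M),
      (mrR S Q M j μ).eval ((M * n' + j : ℕ) : K) * μ ^ n' =
        ∑ x ∈ S.filter (fun x => x ^ M = μ),
          (Q x).eval ((M * n' + j : ℕ) : K) * x ^ (M * n' + j) := by
    intro μ _
    unfold mrR
    rw [eval_finsetSum, sum_mul]
    refine sum_congr rfl fun x hx => ?_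
    rw [← (mem_filter.1 hx).2, eval_mul, eval_C, pow_add, pow_mul]
    ring
  rw [sum_congr rfl h2]
  exact (sum_fiberwise_of_maps_to (fun x hx => mem_image_of_mem _ hx) _).symm

theorem mr_mem (S : Finset K) (Q : K → K[X]) (M j : ℕ) (μ : K) (h : μ ∈ mrT S Q M j) :
    mrR S Q M j μ ≠ 0 ∧ ∃ x ∈ S, x ^ M = μ ∧ Q x ≠ 0 := by
  classical
  unfold mrT at h
  obtain ⟨_, h2⟩ := mem_filter.1 h
  refine ⟨h2, ?_⟩
  by_contra hcon
  push Not at hcon
  apply h2
  unfold mrR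
  refine sum_eq_zero fun x hx => ?_
  rw [hcon x (mem_filter.1 hx).1 (mem_filter.1 hx).2, mul_zero]

/-- when `x ↦ x ^ M` is injective on the active roots all of them stay active -/
theorem mr_mem_of_inj (S : Finset K) (Q : K → K[X]) (M j : ℕ) (x : K) (hx : x ∈ S)
    (hx0 : x ≠ 0) (hQ : Q x ≠ 0)
    (hinj : ∀ y ∈ S, Q y ≠ 0 → y ^ M = x ^ M → y = x) : x ^ M ∈ mrT S Q M j := by
  classical
  unfold mrT
  refine mem_filter.2 ⟨mem_image_of_mem _ hx, ?_⟩
  unfold mrR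
  have hmem : x ∈ S.filter (fun y => y ^ M = x ^ M) := mem_filter.2 ⟨hx, rfl⟩
  rw [sum_eq_single_of_mem x hmem]
  · exact mul_ne_zero (C_ne_zero.2 (pow_ne_zero _ hx0)) hQ
  · intro y hy hyx
    by_cases hQy : Q y = 0
    · rw [hQy, mul_zero]
    · exact absurd (hinj y (mem_filter.1 hy).1 hQy (mem_filter.1 hy).2) hyx

theorem mr_natDegree (S : Finset K) (Q : K → K[X]) (M j s : ℕ)
    (h : ∀ x, (Q x).natDegree ≤ s) (μ : K) : (mrR S Q M j μ).natDegree ≤ s := by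
  classical
  unfold mrR
  refine natDegree_sum_le_of_forall_le _ _ fun x _ => ?_
  exact (natDegree_C_mul_le _ _).trans (h x)

theorem mr_height [NumberField K] (S : Finset K) (Q : K → K[X]) (M j s : ℕ) (h b : ℝ)
    (h1 : 1 ≤ h) (hS : S.card ≤ s) (hW : Module.finrank ℚ K ≤ s) (hj : j ≤ M)
    (hx : ∀ x ∈ S, mulHeight₁ x ≤ h) (hQ : ∀ x i, mulHeight₁ ((Q x).coeff i) ≤ b) (μ : K)
    (i : ℕ) : mulHeight₁ ((mrR S Q M j μ).coeff i) ≤ ((s : ℝ) + 1) ^ s * (h ^ M * b) ^ s := by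
  classical
  have hb1 : 1 ≤ b := (one_le_mulHeight₁ _).trans (hQ 0 0)
  have hs0 : (0 : ℝ) ≤ s := Nat.cast_nonneg s
  have hm1 : (1 : ℝ) ≤ h ^ M * b := by
    have : (1 : ℝ) ≤ h ^ M := one_le_pow₀ h1
    nlinarith
  have e1 : (1 : ℝ) ≤ ((s : ℝ) + 1) ^ s := one_le_pow₀ (by linarith)
  have e2 : (1 : ℝ) ≤ (h ^ M * b) ^ s := one_le_pow₀ hm1
  unfold mrR
  rw [finsetSum_coeff]
  set U := S.filter (fun x => x ^ M = μ) with hU
  rcases U.eq_empty_or_nonempty with h0 | hne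
  · rw [h0, sum_empty, mulHeight₁_zero]
    nlinarith
  · have hUc : U.card ≤ s := (card_le_card (filter_subset _ _)).trans hS
    refine (mulHeight₁_sum_le hne _).trans ?_
    have e3 : ((U.card : ℕ) : ℝ) ^ totalWeight K ≤ ((s : ℝ) + 1) ^ s := by
      have h3 : ((U.card : ℕ) : ℝ) ≤ (s : ℝ) + 1 := by
        have : ((U.card : ℕ) : ℝ) ≤ s := by exact_mod_cast hUc
        linarith
      have h4 : totalWeight K ≤ s := by
        rw [NumberField.totalWeight_eq_finrank]; exact hW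
      exact (pow_le_pow_left₀ (Nat.cast_nonneg _) h3 _).trans
        (pow_le_pow_right₀ (by linarith) h4)
    have e4 : ∏ x ∈ U, mulHeight₁ ((C (x ^ j) * Q x).coeff i) ≤ (h ^ M * b) ^ s := by
      calc ∏ x ∈ U, mulHeight₁ ((C (x ^ j) * Q x).coeff i) ≤ ∏ _x ∈ U, (h ^ M * b) := by
            refine prod_le_prod (fun x _ => mulHeight₁_nonneg _) fun x hxU => ?_
            rw [coeff_C_mul]
            refine (mulHeight₁_mul_le _ _).trans ?_
            rw [mulHeight₁_pow]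
            have h5 := hx x (mem_filter.1 hxU).1
            have h6 : mulHeight₁ x ^ j ≤ h ^ M :=
              (pow_le_pow_left₀ (mulHeight₁_nonneg x) h5 j).trans (pow_le_pow_right₀ h1 hj)
            have h7 := hQ x i
            have h8 := mulHeight₁_nonneg ((Q x).coeff i)
            gcongr
        _ = (h ^ M * b) ^ U.card := by rw [prod_const]
        _ ≤ (h ^ M * b) ^ s := pow_le_pow_right₀ hm1 hUc
    have e5 : (0 : ℝ) ≤ ∏ x ∈ U, mulHeight₁ ((C (x ^ j) * Q x).coeff i) :=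
      prod_nonneg fun x _ => mulHeight₁_nonneg _
    gcongr

end terms

/-- dependence modulo torsion from rank two and a place that is trivial on two of three
elements -/
theorem mr_dep_two {K : Type} [Field K] (σ : K →+* ℂ) (α β : ℂ) (hα : α ≠ 0) (hβ : β ≠ 0)
    (v : AbsoluteValue K ℝ) (x y z : K) (hx0 : x ≠ 0) (hy0 : y ≠ 0) (hz0 : z ≠ 0)
    (hx : ∃ m : ℕ, 0 < m ∧ ∃ a b : ℤ, (σ x) ^ m = α ^ a * β ^ b)
    (hy : ∃ m : ℕ, 0 < m ∧ ∃ a b : ℤ, (σ y) ^ m = α ^ a * β ^ b)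
    (hz : ∃ m : ℕ, 0 < m ∧ ∃ a b : ℤ, (σ z) ^ m = α ^ a * β ^ b)
    (hvx : v x = 1) (hvy : v y = 1) (hvz : v z ≠ 1) :
    ∃ a b : ℤ, (a ≠ 0 ∨ b ≠ 0) ∧ x ^ a = y ^ b := by
  have conv : ∀ w : K, ∀ hw : w ≠ 0, (∃ m : ℕ, 0 < m ∧ ∃ a b : ℤ, (σ w) ^ m = α ^ a * β ^ b) →
      ∃ m : ℕ, 0 < m ∧ ∃ a b : ℤ, (Units.mk0 (σ w) ((_root_.map_ne_zero σ).2 hw)) ^ m =
        (Units.mk0 α hα) ^ a * (Units.mk0 β hβ) ^ b := by
    rintro w hw ⟨m, hm, a, b, h⟩
    refine ⟨m, hm, a, b, ?_⟩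
    ext
    simpa using h
  obtain ⟨a, b, c, habc, h⟩ := three_dep (Units.mk0 α hα) (Units.mk0 β hβ) _ _ _
    (conv x hx0 hx) (conv y hy0 hy) (conv z hz0 hz)
  have h1 : x ^ a * y ^ b * z ^ c = 1 := by
    have h2 := congrArg (Units.val) h
    simp only [Units.val_mul, Units.val_zpow_eq_zpow_val, Units.val_mk0, Units.val_one] at h2
    rw [← map_zpow₀, ← map_zpow₀, ← map_zpow₀, ← map_mul, ← map_mul] at h2
    exact σ.injective (by rw [h2, map_one])
  have h3 : v z ^ c = 1 := by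
    have h4 := congrArg v h1
    rw [map_mul, map_mul, map_zpow₀, map_zpow₀, map_zpow₀, hvx, hvy, one_zpow, one_zpow, one_mul,
      one_mul, map_one] at h4
    exact h4
  have hc : c = 0 := (zpow_eq_one_iff_right₀ (v.nonneg z) hvz).1 h3
  rw [hc, zpow_zero, mul_one] at h1
  refine ⟨a, -b, ?_, ?_⟩
  · rcases habc with h | h | h
    · exact Or.inl h
    · exact Or.inr (neg_ne_zero.2 h)
    · exact absurd hc h
  · rw [zpow_neg]
    exact eq_inv_of_mul_eq_one_left h1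

/-- dependence passes to powers -/
theorem mr_dep_pow {K : Type} [Field K] (M : ℕ) (x y z w : K)
    (h : ∃ a b : ℤ, (a ≠ 0 ∨ b ≠ 0) ∧ (x / y) ^ a = (z / w) ^ b) :
    ∃ a b : ℤ, (a ≠ 0 ∨ b ≠ 0) ∧ (x ^ M / y ^ M) ^ a = (z ^ M / w ^ M) ^ b := by
  obtain ⟨a, b, hab, h⟩ := h
  refine ⟨a, b, hab, ?_⟩
  rw [← div_pow, ← div_pow, ← zpow_natCast, ← zpow_natCast, ← zpow_mul, ← zpow_mul, mul_comm _ a,
    mul_comm _ b, zpow_mul, zpow_mul, h]

theorem isCharRoot_map {K : Type} [Field K] (σ : K →+* ℂ) (u : ℕ → ℤ) (x : K)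
    (h : IsCharRoot u x) : IsCharRoot u (σ x) := by
  intro P hP
  have h1 := h P hP
  have h2 : aeval (σ x) P = σ (aeval x P) := by
    rw [aeval_def, aeval_def, hom_eval₂]
    congr 1
    exact RingHom.ext_int _ _
  rw [h2, h1, map_zero]

/-- the rank theorem over a given splitting field -/
theorem main_rank_K : ∃ B : ℕ → ℕ, Elem B ∧ ∀ (s : ℕ) (K : Type) [Field K] [NumberField K],
    Module.finrank ℚ K ≤ s → ∀ χ : ℤ[X], χ.Monic → χ.coeff 0 ≠ 0 →
    χ.natDegree ≤ s → (∀ i, |χ.coeff i| ≤ s) → (χ.map (algebraMap ℤ K)).Splits →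
      ∀ u : ℕ → ℤ, (∀ i < χ.natDegree, |u i| ≤ s) →
      Annih χ u → (RankTwo u ∨ DomRankOne K u) →
        ∃ M : ℕ, 0 < M ∧ M ≤ B s ∧ ∀ n, B s ≤ n → u n = 0 → ∀ k, u (n % M + k * M) = 0 := by
  classical
  obtain ⟨B1, hB1, H1⟩ := root_bound
  obtain ⟨Bq, hBq, Hq⟩ := exp_poly
  obtain ⟨Bt, hBt, Ht⟩ := torsion_bound
  obtain ⟨Bc, hBc, Hc⟩ := class_ne_zero
  obtain ⟨MM, hMM⟩ : ∃ MM : ℕ → ℕ, MM = fun s => (Bt s).factorial := ⟨_, rfl⟩
  have eMM : Elem MM := by rw [hMM]; exact hBt.factorial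
  obtain ⟨h, hh⟩ : ∃ h : ℕ → ℕ, h = fun s => B1 s + 1 := ⟨_, rfl⟩
  have eh : Elem h := by rw [hh]; exact hB1.add (Elem.const 1)
  obtain ⟨S2, hS2⟩ : ∃ S2 : ℕ → ℕ, S2 = fun s => s + MM s +
    (s + 1) ^ s * (h s ^ MM s * Bq s) ^ s := ⟨_, rfl⟩
  have eS2 : Elem S2 := by
    rw [hS2]
    exact (Elem.id.add eMM).add (((Elem.id.add (Elem.const 1)).pow Elem.id).mul
      (((eh.pow eMM).mul hBq).pow Elem.id))
  refine ⟨fun s => MM s * (Bc (S2 s) + 1), eMM.mul ((hBc.comp eS2).add (Elem.const 1)), ?_⟩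
  intro s K _ _ hfin χ hχ hχ0 hdeg hcoef hsplit u hu hann hgood
  have hMM' : MM s = (Bt s).factorial := by rw [hMM]
  have hh' : h s = B1 s + 1 := by rw [hh]
  have hS2' : S2 s = s + MM s + (s + 1) ^ s * (h s ^ MM s * Bq s) ^ s := by
    rw [hS2]
  obtain ⟨M, hM⟩ : ∃ M, M = MM s := ⟨_, rfl⟩
  have hM0 : 0 < M := by rw [hM, hMM']; exact Nat.factorial_pos _
  obtain ⟨Q, hQdeg, hQH, hQchar, hQ⟩ := Hq s K hfin χ hχ hχ0 hdeg hcoef hsplit u hu hann
  have htf : ∀ x : K, (∃ m : ℕ, 0 < m ∧ x ^ m = 1) → x ^ M = 1 := by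
    intro x hx
    rw [hM, hMM']
    exact Ht s K hfin x hx
  set S : Finset K := (χ.aroots K).toFinset with hS
  have hQS : ∀ n : ℕ, ((u n : ℤ) : K) = ∑ x ∈ S, (Q x).eval (n : K) * x ^ n := by
    intro n
    rw [hQ n]
  have hSroot : ∀ x ∈ S, aeval x χ = 0 := by
    intro x hx
    rw [hS, Multiset.mem_toFinset, mem_aroots] at hx
    exact hx.2
  have hrootS : ∀ x : K, aeval x χ = 0 → x ∈ S := by
    intro x hx
    rw [hS, Multiset.mem_toFinset, mem_aroots]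
    exact ⟨hχ.ne_zero, hx⟩
  have hroot0 : ∀ x : K, aeval x χ = 0 → x ≠ 0 := by
    rintro x hx rfl
    rw [← coeff_zero_eq_aeval_zero'] at hx
    exact hχ0 ((map_eq_zero_iff (algebraMap ℤ K) (algebraMap ℤ K).injective_int).1 hx)
  have hScard : S.card ≤ s := by
    calc S.card ≤ (χ.aroots K).card := Multiset.toFinset_card_le _
      _ ≤ (χ.map (algebraMap ℤ K)).natDegree := card_roots' _
      _ ≤ χ.natDegree := natDegree_map_le
      _ ≤ s := hdeg
  have hSH : ∀ x ∈ S, mulHeight₁ x ≤ (h s : ℝ) := by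
    intro x hx
    have h1 := H1 s K hfin χ hχ hdeg hcoef x (hSroot x hx)
    rw [hh']
    push_cast
    linarith
  have hh1 : (1 : ℝ) ≤ (h s : ℝ) := by
    rw [hh']
    push_cast
    have : (0 : ℝ) ≤ (B1 s : ℝ) := Nat.cast_nonneg _
    linarith
  -- characteristic roots
  have hcharroot : ∀ x : K, IsCharRoot u x → aeval x χ = 0 := fun x hx => hx χ hann
  have hchar0 : ∀ x : K, IsCharRoot u x → x ≠ 0 := fun x hx => hroot0 x (hcharroot x hx)
  have htors : ∀ x y : K, x ≠ 0 → y ≠ 0 → x ^ M ≠ y ^ M → ∀ m : ℕ, 0 < m →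
      (x ^ M / y ^ M) ^ m ≠ 1 := by
    intro x y hx hy hxy m hm h1
    apply hxy
    have h2 : (x / y) ^ M = 1 := htf (x / y) ⟨M * m, Nat.mul_pos hM0 hm, by
      rw [pow_mul, div_pow, h1]⟩
    rw [div_pow] at h2
    exact (div_eq_one_iff_eq (pow_ne_zero _ hy)).1 h2
  have hcase : ∀ j : ℕ, (mrT S Q M j).Nonempty → ((mrT S Q M j).card = 1 ∨
      ∃ v : AbsoluteValue K ℝ, IsPlace v ∧ (∃ μ ∈ mrT S Q M j, ∃ ν ∈ mrT S Q M j, v μ ≠ v ν) ∧
        ∀ x ∈ mrT S Q M j, ∀ y ∈ mrT S Q M j, ∀ z ∈ mrT S Q M j, ∀ w ∈ mrT S Q M j,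
          (∀ t ∈ mrT S Q M j, v t ≤ v x) → (∀ t ∈ mrT S Q M j, v t ≤ v y) →
            (∀ t ∈ mrT S Q M j, v t ≤ v z) → (∀ t ∈ mrT S Q M j, v t ≤ v w) →
              ∃ a b : ℤ, (a ≠ 0 ∨ b ≠ 0) ∧ (x / y) ^ a = (z / w) ^ b) := by
    intro j hTne
    by_cases hc1 : (mrT S Q M j).card = 1
    · exact Or.inl hc1
    right
    have hmem : ∀ μ ∈ mrT S Q M j, ∃ x : K, IsCharRoot u x ∧ x ^ M = μ := by
      intro μ hμ
      obtain ⟨_, x, _, hxM, hQx⟩ := mr_mem S Q M j μ hμ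
      exact ⟨x, (hQchar x).1 hQx, hxM⟩
    have hcard2 : 1 < (mrT S Q M j).card := by
      have := card_pos.2 hTne
      omega
    obtain ⟨μ₁, hμ₁, μ₂, hμ₂, hne⟩ := one_lt_card.1 hcard2
    obtain ⟨x₁, hx₁, rfl⟩ := hmem μ₁ hμ₁
    obtain ⟨x₂, hx₂, rfl⟩ := hmem μ₂ hμ₂
    have hnt := htors x₁ x₂ (hchar0 x₁ hx₁) (hchar0 x₂ hx₂) hne
    obtain ⟨v₀, hv₀, hv₀ne⟩ := exists_place_ne_one (x₁ ^ M / x₂ ^ M)
      (div_ne_zero (pow_ne_zero _ (hchar0 x₁ hx₁)) (pow_ne_zero _ (hchar0 x₂ hx₂))) hnt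
    have hv₀' : v₀ (x₁ ^ M) ≠ v₀ (x₂ ^ M) := by
      intro h1
      apply hv₀ne
      rw [map_div₀, h1, div_self (v₀.ne_zero (pow_ne_zero _ (hchar0 x₂ hx₂)))]
    rcases hgood with hR2 | ⟨hnd, v₁, hv₁, hdep₁⟩
    · -- rank two
      obtain ⟨α, β, hα, hβ, hαβ⟩ := hR2
      obtain ⟨σ⟩ : Nonempty (K →+* ℂ) := inferInstance
      refine ⟨v₀, hv₀, ⟨_, hμ₁, _, hμ₂, hv₀'⟩, ?_⟩
      have hrel : ∀ x y : K, IsCharRoot u x → IsCharRoot u y →
          ∃ m : ℕ, 0 < m ∧ ∃ a b : ℤ, (σ (x ^ M / y ^ M)) ^ m = α ^ a * β ^ b := by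
        intro x y hx hy
        obtain ⟨m, hm, a, b, h1⟩ := hαβ (σ x) (σ y) (isCharRoot_map σ u x hx)
          (isCharRoot_map σ u y hy)
        refine ⟨m, hm, a * M, b * M, ?_⟩
        rw [← div_pow, map_pow, map_div₀, ← pow_mul, mul_comm, pow_mul, h1, mul_pow,
          zpow_mul, zpow_mul, zpow_natCast, zpow_natCast]
      intro x hx y hy z hz w hw dx dy dz dw
      obtain ⟨x', hx', rfl⟩ := hmem x hx
      obtain ⟨y', hy', rfl⟩ := hmem y hy
      obtain ⟨z', hz', rfl⟩ := hmem z hz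
      obtain ⟨w', hw', rfl⟩ := hmem w hw
      have nz : ∀ t : K, IsCharRoot u t → t ^ M ≠ 0 := fun t ht => pow_ne_zero _ (hchar0 t ht)
      exact mr_dep_two σ α β hα hβ v₀ (x' ^ M / y' ^ M) (z' ^ M / w' ^ M) (x₁ ^ M / x₂ ^ M)
        (div_ne_zero (nz x' hx') (nz y' hy')) (div_ne_zero (nz z' hz') (nz w' hw'))
        (div_ne_zero (nz x₁ hx₁) (nz x₂ hx₂)) (hrel x' y' hx' hy') (hrel z' w' hz' hw')
        (hrel x₁ x₂ hx₁ hx₂)
        (by rw [map_div₀, le_antisymm (dy _ hx) (dx _ hy), div_self (v₀.ne_zero (nz y' hy'))])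
        (by rw [map_div₀, le_antisymm (dw _ hz) (dz _ hw), div_self (v₀.ne_zero (nz w' hw'))])
        hv₀ne
    · -- a place with dominant rank one
      have hact : ∀ x : K, IsCharRoot u x → x ^ M ∈ mrT S Q M j := by
        intro x hx
        refine mr_mem_of_inj S Q M j x (hrootS x (hcharroot x hx)) (hchar0 x hx)
          ((hQchar x).2 hx) fun y _ hQy hyx => ?_
        exact hnd y x ((hQchar y).1 hQy) hx M hM0 hyx
      have hdomM : ∀ x : K, IsCharRoot u x → (∀ t ∈ mrT S Q M j, v₁ t ≤ v₁ (x ^ M)) →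
          IsDominant u v₁ x := by
        intro x hx h1
        refine ⟨hx, fun y hy => ?_⟩
        have h2 := h1 _ (hact y hy)
        rw [map_pow, map_pow] at h2
        exact le_of_pow_le_pow_left₀ hM0.ne' (v₁.nonneg x) h2
      by_cases heq : ∀ x y : K, IsCharRoot u x → IsCharRoot u y → v₁ x = v₁ y
      · -- everything is dominant
        refine ⟨v₀, hv₀, ⟨_, hμ₁, _, hμ₂, hv₀'⟩, ?_⟩
        have hdomall : ∀ x : K, IsCharRoot u x → IsDominant u v₁ x := fun x hx =>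
          ⟨hx, fun y hy => (heq y x hy hx).le⟩
        intro x hx y hy z hz w hw _ _ _ _
        obtain ⟨x', hx', rfl⟩ := hmem x hx
        obtain ⟨y', hy', rfl⟩ := hmem y hy
        obtain ⟨z', hz', rfl⟩ := hmem z hz
        obtain ⟨w', hw', rfl⟩ := hmem w hw
        exact mr_dep_pow M x' y' z' w' (hdep₁ x' y' z' w' (hdomall x' hx') (hdomall y' hy')
          (hdomall z' hz') (hdomall w' hw'))
      · push Not at heq
        obtain ⟨x₃, x₄, hx₃, hx₄, h34⟩ := heq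
        refine ⟨v₁, hv₁, ⟨_, hact x₃ hx₃, _, hact x₄ hx₄, ?_⟩, ?_⟩
        · rw [map_pow, map_pow]
          intro h1
          exact h34 ((pow_left_inj₀ (v₁.nonneg _) (v₁.nonneg _) hM0.ne').1 h1)
        · intro x hx y hy z hz w hw dx dy dz dw
          obtain ⟨x', hx', rfl⟩ := hmem x hx
          obtain ⟨y', hy', rfl⟩ := hmem y hy
          obtain ⟨z', hz', rfl⟩ := hmem z hz
          obtain ⟨w', hw', rfl⟩ := hmem w hw
          exact mr_dep_pow M x' y' z' w' (hdep₁ x' y' z' w' (hdomM x' hx' dx) (hdomM y' hy' dy)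
            (hdomM z' hz' dz) (hdomM w' hw' dw))
  have hpos : ∀ j < M, (mrT S Q M j).Nonempty → ∀ n' : ℕ, Bc (S2 s) ≤ n' →
      u (M * n' + j) ≠ 0 := by
    intro j hj hTne n' hn' hu0
    have h1 := hQS (M * n' + j)
    rw [hu0, Int.cast_zero, mr_sum S Q M j n'] at h1
    refine Hc (S2 s) K (hfin.trans (by rw [hS2']; omega)) χ hχ hχ0
      (hdeg.trans (by rw [hS2']; omega))
      (fun i => (hcoef i).trans (by
        have : s ≤ S2 s := by rw [hS2']; omega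
        exact_mod_cast this)) hsplit M hM0 (by rw [hM, hS2']; omega) htf (mrT S Q M j)
      (mrR S Q M j) hTne ?_ ?_ (hcase j hTne) n' j hn' hj h1.symm
    · intro μ hμ
      obtain ⟨_, x, hx, hxM, _⟩ := mr_mem S Q M j μ hμ
      exact ⟨x, hSroot x hx, hxM⟩
    · intro μ hμ
      refine ⟨(mr_mem S Q M j μ hμ).1, (mr_natDegree S Q M j s hQdeg μ).trans
        (by rw [hS2']; omega), fun i => ?_⟩
      refine (mr_height S Q M j s (h s) (Bq s) hh1 hScard hfin hj.le hSH hQH μ i).trans ?_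
      have h3 : (s + 1) ^ s * (h s ^ M * Bq s) ^ s ≤ S2 s := by
        rw [hS2', hM]; omega
      exact_mod_cast h3
  -- conclusion
  refine ⟨M, hM0, ?_, ?_⟩
  · rw [hM]
    exact Nat.le_mul_of_pos_right _ (Nat.succ_pos _)
  · intro n hn hun k
    simp only at hn
    rw [← hM] at hn
    have hdm : M * (n / M) + n % M = n := Nat.div_add_mod n M
    have hj : n % M < M := Nat.mod_lt _ hM0
    have hn' : Bc (S2 s) ≤ n / M := by
      rw [Nat.le_div_iff_mul_le hM0]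
      nlinarith
    have hT0 : mrT S Q M (n % M) = ∅ := by
      rcases (mrT S Q M (n % M)).eq_empty_or_nonempty with h0 | h0
      · exact h0
      · exact absurd (by rw [hdm]; exact hun) (hpos _ hj h0 _ hn')
    have h1 := hQS (M * k + n % M)
    rw [mr_sum S Q M (n % M) k, hT0, sum_empty] at h1
    have h2 : u (M * k + n % M) = 0 := by exact_mod_cast h1
    rw [show n % M + k * M = M * k + n % M by ring]
    exact h2

/-- **The rank theorem.** -/
theorem main_rank : ∃ B : ℕ → ℕ, Elem B ∧ ∀ (s : ℕ) (χ : ℤ[X]), χ.Monic → χ.coeff 0 ≠ 0 →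
    χ.natDegree ≤ s → (∀ i, |χ.coeff i| ≤ s) → ∀ u : ℕ → ℤ, (∀ i < χ.natDegree, |u i| ≤ s) →
      Annih χ u → (RankTwo u ∨ DomRankOne (SF χ) u) →
        ∃ M : ℕ, 0 < M ∧ M ≤ B s ∧ ∀ n, B s ≤ n → u n = 0 → ∀ k, u (n % M + k * M) = 0 := by
  obtain ⟨B, hB, H⟩ := main_rank_K
  refine ⟨fun s => B (s + s.factorial), hB.comp (Elem.id.add Elem.id.factorial), ?_⟩
  intro s χ hχ hχ0 hdeg hcoef u hu hann hgood
  refine H (s + s.factorial) (SF χ) ?_ χ hχ hχ0 (hdeg.trans (Nat.le_add_right _ _))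
    (fun i => (hcoef i).trans (by push_cast; omega)) ?_ u
    (fun i hi => (hu i hi).trans (by push_cast; omega)) hann hgood
  · have h1 := splitting_finrank (χ.map (Int.castRingHom ℚ)) (hχ.map _).ne_zero
    have h2 : (χ.map (Int.castRingHom ℚ)).natDegree ≤ s := natDegree_map_le.trans hdeg
    have h3 := Nat.factorial_le h2
    exact (h1.trans h3).trans (Nat.le_add_left _ _)
  · have h1 : χ.map (algebraMap ℤ (SF χ)) =
        (χ.map (Int.castRingHom ℚ)).map (algebraMap ℚ (SF χ)) := by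
      rw [Polynomial.map_map]
      congr 1
    have h2 : ((χ.map (Int.castRingHom ℚ)).map (algebraMap ℚ (SF χ))).Splits :=
      SplittingField.splits _
    rw [← h1] at h2
    have e : ∀ f g : ℤ →+* SF χ, f = g := fun f g => RingHom.ext_int f g
    convert h2 using 2
    exact e _ _

end Pool.Agent.Work.MP_8d13b5_lc.Rk

end
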