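import Mathlib

/-! Bundle of small proof modules (one section per former module). -/

section

set_option autoImplicit false

namespace Pool.Agent.Work.MP_8d13b5_lc

open Encodable

theorem encode_int_nat (n : ℕ) : encode (n : ℤ) = 2 * n := by
  show Equiv.natSumNatEquivNat (Equiv.intEquivNatSumNat (n : ℤ)) = 2 * n
  rfl

theorem encode_int_negSucc (n : ℕ) : encode (Int.negSucc n) = 2 * n + 1 := by
  show Equiv.natSumNatEquivNat (Equiv.intEquivNatSumNat (Int.negSucc n)) = 2 * n + 1
  rfl

theorem primrec_toNat : Primrec (fun z : ℤ => z.toNat) := by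
  have h : Primrec (fun z : ℤ => if encode z % 2 = 0 then encode z / 2 else 0) := by
    refine Primrec.ite ?_ ?_ (Primrec.const 0)
    · exact Primrec.eq.comp (Primrec.nat_mod.comp Primrec.encode (Primrec.const 2))
        (Primrec.const 0)
    · exact Primrec.nat_div.comp Primrec.encode (Primrec.const 2)
  refine h.of_eq fun z => ?_
  cases z with
  | ofNat n =>
    have := encode_int_nat n
    simp only [Int.ofNat_eq_natCast, this]
    rw [if_pos (by omega)]
    simp
  | negSucc n =>
    rw [encode_int_negSucc, if_neg (by omega)]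
    simp

theorem primrec_negToNat : Primrec (fun z : ℤ => (-z).toNat) := by
  have h : Primrec (fun z : ℤ => if encode z % 2 = 0 then 0 else (encode z + 1) / 2) := by
    refine Primrec.ite ?_ (Primrec.const 0) ?_
    · exact Primrec.eq.comp (Primrec.nat_mod.comp Primrec.encode (Primrec.const 2))
        (Primrec.const 0)
    · exact Primrec.nat_div.comp (Primrec.nat_add.comp Primrec.encode (Primrec.const 1))
        (Primrec.const 2)
  refine h.of_eq fun z => ?_
  cases z with
  | ofNat n =>
    have := encode_int_nat n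
    simp only [Int.ofNat_eq_natCast, this]
    rw [if_pos (by omega)]
    simp
  | negSucc n =>
    rw [encode_int_negSucc, if_neg (by omega)]
    have : (-(Int.negSucc n)).toNat = n + 1 := rfl
    rw [this]
    omega

theorem primrec_ofPair : Primrec (fun p : ℕ × ℕ => (p.1 : ℤ) - p.2) := by
  rw [← Primrec.encode_iff]
  have h : Primrec (fun p : ℕ × ℕ =>
      if p.2 ≤ p.1 then 2 * (p.1 - p.2) else 2 * (p.2 - p.1 - 1) + 1) := by
    refine Primrec.ite ?_ ?_ ?_
    · exact Primrec.nat_le.comp Primrec.snd Primrec.fst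
    · exact Primrec.nat_mul.comp (Primrec.const 2) (Primrec.nat_sub.comp Primrec.fst Primrec.snd)
    · exact Primrec.nat_add.comp (Primrec.nat_mul.comp (Primrec.const 2)
        (Primrec.nat_sub.comp (Primrec.nat_sub.comp Primrec.snd Primrec.fst) (Primrec.const 1)))
        (Primrec.const 1)
  refine h.of_eq fun p => ?_
  obtain ⟨a, b⟩ := p
  simp only
  split_ifs with hab
  · have : (a : ℤ) - b = ((a - b : ℕ) : ℤ) := by omega
    rw [this, encode_int_nat]
  · have : (a : ℤ) - b = Int.negSucc (b - a - 1) := by omega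
    rw [this, encode_int_negSucc]

theorem primrec_int_add : Primrec₂ (fun a b : ℤ => a + b) := by
  have h : Primrec (fun p : ℤ × ℤ => ((((p.1.toNat + p.2.toNat : ℕ)) : ℤ) -
      ((((-p.1).toNat + (-p.2).toNat : ℕ)) : ℤ))) :=
    primrec_ofPair.comp (Primrec.pair
      (Primrec.nat_add.comp (primrec_toNat.comp Primrec.fst) (primrec_toNat.comp Primrec.snd))
      (Primrec.nat_add.comp (primrec_negToNat.comp Primrec.fst)
        (primrec_negToNat.comp Primrec.snd)))
  refine Primrec.of_eq h fun p => ?_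
  obtain ⟨a, b⟩ := p
  simp only
  omega

theorem primrec_int_mul : Primrec₂ (fun a b : ℤ => a * b) := by
  have h : Primrec (fun p : ℤ × ℤ =>
      ((((p.1.toNat * p.2.toNat + (-p.1).toNat * (-p.2).toNat : ℕ)) : ℤ) -
      (((p.1.toNat * (-p.2).toNat + (-p.1).toNat * p.2.toNat : ℕ)) : ℤ))) :=
    primrec_ofPair.comp (Primrec.pair
      (Primrec.nat_add.comp
        (Primrec.nat_mul.comp (primrec_toNat.comp Primrec.fst) (primrec_toNat.comp Primrec.snd))
        (Primrec.nat_mul.comp (primrec_negToNat.comp Primrec.fst)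
          (primrec_negToNat.comp Primrec.snd)))
      (Primrec.nat_add.comp
        (Primrec.nat_mul.comp (primrec_toNat.comp Primrec.fst)
          (primrec_negToNat.comp Primrec.snd))
        (Primrec.nat_mul.comp (primrec_negToNat.comp Primrec.fst)
          (primrec_toNat.comp Primrec.snd))))
  refine Primrec.of_eq h fun p => ?_
  obtain ⟨a, b⟩ := p
  simp only
  have ha : a = (a.toNat : ℤ) - ((-a).toNat : ℤ) := by omega
  have hb : b = (b.toNat : ℤ) - ((-b).toNat : ℤ) := by omega
  push_cast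
  conv_rhs => rw [ha, hb]
  ring

theorem primrec_natAbs : Primrec (fun z : ℤ => z.natAbs) := by
  refine Primrec.of_eq (Primrec.nat_add.comp primrec_toNat primrec_negToNat) fun z => ?_
  omega

end Pool.Agent.Work.MP_8d13b5_lc

end

section

set_option autoImplicit false

namespace Pool.Agent.Work.MP_8d13b5_lc

open Polynomial

/-- Schur: a nonconstant integer polynomial has values divisible by infinitely many primes. -/
theorem infinite_primes_dvd_eval (g : ℤ[X]) (hg : 0 < g.natDegree) :
    {p : ℕ | p.Prime ∧ ∃ a : ℤ, (p : ℤ) ∣ g.eval a}.Infinite := by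
  intro hfin
  have hg0 : g ≠ 0 := by
    rintro rfl
    simp at hg
  -- a non-root
  obtain ⟨a0, ha0⟩ : ∃ a0 : ℤ, g.eval a0 ≠ 0 := by
    by_contra hcon
    push Not at hcon
    apply hg0
    apply Polynomial.eq_zero_of_infinite_isRoot
    apply Set.infinite_of_injective_forall_mem (f := fun n : ℤ => n) (fun a b h => h)
    intro n
    exact hcon n
  set c := g.eval a0 with hc
  set N : ℤ := ∏ p ∈ hfin.toFinset, (p : ℤ) with hN
  have hN0 : N ≠ 0 := by
    rw [hN, Finset.prod_ne_zero_iff]
    intro p hp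
    have := (hfin.mem_toFinset.1 hp).1
    exact_mod_cast this.ne_zero
  -- values at a0 + c N t
  have key : ∀ t : ℤ, g.eval (a0 + c * N * t) = c ∨ g.eval (a0 + c * N * t) = -c := by
    intro t
    have h1 : (c * N * t) ∣ g.eval (a0 + c * N * t) - g.eval a0 := by
      have := Polynomial.sub_dvd_eval_sub (a0 + c * N * t) a0 g
      simpa using this
    obtain ⟨k, hk⟩ := h1
    have h2 : g.eval (a0 + c * N * t) = c * (1 + N * (t * k)) := by
      have : g.eval (a0 + c * N * t) = c * N * t * k + c := by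
        rw [← hk, hc]; ring
      rw [this]; ring
    have h3 : (1 + N * (t * k)).natAbs = 1 := by
      by_contra hne
      obtain ⟨p, hp, hpd⟩ := Nat.exists_prime_and_dvd hne
      have hpd' : (p : ℤ) ∣ 1 + N * (t * k) := Int.natCast_dvd.2 hpd
      have hmem : p ∈ hfin.toFinset := by
        rw [hfin.mem_toFinset]
        refine ⟨hp, a0 + c * N * t, ?_⟩
        rw [h2]
        exact Dvd.dvd.mul_left hpd' _
      have hpN : (p : ℤ) ∣ N := by
        rw [hN]
        exact Finset.dvd_prod_of_mem (fun p : ℕ => (p : ℤ)) hmem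
      have h4 : (p : ℤ) ∣ 1 := by
        have := dvd_sub hpd' (Dvd.dvd.mul_right hpN (t * k))
        simpa using this
      have h5 := Int.natAbs_dvd_natAbs.2 h4
      simp only [Int.natAbs_natCast, Int.natAbs_one, Nat.dvd_one] at h5
      exact hp.ne_one h5
    rcases Int.natAbs_eq (1 + N * (t * k)) with h | h
    · left
      rw [h2, h, h3]; simp
    · right
      rw [h2, h, h3]; simp
  -- infinitely many t give contradiction
  have hpoly : (g - C c) * (g + C c) = 0 := by
    apply Polynomial.eq_zero_of_infinite_isRoot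
    apply Set.infinite_of_injective_forall_mem (f := fun t : ℤ => a0 + c * N * t)
    · intro s t hst
      simp only [add_right_inj] at hst
      exact mul_left_cancel₀ (mul_ne_zero ha0 hN0) hst
    · intro t
      show IsRoot _ _
      rw [IsRoot.def, eval_mul]
      rcases key t with h | h
      · simp [h]
      · simp [h]
  rcases mul_eq_zero.1 hpoly with h | h
  · have : g = C c := by linear_combination h
    rw [this, natDegree_C] at hg
    exact lt_irrefl _ hg
  · have : g = C (-c) := by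
      rw [C_neg]; linear_combination h
    rw [this, natDegree_C] at hg
    exact lt_irrefl _ hg

/-- clearing denominators of a rational polynomial -/
theorem clear_denom (q : ℚ[X]) :
    ∃ D : ℤ, D ≠ 0 ∧ ∃ H : ℤ[X], H.map (Int.castRingHom ℚ) = C (D : ℚ) * q := by
  obtain ⟨b, hb0, hb⟩ := IsLocalization.integerNormalization_spec (nonZeroDivisors ℤ) q
  refine ⟨b, nonZeroDivisors.ne_zero hb0,
    IsLocalization.integerNormalization (nonZeroDivisors ℤ) q, ?_⟩
  have : (algebraMap ℤ ℚ) = Int.castRingHom ℚ := rfl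
  rw [← this, hb]
  ext i
  simp

/-- Bezout identity over the integers. -/
theorem bezout_int (F G : ℤ[X])
    (hs : IsCoprime (F.map (Int.castRingHom ℚ)) (G.map (Int.castRingHom ℚ))) :
    ∃ M : ℤ, M ≠ 0 ∧ ∃ A B : ℤ[X], A * F + B * G = C M := by
  obtain ⟨a, b, hab⟩ := hs
  obtain ⟨D1, hD1, A, hA⟩ := clear_denom a
  obtain ⟨D2, hD2, B, hB⟩ := clear_denom b
  refine ⟨D1 * D2, mul_ne_zero hD1 hD2, C D2 * A, C D1 * B, ?_⟩
  apply Polynomial.map_injective (Int.castRingHom ℚ) (Int.cast_injective)
  simp only [Polynomial.map_add, Polynomial.map_mul, map_C, hA, hB, Int.coe_castRingHom,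
    Int.cast_mul, C_mul]
  have : (C (D2 : ℚ)) * (C (D1 : ℚ) * a) * F.map (Int.castRingHom ℚ) +
      C (D1 : ℚ) * (C (D2 : ℚ) * b) * G.map (Int.castRingHom ℚ) =
      C (D1 : ℚ) * C (D2 : ℚ) * (a * F.map (Int.castRingHom ℚ) + b * G.map (Int.castRingHom ℚ)) := by
    ring
  rw [this, hab, mul_one]

theorem coprime_mod (F G : ℤ[X])
    (hs : IsCoprime (F.map (Int.castRingHom ℚ)) (G.map (Int.castRingHom ℚ))) :
    ∃ M : ℤ, M ≠ 0 ∧ ∀ p : ℕ, p.Prime → ¬ (p : ℤ) ∣ M →
      IsCoprime (F.map (Int.castRingHom (ZMod p))) (G.map (Int.castRingHom (ZMod p))) := by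
  obtain ⟨M, hM, A, B, h⟩ := bezout_int F G hs
  refine ⟨M, hM, fun p hp hpM => ?_⟩
  have : Fact p.Prime := ⟨hp⟩
  have h1 := congrArg (Polynomial.map (Int.castRingHom (ZMod p))) h
  simp only [Polynomial.map_add, Polynomial.map_mul, map_C, Int.coe_castRingHom] at h1
  have hM' : (M : ZMod p) ≠ 0 := by
    intro h0
    exact hpM ((ZMod.intCast_zmod_eq_zero_iff_dvd M p).1 h0)
  refine ⟨C ((M : ZMod p)⁻¹) * A.map (Int.castRingHom (ZMod p)),
    C ((M : ZMod p)⁻¹) * B.map (Int.castRingHom (ZMod p)), ?_⟩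
  rw [mul_assoc, mul_assoc, ← mul_add, h1, ← C_mul, inv_mul_cancel₀ hM', C_1]

end Pool.Agent.Work.MP_8d13b5_lc

end

section

set_option autoImplicit false

namespace Pool.Agent.Work.MP_8d13b5_lc

open Polynomial IntermediateField

/-- An integral primitive element of a number field together with integer polynomials. -/
theorem exists_integral_gen (K : Type) [Field K] [Algebra ℚ K] [FiniteDimensional ℚ K] :
    ∃ θ : K, IsIntegral ℤ θ ∧ ∀ s : Finset K, ∃ D : ℤ, D ≠ 0 ∧ ∀ β ∈ s, ∃ H : ℤ[X],
      aeval θ H = (D : K) * β := by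
  have : CharZero K := algebraRat.charZero K
  obtain ⟨θ0, hθ0⟩ := Field.exists_primitive_element ℚ K
  have halg : IsAlgebraic ℤ θ0 := by
    rw [IsFractionRing.isAlgebraic_iff ℤ ℚ K]
    exact Algebra.IsAlgebraic.isAlgebraic θ0
  obtain ⟨y, hy, hint⟩ := halg.exists_integral_multiple
  have hyK : (y : K) ≠ 0 := by exact_mod_cast hy
  have hgen : ∀ β : K, ∃ q : ℚ[X], aeval (y • θ0) q = β := by
    intro β
    have h1 : β ∈ (ℚ⟮θ0⟯).toSubalgebra := by
      rw [hθ0]
      exact IntermediateField.mem_top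
    rw [adjoin_simple_toSubalgebra_of_isAlgebraic (Algebra.IsAlgebraic.isAlgebraic θ0),
      Algebra.adjoin_singleton_eq_range_aeval] at h1
    obtain ⟨q, hq⟩ := h1
    refine ⟨q.comp (C ((y : ℚ)⁻¹) * X), ?_⟩
    rw [aeval_comp]
    have h2 : aeval (y • θ0) (C ((y : ℚ)⁻¹) * X) = θ0 := by
      simp only [map_mul, aeval_C, aeval_X, map_inv₀, zsmul_eq_mul, map_intCast]
      field_simp
    rw [h2]
    exact hq
  refine ⟨y • θ0, hint, ?_⟩
  set θ := y • θ0
  have hone : ∀ β : K, ∃ D : ℤ, D ≠ 0 ∧ ∃ H : ℤ[X], aeval θ H = (D : K) * β := by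
    intro β
    obtain ⟨q, hq⟩ := hgen β
    obtain ⟨D, hD, H, hH⟩ := clear_denom q
    refine ⟨D, hD, H, ?_⟩
    have h3 := congrArg (aeval θ) hH
    rw [map_mul, aeval_C, hq] at h3
    have h4 : aeval θ (H.map (Int.castRingHom ℚ)) = aeval θ H := by
      have : Int.castRingHom ℚ = algebraMap ℤ ℚ := rfl
      rw [this, aeval_map_algebraMap]
    rw [h4] at h3
    simpa using h3
  choose D hD H hH using hone
  intro s
  classical
  refine ⟨∏ β ∈ s, D β, Finset.prod_ne_zero_iff.2 fun β _ => hD β, fun β hβ =>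
    ⟨C (∏ γ ∈ s.erase β, D γ) * H β, ?_⟩⟩
  rw [map_mul, aeval_C, hH, ← Finset.mul_prod_erase s D hβ]
  simp only [algebraMap_int_eq, Int.coe_castRingHom, Int.cast_mul]
  ring

/-- Infinitely many primes modulo which a monic integer polynomial splits completely. -/
theorem infinite_split (F : ℤ[X]) (hF : F.Monic) (M : ℤ) (hM : M ≠ 0) :
    {p : ℕ | p.Prime ∧ ¬ (p : ℤ) ∣ M ∧ (F.map (Int.castRingHom (ZMod p))).Splits}.Infinite := by
  classical
  -- the splitting field
  let K := (F.map (Int.castRingHom ℚ)).SplittingField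
  obtain ⟨θ, hθ, hgen⟩ := exists_integral_gen K
  have : CharZero K := algebraRat.charZero K
  have hsplit : (F.map (algebraMap ℤ K)).Splits := by
    have h1 := SplittingField.splits (F.map (Int.castRingHom ℚ))
    rw [Polynomial.map_map] at h1
    have h2 : (algebraMap ℚ K).comp (Int.castRingHom ℚ) = algebraMap ℤ K := RingHom.ext_int _ _
    rw [← h2]
    exact h1
  set FK := F.map (algebraMap ℤ K) with hFK
  have hFKm : FK.Monic := hF.map _
  have hprod : FK = (FK.roots.map (fun β => X - C β)).prod :=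
    hsplit.eq_prod_roots_of_monic hFKm
  obtain ⟨D, hD, hH⟩ := hgen FK.roots.toFinset
  have hH' : ∀ β : K, ∃ H : ℤ[X], β ∈ FK.roots → aeval θ H = (D : K) * β := by
    intro β
    by_cases hβ : β ∈ FK.roots
    · obtain ⟨H, h⟩ := hH β (Multiset.mem_toFinset.2 hβ)
      exact ⟨H, fun _ => h⟩
    · exact ⟨0, fun h => absurd h hβ⟩
  choose H hHa using hH'
  set n := FK.roots.card with hn
  let evθ : ℤ[X] →+* K := (aeval θ : ℤ[X] →ₐ[ℤ] K).toRingHom
  let G : ℤ[X][X] := (FK.roots.map (fun β => C (C D) * X - C (H β))).prod -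
    C (C (D ^ n)) * F.map C
  have hG0 : G.map evθ = 0 := by
    have h1 : (F.map C).map evθ = FK := by
      rw [Polynomial.map_map, hFK]
      congr 1
      exact RingHom.ext_int _ _
    have h2 : ((FK.roots.map (fun β => C (C D) * X - C (H β))).prod).map evθ =
        C ((D : K) ^ n) * FK := by
      rw [Polynomial.map_multiset_prod, Multiset.map_map]
      have h3 : FK.roots.map ((Polynomial.map evθ) ∘ (fun β => C (C D) * X - C (H β))) =
          FK.roots.map (fun β => C (D : K) * (X - C β)) := by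
        apply Multiset.map_congr rfl
        intro β hβ
        have h4 : evθ (H β) = (D : K) * β := hHa β hβ
        have h5 : evθ (C D) = (D : K) := by
          show aeval θ (C D) = (D : K)
          rw [aeval_C]; simp
        simp only [Function.comp, Polynomial.map_sub, Polynomial.map_mul, map_C, map_X, h4, h5]
        rw [C_mul]; ring
      rw [h3, Multiset.prod_map_mul, Multiset.map_const', Multiset.prod_replicate, ← hn,
        ← hprod, C_pow]
    have h6 : evθ (C (D ^ n)) = (D : K) ^ n := by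
      show aeval θ (C (D ^ n)) = (D : K) ^ n
      rw [aeval_C]; simp
    show ((FK.roots.map (fun β => C (C D) * X - C (H β))).prod -
      C (C (D ^ n)) * F.map C).map evθ = 0
    rw [Polynomial.map_sub, h2, Polynomial.map_mul, h1, map_C, h6, sub_self]
  -- primes dividing a value of the minimal polynomial
  set g := minpoly ℤ θ with hg
  have hgdeg : 0 < g.natDegree := minpoly.natDegree_pos hθ
  have hinf := infinite_primes_dvd_eval g hgdeg
  have hfin : {p : ℕ | (p : ℤ) ∣ M * D}.Finite := by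
    have hMD : M * D ≠ 0 := mul_ne_zero hM hD
    refine (Set.finite_Iic (M * D).natAbs).subset ?_
    intro p hp
    have h7 : p ∣ (M * D).natAbs := Int.natCast_dvd.1 hp
    exact Nat.le_of_dvd (Int.natAbs_pos.2 hMD) h7
  refine (hinf.sdiff hfin).mono ?_
  rintro p ⟨⟨hp, a, ha⟩, hpMD⟩
  have hpMD' : ¬ (p : ℤ) ∣ M * D := hpMD
  have : Fact p.Prime := ⟨hp⟩
  refine ⟨hp, fun h => hpMD' (Dvd.dvd.mul_right h _), ?_⟩
  have hpD : (D : ZMod p) ≠ 0 := by
    intro h0
    exact hpMD' (Dvd.dvd.mul_left ((ZMod.intCast_zmod_eq_zero_iff_dvd D p).1 h0) _)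
  let eva : ℤ[X] →+* ZMod p := eval₂RingHom (Int.castRingHom (ZMod p)) (a : ZMod p)
  have hevag : ∀ q : ℤ[X], eva q = ((q.eval a : ℤ) : ZMod p) := by
    intro q
    show eval₂ (Int.castRingHom (ZMod p)) (a : ZMod p) q = _
    exact eval₂_at_apply (Int.castRingHom (ZMod p)) a
  have hG1 : G.map eva = 0 := by
    ext k
    rw [coeff_map, coeff_zero]
    have h8 : evθ (G.coeff k) = 0 := by
      have := congrArg (fun q => Polynomial.coeff q k) hG0
      simpa [coeff_map] using this
    have h9 : g ∣ G.coeff k := minpoly.isIntegrallyClosed_dvd hθ h8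
    obtain ⟨q, hq⟩ := h9
    rw [hevag, hq, eval_mul]
    have : ((g.eval a : ℤ) : ZMod p) = 0 := (ZMod.intCast_zmod_eq_zero_iff_dvd _ p).2 ha
    push_cast
    rw [this, zero_mul]
  have h1 : (F.map C).map eva = F.map (Int.castRingHom (ZMod p)) := by
    rw [Polynomial.map_map]
    congr 1
    exact RingHom.ext_int _ _
  have h10 : C ((D : ZMod p) ^ n) * F.map (Int.castRingHom (ZMod p)) =
      (FK.roots.map (fun β => C (D : ZMod p) * X - C (eva (H β)))).prod := by
    have h11 : ((FK.roots.map (fun β => C (C D) * X - C (H β))).prod -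
      C (C (D ^ n)) * F.map C).map eva = 0 := hG1
    rw [Polynomial.map_sub, Polynomial.map_mul, h1, map_C, hevag, eval_C, sub_eq_zero,
      Polynomial.map_multiset_prod, Multiset.map_map] at h11
    rw [← Int.cast_pow, ← h11]
    congr 1
    apply Multiset.map_congr rfl
    intro β _
    simp only [Function.comp, Polynomial.map_sub, Polynomial.map_mul, map_C, map_X]
    rw [hevag (C D), eval_C]
  have h12 : (C ((D : ZMod p) ^ n) * F.map (Int.castRingHom (ZMod p))).Splits := by
    rw [h10]
    apply Splits.multisetProd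
    intro f hf
    rw [Multiset.mem_map] at hf
    obtain ⟨β, _, rfl⟩ := hf
    apply Splits.of_natDegree_le_one
    compute_degree
  refine Splits.of_dvd h12 ?_ (dvd_mul_left _ _)
  exact mul_ne_zero (C_ne_zero.2 (pow_ne_zero _ hpD)) (hF.map _).ne_zero

end Pool.Agent.Work.MP_8d13b5_lc

end

section

set_option autoImplicit false

namespace Pool.Agent.Work.MP_8d13b5_lc

open Polynomial

theorem coprime_X_of_coeff_zero {k : Type*} [Field k] (f : k[X]) (h : f.coeff 0 ≠ 0) :
    IsCoprime f X := by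
  apply IsCoprime.symm
  rw [(Polynomial.irreducible_X (R := k)).coprime_iff_not_dvd, X_dvd_iff]
  exact h

theorem separable_expand_two (f : ℚ[X]) (hs : f.Separable) (h0 : f.coeff 0 ≠ 0) :
    (expand ℚ 2 f).Separable := by
  have h1 : IsCoprime (expand ℚ 2 f) (expand ℚ 2 (derivative f)) := by
    obtain ⟨a, b, hab⟩ := hs
    refine ⟨expand ℚ 2 a, expand ℚ 2 b, ?_⟩
    rw [← map_mul, ← map_mul, ← map_add, hab, map_one]
  have h2 : IsCoprime (expand ℚ 2 f) X := by
    apply coprime_X_of_coeff_zero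
    rw [coeff_expand (by norm_num)]
    simpa using h0
  have h3 : derivative (expand ℚ 2 f) = expand ℚ 2 (derivative f) * (2 * X) := by
    rw [derivative_expand]; norm_num
  show IsCoprime _ _
  rw [h3]
  apply IsCoprime.mul_right h1
  apply IsCoprime.mul_right _ h2
  refine ⟨0, C (1 / 2), ?_⟩
  rw [zero_mul, zero_add, show (2 : ℚ[X]) = C 2 from rfl, ← C_mul]
  norm_num

/-- divisibility after the substitution `X ↦ X ^ 2` -/
theorem dvd_of_expand_dvd {k : Type*} [Field k] (f g : k[X]) (hf : f.Monic)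
    (h : expand k 2 f ∣ expand k 2 g) : f ∣ g := by
  have h1 := modByMonic_add_div g f
  rw [← modByMonic_eq_zero_iff_dvd hf]
  have h2 : expand k 2 f ∣ expand k 2 (g %ₘ f) := by
    have h3 : expand k 2 g = expand k 2 (g %ₘ f) + expand k 2 f * expand k 2 (g /ₘ f) := by
      rw [← map_mul, ← map_add, h1]
    rw [h3] at h
    exact (dvd_add_left (dvd_mul_right _ _)).1 h
  by_contra hne
  have hne' : expand k 2 (g %ₘ f) ≠ 0 := by
    rwa [Ne, expand_eq_zero (by norm_num)]
  have h4 := natDegree_le_of_dvd h2 hne'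
  rw [natDegree_expand, natDegree_expand] at h4
  have h5 : (g %ₘ f).natDegree < f.natDegree := by
    apply natDegree_modByMonic_lt g hf
    rintro rfl
    simp at hne
  omega

/-- If `p` is a prime modulo which `χ(X ^ 2)` splits, then, outside finitely many `p`, the
polynomial `χ` divides `X ^ ((p - 1) / 2) - 1` modulo `p`. -/
theorem good_of_split (χ : ℤ[X]) (hm : χ.Monic)
    (hs : (χ.map (Int.castRingHom ℚ)).Separable) (h0 : χ.coeff 0 ≠ 0) :
    ∃ M : ℤ, M ≠ 0 ∧ ∀ p : ℕ, p.Prime → ¬ (p : ℤ) ∣ M →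
      ((expand ℤ 2 χ).map (Int.castRingHom (ZMod p))).Splits →
      2 < p ∧ (χ.map (Int.castRingHom (ZMod p))) ∣ X ^ ((p - 1) / 2) - 1 := by
  set F := expand ℤ 2 χ with hF
  have hFm : F.Monic := (monic_expand_iff (by norm_num)).2 hm
  have hFs : (F.map (Int.castRingHom ℚ)).Separable := by
    rw [hF, map_expand]
    apply separable_expand_two _ hs
    rw [coeff_map]
    simpa using h0
  obtain ⟨M, hM, hMp⟩ := coprime_mod F (derivative F) (by
    rw [← derivative_map]
    exact hFs)
  refine ⟨2 * χ.coeff 0 * M, mul_ne_zero (mul_ne_zero two_ne_zero h0) hM, ?_⟩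
  intro p hp hpM hsp
  have : Fact p.Prime := ⟨hp⟩
  have hp2 : p ≠ 2 := by
    rintro rfl
    apply hpM
    rw [mul_assoc]
    exact dvd_mul_right _ _
  have hp2' : 2 < p := lt_of_le_of_ne hp.two_le (Ne.symm hp2)
  have hpc : (χ.coeff 0 : ZMod p) ≠ 0 := by
    intro h
    apply hpM
    have := (ZMod.intCast_zmod_eq_zero_iff_dvd _ p).1 h
    exact Dvd.dvd.mul_right (Dvd.dvd.mul_left this _) _
  refine ⟨hp2', ?_⟩
  set Fp := F.map (Int.castRingHom (ZMod p)) with hFp
  have hFpm : Fp.Monic := hFm.map _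
  have hsep : Fp.Separable := by
    have h1 := hMp p hp (fun h => hpM (Dvd.dvd.mul_left h _))
    rw [← derivative_map] at h1
    exact h1
  have hroots : Fp ∣ X ^ (p - 1) - 1 := by
    apply Splits.dvd_of_roots_le_roots hsp hFpm.ne_zero
    rw [Multiset.le_iff_subset (nodup_roots hsep)]
    intro r hr
    have hr1 : Fp.eval r = 0 := by
      rw [mem_roots hFpm.ne_zero] at hr
      exact hr
    have hr0 : r ≠ 0 := by
      rintro rfl
      rw [← coeff_zero_eq_eval_zero, hFp, coeff_map, hF, coeff_expand (by norm_num)] at hr1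
      simp at hr1
      exact hpc hr1
    have hne : (X ^ (p - 1) - 1 : (ZMod p)[X]) ≠ 0 := by
      have : 0 < p - 1 := by omega
      exact (monic_X_pow_sub_C (1 : ZMod p) this.ne').ne_zero
    rw [mem_roots hne, IsRoot.def, eval_sub, eval_pow, eval_X, eval_one,
      ZMod.pow_card_sub_one_eq_one hr0, sub_self]
  apply dvd_of_expand_dvd _ _ (hm.map _)
  have h2 : expand (ZMod p) 2 (X ^ ((p - 1) / 2) - 1) = X ^ (p - 1) - 1 := by
    rw [map_sub, map_pow, expand_X, map_one, ← pow_mul]
    congr 2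
    have hodd := hp.eq_two_or_odd
    omega
  rw [h2, ← map_expand]
  exact hroots

/-- There are infinitely many primes `p` for which the sequences annihilated by `χ` have period
dividing `(p-1)/2` modulo `p`. -/
theorem infinite_good (χ : ℤ[X]) (hm : χ.Monic)
    (hs : (χ.map (Int.castRingHom ℚ)).Separable) (h0 : χ.coeff 0 ≠ 0) :
    {p : ℕ | p.Prime ∧ 2 < p ∧
      (χ.map (Int.castRingHom (ZMod p))) ∣ X ^ ((p - 1) / 2) - 1}.Infinite := by
  obtain ⟨M, hM, hMp⟩ := good_of_split χ hm hs h0
  have hinf := infinite_split (expand ℤ 2 χ) ((monic_expand_iff (by norm_num)).2 hm) M hM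
  refine hinf.mono ?_
  rintro p ⟨hp, hpM, hsp⟩
  exact ⟨hp, hMp p hp hpM hsp⟩

/-- The same for two polynomials at once. -/
theorem infinite_good_pair (χ ξ : ℤ[X]) (hm : χ.Monic)
    (hs : (χ.map (Int.castRingHom ℚ)).Separable) (h0 : χ.coeff 0 ≠ 0) (hm' : ξ.Monic)
    (hs' : (ξ.map (Int.castRingHom ℚ)).Separable) (h0' : ξ.coeff 0 ≠ 0) :
    {p : ℕ | p.Prime ∧ 2 < p ∧
      (χ.map (Int.castRingHom (ZMod p))) ∣ X ^ ((p - 1) / 2) - 1 ∧
      (ξ.map (Int.castRingHom (ZMod p))) ∣ X ^ ((p - 1) / 2) - 1}.Infinite := by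
  obtain ⟨M, hM, hMp⟩ := good_of_split χ hm hs h0
  obtain ⟨M', hM', hMp'⟩ := good_of_split ξ hm' hs' h0'
  have hF : (expand ℤ 2 χ).Monic := (monic_expand_iff (by norm_num)).2 hm
  have hF' : (expand ℤ 2 ξ).Monic := (monic_expand_iff (by norm_num)).2 hm'
  have hinf := infinite_split (expand ℤ 2 χ * expand ℤ 2 ξ) (hF.mul hF') (M * M')
    (mul_ne_zero hM hM')
  refine hinf.mono ?_
  rintro p ⟨hp, hpM, hsp⟩
  have : Fact p.Prime := ⟨hp⟩
  rw [Polynomial.map_mul] at hsp
  have hne := mul_ne_zero (hF.map (Int.castRingHom (ZMod p))).ne_zero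
    (hF'.map (Int.castRingHom (ZMod p))).ne_zero
  have h1 := hMp p hp (fun h => hpM (Dvd.dvd.mul_right h _))
    (Splits.of_dvd hsp hne (dvd_mul_right _ _))
  have h2 := hMp' p hp (fun h => hpM (Dvd.dvd.mul_left h _))
    (Splits.of_dvd hsp hne (dvd_mul_left _ _))
  exact ⟨hp, h1.1, h1.2, h2.2⟩

end Pool.Agent.Work.MP_8d13b5_lc

end
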