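import Pool.Agent.Work.MP_8d13b5_lc.Pd.NF
import Pool.Agent.Work.MP_8d13b5_lc.Sc.Decide
import Pool.Agent.Work.MP_8d13b5_lc.Pd.Gauss

/-! Bundle of small proof modules (one section per former module). -/

section

set_option autoImplicit false

/-! Translation families: `β = N + θ`, `β' = N + θ'` for large `N`. -/

namespace Pool.Agent.Work.MP_8d13b5_lc.Pd

open Polynomial Finset NumberField

variable {K : Type*} [Field K] [NumberField K]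

omit [NumberField K] in
/-- a bound for the roots -/
theorem exists_root_bound {f : (𝓞 K)[X]} (hf : f ≠ 0) (φ : K →+* ℂ) :
    ∃ a : ℝ, 1 ≤ a ∧ ∀ z : ℂ, f.eval₂ (res φ) z = 0 → ‖z‖ ≤ a := by
  classical
  refine ⟨1 + ∑ z ∈ (f.map (res φ)).roots.toFinset, ‖z‖, ?_, fun z hz => ?_⟩
  · have : 0 ≤ ∑ z ∈ (f.map (res φ)).roots.toFinset, ‖z‖ := sum_nonneg fun _ _ => norm_nonneg _
    linarith
  · have h0 : f.map (res φ) ≠ 0 := (Polynomial.map_ne_zero_iff (res_inj φ)).2 hf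
    have h1 : z ∈ (f.map (res φ)).roots.toFinset := by
      rw [Multiset.mem_toFinset, mem_roots h0, IsRoot.def, eval_map]
      exact hz
    have h2 : ‖z‖ ≤ ∑ z ∈ (f.map (res φ)).roots.toFinset, ‖z‖ :=
      single_le_sum (f := fun z : ℂ => ‖z‖) (fun _ _ => norm_nonneg _) h1
    linarith

theorem translation {f g q : (𝓞 K)[X]} (hf : f.Monic) (hg : g.Monic) (hq : q.Monic)
    (hf0 : f.coeff 0 ≠ 0) (hg0 : g.coeff 0 ≠ 0) (hq0 : q.coeff 0 ≠ 0) {θ θ' : 𝓞 K}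
    (hθ : θ ≠ θ') : ∃ (a w : (K →+* ℂ) → ℝ) (N₀ : ℕ), ∀ N : ℕ, N₀ ≤ N →
      Fam K f g q ((N : 𝓞 K) + θ) ((N : 𝓞 K) + θ') 1 (θ' - θ) 1 1 a w := by
  classical
  choose a ha using fun φ : K →+* ℂ => exists_root_bound (K := K) hf.ne_zero φ
  choose w hw using fun φ : K →+* ℂ => exists_root_bound (K := K) hq.ne_zero φ
  set C : (K →+* ℂ) → ℝ := fun φ => (32 * a φ) ^ 2 * ‖φ ((θ' - θ : 𝓞 K) : K)‖ ^ 2 +
    (128 * w φ) ^ 2 with hC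
  set Θ : (K →+* ℂ) → ℝ := fun φ => ‖φ θ‖ + ‖φ θ'‖ with hΘ
  have hC0 : ∀ φ, 0 ≤ C φ := fun φ => by rw [hC]; positivity
  have hΘ0 : ∀ φ, 0 ≤ Θ φ := fun φ => by rw [hΘ]; positivity
  obtain ⟨N₀, hN₀⟩ := exists_nat_ge (∑ φ, (8 * C φ + 2 * Θ φ))
  refine ⟨a, w, N₀, fun N hN => ?_⟩
  have hNφ : ∀ φ : K →+* ℂ, 8 * C φ + 2 * Θ φ ≤ N := by
    intro φ
    have h1 : 8 * C φ + 2 * Θ φ ≤ ∑ φ, (8 * C φ + 2 * Θ φ) :=
      single_le_sum (f := fun φ => 8 * C φ + 2 * Θ φ) (fun ψ _ => by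
        have := hC0 ψ
        have := hΘ0 ψ
        positivity) (mem_univ φ)
    have h2 : (N₀ : ℝ) ≤ N := by exact_mod_cast hN
    linarith
  refine
    { monic := ⟨hf, hg, hq⟩
      coeff := ⟨hf0, hg0, hq0⟩
      exps := ⟨le_rfl, by norm_num⟩
      ne := fun h => hθ (add_left_cancel h)
      diff := by ring
      coprime := isCoprime_one_left
      roots := fun φ => ⟨(ha φ).1, (hw φ).1, (ha φ).2, (hw φ).2⟩
      large := ?_ }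
  apply prod_le_prod
  · intro φ _
    have := (hw φ).1
    exact le_max_of_le_right (by positivity)
  intro φ _
  have hN1 := hNφ φ
  have hCφ := hC0 φ
  have hΘφ := hΘ0 φ
  have e1 : φ (((N : 𝓞 K) + θ : 𝓞 K) : K) = (N : ℂ) + φ θ := by
    push_cast
    simp
  have e2 : φ (((N : 𝓞 K) + θ' : 𝓞 K) : K) = (N : ℂ) + φ θ' := by
    push_cast
    simp
  have hNn : ‖(N : ℂ)‖ = N := by simp
  have b1 : ‖φ (((N : 𝓞 K) + θ : 𝓞 K) : K)‖ ≤ 2 * N := by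
    rw [e1]
    refine (norm_add_le _ _).trans ?_
    rw [hNn]
    have : ‖φ θ‖ ≤ Θ φ := by rw [hΘ]; simp
    linarith
  have b2 : ‖φ (((N : 𝓞 K) + θ' : 𝓞 K) : K)‖ ≤ 2 * N := by
    rw [e2]
    refine (norm_add_le _ _).trans ?_
    rw [hNn]
    have : ‖φ θ'‖ ≤ Θ φ := by rw [hΘ]; simp
    linarith
  have b3 : (N : ℝ) / 2 ≤ ‖φ (((N : 𝓞 K) + θ' : 𝓞 K) : K)‖ := by
    rw [e2]
    have h1 : ‖(N : ℂ)‖ - ‖φ θ'‖ ≤ ‖(N : ℂ) + φ θ'‖ := by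
      have := norm_sub_norm_le (N : ℂ) (-φ θ')
      rw [norm_neg, sub_neg_eq_add] at this
      exact this
    rw [hNn] at h1
    have : ‖φ θ'‖ ≤ Θ φ := by rw [hΘ]; simp
    linarith
  have hM := max_le b1 b2
  have hN0 : (0 : ℝ) ≤ N := Nat.cast_nonneg N
  have hM0 : 0 ≤ max ‖φ (((N : 𝓞 K) + θ : 𝓞 K) : K)‖ ‖φ (((N : 𝓞 K) + θ' : 𝓞 K) : K)‖ :=
    (norm_nonneg _).trans (le_max_left _ _)
  have hkey : C φ * (2 * N) ≤ ‖φ (((N : 𝓞 K) + θ' : 𝓞 K) : K)‖ ^ (2 * 1) := by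
    calc C φ * (2 * N) ≤ ((N : ℝ) / 2) ^ 2 := by nlinarith
      _ ≤ ‖φ (((N : 𝓞 K) + θ' : 𝓞 K) : K)‖ ^ 2 := pow_le_pow_left₀ (by positivity) b3 2
      _ = _ := by norm_num
  apply max_le
  · refine le_trans ?_ hkey
    rw [show 2 * 1 - 1 = 1 by norm_num, pow_one]
    apply mul_le_mul _ hM hM0 hCφ
    rw [hC]
    norm_num
    positivity
  · refine le_trans ?_ hkey
    rw [pow_one]
    apply mul_le_mul _ hM hM0 hCφ
    rw [hC]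
    norm_num
    positivity

end Pool.Agent.Work.MP_8d13b5_lc.Pd

end

section

set_option autoImplicit false

/-! The families `β = x + y δ`, `β' = x - y δ`, `δ ^ 2 = -d`. -/

namespace Pool.Agent.Work.MP_8d13b5_lc.Sc

open Polynomial Finset NumberField Pool.Agent.Work.MP_8d13b5_lc.Pd
open scoped IntermediateField

/-- the choice of the closeness parameter -/
theorem exists_E {C b t Δ R : ℝ} {σ ν l m : ℕ} (hC : 1 ≤ C) (hb : 1 ≤ b) (ht : 0 ≤ t)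
    (hΔ : 1 ≤ Δ) (hR : 1 ≤ R) (hσ : 1 ≤ σ) (hν : 1 ≤ ν) (hml : m * σ ≤ l * ν)
    (hc1 : (C ^ ν * t) ^ (2 * σ) ≤ b ^ (2 * σ - 1))
    (hc2 : C ^ (2 * σ * ν) * R ^ (2 * ν) * Δ ^ (2 * (l * ν - m * σ)) ≤ b ^ (2 * ν - 1)) :
    ∃ E : ℝ, 1 ≤ E ∧ (E = 1 ∨ (E * (Δ ^ m * t) ≤ b ∧ E ^ σ * (R * Δ ^ l) ^ ν ≤ b ^ ν)) ∧
      C ^ (2 * σ * ν) * b ≤ Δ ^ (2 * σ * m) * E ^ (2 * σ) := by
  by_cases hcase : C ^ (2 * σ * ν) * b ≤ Δ ^ (2 * σ * m)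
  · exact ⟨1, le_rfl, Or.inl rfl, by rw [one_pow, mul_one]; exact hcase⟩
  rw [not_le] at hcase
  have hΔp : 0 < Δ ^ (2 * σ * m) := by positivity
  obtain ⟨E, hE0, hE⟩ := exists_root (x := C ^ (2 * σ * ν) * b / Δ ^ (2 * σ * m))
    (by positivity) (n := 2 * σ) (by omega)
  have hE' : E ^ (2 * σ) * Δ ^ (2 * σ * m) = C ^ (2 * σ * ν) * b := by
    rw [hE, div_mul_cancel₀ _ hΔp.ne']
  have hE1 : 1 ≤ E := by
    by_contra hcon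
    have h1 : E ^ (2 * σ) ≤ 1 := pow_le_one₀ hE0 (not_le.1 hcon).le
    have h2 : 1 < E ^ (2 * σ) := by rw [hE, one_lt_div hΔp]; exact hcase
    linarith
  have hb2 : b ^ (2 * σ) = b * b ^ (2 * σ - 1) := by
    rw [← pow_succ']
    congr 1
    omega
  have hb3 : b ^ (2 * ν) = b * b ^ (2 * ν - 1) := by
    rw [← pow_succ']
    congr 1
    omega
  refine ⟨E, hE1, Or.inr ⟨?_, ?_⟩, by rw [mul_comm (Δ ^ _), hE']⟩
  · refine le_of_pow_le_pow_left₀ (n := 2 * σ) (by omega) (by linarith) ?_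
    calc (E * (Δ ^ m * t)) ^ (2 * σ) = E ^ (2 * σ) * Δ ^ (2 * σ * m) * t ^ (2 * σ) := by
          rw [mul_pow, mul_pow, ← pow_mul, mul_comm m (2 * σ)]
          ring
      _ = b * (C ^ ν * t) ^ (2 * σ) := by
          rw [hE', mul_pow, ← pow_mul, mul_comm ν (2 * σ)]
          ring
      _ ≤ b * b ^ (2 * σ - 1) := mul_le_mul_of_nonneg_left hc1 (by linarith)
      _ = b ^ (2 * σ) := hb2.symm
  · refine le_of_pow_le_pow_left₀ (n := 2) (by norm_num) (by positivity) ?_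
    have hexp : Δ ^ (2 * (l * ν)) = Δ ^ (2 * σ * m) * Δ ^ (2 * (l * ν - m * σ)) := by
      rw [← pow_add]
      congr 1
      have e1 : 2 * σ * m = 2 * (m * σ) := by ring
      omega
    calc (E ^ σ * (R * Δ ^ l) ^ ν) ^ 2 = E ^ (2 * σ) * (R ^ (2 * ν) * Δ ^ (2 * (l * ν))) := by
          rw [mul_pow, ← pow_mul, ← pow_mul, mul_pow, ← pow_mul, mul_comm σ 2, mul_comm ν 2]
          congr 3
          ring
      _ = b * (C ^ (2 * σ * ν) * R ^ (2 * ν) * Δ ^ (2 * (l * ν - m * σ))) := by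
          rw [hexp]
          linear_combination (R ^ (2 * ν) * Δ ^ (2 * (l * ν - m * σ))) * hE'
      _ ≤ b * b ^ (2 * ν - 1) := mul_le_mul_of_nonneg_left hc2 (by linarith)
      _ = (b ^ ν) ^ 2 := by rw [← hb3, ← pow_mul, mul_comm ν 2]

/-- the choice of the exponent `σ` in a sector -/
theorem exists_sigma {C b t R : ℝ} {ν : ℕ} (hC : 2 ≤ C) (ht : 0 ≤ t) (hR : 0 ≤ R) (hν : 1 ≤ ν)
    (h1 : C ^ (2 * ν) ≤ b) (h2 : C ^ (3 * ν) * t ≤ b) (h3 : R ^ ν ≤ b ^ (ν - 1)) :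
    ∃ σ : ℕ, 1 ≤ σ ∧ (C ^ ν * t) ^ (2 * σ) ≤ b ^ (2 * σ - 1) ∧
      C ^ (2 * σ * ν) * R ^ (2 * ν) ≤ b ^ (2 * ν - 1) := by
  have hC1 : 1 ≤ C := by linarith
  have hb1 : 1 ≤ b := (one_le_pow₀ hC1).trans h1
  have hY : 1 < C ^ (2 * ν) := one_lt_pow₀ (by linarith) (by omega)
  obtain ⟨σ, hσ1, hσ2⟩ := exists_nat_pow_near hb1 hY
  have hσ : 1 ≤ σ := by
    by_contra hcon
    have : σ = 0 := by omega
    subst this
    rw [zero_add, pow_one] at hσ2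
    linarith
  have hb0 : 0 < b := by linarith
  refine ⟨σ, hσ, ?_, ?_⟩
  · have e1 : b ^ (2 * σ) = b ^ (2 * σ - 1) * b := by
      rw [← pow_succ]
      congr 1
      omega
    have e2 : C ^ (3 * ν) * t = C ^ (2 * ν) * (C ^ ν * t) := by
      have : 3 * ν = 2 * ν + ν := by ring
      rw [this, pow_add]
      ring
    have h4 : (C ^ ν * t) ^ (2 * σ) * b ≤ b ^ (2 * σ - 1) * b := by
      calc (C ^ ν * t) ^ (2 * σ) * b ≤ (C ^ ν * t) ^ (2 * σ) * (C ^ (2 * ν)) ^ (2 * σ) := by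
            apply mul_le_mul_of_nonneg_left _ (by positivity)
            exact hσ2.le.trans (pow_le_pow_right₀ hY.le (by omega))
        _ = (C ^ (3 * ν) * t) ^ (2 * σ) := by
            rw [e2, mul_pow (C ^ (2 * ν)), mul_comm]
        _ ≤ b ^ (2 * σ) := pow_le_pow_left₀ (by positivity) h2 _
        _ = _ := e1
    exact le_of_mul_le_mul_right h4 hb0
  · have e1 : b ^ (2 * ν - 1) = b * (b ^ (ν - 1)) ^ 2 := by
      rw [← pow_mul, ← pow_succ']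
      congr 1
      omega
    rw [e1]
    apply mul_le_mul
    · calc C ^ (2 * σ * ν) = (C ^ (2 * ν)) ^ σ := by
            rw [← pow_mul]
            congr 1
            ring
        _ ≤ b := hσ1
    · calc R ^ (2 * ν) = (R ^ ν) ^ 2 := by rw [← pow_mul, mul_comm]
        _ ≤ (b ^ (ν - 1)) ^ 2 := pow_le_pow_left₀ (by positivity) h3 2
    · positivity
    · linarith

section quad

variable {δ : ℂ} {d : ℤ}

theorem conj_delta (hd : 1 ≤ d) (hδ : δ ^ 2 = -d) : (starRingEnd ℂ) δ = -δ := by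
  have h1 : ((starRingEnd ℂ) δ) ^ 2 = δ ^ 2 := by
    rw [← map_pow, hδ, map_neg, map_intCast]
  have h2 : ((starRingEnd ℂ) δ - δ) * ((starRingEnd ℂ) δ + δ) = 0 := by
    linear_combination h1
  rcases mul_eq_zero.1 h2 with h | h
  · exfalso
    have h3 : (starRingEnd ℂ) δ = δ := sub_eq_zero.1 h
    obtain ⟨r, hr⟩ := Complex.conj_eq_iff_real.1 h3
    rw [hr] at hδ
    have h4 : r ^ 2 = -(d : ℝ) := by exact_mod_cast hδ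
    have h5 : (1 : ℝ) ≤ d := by exact_mod_cast hd
    nlinarith [sq_nonneg r]
  · exact eq_neg_of_add_eq_zero_left h

theorem norm_sub_eq (hd : 1 ≤ d) (hδ : δ ^ 2 = -d) (x y : ℤ) :
    ‖(x : ℂ) - y * δ‖ = ‖(x : ℂ) + y * δ‖ := by
  have h : (x : ℂ) - y * δ = (starRingEnd ℂ) ((x : ℂ) + y * δ) := by
    rw [map_add, map_mul, conj_delta hd hδ, map_intCast, map_intCast]
    ring
  rw [h, Complex.norm_conj]

theorem norm_delta (hd : 1 ≤ d) (hδ : δ ^ 2 = -d) : ‖δ‖ ^ 2 = d := by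
  rw [← norm_pow, hδ, norm_neg, Complex.norm_intCast, abs_of_nonneg]
  have h5 : (1 : ℝ) ≤ d := by exact_mod_cast hd
  linarith

theorem delta_ne (hd : 1 ≤ d) (hδ : δ ^ 2 = -d) : δ ≠ 0 := by
  rintro rfl
  have h := norm_delta hd hδ
  rw [norm_zero] at h
  have h5 : (1 : ℝ) ≤ d := by exact_mod_cast hd
  norm_num at h
  have : (d : ℝ) = 0 := by exact_mod_cast h.symm
  linarith

theorem isIntegral_delta (hδ : δ ^ 2 = -d) : IsIntegral ℤ δ := by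
  refine ⟨X ^ 2 + C d, ?_, ?_⟩
  · exact monic_X_pow_add_C d (by norm_num)
  · rw [eval₂_add, eval₂_pow, eval₂_X, eval₂_C, hδ]
    simp

theorem numberField_delta (hδ : δ ^ 2 = -d) : NumberField ℚ⟮δ⟯ := by
  have : FiniteDimensional ℚ ℚ⟮δ⟯ :=
    IntermediateField.adjoin.finiteDimensional (isIntegral_delta hδ).tower_top
  exact ⟨⟩

theorem finrank_delta (hδ : δ ^ 2 = -d) : Module.finrank ℚ ℚ⟮δ⟯ ≤ 2 := by
  rw [IntermediateField.adjoin.finrank (isIntegral_delta hδ).tower_top]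
  have h1 : minpoly ℚ δ ∣ X ^ 2 + C (d : ℚ) := by
    apply minpoly.dvd
    rw [map_add, map_pow, aeval_X, aeval_C, hδ]
    simp
  have h2 : (X ^ 2 + C (d : ℚ)) ≠ 0 := (monic_X_pow_add_C (d : ℚ) (by norm_num)).ne_zero
  refine (natDegree_le_of_dvd h1 h2).trans ?_
  rw [natDegree_X_pow_add_C]

/-- the generator as an algebraic integer -/
noncomputable def dl (hδ : δ ^ 2 = -d) : 𝓞 ℚ⟮δ⟯ :=
  ⟨IntermediateField.AdjoinSimple.gen ℚ δ, by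
    have h1 : IsIntegral ℤ (algebraMap ℚ⟮δ⟯ ℂ (IntermediateField.AdjoinSimple.gen ℚ δ)) := by
      rw [IntermediateField.AdjoinSimple.algebraMap_gen]
      exact isIntegral_delta hδ
    exact (isIntegral_algebraMap_iff (algebraMap ℚ⟮δ⟯ ℂ).injective).1 h1⟩

theorem emb_dl (hδ : δ ^ 2 = -d) : algebraMap ℚ⟮δ⟯ ℂ (dl hδ : ℚ⟮δ⟯) = δ :=
  IntermediateField.AdjoinSimple.algebraMap_gen ℚ δ

theorem dl_sq (hδ : δ ^ 2 = -d) : (dl hδ : ℚ⟮δ⟯) ^ 2 = -d := by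
  apply (algebraMap ℚ⟮δ⟯ ℂ).injective
  rw [map_pow, emb_dl, hδ, map_neg, map_intCast]

theorem emb_dl_or (hδ : δ ^ 2 = -d) (φ : ℚ⟮δ⟯ →+* ℂ) : φ (dl hδ) = δ ∨ φ (dl hδ) = -δ := by
  have h1 : φ (dl hδ) ^ 2 = δ ^ 2 := by rw [← map_pow, dl_sq, map_neg, map_intCast, hδ]
  have h2 : (φ (dl hδ) - δ) * (φ (dl hδ) + δ) = 0 := by linear_combination h1
  rcases mul_eq_zero.1 h2 with h | h
  · exact Or.inl (sub_eq_zero.1 h)
  · exact Or.inr (eq_neg_of_add_eq_zero_left h)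

theorem dl_ne (hd : 1 ≤ d) (hδ : δ ^ 2 = -d) : dl hδ ≠ 0 := by
  intro h
  have h1 := emb_dl hδ
  rw [h] at h1
  simp only [map_zero] at h1
  exact delta_ne hd hδ h1.symm

theorem beta_norm (hd : 1 ≤ d) (hδ : δ ^ 2 = -d) (x y : ℤ) (φ : ℚ⟮δ⟯ →+* ℂ) :
    ‖φ ((x : 𝓞 ℚ⟮δ⟯) + y * dl hδ : 𝓞 ℚ⟮δ⟯)‖ = ‖(x : ℂ) + y * δ‖ ∧
      ‖φ ((x : 𝓞 ℚ⟮δ⟯) - y * dl hδ : 𝓞 ℚ⟮δ⟯)‖ = ‖(x : ℂ) + y * δ‖ := by
  have e1 : φ (((x : 𝓞 ℚ⟮δ⟯) + y * dl hδ : 𝓞 ℚ⟮δ⟯) : ℚ⟮δ⟯) = (x : ℂ) + y * φ (dl hδ) := by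
    show φ (algebraMap (𝓞 ℚ⟮δ⟯) ℚ⟮δ⟯ ((x : 𝓞 ℚ⟮δ⟯) + y * dl hδ)) = _
    rw [map_add, map_mul, map_intCast, map_intCast, map_add, map_mul, map_intCast, map_intCast]
  have e2 : φ (((x : 𝓞 ℚ⟮δ⟯) - y * dl hδ : 𝓞 ℚ⟮δ⟯) : ℚ⟮δ⟯) = (x : ℂ) - y * φ (dl hδ) := by
    show φ (algebraMap (𝓞 ℚ⟮δ⟯) ℚ⟮δ⟯ ((x : 𝓞 ℚ⟮δ⟯) - y * dl hδ)) = _
    rw [map_sub, map_mul, map_intCast, map_intCast, map_sub, map_mul, map_intCast, map_intCast]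
  rw [e1, e2]
  rcases emb_dl_or hδ φ with h | h
  · rw [h]
    exact ⟨rfl, norm_sub_eq hd hδ x y⟩
  · rw [h, mul_neg, sub_neg_eq_add, ← sub_eq_add_neg]
    exact ⟨norm_sub_eq hd hδ x y, rfl⟩

theorem diff_norm (hδ : δ ^ 2 = -d) (x y : ℤ) (φ : ℚ⟮δ⟯ →+* ℂ) :
    ‖φ ((x : 𝓞 ℚ⟮δ⟯) + y * dl hδ : 𝓞 ℚ⟮δ⟯) - φ ((x : 𝓞 ℚ⟮δ⟯) - y * dl hδ : 𝓞 ℚ⟮δ⟯)‖ =
      2 * |(y : ℝ)| * ‖δ‖ := by
  have e1 : φ (((x : 𝓞 ℚ⟮δ⟯) + y * dl hδ : 𝓞 ℚ⟮δ⟯) : ℚ⟮δ⟯) = (x : ℂ) + y * φ (dl hδ) := by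
    show φ (algebraMap (𝓞 ℚ⟮δ⟯) ℚ⟮δ⟯ ((x : 𝓞 ℚ⟮δ⟯) + y * dl hδ)) = _
    rw [map_add, map_mul, map_intCast, map_intCast, map_add, map_mul, map_intCast, map_intCast]
  have e2 : φ (((x : 𝓞 ℚ⟮δ⟯) - y * dl hδ : 𝓞 ℚ⟮δ⟯) : ℚ⟮δ⟯) = (x : ℂ) - y * φ (dl hδ) := by
    show φ (algebraMap (𝓞 ℚ⟮δ⟯) ℚ⟮δ⟯ ((x : 𝓞 ℚ⟮δ⟯) - y * dl hδ)) = _
    rw [map_sub, map_mul, map_intCast, map_intCast, map_sub, map_mul, map_intCast, map_intCast]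
  have e3 : (x : ℂ) + y * φ (dl hδ) - ((x : ℂ) - y * φ (dl hδ)) = 2 * y * φ (dl hδ) := by ring
  have e4 : ‖φ (dl hδ)‖ = ‖δ‖ := by
    rcases emb_dl_or hδ φ with h | h
    · rw [h]
    · rw [h, norm_neg]
  rw [e1, e2, e3, norm_mul, norm_mul, Complex.norm_intCast, e4]
  simp

theorem one_le_b {C b R Δ : ℝ} {σ ν l m : ℕ} (hC : 1024 ≤ C) (hb : 0 ≤ b) (hR : 1 ≤ R)
    (hΔ : 1 ≤ Δ) (hσ : 1 ≤ σ) (hν : 1 ≤ ν)
    (hc2 : C ^ (2 * σ * ν) * R ^ (2 * ν) * Δ ^ (2 * (l * ν - m * σ)) ≤ b ^ (2 * ν - 1)) :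
    1 ≤ b ∧ 4 * R ≤ b := by
  have hC1 : 1 ≤ C := by linarith
  have h0 : 1 ≤ R ^ (2 * ν) := one_le_pow₀ hR
  have h0' : 1 ≤ Δ ^ (2 * (l * ν - m * σ)) := one_le_pow₀ hΔ
  have hσν : 2 * σ * ν ≠ 0 := by positivity
  have h1 : C ≤ C ^ (2 * σ * ν) := le_self_pow₀ hC1 hσν
  have h2 : C ^ (2 * σ * ν) * R ^ (2 * ν) ≤ b ^ (2 * ν - 1) :=
    (le_mul_of_one_le_right (by positivity) h0').trans hc2
  have h3 : 1024 ≤ b ^ (2 * ν - 1) := by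
    have h4 : C ^ (2 * σ * ν) ≤ C ^ (2 * σ * ν) * R ^ (2 * ν) :=
      le_mul_of_one_le_right (by positivity) h0
    linarith
  have hb1 : 1 ≤ b := by
    by_contra hcon
    have h4 : b ^ (2 * ν - 1) ≤ 1 := pow_le_one₀ hb (not_le.1 hcon).le
    linarith
  refine ⟨hb1, ?_⟩
  have h5 : (C ^ σ * R) ^ (2 * ν) ≤ b ^ (2 * ν) := by
    calc (C ^ σ * R) ^ (2 * ν) = C ^ (2 * σ * ν) * R ^ (2 * ν) := by
          rw [mul_pow, ← pow_mul]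
          congr 2
          ring
      _ ≤ b ^ (2 * ν - 1) := h2
      _ ≤ b ^ (2 * ν) := pow_le_pow_right₀ hb1 (by omega)
  have h6 : C ^ σ * R ≤ b := le_of_pow_le_pow_left₀ (by omega) hb h5
  have h7 : C ≤ C ^ σ := le_self_pow₀ hC1 (by omega)
  have h8 : 4 * R ≤ C ^ σ * R := mul_le_mul_of_nonneg_right (by linarith) (by linarith)
  linarith

theorem quad_fam [NumberField ℚ⟮δ⟯] (hd : 1 ≤ d) (hδ : δ ^ 2 = -d) {f : ℤ[X]} (hf : f.Monic)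
    (hf0 : f.coeff 0 ≠ 0) {a : ℝ} (ha1 : 1 ≤ a) (ha : ∀ z : ℂ, aeval z f = 0 → ‖z‖ ≤ a)
    {x y z D ρ : ℤ} {l m σ ν : ℕ} (hσ : 1 ≤ σ) (hν : 1 ≤ ν) (hm : 1 ≤ m)
    (hml : m * σ ≤ l * ν) (hy : y = D ^ m * z) (hy0 : y ≠ 0) (hρ : ρ ≠ 0) (hD : IsCoprime D x)
    (hc1 : ((1024 * a ^ 2) ^ ν * (2 * |(z : ℝ)| * ‖δ‖)) ^ (2 * σ) ≤
      ‖(x : ℂ) + y * δ‖ ^ (2 * σ - 1))
    (hc2 : (1024 * a ^ 2) ^ (2 * σ * ν) * |(ρ : ℝ)| ^ (2 * ν) *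
      |(D : ℝ)| ^ (2 * (l * ν - m * σ)) ≤ ‖(x : ℂ) + y * δ‖ ^ (2 * ν - 1)) :
    ∃ E : ℝ, SFam ℚ⟮δ⟯ (f.map (algebraMap ℤ (𝓞 ℚ⟮δ⟯))) (f.map (algebraMap ℤ (𝓞 ℚ⟮δ⟯)))
      (X - C (ρ : 𝓞 ℚ⟮δ⟯)) ((x : 𝓞 ℚ⟮δ⟯) + y * dl hδ) ((x : 𝓞 ℚ⟮δ⟯) - y * dl hδ) D
      (-(2 * z * dl hδ)) l m σ ν (fun _ => a) (fun _ => |(ρ : ℝ)|) (fun _ => E) := by
  have hr1 : (1 : ℝ) ≤ |(ρ : ℝ)| := by exact_mod_cast Int.one_le_abs hρ
  have hD0 : D ≠ 0 := by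
    rintro rfl
    apply hy0
    rw [hy, zero_pow (by omega), zero_mul]
  have hD1 : (1 : ℝ) ≤ |(D : ℝ)| := by exact_mod_cast Int.one_le_abs hD0
  have hC : (1024 : ℝ) ≤ 1024 * a ^ 2 := by nlinarith
  set b := ‖(x : ℂ) + y * δ‖ with hb
  have hb0 : 0 ≤ b := norm_nonneg _
  obtain ⟨hb1, hb4⟩ := one_le_b hC hb0 hr1 hD1 hσ hν hc2
  obtain ⟨E, hE1, hE, hlarge⟩ := exists_E (t := 2 * |(z : ℝ)| * ‖δ‖) (by linarith) hb1
    (by positivity) hD1 hr1 hσ hν hml hc1 hc2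
  have hyO : (y : 𝓞 ℚ⟮δ⟯) = D ^ m * z := by rw [hy]; push_cast; ring
  have hDφ : ∀ φ : ℚ⟮δ⟯ →+* ℂ, ‖φ ((D : 𝓞 ℚ⟮δ⟯) : ℚ⟮δ⟯)‖ = |(D : ℝ)| := by
    intro φ
    have e1 : φ ((D : 𝓞 ℚ⟮δ⟯) : ℚ⟮δ⟯) = (D : ℂ) := by
      show φ (algebraMap (𝓞 ℚ⟮δ⟯) ℚ⟮δ⟯ (D : 𝓞 ℚ⟮δ⟯)) = _
      rw [map_intCast, map_intCast]
    rw [e1, Complex.norm_intCast]
  refine ⟨E, ?_⟩
  refine
    { monic := ⟨hf.map _, hf.map _, monic_X_sub_C _⟩
      coeff := ⟨?_, ?_, ?_⟩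
      exps := ⟨hσ, hν, hm, hml⟩
      ne := ?_
      diff := by rw [hyO]; ring
      coprime := ?_
      roots := fun φ => ⟨ha1, hr1, hE1, fun z hz => ha z ?_, fun z hz => ha z ?_, fun z hz => ?_⟩
      close := fun φ => ?_
      small := ?_
      large := ?_ }
  · rw [coeff_map]
    simpa using hf0
  · rw [coeff_map]
    simpa using hf0
  · rw [coeff_sub, coeff_X_zero, coeff_C_zero, zero_sub, neg_ne_zero]
    exact_mod_cast hρ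
  · intro h
    have h1 : (2 : 𝓞 ℚ⟮δ⟯) * (y * dl hδ) = 0 := by linear_combination h
    rcases mul_eq_zero.1 h1 with h2 | h2
    · exact absurd h2 (by norm_num)
    · rcases mul_eq_zero.1 h2 with h3 | h3
      · exact hy0 (by exact_mod_cast h3)
      · exact dl_ne hd hδ h3
  · obtain ⟨A, B, hAB⟩ := hD
    obtain ⟨k, rfl⟩ : ∃ k, m = k + 1 := ⟨m - 1, by omega⟩
    have h1 : (A : 𝓞 ℚ⟮δ⟯) * D + B * x = 1 := by
      exact_mod_cast congrArg (Int.cast (R := 𝓞 ℚ⟮δ⟯)) hAB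
    refine ⟨(A : 𝓞 ℚ⟮δ⟯) + B * D ^ k * z * dl hδ, B, ?_⟩
    rw [hyO]
    linear_combination h1
  · rw [eval₂_map] at hz
    have h4 : (res φ).comp (algebraMap ℤ (𝓞 ℚ⟮δ⟯)) = algebraMap ℤ ℂ := RingHom.ext_int _ _
    rw [h4] at hz
    exact hz
  · rw [eval₂_map] at hz
    have h4 : (res φ).comp (algebraMap ℤ (𝓞 ℚ⟮δ⟯)) = algebraMap ℤ ℂ := RingHom.ext_int _ _
    rw [h4] at hz
    exact hz
  · rw [eval₂_sub, eval₂_X, eval₂_C, map_intCast, sub_eq_zero] at hz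
    rw [hz, Complex.norm_intCast]
  · rcases hE with h | ⟨h1, h2⟩
    · exact Or.inl h
    · right
      obtain ⟨b1, b2⟩ := beta_norm hd hδ x y φ
      rw [diff_norm, b2, hDφ]
      refine ⟨?_, h2⟩
      have e1 : 2 * |(y : ℝ)| * ‖δ‖ = |(D : ℝ)| ^ m * (2 * |(z : ℝ)| * ‖δ‖) := by
        have : |(y : ℝ)| = |(D : ℝ)| ^ m * |(z : ℝ)| := by
          rw [← abs_pow, ← abs_mul]
          congr 1
          rw [hy]
          push_cast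
          ring
        rw [this]
        ring
      rw [e1]
      exact h1
  · constructor
    · refine prod_le_prod (fun φ _ => by positivity) fun φ _ => ?_
      rw [(beta_norm hd hδ x y φ).1]
      exact hb4
    · refine prod_le_prod (fun φ _ => by positivity) fun φ _ => ?_
      rw [(beta_norm hd hδ x y φ).2]
      exact hb4
  · refine prod_le_prod (fun φ _ => by positivity) fun φ _ => ?_
    obtain ⟨b1, b2⟩ := beta_norm hd hδ x y φ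
    rw [b1, b2, max_self, max_eq_right hb1, hDφ]
    exact hlarge

end quad

end Pool.Agent.Work.MP_8d13b5_lc.Sc

end
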